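import Mathlib
import Pool.Agent.Lib.MP_df0165_co.Ap.Stmts

set_option autoImplicit false
set_option linter.unusedSectionVars false

/-!
# Exact Graham-Haggkvist for expander hosts: definitions

See the note `gh_exact_helper37.md` (team store). The measure on the copies is the one of the
library `GHA`.
-/

namespace Pool.Agent.Lib.GHE

open Finset Classical Pool.Agent.Lib.GHA

variable {U V : Type} [Fintype U] [Fintype V]

/-! ## Static part -/

/-- Parameters: `P` as in `GHA`, `l` = total number of leaves, `eT` = exponential scale,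
`dT`, `d3` = errors of the tests for the positions of the leaves. -/
structure Par2 where
  P : Par
  l : ℕ
  eT : ℝ
  dT : ℝ
  d3 : ℝ

namespace Par2

variable (Q : Par2)

noncomputable def w5 : ℝ := Real.exp (-(Q.P.e2 / 2))

/-- Expected proportion of the leaves attached to a set of density `r`. -/
noncomputable def ks (r : ℝ) : ℝ := r / Q.P.γ + Q.d3

structure Ok : Prop where
  ok : Q.P.Ok
  l_le : Q.l ≤ Q.P.d
  eT_nonneg : 0 ≤ Q.eT
  dT_pos : 0 < Q.dT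
  d3_pos : 0 < Q.d3
  d3_le : Q.d3 ≤ 1
  small3 : 16 * (Q.P.α + Q.P.δ + Q.eT * Q.P.Δ) ≤ Q.d3 * Q.P.γ ^ 2

end Par2

/-- Test data: `As` = sets whose intersection with a copy is tested, `Ts` = triples `(A, r, y)`
(the number of leaves attached to `A` is tested for the copies avoiding `y`; `r` = density of `A`
in the neighbourhoods of the vertices other than `y`), `Av` = set whose exposure is tested. -/
structure TD (V : Type) where
  As : Finset (Finset V)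
  Ts : Finset (Finset V × ℝ × V)
  Av : Finset V

/-- Validity of test data. -/
structure TD.Ok (X : TD V) (P : Par) (H : SimpleGraph V) (B : Finset V) : Prop where
  as_le : ∀ A ∈ X.As, A.card ≤ P.d
  r_nonneg : ∀ t ∈ X.Ts, 0 ≤ t.2.1
  r_le : ∀ t ∈ X.Ts, t.2.1 ≤ 1
  ts : ∀ t ∈ X.Ts, ∀ q, q ≠ t.2.2 → ((nb H q ∩ t.1).card : ℝ) ≤ t.2.1 * P.d
  av : ∀ q, q ∉ B → ((nb H q ∩ X.Av).card : ℝ) ≤ (P.γ ^ 2 + P.α) * P.d
  /-- the vertices of `B` are isolated -/
  iso : ∀ v ∈ B, nb H v = ∅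

/-- The `A`-terms of the tests. -/
noncomputable def GA (P : Par) (H : SimpleGraph V) (B : Finset V) (X : TD V) (D : Finset U)
    (ψ : U → V) (τ : U → ℝ) : ℝ :=
  ∑ A ∈ X.As, At H (-1) P.e1 P.ka (A \ B) D ψ τ
    + ∑ t ∈ X.Ts, ∑ q ∈ Bᶜ, At H 1 P.e1 P.ka ((nb H q ∩ t.1) \ B) D ψ τ
    + ∑ q ∈ Bᶜ, At H 1 P.e1 P.ka ((nb H q ∩ X.Av) \ B) D ψ τ

/-- Number of leaves attached to the set `A`. -/
noncomputable def lwt (lw : U → ℕ) (D : Finset U) (ψ : U → V) (A : Finset V) : ℝ :=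
  ∑ u ∈ D, if ψ u ∈ A then (lw u : ℝ) else 0

/-- The terms of the tests `Ts`. -/
noncomputable def GT (Q : Par2) (lw : U → ℕ) (X : TD V) (D : Finset U) (ψ : U → V) : ℝ :=
  ∑ t ∈ X.Ts, if t.2.2 ∈ D.image ψ then 0 else
    Real.exp (Q.eT * (lwt lw D ψ t.1 + Q.ks t.2.1 * ∑ u ∈ Dᶜ, (lw u : ℝ)
      - Q.ks t.2.1 * Q.l - Q.dT * Q.P.d))

/-- Exposure of the set `A`. -/
noncomputable def exs (D : Finset U) (ψ : U → V) (τ : U → ℝ) (A : Finset V) : ℝ :=
  ∑ u ∈ D, if ψ u ∈ A then τ u else 0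

/-- The term of the exposure test. -/
noncomputable def GE (P : Par) (X : TD V) (l : List (U × U)) (D : Finset U) (ψ : U → V)
    (τ : U → ℝ) : ℝ :=
  Real.exp (P.e2 * (exs D ψ τ X.Av
    + P.ρ * (l.countP (fun s => decide (s.2 ∈ D ∧ ψ s.2 ∈ X.Av)) : ℝ) + P.ρ' * (rest l D : ℝ)))

/-- The new static potential. -/
noncomputable def PHI2 (Q : Par2) (T : SimpleGraph U) (lw : U → ℕ) (H : SimpleGraph V)
    (B : Finset V) (X : TD V) (l : List (U × U)) (D : Finset U) (ψ : U → V) (τ : U → ℝ) : ℝ :=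
  PHI Q.P T H B l D ψ τ + Q.w5 * G3 Q.P T H B l D ψ τ + Q.P.w1 * GA Q.P H B X D ψ τ
    + GT Q lw X D ψ + Q.w5 * GE Q.P X l D ψ τ

/-- Consequences of `PHI2 < 1` in a state. -/
structure GS2 (Q : Par2) (T : SimpleGraph U) (lw : U → ℕ) (H : SimpleGraph V) (B : Finset V)
    (X : TD V) (D : Finset U) (ψ : U → V) (τ : U → ℝ) : Prop where
  gs : GS Q.P T H B D ψ τ
  half : ∀ y, y ∉ B → y ∉ D.image ψ → 1 / 2 ≤ av H D ψ τ y
  as_ge : ∀ A ∈ X.As, -(Q.P.δ * Q.P.d) ≤ ∑ y ∈ A \ B, hv H D ψ τ y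
  ts_le : ∀ t ∈ X.Ts, ∀ q ∈ D.image ψ, q ≠ t.2.2 →
    ∑ y ∈ ((nb H q ∩ t.1) \ B) \ D.image ψ, 1 / av H D ψ τ y ≤ (t.2.1 + Q.P.δ) * Q.P.d
  av_le : ∀ q ∈ D.image ψ,
    ∑ y ∈ ((nb H q ∩ X.Av) \ B) \ D.image ψ, 1 / av H D ψ τ y
      ≤ (Q.P.γ ^ 2 + Q.P.α + Q.P.δ) * Q.P.d
  lw_le : ∀ t ∈ X.Ts, t.2.2 ∉ D.image ψ → lwt lw D ψ t.1 ≤ Q.ks t.2.1 * Q.l + Q.dT * Q.P.d
  ex_le : exs D ψ τ X.Av ≤ 1 / 2

/-- The copies which pass all tests. -/
def goodc (Q : Par2) (lw : U → ℕ) (X : TD V) (φ : U → V) : Prop :=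
  (∀ A ∈ X.As, 2 * ((A ∩ univ.image φ).card : ℝ) ≤ A.card + Q.P.δ * Q.P.d + 1) ∧
  ∀ t ∈ X.Ts, t.2.2 ∉ univ.image φ → lwt lw univ φ t.1 ≤ Q.ks t.2.1 * Q.l + Q.dT * Q.P.d

/-- Indicator of the good copies. -/
noncomputable def gi (Q : Par2) (lw : U → ℕ) (X : TD V) (φ : U → V) : ℝ :=
  if goodc Q lw X φ then 1 else 0

/-- Survival of a vertex with neighbourhood `X.Av`. -/
noncomputable def xi (X : TD V) (φ : U → V) (τ : U → ℝ) : ℝ := max 0 (1 - exs univ φ τ X.Av)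

/-- The terminal functional. -/
noncomputable def F2 (Q : Par2) (T : SimpleGraph U) (lw : U → ℕ) (H : SimpleGraph V) (X : TD V)
    (φ : U → V) (τ : U → ℝ) : ℝ :=
  FF T H Q.P.c ∅ univ φ τ * gi Q lw X φ * xi X φ τ

/-- The value of the terminal factor. -/
noncomputable def g0 (X : TD V) : ℝ := if X.Av = ∅ then 1 else 1 / 2

/-- Bound for the potential at a root edge (`kA`, `kT` = numbers of tests, `n` = number of host
vertices). -/
noncomputable def Par2.phi (Q : Par2) (kA kT n : ℕ) : ℝ :=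
  Q.P.phi0 + Q.w5 * Q.P.I3 * (2 * Q.P.d + 3 + Q.P.d * Q.P.m)
    + Q.P.w1 * (2 * (kA + (kT + 1) * n)) + kT * Real.exp (-(Q.eT * (Q.dT * Q.P.d - 2 * Q.P.Δ)))

/-- The weight of a copy which passes the tests. -/
noncomputable def WG (Q : Par2) (T : SimpleGraph U) (lw : U → ℕ) (H : SimpleGraph V) (X : TD V)
    (φ : U → V) : ℝ := WW T H Q.P.c φ * gi Q lw X φ

/-- The host graph with the vertex `v` isolated. -/
def iso (H : SimpleGraph V) (v : V) : SimpleGraph V where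
  Adj x y := H.Adj x y ∧ x ≠ v ∧ y ≠ v
  symm := ⟨fun _ _ h => ⟨h.1.symm, h.2.2, h.2.1⟩⟩
  loopless := ⟨fun x h => H.loopless.irrefl x h.1⟩

/-! ## Dynamic part -/

/-- Properties of a system of weights on the copies of `T` in `H` (the interface between the
static and the dynamic part). -/
structure St2 (T : SimpleGraph U) (m Δ : ℕ) (H : SimpleGraph V) (W : (U → V) → ℝ) (ε : ℝ) :
    Prop where
  nonneg : ∀ φ, 0 ≤ W φ
  hom : ∀ φ, W φ ≠ 0 → Function.Injective φ ∧ ∀ a b, T.Adj a b → H.Adj (φ a) (φ b)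
  lo : ∀ a b z y, T.Adj a b → H.Adj z y →
    1 - ε ≤ ∑ φ : U → V, if φ a = z ∧ φ b = y then W φ else 0
  hi : ∀ a b z y, T.Adj a b → H.Adj z y →
    ∑ φ : U → V, (if φ a = z ∧ φ b = y then W φ else 0) ≤ 1
  av : ∀ a b z y v, T.Adj a b → H.Adj z y → v ≠ z → v ≠ y →
    ∑ φ : U → V, (if φ a = z ∧ φ b = y ∧ v ∈ univ.image φ then W φ else 0) ≤ 1 / 2 + ε
  cherry : ∀ u x v, u ≠ v → H.Adj u x → H.Adj v x →
    (((nb H x).card : ℝ) - 1) * ∑ φ : U → V, W φ * (cov T φ u x * cov T φ v x) ≤ 2 * m * Δ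

/-- Number of leaves requested by the copy `φ` at the vertex `u`. -/
noncomputable def rq (lw : U → ℕ) (φ : U → V) (u : V) : ℕ := ∑ x : U, if φ x = u then lw x else 0

/-- Total degree. -/
noncomputable def sd (H : SimpleGraph V) : ℝ := ∑ v : V, ((nb H v).card : ℝ)

/-- Weight `w` of the neighbourhood of `y`. -/
noncomputable def nw (H : SimpleGraph V) (w : V → ℝ) (y : V) : ℝ := ∑ u ∈ nb H y, w u

/-- `1` if `y` is in the image of `φ`. -/
noncomputable def im1 (φ : U → V) (y : V) : ℝ := if y ∈ univ.image φ then 1 else 0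

/-- Numerical data of the dynamics: `d`, `Δ`, `m`, `l` as before, `n` = number of host vertices,
`g` = lower bound for the density, `ζ` = drift of the degree terms, `z` = drift of the request
terms, `e` = exponential scale, `ε` = error of the static part, `α` = error of the degrees, `r` =
density of the test sets, `k` = normalisation for the weights of the neighbourhoods. -/
structure DP where
  d : ℕ
  Δ : ℕ
  m : ℕ
  l : ℕ
  n : ℕ
  g : ℝ
  ζ : ℝ
  z : ℝ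
  e : ℝ
  ε : ℝ
  α : ℝ
  r : ℝ
  k : ℝ

structure DP.Ok (D : DP) : Prop where
  d_pos : 1 ≤ D.d
  Δ_pos : 1 ≤ D.Δ
  m_pos : 1 ≤ D.m
  m_le : 2 * D.m ≤ D.d
  l_le : D.l ≤ D.d
  n_pos : 1 ≤ D.n
  g_pos : 0 < D.g
  g_le : D.g ≤ 1
  ζ_pos : 0 < D.ζ
  ζ_le : D.ζ ≤ D.z
  z_le : D.z ≤ 1
  e_pos : 0 < D.e
  e_le : D.e * D.Δ ≤ D.ζ * D.g ^ 6 / 1000
  Δ_le : (D.Δ : ℝ) ≤ D.ζ * D.g ^ 6 * D.d / 1000
  ε_nonneg : 0 ≤ D.ε
  ε_le : D.ε ≤ D.ζ * D.g ^ 4 / 1000
  α_nonneg : 0 ≤ D.α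
  α_le : D.α ≤ D.z * D.g ^ 2 / 100

/-- The graph `H` and its density `γ`, before and after (`γ'`) the removal of one copy. -/
structure GD (D : DP) (H : SimpleGraph V) (γ γ' : ℝ) : Prop where
  card : Fintype.card V = D.n
  sum : sd H = γ * (D.n * D.d)
  next : γ' = γ - 2 * D.m / (D.n * D.d)
  g_le : D.g ≤ γ'
  γ_le : γ ≤ 1
  deg_le : ∀ v, (nb H v).card ≤ D.d
  deg_lo : ∀ v, (γ - D.α) * D.d ≤ (nb H v).card
  deg_hi : ∀ v, ((nb H v).card : ℝ) ≤ (γ + D.α) * D.d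

/-- The potential of the dynamics. `A y` = test sets, `a`, `b`, `K` = compensated sums over the
previous copies, `f c` (`c < t`) = previous copies. -/
noncomputable def XI (D : DP) (lw : U → ℕ) (A : V → Finset V) (γ : ℝ) (H : SimpleGraph V)
    (a b : V → ℝ) (K : V → V → ℝ) (t : ℕ) (f : ℕ → U → V) : ℝ :=
  ∑ v : V, (Real.exp (D.e * ((nb H v).card / γ - D.d))
      + Real.exp (-(D.e * ((nb H v).card / γ - D.d))))
    + ∑ u : V, ∑ v ∈ univ.erase u,
        Real.exp (D.e * (((nb H u ∩ nb H v).card : ℝ) / γ ^ 2 - D.d))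
    + ∑ q : V, ∑ y ∈ univ.erase q,
        Real.exp (D.e * (((nb H q ∩ A y).card : ℝ) / γ - D.r * D.d))
    + ∑ u : V, (Real.exp (D.e * a u) + Real.exp (D.e * b u))
    + ∑ u : V, ∑ y ∈ univ.erase u, Real.exp (D.e * K u y)
    + ∑ c ∈ range t, ∑ y ∈ (univ.image (f c))ᶜ,
        Real.exp (D.e * (nw H (fun u => (rq lw (f c) u : ℝ)) y / γ - D.k * D.d))

/-- The graph after the removal of the copies `f 0, ..., f (t-1)` of `T`. -/
def Hs (T : SimpleGraph U) (H0 : SimpleGraph V) (f : ℕ → U → V) : ℕ → SimpleGraph V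
  | 0 => H0
  | t + 1 => del T (Hs T H0 f t) (f t)

/-- The tree without the leaves in `S`. -/
def TS (T : SimpleGraph U) (S : Finset U) : SimpleGraph {u : U // u ∉ S} :=
  SimpleGraph.comap Subtype.val T

/-- Number of leaves in `S` at a vertex of the rest (`par s` = the neighbour of the leaf `s`). -/
noncomputable def lvs (S : Finset U) (par : U → U) (x : {u : U // u ∉ S}) : ℕ :=
  (S.filter (fun s => par s = x.1)).card

/-- Vertex set of the copy `φ`. -/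
noncomputable def im (φ : U → V) : Finset V := univ.image φ

/-- Number of requests at `u` (after `t` copies). -/
noncomputable def aa (lw : U → ℕ) (f : ℕ → U → V) (t : ℕ) (u : V) : ℕ :=
  ∑ c ∈ range t, rq lw (f c) u

/-- Number of requests at `u` of the copies containing `y`. -/
noncomputable def KK (lw : U → ℕ) (f : ℕ → U → V) (t : ℕ) (u y : V) : ℕ :=
  ∑ c ∈ range t, if y ∈ im (f c) then rq lw (f c) u else 0

end Pool.Agent.Lib.GHE
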