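import Mathlib
import Pool.Agent.Lib.MP_df0165_co.Ap.AllS
import Pool.Agent.Lib.MP_df0165_co.Ex.Defs

set_option autoImplicit false
set_option linter.unusedSectionVars false

/-!
# Exact Graham-Haggkvist for expander hosts: statements of the modules

See the note `gh_exact_helper37.md` (team store).
-/

namespace Pool.Agent.Lib.GHE

open Finset Classical Pool.Agent.Lib.GHA

/-! ## S. Static part -/

/-- (S1) generator of the group `GA` (use `GenA.At_sup`, `GenA.Sup.sum`, `GenA.Sup.add`). -/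
def StGA : Prop :=
  ∀ (U V : Type) [Fintype U] [Fintype V] (P : Par) (T : SimpleGraph U) (H : SimpleGraph V)
    (B : Finset V) (X : TD V) (w p : U) (l : List (U × U)) (D : Finset U) (ψ : U → V)
    (τ : U → ℝ), P.Ok → Inv P T H B ((w, p) :: l) D ψ τ →
    (∀ y, y ∉ B → y ∉ D.image ψ → P.c ≤ av H D ψ τ y) →
    GenA.Sup ((nb H (ψ p) \ B) \ D.image ψ) (fun y => av H D ψ τ y)
      (fun t => GA P H B X D ψ (bump τ p t))
      (fun y => GA P H B X (insert w D) (Function.update ψ w y) τ)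

/-- (S2) generator of the group `GT`. -/
def StGT : Prop :=
  ∀ (U V : Type) [Fintype U] [Fintype V] (Q : Par2) (T : SimpleGraph U) (lw : U → ℕ)
    (H : SimpleGraph V) (B : Finset V) (X : TD V) (w p : U) (l : List (U × U)) (D : Finset U)
    (ψ : U → V) (τ : U → ℝ), Q.Ok → Good Q.P H B → X.Ok Q.P H B → (∀ u, lw u ≤ Q.P.Δ) →
    Inv Q.P T H B ((w, p) :: l) D ψ τ → GS2 Q T lw H B X D ψ τ →
    GenA.Sup ((nb H (ψ p) \ B) \ D.image ψ) (fun y => av H D ψ τ y)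
      (fun _ => GT Q lw X D ψ)
      (fun y => GT Q lw X (insert w D) (Function.update ψ w y))

/-- (S3) generator of `GE` (use `Gen3.key` with `r y = 1` if `y ∈ X.Av`). -/
def StGE : Prop :=
  ∀ (U V : Type) [Fintype U] [Fintype V] (Q : Par2) (T : SimpleGraph U) (lw : U → ℕ)
    (H : SimpleGraph V) (B : Finset V) (X : TD V) (w p : U) (l : List (U × U)) (D : Finset U)
    (ψ : U → V) (τ : U → ℝ), Q.Ok → Good Q.P H B → X.Ok Q.P H B →
    Inv Q.P T H B ((w, p) :: l) D ψ τ → GS2 Q T lw H B X D ψ τ →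
    GenA.Sup ((nb H (ψ p) \ B) \ D.image ψ) (fun y => av H D ψ τ y)
      (fun t => GE Q.P X ((w, p) :: l) D ψ (bump τ p t))
      (fun y => GE Q.P X l (insert w D) (Function.update ψ w y) τ)

/-- (S4) generator of the old potential and of the group `G3` when the vertices of `B` are
isolated (use `stGenA`, `stGen3`, `stGen4`; the terms with `nb H (ψ p) ∩ B` vanish). -/
def StGO : Prop :=
  ∀ (U V : Type) [Fintype U] [Fintype V] (P : Par) (T : SimpleGraph U) (H : SimpleGraph V)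
    (B : Finset V) (w p : U) (l : List (U × U)) (D : Finset U) (ψ : U → V) (τ : U → ℝ),
    P.Ok → Good P H B → (∀ v ∈ B, nb H v = ∅) → Inv P T H B ((w, p) :: l) D ψ τ →
    GS P T H B D ψ τ →
    GenA.Sup ((nb H (ψ p) \ B) \ D.image ψ) (fun y => av H D ψ τ y)
      (fun t => PHI P T H B ((w, p) :: l) D ψ (bump τ p t))
      (fun y => PHI P T H B l (insert w D) (Function.update ψ w y) τ) ∧
    GenA.Sup ((nb H (ψ p) \ B) \ D.image ψ) (fun y => av H D ψ τ y)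
      (fun t => G3 P T H B ((w, p) :: l) D ψ (bump τ p t))
      (fun y => G3 P T H B l (insert w D) (Function.update ψ w y) τ)

/-- (S5) the groups are nonnegative, and `PHI2 < 1` implies the good inequalities. -/
def StGS2 : Prop :=
  ∀ (U V : Type) [Fintype U] [Fintype V] (Q : Par2) (T : SimpleGraph U) (lw : U → ℕ)
    (H : SimpleGraph V) (B : Finset V) (X : TD V) (l : List (U × U)) (D : Finset U) (ψ : U → V)
    (τ : U → ℝ), Q.Ok → Good Q.P H B → X.Ok Q.P H B → Inv Q.P T H B l D ψ τ →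
    (0 ≤ PHI Q.P T H B l D ψ τ ∧ 0 ≤ G3 Q.P T H B l D ψ τ ∧ 0 ≤ GA Q.P H B X D ψ τ ∧
      0 ≤ GT Q lw X D ψ ∧ 0 ≤ GE Q.P X l D ψ τ) ∧
    (PHI2 Q T lw H B X l D ψ τ < 1 → GS2 Q T lw H B X D ψ τ)

/-- (S6) continuity of the potential along a broadcast. -/
def StCont2 : Prop :=
  ∀ (U V : Type) [Fintype U] [Fintype V] (Q : Par2) (T : SimpleGraph U) (lw : U → ℕ)
    (H : SimpleGraph V) (B : Finset V) (X : TD V) (w p : U) (l : List (U × U)) (D : Finset U)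
    (ψ : U → V) (τ : U → ℝ), p ∈ D →
    ContinuousOn (fun t : ℝ => PHI2 Q T lw H B X ((w, p) :: l) D ψ (bump τ p t))
      {t : ℝ | ∀ y, y ∉ D.image ψ → 0 < av H D ψ τ y - t * rr H (ψ p) y}

/-- (S7) a terminal state with `PHI2 < 1` is good. -/
def StTerm : Prop :=
  ∀ (U V : Type) [Fintype U] [Fintype V] (Q : Par2) (T : SimpleGraph U) (lw : U → ℕ)
    (H : SimpleGraph V) (B : Finset V) (X : TD V) (ψ : U → V)
    (τ : U → ℝ), Q.Ok → X.Ok Q.P H B → B.card ≤ 1 → Inv Q.P T H B [] univ ψ τ →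
    (∀ y, y ∉ univ.image ψ → 0 ≤ av H univ ψ τ y) → GS2 Q T lw H B X univ ψ τ →
    g0 X * PP H univ ψ τ ≤ F2 Q T lw H X ψ τ

/-- (S8) lower bound for the mass. -/
def StLow2 : Prop :=
  ∀ (U V : Type) [Fintype U] [Fintype V] (Q : Par2) (T : SimpleGraph U) (lw : U → ℕ)
    (H : SimpleGraph V) (B : Finset V) (X : TD V) (v0 : V) (l : List (U × U)) (D : Finset U)
    (ψ : U → V) (τ : U → ℝ), Q.Ok → Good Q.P H B → X.Ok Q.P H B → B.card ≤ 1 →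
    (∀ u, lw u ≤ Q.P.Δ) → Inv Q.P T H B l D ψ τ → (∀ y, y ∉ D.image ψ → 0 ≤ av H D ψ τ y) →
    g0 X * (PP H D ψ τ * (1 - PHI2 Q T lw H B X l D ψ τ)) ≤ gm H (F2 Q T lw H X) v0 univ l D ψ τ

/-- (S9) the initial value of the potential. -/
def StInit2 : Prop :=
  ∀ (U V : Type) [Fintype U] [Fintype V] (Q : Par2) (T : SimpleGraph U) (lw : U → ℕ)
    (H : SimpleGraph V) (B : Finset V) (X : TD V) (v0 : V) (a b : U) (l : List (U × U))
    (z y : V) (kA kT : ℕ), Q.Ok → Good Q.P H B → X.Ok Q.P H B → (∀ u, lw u ≤ Q.P.Δ) →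
    ∑ u : U, lw u = Q.l → X.As.card ≤ kA → X.Ts.card ≤ kT →
    T.Adj a b → Grow T {a, b} l univ → Fintype.card U = Q.P.m + 1 →
    (∀ u, (nb T u).card ≤ Q.P.Δ) → H.Adj z y → z ∉ B → y ∉ B →
    PHI2 Q T lw H B X l {a, b} (rt v0 a b z y) (fun _ => 0) ≤ Q.phi kA kT (Fintype.card V)

/-- (S10) the mass rooted at a dart of the host graph, as a sum of weights; `χ` is any factor
depending on the copy only. -/
def StRootSum : Prop :=
  ∀ (U V : Type) [Fintype U] [Fintype V] (T : SimpleGraph U) (H : SimpleGraph V) (c : ℝ) (v0 : V)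
    (χ : (U → V) → ℝ) (a b : U) (l : List (U × U)) (z y : V), 0 < c → T.Adj a b →
    Grow T {a, b} l univ → H.Adj z y →
    gm H (fun φ τ => FF T H c ∅ univ φ τ * χ φ) v0 univ l {a, b} (rt v0 a b z y) (fun _ => 0)
      = ∑ φ : U → V, if φ a = z ∧ φ b = y then WW T H c φ * χ φ else 0

/-- (S11) copies avoiding the vertex `v`: comparison of `H` with `iso H v`. -/
def StIso : Prop :=
  ∀ (U V : Type) [Fintype U] [Fintype V] (Q : Par2) (T : SimpleGraph U) (lw : U → ℕ)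
    (H : SimpleGraph V) (X : TD V) (v0 v : V) (a b : U) (l : List (U × U)) (z y : V),
    X.Av = nb H v → T.Adj a b → Grow T {a, b} l univ → v ≠ z → v ≠ y →
    gm (iso H v) (F2 Q T lw (iso H v) X) v0 univ l {a, b} (rt v0 a b z y) (fun _ => 0)
      = gm H (fun φ τ => FF T H Q.P.c ∅ univ φ τ *
          (gi Q lw X φ * if v ∈ univ.image φ then 0 else 1))
        v0 univ l {a, b} (rt v0 a b z y) (fun _ => 0)

/-- (S12) the weights `WG` have the properties needed for the dynamics. For `lo` use `StLow2` with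
`B = ∅`, `X.Av = ∅`, for `av` use `StLow2` for `iso H v`, `B = {v}`, `X.Av = nb H v` and `StIso`. -/
def StSt2 : Prop :=
  ∀ (U V : Type) [Fintype U] [Fintype V] (Q : Par2) (T : SimpleGraph U) (lw : U → ℕ)
    (H : SimpleGraph V) (As : Finset (Finset V)) (Ts : Finset (Finset V × ℝ × V)),
    Q.Ok → T.IsTree → Fintype.card U = Q.P.m + 1 → 1 ≤ Q.P.m →
    (∀ u, (nb T u).card ≤ Q.P.Δ) → (∀ u, lw u ≤ Q.P.Δ) → ∑ u : U, lw u = Q.l →
    (∀ v, (nb H v).card ≤ Q.P.d) → (∀ v, (Q.P.γ - Q.P.α) * Q.P.d + 1 ≤ (nb H v).card) →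
    (∀ u v, u ≠ v → ((nb H u ∩ nb H v).card : ℝ) ≤ (Q.P.γ ^ 2 + Q.P.α) * Q.P.d) →
    (∀ A ∈ As, A.card ≤ Q.P.d) → (∀ t ∈ Ts, 0 ≤ t.2.1 ∧ t.2.1 ≤ 1) →
    (∀ t ∈ Ts, ∀ q, q ≠ t.2.2 → ((nb H q ∩ t.1).card : ℝ) ≤ t.2.1 * Q.P.d) →
    St2 T Q.P.m Q.P.Δ H (WG Q T lw H ⟨As, Ts, ∅⟩)
      (Q.phi As.card Ts.card (Fintype.card V)) ∧
    ∀ φ, WG Q T lw H ⟨As, Ts, ∅⟩ φ ≠ 0 → goodc Q lw ⟨As, Ts, ∅⟩ φ

/-- (S13) choice of the parameters of the static part. -/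
def StNumS : Prop :=
  ∀ g β ε : ℝ, 0 < g → g < 1 → 0 < β → β < 1 → 0 < ε → ε < 1 → ∃ α : ℝ, 0 < α ∧ α ≤ ε * g / 2 ∧
    ∀ ε0 : ℝ, 0 < ε0 → ε0 < 1 → ∃ κ : ℝ, 0 < κ ∧ ∀ (d m Δ l n : ℕ) (γ : ℝ), 1 ≤ m →
      (m : ℝ) ≤ (1 - β) * d / 2 → 1 ≤ Δ → 2 ≤ n → g / 2 * d ≤ n →
      (Δ : ℝ) * Real.log n ≤ κ * d → l ≤ d → g ≤ γ → γ ≤ 1 →
      ∃ Q : Par2, Q.P.d = d ∧ Q.P.m = m ∧ Q.P.Δ = Δ ∧ Q.P.γ = γ ∧ Q.l = l ∧ Q.Ok ∧
        2 * α ≤ Q.P.α ∧ 1 ≤ α * d ∧ Q.P.δ * d + 1 ≤ ε * d ∧ Q.d3 ≤ ε ∧ Q.dT ≤ ε ∧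
        ∀ kA kT : ℕ, kA ≤ n ^ 3 → kT ≤ n ^ 3 → Q.phi kA kT n ≤ ε0

/-- (S14) the static theorem as used by the dynamics. `α` does not depend on `ε0`. -/
def StStat2 : Prop :=
  ∀ g β ε : ℝ, 0 < g → g < 1 → 0 < β → β < 1 → 0 < ε → ε < 1 → ∃ α : ℝ, 0 < α ∧ α ≤ ε * g / 2 ∧
    ∀ ε0 : ℝ, 0 < ε0 → ε0 < 1 → ∃ κ : ℝ, 0 < κ ∧
    ∀ (U V : Type) [Fintype U] [Fintype V] (T : SimpleGraph U) (lw : U → ℕ)
      (m Δ d l : ℕ) (H : SimpleGraph V) (γ : ℝ) (As : Finset (Finset V))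
      (Ts : Finset (Finset V × ℝ × V)),
      T.IsTree → Fintype.card U = m + 1 → 1 ≤ m → (m : ℝ) ≤ (1 - β) * d / 2 → 1 ≤ Δ →
      (∀ u, (nb T u).card ≤ Δ) → (∀ u, lw u ≤ Δ) → ∑ u : U, lw u = l → l ≤ d →
      2 ≤ Fintype.card V → (Δ : ℝ) * Real.log (Fintype.card V) ≤ κ * d →
      g ≤ γ → γ ≤ 1 → (∀ v, (nb H v).card ≤ d) →
      (∀ v, (γ - α) * d ≤ (nb H v).card) →
      (∀ u v, u ≠ v → ((nb H u ∩ nb H v).card : ℝ) ≤ (γ ^ 2 + α) * d) →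
      As.card ≤ Fintype.card V ^ 3 → Ts.card ≤ Fintype.card V ^ 3 →
      (∀ A ∈ As, A.card ≤ d) → (∀ t ∈ Ts, 0 ≤ t.2.1 ∧ t.2.1 ≤ 1) →
      (∀ t ∈ Ts, ∀ q, q ≠ t.2.2 → ((nb H q ∩ t.1).card : ℝ) ≤ t.2.1 * d) →
      ∃ W : (U → V) → ℝ, St2 T m Δ H W ε0 ∧ ∀ φ, W φ ≠ 0 →
        (∀ A ∈ As, ((A ∩ im φ).card : ℝ) ≤ A.card / 2 + ε * d) ∧
        ∀ t ∈ Ts, t.2.2 ∉ im φ → lwt lw univ φ t.1 ≤ (t.2.1 / γ + ε) * l + ε * d

/-! ## D. Dynamics -/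

/-- (D0) total weight, use of edges, positions. -/
def StTot : Prop :=
  ∀ (U V : Type) [Fintype U] [Fintype V] (T : SimpleGraph U) (m Δ : ℕ) (H : SimpleGraph V)
    (W : (U → V) → ℝ) (ε : ℝ) (lw : U → ℕ) (l : ℕ), St2 T m Δ H W ε → T.IsTree →
    Fintype.card U = m + 1 → 1 ≤ m → ∑ u : U, lw u = l → ε ≤ 1 →
    ((1 - ε) * sd H ≤ ∑ φ : U → V, W φ ∧ ∑ φ : U → V, W φ ≤ sd H) ∧
    (∀ x y, H.Adj x y → (1 - ε) * (2 * m) ≤ ∑ φ : U → V, W φ * cov T φ x y ∧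
      ∑ φ : U → V, W φ * cov T φ x y ≤ 2 * m) ∧
    (∀ u, (1 - ε) * (l * (nb H u).card) ≤ ∑ φ : U → V, W φ * rq lw φ u ∧
      ∑ φ : U → V, W φ * rq lw φ u ≤ l * (nb H u).card) ∧
    ∀ u y, u ≠ y → ∑ φ : U → V, W φ * (rq lw φ u * im1 φ y) ≤
      l * ((1 / 2 + ε) * (nb H u).card + 1)

/-- (D1) weight of a neighbourhood: terms of type `D1+`, `D3`, `D6`. -/
def StW : Prop :=
  ∀ (U V : Type) [Fintype U] [Fintype V] (D : DP) (T : SimpleGraph U) (H : SimpleGraph V)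
    (γ γ' : ℝ) (W : (U → V) → ℝ) (w : V → ℝ) (y : V), D.Ok → T.IsTree →
    Fintype.card U = D.m + 1 → GD D H γ γ' → St2 T D.m D.Δ H W D.ε →
    (∀ u, 0 ≤ w u ∧ w u ≤ D.Δ) → nw H w y ≤ D.d →
    ∑ φ : U → V, W φ * Real.exp (D.e * (nw (del T H φ) w y / γ'))
      ≤ (∑ φ : U → V, W φ) *
        (Real.exp (D.e * D.d * D.ζ / D.n) * Real.exp (D.e * (nw H w y / γ)))

/-- (D2) lower tail of the degrees: terms of type `D1-`. -/
def StDm : Prop :=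
  ∀ (U V : Type) [Fintype U] [Fintype V] (D : DP) (T : SimpleGraph U) (H : SimpleGraph V)
    (γ γ' : ℝ) (W : (U → V) → ℝ) (v : V), D.Ok → T.IsTree → Fintype.card U = D.m + 1 →
    (∀ u, (nb T u).card ≤ D.Δ) → GD D H γ γ' → St2 T D.m D.Δ H W D.ε →
    ∑ φ : U → V, W φ * Real.exp (-(D.e * ((nb (del T H φ) v).card / γ')))
      ≤ (∑ φ : U → V, W φ) *
        (Real.exp (D.e * D.d * D.ζ / D.n) * Real.exp (-(D.e * ((nb H v).card / γ))))

/-- (D3) codegrees: terms of type `D2`. -/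
def StCd : Prop :=
  ∀ (U V : Type) [Fintype U] [Fintype V] (D : DP) (T : SimpleGraph U) (H : SimpleGraph V)
    (γ γ' : ℝ) (W : (U → V) → ℝ) (u v : V), D.Ok → T.IsTree → Fintype.card U = D.m + 1 →
    (∀ u, (nb T u).card ≤ D.Δ) → GD D H γ γ' → St2 T D.m D.Δ H W D.ε → u ≠ v →
    ∑ φ : U → V, W φ *
        Real.exp (D.e * (((nb (del T H φ) u ∩ nb (del T H φ) v).card : ℝ) / γ' ^ 2))
      ≤ (∑ φ : U → V, W φ) * (Real.exp (D.e * D.d * D.ζ / D.n) *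
        Real.exp (D.e * (((nb H u ∩ nb H v).card : ℝ) / γ ^ 2)))

/-- (D4) requests: terms of type `D4`. -/
def StRq : Prop :=
  ∀ (U V : Type) [Fintype U] [Fintype V] (D : DP) (T : SimpleGraph U) (H : SimpleGraph V)
    (γ γ' : ℝ) (W : (U → V) → ℝ) (lw : U → ℕ) (u : V) (s : ℝ), D.Ok → T.IsTree →
    Fintype.card U = D.m + 1 → (∀ u, lw u ≤ D.Δ) → ∑ u : U, lw u = D.l → GD D H γ γ' →
    St2 T D.m D.Δ H W D.ε → s = 1 ∨ s = -1 →
    ∑ φ : U → V, W φ * Real.exp (s * D.e * (rq lw φ u - D.l / D.n))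
      ≤ (∑ φ : U → V, W φ) * Real.exp (D.e * D.d * D.z / D.n)

/-- (D5) requests of the copies containing `y`: terms of type `D5`. -/
def StRy : Prop :=
  ∀ (U V : Type) [Fintype U] [Fintype V] (D : DP) (T : SimpleGraph U) (H : SimpleGraph V)
    (γ γ' : ℝ) (W : (U → V) → ℝ) (lw : U → ℕ) (u y : V), D.Ok → T.IsTree →
    Fintype.card U = D.m + 1 → (∀ u, lw u ≤ D.Δ) → ∑ u : U, lw u = D.l → GD D H γ γ' →
    St2 T D.m D.Δ H W D.ε → u ≠ y →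
    ∑ φ : U → V, W φ * Real.exp (D.e * (rq lw φ u * im1 φ y - D.l / (2 * D.n)))
      ≤ (∑ φ : U → V, W φ) * Real.exp (D.e * D.d * D.z / D.n)

/-- (D6) one step of the dynamics: there is a copy of positive weight for which the potential
does not grow. `hnew`: the terms of the new copy are at most one. -/
def StOne2 : Prop :=
  ∀ (U V : Type) [Fintype U] [Fintype V] (D : DP) (T : SimpleGraph U) (H : SimpleGraph V)
    (γ γ' : ℝ) (W : (U → V) → ℝ) (lw : U → ℕ) (A : V → Finset V) (a b : V → ℝ) (K : V → V → ℝ)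
    (t : ℕ) (f : ℕ → U → V), D.Ok → T.IsTree →
    Fintype.card U = D.m + 1 → (∀ u, (nb T u).card ≤ D.Δ) → (∀ u, lw u ≤ D.Δ) →
    ∑ u : U, lw u = D.l → (∀ c, c < t → Function.Injective (f c)) →
    GD D H γ γ' → St2 T D.m D.Δ H W D.ε →
    (∀ φ, W φ ≠ 0 → ∀ y, y ∉ im φ →
      nw (del T H φ) (fun u => (rq lw φ u : ℝ)) y / γ' ≤ D.k * D.d) →
    ∃ φ : U → V, W φ ≠ 0 ∧
      XI D lw A γ' (del T H φ) (fun u => a u + (rq lw φ u - D.l / D.n - D.z * D.d / D.n))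
          (fun u => b u + (D.l / D.n - rq lw φ u - D.z * D.d / D.n))
          (fun u y => K u y + (rq lw φ u * im1 φ y - D.l / (2 * D.n) - D.z * D.d / D.n)) (t + 1)
          (Function.update f t φ)
        ≤ Real.exp (D.e * D.d * D.ζ / D.n) * XI D lw A γ H a b K t f + D.n

/-- (D7) the dynamic theorem. -/
def StDyn2 : Prop :=
  ∀ g β ε : ℝ, 0 < g → g ≤ 1 / 8 → 0 < β → β < 1 → 0 < ε → ε < 1 → ∃ δ : ℝ, 0 < δ ∧
    ∃ κ : ℝ, 0 < κ ∧ ∀ (U V : Type) [Fintype U] [Fintype V] (T : SimpleGraph U) (lw : U → ℕ)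
      (m Δ d l N : ℕ) (H0 : SimpleGraph V) (A Bs : V → Finset V) (γ0 r : ℝ),
      T.IsTree → Fintype.card U = m + 1 → 1 ≤ m → (m : ℝ) ≤ (1 - β) * d / 2 → 1 ≤ Δ →
      (∀ u, (nb T u).card ≤ Δ) → (∀ u, lw u ≤ Δ) → ∑ u : U, lw u = l → l ≤ d →
      2 ≤ Fintype.card V → (Δ : ℝ) * Real.log (Fintype.card V) ≤ κ * d →
      N ≤ Fintype.card V →
      sd H0 = γ0 * (Fintype.card V * d) → 1 / 2 ≤ γ0 → γ0 ≤ 1 →
      g ≤ γ0 - N * (2 * m) / (Fintype.card V * d) →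
      (∀ v, (nb H0 v).card ≤ d) → (∀ v, |((nb H0 v).card : ℝ) - γ0 * d| ≤ δ * d) →
      (∀ u v, u ≠ v → ((nb H0 u ∩ nb H0 v).card : ℝ) ≤ (γ0 ^ 2 + δ) * d) →
      (∀ u, (Bs u).card ≤ d) → (∀ y, (A y).card ≤ d) → 0 ≤ r → r ≤ 1 / 2 →
      (∀ q y, q ≠ y → ((nb H0 q ∩ A y).card : ℝ) ≤ r * γ0 * d) →
      ∃ f : ℕ → U → V, (∀ t, t < N → Function.Injective (f t) ∧
          ∀ a b, T.Adj a b → (Hs T H0 f t).Adj (f t a) (f t b)) ∧
        (∀ v, ((nb (Hs T H0 f N) v).card : ℝ)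
          ≤ 2 * (γ0 - N * (2 * m) / (Fintype.card V * d)) * d) ∧
        (∀ u, |(aa lw f N u : ℝ) - N * l / Fintype.card V| ≤ ε * d) ∧
        (∀ u y, u ≠ y → (KK lw f N u y : ℝ) ≤ N * l / (2 * Fintype.card V) + ε * d) ∧
        (∀ u c, c < N → ((Bs u ∩ im (f c)).card : ℝ) ≤ (Bs u).card / 2 + ε * d) ∧
        (∀ u c c', c < N → c' < N → c ≠ c' →
          ((Bs u ∩ im (f c) ∩ im (f c')).card : ℝ) ≤ (Bs u).card / 4 + ε * d) ∧
        (∀ c y, c < N → y ∉ im (f c) →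
          ((∑ u ∈ A y, rq lw (f c) u : ℕ) : ℝ) ≤ r * l + ε * d) ∧
        (∀ c y, c < N → y ∉ im (f c) →
          ((∑ u ∈ nb (Hs T H0 f N) y, rq lw (f c) u : ℕ) : ℝ)
            ≤ 2 * (γ0 - N * (2 * m) / (Fintype.card V * d)) * d)

/-! ## R. Random labels -/

/-- (R0) expectation of a product over one-edge blocks and over two-edge blocks. `E` = edges,
`L` = labels, `p` = probabilities. -/
def StExp : Prop :=
  ∀ (E L : Type) [Fintype E] [Fintype L] (p : L → ℝ), (∀ x, 0 ≤ p x) → ∑ x : L, p x = 1 →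
    (∀ (F : Finset E) (g : E → L → ℝ),
      ∑ ω : E → L, (∏ e : E, p (ω e)) * ∏ e ∈ F, g e (ω e) = ∏ e ∈ F, ∑ x : L, p x * g e x) ∧
    ∀ (I : Type) [Fintype I] (J : Finset I) (e1 e2 : I → E) (S1 S2 : I → Finset L) (c q1 q2 : ℝ),
      Set.InjOn e1 J → Set.InjOn e2 J → (∀ i ∈ J, ∀ j ∈ J, e1 i ≠ e2 j) →
      (∀ i ∈ J, ∑ x ∈ S1 i, p x = q1) → (∀ i ∈ J, ∑ x ∈ S2 i, p x = q2) →
      ∑ ω : E → L, (∏ e : E, p (ω e)) *
          ∏ i ∈ J, (1 + c * if ω (e1 i) ∈ S1 i ∧ ω (e2 i) ∈ S2 i then 1 else 0)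
        = (1 + c * (q1 * q2)) ^ J.card

/-- Splitting of `G` into `H0`, `R1` and the oriented part `o2` (`o2 u v` = arc from `u` to `v`). -/
structure Spl {V : Type} [Fintype V] (G H0 R1 : SimpleGraph V) (o2 : V → V → Prop) : Prop where
  h0 : H0 ≤ G
  r1 : R1 ≤ G
  o2_adj : ∀ u v, o2 u v → G.Adj u v
  o2_asymm : ∀ u v, o2 u v → ¬ o2 v u
  part : ∀ u v, G.Adj u v → H0.Adj u v ∨ R1.Adj u v ∨ o2 u v ∨ o2 v u
  d1 : ∀ u v, H0.Adj u v → ¬ R1.Adj u v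
  d2 : ∀ u v, H0.Adj u v → ¬ o2 u v
  d3 : ∀ u v, R1.Adj u v → ¬ o2 u v

/-- Out-neighbourhood. -/
noncomputable def on {V : Type} [Fintype V] (o : V → V → Prop) (u : V) : Finset V :=
  univ.filter (fun v => o u v)

/-- Neighbourhood in the part of `G` outside `H0`. -/
noncomputable def rn {V : Type} [Fintype V] (G H0 : SimpleGraph V) (u : V) : Finset V :=
  nb G u \ nb H0 u

/-- (R1) existence of the random splitting. `p0`, `p1`, `p2` = densities of `H0`, `R1` and of the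
oriented part. -/
def StLab : Prop :=
  ∀ δ ν : ℝ, 0 < δ → δ < 1 → 0 < ν → ν < 1 → ∃ κ : ℝ, 0 < κ ∧
    ∀ (V : Type) [Fintype V] (G : SimpleGraph V) (d : ℕ) (p0 p1 p2 χ : ℝ),
      (∀ v, (nb G v).card = d) → 2 ≤ Fintype.card V → Real.log (Fintype.card V) ≤ κ * d →
      0 ≤ p0 → ν ≤ p1 → 0 ≤ p2 → p0 + p1 + p2 = 1 → ν ≤ χ →
      (∀ X : Finset V, 2 * X.card ≤ Fintype.card V →
        χ * d * X.card ≤ ∑ u ∈ X, ((nb G u \ X).card : ℝ)) →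
      ∃ (H0 R1 : SimpleGraph V) (o2 : V → V → Prop), Spl G H0 R1 o2 ∧
        (∀ v, |((nb H0 v).card : ℝ) - p0 * d| ≤ δ * d) ∧
        (∀ v, |((nb R1 v).card : ℝ) - p1 * d| ≤ δ * d) ∧
        (∀ v, |((on o2 v).card : ℝ) - p2 * d / 2| ≤ δ * d) ∧
        (∀ u v, u ≠ v → ((nb H0 u ∩ nb H0 v).card : ℝ) ≤ (p0 ^ 2 + δ) * d) ∧
        (∀ u v, u ≠ v → ((rn G H0 u ∩ rn G H0 v).card : ℝ) ≤ ((p1 + p2) ^ 2 + δ) * d) ∧
        (∀ u v, u ≠ v → ((nb H0 u ∩ rn G H0 v).card : ℝ) ≤ (p0 * (p1 + p2) + δ) * d) ∧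
        ∀ X : Finset V, 2 * X.card ≤ Fintype.card V →
          p1 * χ / 2 * d * X.card ≤ ∑ u ∈ X, ((nb R1 u \ X).card : ℝ)

/-! ## O. Orientation -/

/-- (O1) orientation with prescribed out-degrees (Hall's theorem). -/
def StOri : Prop :=
  ∀ (V : Type) [Fintype V] (R : SimpleGraph V) (b : V → ℕ),
    ∑ v : V, (nb R v).card = 2 * ∑ v : V, b v →
    (∀ X : Finset V, ∑ u ∈ X, (nb R u ∩ X).card ≤ 2 * ∑ u ∈ X, b u) →
    ∃ o : V → V → Prop, (∀ u v, o u v → R.Adj u v) ∧ (∀ u v, R.Adj u v → (o u v ↔ ¬ o v u)) ∧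
      ∀ u, (on o u).card = b u

/-- (O2) the orientation when the prescribed out-degrees are almost half of the degrees. -/
def StOri2 : Prop :=
  ∀ (V : Type) [Fintype V] (R : SimpleGraph V) (b : V → ℕ) (s : ℝ),
    ∑ v : V, (nb R v).card = 2 * ∑ v : V, b v →
    (∀ v, |(b v : ℝ) - (nb R v).card / 2| ≤ s) →
    (∀ X : Finset V, 2 * X.card ≤ Fintype.card V →
      2 * s * X.card ≤ ∑ u ∈ X, ((nb R u \ X).card : ℝ)) →
    ∃ o : V → V → Prop, (∀ u v, o u v → R.Adj u v) ∧ (∀ u v, R.Adj u v → (o u v ↔ ¬ o v u)) ∧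
      ∀ u, (on o u).card = b u

/-! ## B. Distribution of the leaves -/

/-- (B1) matching lemma: `a` rows with names `nm`, `a` columns. -/
def StMat : Prop :=
  ∀ (R C I : Type) [Fintype R] [Fintype C] (nm : R → I) (ok : R → C → Prop) (a : ℕ),
    Fintype.card R = a → Fintype.card C = a → 1 ≤ a →
    (∀ i : I, 8 * (univ.filter (fun r => nm r = i)).card ≤ a) →
    (∀ r : R, (49 / 100 : ℝ) * a ≤ (univ.filter (fun c => ok r c)).card) →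
    (∀ c : C, (49 / 100 : ℝ) * a ≤ (univ.filter (fun r => ok r c)).card) →
    (∀ r r' : R, nm r ≠ nm r' →
      ((univ.filter (fun c => ¬ ok r c ∧ ¬ ok r' c)).card : ℝ) ≤ (26 / 100 : ℝ) * a) →
    ∃ (K : ℕ) (M : Fin K → R → C), (a : ℝ) ≤ 16 * K ∧ 1 ≤ K ∧
      (∀ i, Function.Bijective (M i)) ∧ (∀ i r, ok r (M i r)) ∧
      ∀ i j r, i ≠ j → M i r ≠ M j r

/-- Data of the distribution of the leaves: copies `c < N` with vertex sets `Vc c`, `req c u`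
requests of the copy `c` at `u`, out-neighbourhoods `Np u`. -/
structure LD {V : Type} [Fintype V] (N Δ : ℕ) (L : ℝ) (Vc : ℕ → Finset V) (req : ℕ → V → ℕ)
    (Np : V → Finset V) : Prop where
  N_le : N ≤ Fintype.card V
  card2 : 2 ≤ Fintype.card V
  L_pos : 0 < L
  sum : ∀ u, (Np u).card = ∑ c ∈ range N, req c u
  a_lo : ∀ u, (1 - 1 / 10000) * L ≤ (Np u).card
  a_hi : ∀ u, ((Np u).card : ℝ) ≤ (1 + 1 / 10000) * L
  one : ∀ u c, c < N → ((Np u ∩ Vc c).card : ℝ) ≤ (1 / 2 + 1 / 10000) * L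
  two : ∀ u c c', c < N → c' < N → c ≠ c' →
    ((Np u ∩ Vc c ∩ Vc c').card : ℝ) ≤ (1 / 4 + 1 / 10000) * L
  col : ∀ u, ∀ y ∈ Np u,
    ((∑ c ∈ range N, if y ∈ Vc c then req c u else 0 : ℕ) : ℝ) ≤ (1 / 2 + 1 / 10000) * L
  cod : ∀ u u', u ≠ u' → ((Np u ∩ Np u').card : ℝ) ≤ 1 / 10000 * L
  inn : ∀ c y, c < N → y ∉ Vc c →
    ((∑ u ∈ univ.filter (fun u => y ∈ Np u), req c u : ℕ) : ℝ) ≤ 1 / 10000 * L
  tot : ∀ c, c < N → ((∑ u : V, req c u : ℕ) : ℝ) ≤ L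
  req_le : ∀ c u, req c u ≤ Δ
  Δ_pos : 1 ≤ Δ
  Δ_le : (Δ : ℝ) * (4 * Real.log (Fintype.card V)) ≤ 1 / 10000 * L

/-- (B2) the leaves can be distributed: `g u c j` = image of the `j`-th leaf of the copy `c`
at `u`. -/
def StDist : Prop :=
  ∀ (V : Type) [Fintype V] (N Δ : ℕ) (L : ℝ) (Vc : ℕ → Finset V) (req : ℕ → V → ℕ)
    (Np : V → Finset V), LD N Δ L Vc req Np →
    ∃ g : V → ℕ → ℕ → V,
      (∀ u c j, c < N → j < req c u → g u c j ∈ Np u ∧ g u c j ∉ Vc c) ∧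
      (∀ u, ∀ y ∈ Np u, ∃! p : ℕ × ℕ, p.1 < N ∧ p.2 < req p.1 u ∧ g u p.1 p.2 = y) ∧
      ∀ c u u' j j', c < N → j < req c u → j' < req c u' → g u c j = g u' c j' →
        u = u' ∧ j = j'

/-! ## A. Assembly -/

/-- `G` has a decomposition into copies of `T`. -/
def Decomp {U V : Type} (T : SimpleGraph U) (G : SimpleGraph V) : Prop :=
  ∃ (ι : Type) (f : ι → (T →g G)), (∀ i, Function.Injective (f i)) ∧
    ∀ e ∈ G.edgeSet, ∃! p : ι × Sym2 U, p.2 ∈ T.edgeSet ∧ Sym2.map (⇑(f p.1)) p.2 = e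

/-- (A1) choice of `l` leaves of the tree. `S` = the chosen leaves, the rest `U' = {u // u ∉ S}`
is a tree, `lw` = number of chosen leaves at a vertex. -/
def StLeaf : Prop :=
  ∀ (U : Type) [Fintype U] (T : SimpleGraph U) (m l : ℕ), T.IsTree → Fintype.card U = m + 1 →
    2 ≤ m → l ≤ (univ.filter (fun u => (nb T u).card = 1)).card → l + 1 ≤ m →
    ∃ (S : Finset U) (par : U → U), S.card = l ∧ (∀ s ∈ S, nb T s = {par s}) ∧
      (∀ s ∈ S, par s ∉ S) ∧ (TS T S).IsTree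

/-- (A2) from edge-disjoint copies of the reduced tree, an orientation of the rest and a
distribution of the leaves to a decomposition. `o u v` = arc of the rest `R`. -/
def StAsm : Prop :=
  ∀ (U V : Type) [Fintype U] [Fintype V] (T : SimpleGraph U) (G H0 : SimpleGraph V)
    (S : Finset U) (par : U → U) (N : ℕ) (f : ℕ → {u : U // u ∉ S} → V) (o : V → V → Prop)
    (g : V → ℕ → ℕ → V), T.IsTree → (∀ s ∈ S, nb T s = {par s}) → (∀ s ∈ S, par s ∉ S) →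
    H0 ≤ G →
    (∀ t, t < N → Function.Injective (f t) ∧ ∀ a b, (TS T S).Adj a b →
      (Hs (TS T S) H0 f t).Adj (f t a) (f t b)) →
    (∀ u v, o u v → G.Adj u v) → (∀ u v, o u v → ¬ o v u) →
    (∀ u v, G.Adj u v → (H0.Adj u v ∧ ¬ (Hs (TS T S) H0 f N).Adj u v) ∨
      o u v ∨ o v u) →
    (∀ u v, H0.Adj u v ∧ ¬ (Hs (TS T S) H0 f N).Adj u v → ¬ o u v) →
    (∀ u c j, c < N → j < rq (lvs S par) (f c) u →
      o u (g u c j) ∧ g u c j ∉ im (f c)) →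
    (∀ u y, o u y → ∃! p : ℕ × ℕ, p.1 < N ∧
      p.2 < rq (lvs S par) (f p.1) u ∧ g u p.1 p.2 = y) →
    (∀ c u u' j j', c < N → j < rq (lvs S par) (f c) u →
      j' < rq (lvs S par) (f c) u' →
      g u c j = g u' c j' → u = u' ∧ j = j') →
    Decomp T G

/-- (A3) the main theorem. -/
def StMainE : Prop :=
  ∀ χ η : ℝ, 0 < χ → 0 < η → ∃ c : ℝ, 0 < c ∧
    ∀ (U : Type) [Fintype U] (T : SimpleGraph U), T.IsTree →
      η * (T.edgeSet.ncard : ℝ) ≤ {u | (T.neighborSet u).ncard = 1}.ncard →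
      ∀ (V : Type) [Fintype V] (G : SimpleGraph V) [DecidableRel G.Adj],
        G.IsRegularOfDegree (2 * T.edgeSet.ncard) →
        (∀ X : Set V, 2 * X.ncard ≤ Fintype.card V →
          χ * T.edgeSet.ncard * X.ncard ≤
            {e : Sym2 V | e ∈ G.edgeSet ∧ ∃ x ∈ X, ∃ y ∉ X, e = s(x, y)}.ncard) →
        (∀ u : U, ((T.neighborSet u).ncard : ℝ) * Real.log (Fintype.card V)
          ≤ c * T.edgeSet.ncard) →
        Decomp T G

end Pool.Agent.Lib.GHE
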