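import Mathlib
import Pool.Agent.Lib.MP_df0165_co.Ap.One
import Pool.Agent.Lib.MP_df0165_co.Ex.Stmts

set_option autoImplicit false
set_option linter.unusedSectionVars false

/-!
# Exact Graham-Haggkvist for expander hosts: simple lemmas
-/

namespace Pool.Agent.Lib.GHE

open Finset Classical Pool.Agent.Lib.GHA

variable {U V : Type} [Fintype U] [Fintype V]

/-! ## Use of edges, removal of a copy -/

lemma cov_zero_or_one (T : SimpleGraph U) (φ : U → V) (x y : V) :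
    cov T φ x y = 0 ∨ cov T φ x y = 1 := by
  unfold cov; split_ifs <;> simp

lemma cov_nonneg (T : SimpleGraph U) (φ : U → V) (x y : V) : 0 ≤ cov T φ x y := by
  rcases cov_zero_or_one T φ x y with h | h <;> rw [h] <;> norm_num

lemma cov_le_one (T : SimpleGraph U) (φ : U → V) (x y : V) : cov T φ x y ≤ 1 := by
  rcases cov_zero_or_one T φ x y with h | h <;> rw [h] <;> norm_num

lemma cov_symm (T : SimpleGraph U) (φ : U → V) (x y : V) : cov T φ x y = cov T φ y x := by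
  have h : (∃ a b, T.Adj a b ∧ φ a = x ∧ φ b = y) ↔ ∃ a b, T.Adj a b ∧ φ a = y ∧ φ b = x := by
    constructor
    · rintro ⟨a, b, h1, h2, h3⟩; exact ⟨b, a, h1.symm, h3, h2⟩
    · rintro ⟨a, b, h1, h2, h3⟩; exact ⟨b, a, h1.symm, h3, h2⟩
  unfold cov
  simp only [h]

lemma cov_eq_zero {T : SimpleGraph U} {φ : U → V} {x y : V} :
    cov T φ x y = 0 ↔ ¬ ∃ a b, T.Adj a b ∧ φ a = x ∧ φ b = y := by
  unfold cov
  split_ifs with h
  · simp [h]
  · simp [h]

lemma cov_eq_one {T : SimpleGraph U} {φ : U → V} {x y : V} :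
    cov T φ x y = 1 ↔ ∃ a b, T.Adj a b ∧ φ a = x ∧ φ b = y := by
  unfold cov
  split_ifs with h
  · simp [h]
  · simp [h]

lemma adj_del {T : SimpleGraph U} {H : SimpleGraph V} {φ : U → V} {x y : V} :
    (del T H φ).Adj x y ↔ H.Adj x y ∧ cov T φ x y = 0 := by
  rw [cov_eq_zero]; rfl

lemma del_le (T : SimpleGraph U) (H : SimpleGraph V) (φ : U → V) : del T H φ ≤ H :=
  fun _ _ h => h.1

lemma mem_nb_del {T : SimpleGraph U} {H : SimpleGraph V} {φ : U → V} {x y : V} :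
    x ∈ nb (del T H φ) y ↔ x ∈ nb H y ∧ cov T φ y x = 0 := by
  rw [mem_nb, mem_nb, adj_del]

lemma nb_del (T : SimpleGraph U) (H : SimpleGraph V) (φ : U → V) (y : V) :
    nb (del T H φ) y = (nb H y).filter (fun x => cov T φ y x = 0) := by
  ext x; rw [mem_nb_del, Finset.mem_filter]

lemma nw_del (T : SimpleGraph U) (H : SimpleGraph V) (φ : U → V) (w : V → ℝ) (y : V) :
    nw (del T H φ) w y = nw H w y - ∑ u ∈ nb H y, w u * cov T φ y u := by
  unfold nw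
  rw [nb_del, Finset.sum_filter, ← Finset.sum_sub_distrib]
  refine Finset.sum_congr rfl (fun u _ => ?_)
  rcases cov_zero_or_one T φ y u with h | h
  · rw [if_pos h, h]; ring
  · rw [if_neg (by rw [h]; norm_num), h]; ring

lemma nw_one (H : SimpleGraph V) (y : V) : nw H (fun _ => (1 : ℝ)) y = (nb H y).card := by
  unfold nw; simp

lemma nw_ind (H : SimpleGraph V) (A : Finset V) (y : V) :
    nw H (fun u => if u ∈ A then (1 : ℝ) else 0) y = (nb H y ∩ A).card := by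
  unfold nw
  rw [Finset.sum_ite_mem]
  simp

lemma card_nb_del (T : SimpleGraph U) (H : SimpleGraph V) (φ : U → V) (y : V) :
    ((nb (del T H φ) y).card : ℝ) = (nb H y).card - ∑ u ∈ nb H y, cov T φ y u := by
  have h := nw_del T H φ (fun _ => (1 : ℝ)) y
  rw [nw_one, nw_one] at h
  rw [h]
  simp

/-- The number of edges used at `y` is at most the maximum degree of the tree. -/
lemma sum_cov_le {T : SimpleGraph U} {Δ : ℕ} (hΔ : ∀ u, (nb T u).card ≤ Δ) {φ : U → V}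
    (hφ : Function.Injective φ) (A : Finset V) (y : V) : ∑ u ∈ A, cov T φ y u ≤ Δ := by
  by_cases hy : ∃ a, φ a = y
  · obtain ⟨a, rfl⟩ := hy
    have h1 : ∑ u ∈ A, cov T φ (φ a) u ≤ ∑ u ∈ (nb T a).image φ, (1 : ℝ) := by
      have h2 : ∑ u ∈ A, cov T φ (φ a) u
          = ∑ u ∈ A.filter (fun u => cov T φ (φ a) u = 1), (1 : ℝ) := by
        rw [Finset.sum_filter]
        refine Finset.sum_congr rfl (fun u _ => ?_)
        rcases cov_zero_or_one T φ (φ a) u with h | h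
        · rw [if_neg (by rw [h]; norm_num), h]
        · rw [if_pos h, h]
      rw [h2]
      refine Finset.sum_le_sum_of_subset_of_nonneg ?_ (fun _ _ _ => zero_le_one)
      intro u hu
      rw [Finset.mem_filter, cov_eq_one] at hu
      obtain ⟨_, a', b, hab, ha, hb⟩ := hu
      rw [hφ ha] at hab
      exact Finset.mem_image.2 ⟨b, mem_nb.2 hab, hb⟩
    refine h1.trans ?_
    rw [Finset.sum_const, nsmul_eq_mul, mul_one]
    exact_mod_cast Finset.card_image_le.trans (hΔ a)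
  · have : ∑ u ∈ A, cov T φ y u = 0 := by
      refine Finset.sum_eq_zero (fun u _ => ?_)
      rw [cov_eq_zero]
      rintro ⟨a, b, -, ha, -⟩
      exact hy ⟨a, ha⟩
    rw [this]
    exact Nat.cast_nonneg _

/-! ## Requests -/

lemma rq_eq {lw : U → ℕ} {φ : U → V} (hφ : Function.Injective φ) (x : U) :
    rq lw φ (φ x) = lw x := by
  unfold rq
  rw [Finset.sum_eq_single x]
  · simp
  · intro y _ hy
    rw [if_neg (fun h => hy (hφ h))]
  · intro h; exact absurd (Finset.mem_univ _) h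

lemma rq_of_notMem {lw : U → ℕ} {φ : U → V} {u : V} (h : u ∉ im φ) : rq lw φ u = 0 := by
  unfold rq
  refine Finset.sum_eq_zero (fun x _ => ?_)
  rw [if_neg]
  rintro rfl
  exact h (Finset.mem_image_of_mem _ (Finset.mem_univ _))

lemma rq_le {lw : U → ℕ} {Δ : ℕ} (hlw : ∀ x, lw x ≤ Δ) {φ : U → V}
    (hφ : Function.Injective φ) (u : V) : rq lw φ u ≤ Δ := by
  by_cases h : u ∈ im φ
  · obtain ⟨x, -, rfl⟩ := Finset.mem_image.1 h
    rw [rq_eq hφ]; exact hlw x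
  · rw [rq_of_notMem h]; exact Nat.zero_le _

lemma sum_rq_mem (lw : U → ℕ) (φ : U → V) (A : Finset V) :
    ∑ u ∈ A, rq lw φ u = ∑ x : U, if φ x ∈ A then lw x else 0 := by
  unfold rq
  rw [Finset.sum_comm]
  refine Finset.sum_congr rfl (fun x _ => ?_)
  rw [Finset.sum_ite_eq]

lemma sum_rq (lw : U → ℕ) (φ : U → V) : ∑ u : V, rq lw φ u = ∑ x : U, lw x := by
  rw [sum_rq_mem]; simp

lemma sum_rq_eq_lwt (lw : U → ℕ) (φ : U → V) (A : Finset V) :
    ((∑ u ∈ A, rq lw φ u : ℕ) : ℝ) = lwt lw univ φ A := by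
  rw [sum_rq_mem]
  unfold lwt
  push_cast
  refine Finset.sum_congr rfl (fun x _ => ?_)
  split_ifs <;> simp

lemma nw_rq (H : SimpleGraph V) (lw : U → ℕ) (φ : U → V) (y : V) :
    nw H (fun u => (rq lw φ u : ℝ)) y = lwt lw univ φ (nb H y) := by
  rw [← sum_rq_eq_lwt]
  unfold nw
  push_cast
  rfl

lemma nw_rq_le (H : SimpleGraph V) (lw : U → ℕ) (φ : U → V) (y : V) :
    nw H (fun u => (rq lw φ u : ℝ)) y ≤ ∑ x : U, (lw x : ℝ) := by
  have h : nw H (fun u => (rq lw φ u : ℝ)) y ≤ ∑ u : V, (rq lw φ u : ℝ) := by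
    unfold nw
    exact Finset.sum_le_sum_of_subset_of_nonneg (Finset.subset_univ _)
      (fun _ _ _ => Nat.cast_nonneg _)
  refine h.trans (le_of_eq ?_)
  have := sum_rq lw φ
  exact_mod_cast this

lemma im1_zero_or_one (φ : U → V) (y : V) : im1 φ y = 0 ∨ im1 φ y = 1 := by
  unfold im1; split_ifs <;> simp

/-! ## Sequences of removals -/

lemma Hs_succ (T : SimpleGraph U) (H0 : SimpleGraph V) (f : ℕ → U → V) (t : ℕ) :
    Hs T H0 f (t + 1) = del T (Hs T H0 f t) (f t) := rfl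

lemma Hs_succ_le (T : SimpleGraph U) (H0 : SimpleGraph V) (f : ℕ → U → V) (t : ℕ) :
    Hs T H0 f (t + 1) ≤ Hs T H0 f t := del_le _ _ _

lemma Hs_le (T : SimpleGraph U) (H0 : SimpleGraph V) (f : ℕ → U → V) (t : ℕ) :
    Hs T H0 f t ≤ H0 := by
  induction t with
  | zero => exact le_rfl
  | succ t ih => exact (Hs_succ_le T H0 f t).trans ih

lemma Hs_anti (T : SimpleGraph U) (H0 : SimpleGraph V) (f : ℕ → U → V) {s t : ℕ} (h : s ≤ t) :
    Hs T H0 f t ≤ Hs T H0 f s := by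
  induction h with
  | refl => exact le_rfl
  | step _ ih => exact (Hs_succ_le T H0 f _).trans ih

lemma Hs_congr (T : SimpleGraph U) (H0 : SimpleGraph V) {f f' : ℕ → U → V} {t : ℕ}
    (h : ∀ c, c < t → f c = f' c) : Hs T H0 f t = Hs T H0 f' t := by
  induction t with
  | zero => rfl
  | succ t ih =>
    rw [Hs_succ, Hs_succ, ih (fun c hc => h c (Nat.lt_succ_of_lt hc)), h t (Nat.lt_succ_self t)]

lemma Hs_adj {T : SimpleGraph U} {H0 : SimpleGraph V} {f : ℕ → U → V} {t : ℕ} {x y : V} :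
    (Hs T H0 f t).Adj x y ↔ H0.Adj x y ∧ ∀ c, c < t → cov T (f c) x y = 0 := by
  induction t with
  | zero => exact ⟨fun h => ⟨h, fun c hc => absurd hc (Nat.not_lt_zero c)⟩, fun h => h.1⟩
  | succ t ih =>
    rw [Hs_succ, adj_del, ih]
    constructor
    · rintro ⟨⟨h1, h2⟩, h3⟩
      refine ⟨h1, fun c hc => ?_⟩
      rcases Nat.lt_succ_iff_lt_or_eq.1 hc with h | rfl
      · exact h2 c h
      · exact h3
    · rintro ⟨h1, h2⟩
      exact ⟨⟨h1, fun c hc => h2 c (Nat.lt_succ_of_lt hc)⟩, h2 t (Nat.lt_succ_self t)⟩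

/-- A copy uses exactly `m` edges. -/
lemma sd_del {T : SimpleGraph U} (hT : T.IsTree) {m : ℕ} (hU : Fintype.card U = m + 1)
    {H : SimpleGraph V} {φ : U → V} (hφ : Function.Injective φ)
    (hom : ∀ a b, T.Adj a b → H.Adj (φ a) (φ b)) : sd (del T H φ) = sd H - 2 * m := by
  have h1 : sd (del T H φ) = sd H - ∑ y : V, ∑ u ∈ nb H y, cov T φ y u := by
    unfold sd
    rw [← Finset.sum_sub_distrib]
    exact Finset.sum_congr rfl (fun y _ => card_nb_del T H φ y)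
  have h2 : ∑ y : V, ∑ u ∈ nb H y, cov T φ y u = ∑ y : V, ∑ u : V, cov T φ y u := by
    refine Finset.sum_congr rfl (fun y _ => ?_)
    refine Finset.sum_subset (Finset.subset_univ _) (fun u _ hu => ?_)
    exact One.cov_adj hom (fun h => hu (mem_nb.2 h))
  rw [h1, h2, One.total T hT hU hφ]

/-! ## Numerical consequences -/

section num

variable {D : DP} {H : SimpleGraph V} {γ γ' : ℝ}

lemma DP.Ok.g6 (h : D.Ok) : D.g ^ 6 ≤ D.g ^ 5 ∧ D.g ^ 5 ≤ D.g ^ 4 ∧ D.g ^ 4 ≤ D.g ^ 3 ∧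
    D.g ^ 3 ≤ D.g ^ 2 ∧ D.g ^ 2 ≤ D.g ∧ D.g ≤ 1 := by
  have h0 := h.g_pos.le
  have h1 := h.g_le
  have key : ∀ k : ℕ, D.g ^ (k + 1) ≤ D.g ^ k := fun k => by
    rw [pow_succ]
    exact mul_le_of_le_one_right (pow_nonneg h0 k) h1
  refine ⟨key 5, key 4, key 3, key 2, ?_, h1⟩
  simpa using key 1

lemma DP.Ok.ζ_le_one (h : D.Ok) : D.ζ ≤ 1 := h.ζ_le.trans h.z_le

lemma DP.Ok.z_pos (h : D.Ok) : 0 < D.z := h.ζ_pos.trans_le h.ζ_le

lemma DP.Ok.d_pos' (h : D.Ok) : (0 : ℝ) < D.d := by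
  exact_mod_cast h.d_pos

lemma DP.Ok.n_pos' (h : D.Ok) : (0 : ℝ) < D.n := by
  exact_mod_cast h.n_pos

lemma DP.Ok.Δ_one (h : D.Ok) : (1 : ℝ) ≤ D.Δ := by
  exact_mod_cast h.Δ_pos

/-- `1 ≤ ζ g^6 d / 1000`. -/
lemma DP.Ok.d_large (h : D.Ok) : 1 ≤ D.ζ * D.g ^ 6 * D.d / 1000 := h.Δ_one.trans h.Δ_le

lemma GD.γ'_pos (hD : D.Ok) (h : GD D H γ γ') : 0 < γ' := hD.g_pos.trans_le h.g_le

lemma GD.γ'_le (hD : D.Ok) (h : GD D H γ γ') : γ' ≤ γ := by
  rw [h.next]
  have h1 := hD.d_pos'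
  have h2 := hD.n_pos'
  have : 0 ≤ 2 * (D.m : ℝ) / (D.n * D.d) := by positivity
  linarith

lemma GD.γ_pos (hD : D.Ok) (h : GD D H γ γ') : 0 < γ :=
  (h.γ'_pos hD).trans_le (h.γ'_le hD)

lemma GD.g_le_γ (hD : D.Ok) (h : GD D H γ γ') : D.g ≤ γ := h.g_le.trans (h.γ'_le hD)

lemma GD.sd_pos (hD : D.Ok) (h : GD D H γ γ') : 0 < sd H := by
  rw [h.sum]
  exact mul_pos (h.γ_pos hD) (mul_pos hD.n_pos' hD.d_pos')

/-- `γ' = γ (1 - λ)` with `λ = 2 m / sd H`. -/
lemma GD.γ'_eq (hD : D.Ok) (h : GD D H γ γ') : γ' = γ * (1 - 2 * D.m / sd H) := by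
  have h1 := hD.d_pos'
  have h2 := hD.n_pos'
  have h3 := h.γ_pos hD
  rw [h.sum, h.next]
  field_simp

lemma GD.lam_nonneg (hD : D.Ok) (h : GD D H γ γ') : 0 ≤ 2 * (D.m : ℝ) / sd H :=
  div_nonneg (by positivity) (h.sd_pos hD).le

/-- `λ ≤ 1 / (g n)`. -/
lemma GD.lam_le (hD : D.Ok) (h : GD D H γ γ') : 2 * (D.m : ℝ) / sd H ≤ 1 / (D.g * D.n) := by
  have h1 := hD.d_pos'
  have h2 := hD.n_pos'
  have h3 := h.γ_pos hD
  have h4 := hD.g_pos
  have h5 : 2 * (D.m : ℝ) ≤ D.d := by exact_mod_cast hD.m_le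
  have h6 := h.g_le_γ hD
  rw [h.sum, div_le_div_iff₀ (by positivity) (by positivity), one_mul]
  calc 2 * (D.m : ℝ) * (D.g * D.n) ≤ D.d * (γ * D.n) := by
        apply mul_le_mul h5 (mul_le_mul_of_nonneg_right h6 h2.le) (by positivity) h1.le
    _ = γ * (D.n * D.d) := by ring

/-- `deg - 1 ≥ γ d / 4`. -/
lemma GD.deg_sub_one (hD : D.Ok) (h : GD D H γ γ') (v : V) :
    γ * D.d / 4 ≤ ((nb H v).card : ℝ) - 1 := by
  have h0 := h.deg_lo v
  have h1 := hD.d_large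
  obtain ⟨g6, g5, g4, g3, g2, g1⟩ := hD.g6
  have h2 := hD.α_le
  have h3 := h.g_le_γ hD
  have h4 := hD.g_pos
  have hd := hD.d_pos'
  have hz := hD.z_le
  have hz0 := hD.z_pos
  have hζ := hD.ζ_le_one
  have hζ0 := hD.ζ_pos
  have e1 : D.α ≤ γ / 4 := by
    have : D.z * D.g ^ 2 ≤ 1 * D.g := mul_le_mul hz g2 (by positivity) (by norm_num)
    linarith
  have e2 : D.ζ * D.g ^ 6 * D.d / 1000 ≤ γ * D.d / 4 := by
    have a1 : D.ζ * D.g ^ 6 ≤ 1 * D.g :=
      mul_le_mul hζ (by linarith) (by positivity) (by norm_num)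
    have a2 : D.ζ * D.g ^ 6 * D.d ≤ γ * D.d := mul_le_mul_of_nonneg_right (by linarith) hd.le
    have a3 : 0 ≤ D.ζ * D.g ^ 6 * D.d := by positivity
    linarith
  have e3 : (γ - D.α) * D.d ≥ 3 / 4 * γ * D.d := by
    have : γ - D.α ≥ 3 / 4 * γ := by linarith
    exact mul_le_mul_of_nonneg_right this hd.le
  nlinarith [mul_pos (h.γ_pos hD) hd]

end num

end Pool.Agent.Lib.GHE
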