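import Mathlib
import Pool.Agent.Lib.MP_df0165_co.Ex.Stmts
import Pool.Agent.Lib.MP_df0165_co.Ex.Base

set_option autoImplicit false
set_option linter.unusedSectionVars false

/-!
# Exact Graham-Haggkvist for expander hosts: assembly of the decomposition
-/

namespace Pool.Agent.Lib.GHE

open Finset Classical Pool.Agent.Lib.GHA

namespace Asm

variable {U V : Type} [Fintype U] [Fintype V]

/-- Index of the leaf `s` among the leaves at `x`. -/
noncomputable def ix (S : Finset U) (par : U → U) (x s : U) : ℕ :=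
  if h : s ∈ S.filter (fun s => par s = x) then
    ((S.filter (fun s => par s = x)).equivFin ⟨s, h⟩ : ℕ) else 0

lemma ix_lt {S : Finset U} {par : U → U} {x s : U} (hs : s ∈ S) (hp : par s = x) :
    ix S par x s < (S.filter (fun s => par s = x)).card := by
  have h : s ∈ S.filter (fun s => par s = x) := Finset.mem_filter.2 ⟨hs, hp⟩
  unfold ix
  rw [dif_pos h]
  exact Fin.is_lt _

lemma ix_inj {S : Finset U} {par : U → U} {x s s' : U} (hs : s ∈ S) (hp : par s = x)
    (hs' : s' ∈ S) (hp' : par s' = x) (h : ix S par x s = ix S par x s') : s = s' := by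
  have h1 : s ∈ S.filter (fun s => par s = x) := Finset.mem_filter.2 ⟨hs, hp⟩
  have h2 : s' ∈ S.filter (fun s => par s = x) := Finset.mem_filter.2 ⟨hs', hp'⟩
  unfold ix at h
  rw [dif_pos h1, dif_pos h2] at h
  have h3 := (S.filter (fun s => par s = x)).equivFin.injective (Fin.ext h)
  exact congrArg Subtype.val h3

lemma ix_surj {S : Finset U} {par : U → U} {x : U} {j : ℕ}
    (hj : j < (S.filter (fun s => par s = x)).card) : ∃ s ∈ S, par s = x ∧ ix S par x s = j := by
  obtain ⟨⟨s, hs⟩, h⟩ := (S.filter (fun s => par s = x)).equivFin.surjective ⟨j, hj⟩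
  have h1 := Finset.mem_filter.1 hs
  refine ⟨s, h1.1, h1.2, ?_⟩
  unfold ix
  rw [dif_pos hs, h]

/-- The copy of `T`. -/
noncomputable def cp (S : Finset U) (par : U → U) (hpar : ∀ s ∈ S, par s ∉ S)
    (f : ℕ → {u : U // u ∉ S} → V) (g : V → ℕ → ℕ → V) (c : ℕ) (u : U) : V :=
  if h : u ∈ S then g (f c ⟨par u, hpar u h⟩) c (ix S par (par u) u) else f c ⟨u, h⟩

lemma cp_mem {S : Finset U} {par : U → U} (hpar : ∀ s ∈ S, par s ∉ S)
    (f : ℕ → {u : U // u ∉ S} → V) (g : V → ℕ → ℕ → V) (c : ℕ) {u : U} (h : u ∈ S) :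
    cp S par hpar f g c u = g (f c ⟨par u, hpar u h⟩) c (ix S par (par u) u) := by
  unfold cp
  rw [dif_pos h]

lemma cp_not {S : Finset U} {par : U → U} (hpar : ∀ s ∈ S, par s ∉ S)
    (f : ℕ → {u : U // u ∉ S} → V) (g : V → ℕ → ℕ → V) (c : ℕ) {u : U} (h : u ∉ S) :
    cp S par hpar f g c u = f c ⟨u, h⟩ := by
  unfold cp
  rw [dif_neg h]

lemma lift {T : SimpleGraph U} {φ : U → V} {e : Sym2 U} {x y : V} (he : e ∈ T.edgeSet)
    (h : Sym2.map φ e = s(x, y)) : ∃ a b, e = s(a, b) ∧ T.Adj a b ∧ φ a = x ∧ φ b = y := by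
  induction e using Sym2.ind with
  | _ a b =>
    rw [SimpleGraph.mem_edgeSet] at he
    rw [Sym2.map_mk, Sym2.eq_iff] at h
    rcases h with ⟨h1, h2⟩ | ⟨h1, h2⟩
    · exact ⟨a, b, rfl, he, h1, h2⟩
    · exact ⟨b, a, Sym2.eq_swap, he.symm, h2, h1⟩

end Asm

open Asm in
theorem stAsm : StAsm := by
  intro U V _ _ T G H0 S par N f o g _ hnb hpar hH0 hf hoG hoa hcov hdis hg hgu hgi
  have hadj : ∀ s ∈ S, ∀ b, T.Adj s b ↔ b = par s := by
    intro s hs b
    have h := hnb s hs
    have h1 : b ∈ nb T s ↔ T.Adj s b := by simp [nb]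
    rw [← h1, h, Finset.mem_singleton]
  have hTS : ∀ a b (ha : a ∉ S) (hb : b ∉ S), T.Adj a b → (TS T S).Adj ⟨a, ha⟩ ⟨b, hb⟩ :=
    fun a b ha hb h => h
  have hTS' : ∀ a b : {u : U // u ∉ S}, (TS T S).Adj a b → T.Adj a.1 b.1 := fun a b h => h
  obtain ⟨φ, hφ⟩ : ∃ φ : ℕ → U → V, φ = cp S par hpar f g := ⟨_, rfl⟩
  have φm : ∀ c u (h : u ∈ S), φ c u = g (f c ⟨par u, hpar u h⟩) c (ix S par (par u) u) := by
    intro c u h
    rw [hφ]
    exact cp_mem hpar f g c h
  have φn : ∀ c u (h : u ∉ S), φ c u = f c ⟨u, h⟩ := by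
    intro c u h
    rw [hφ]
    exact cp_not hpar f g c h
  have hix : ∀ c, c < N → ∀ s (hs : s ∈ S),
      ix S par (par s) s < rq (lvs S par) (f c) (f c ⟨par s, hpar s hs⟩) := by
    intro c hc s hs
    rw [rq_eq (hf c hc).1]
    exact ix_lt hs rfl
  have hleaf : ∀ c, c < N → ∀ s ∈ S, o (φ c (par s)) (φ c s) ∧ φ c s ∉ im (f c) := by
    intro c hc s hs
    rw [φm c s hs, φn c (par s) (hpar s hs)]
    exact hg _ c _ hc (hix c hc s hs)
  have htyp : ∀ a b, T.Adj a b → (a ∉ S ∧ b ∉ S) ∨ (b ∈ S ∧ a = par b) ∨ (a ∈ S ∧ b = par a) := by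
    intro a b hab
    by_cases ha : a ∈ S
    · right; right
      exact ⟨ha, (hadj a ha b).1 hab⟩
    · by_cases hb : b ∈ S
      · right; left
        exact ⟨hb, (hadj b hb a).1 hab.symm⟩
      · left
        exact ⟨ha, hb⟩
  have hinn : ∀ c, c < N → ∀ a b, a ∉ S → b ∉ S → T.Adj a b →
      (Hs (TS T S) H0 f c).Adj (φ c a) (φ c b) ∧ cov (TS T S) (f c) (φ c a) (φ c b) = 1 := by
    intro c hc a b ha hb hab
    rw [φn c a ha, φn c b hb]
    exact ⟨(hf c hc).2 _ _ (hTS a b ha hb hab), cov_eq_one.2 ⟨_, _, hTS a b ha hb hab, rfl, rfl⟩⟩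
  have hinn' : ∀ c, c < N → ∀ a b, a ∉ S → b ∉ S → T.Adj a b →
      H0.Adj (φ c a) (φ c b) ∧ ¬ (Hs (TS T S) H0 f N).Adj (φ c a) (φ c b) := by
    intro c hc a b ha hb hab
    obtain ⟨h1, h2⟩ := hinn c hc a b ha hb hab
    refine ⟨Hs_le _ _ _ _ h1, fun h3 => ?_⟩
    have h4 := (Hs_adj.1 h3).2 c hc
    rw [h2] at h4
    exact one_ne_zero h4
  have hinj : ∀ c, c < N → Function.Injective (φ c) := by
    intro c hc a b hab
    by_cases ha : a ∈ S <;> by_cases hb : b ∈ S
    · rw [φm c a ha, φm c b hb] at hab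
      obtain ⟨h1, h2⟩ := hgi c _ _ _ _ hc (hix c hc a ha) (hix c hc b hb) hab
      have h3 := congrArg Subtype.val ((hf c hc).1 h1)
      simp only at h3
      rw [← h3] at h2
      exact ix_inj ha rfl hb h3.symm h2
    · exfalso
      apply (hleaf c hc a ha).2
      rw [hab, φn c b hb]
      exact Finset.mem_image_of_mem _ (Finset.mem_univ _)
    · exfalso
      apply (hleaf c hc b hb).2
      rw [← hab, φn c a ha]
      exact Finset.mem_image_of_mem _ (Finset.mem_univ _)
    · rw [φn c a ha, φn c b hb] at hab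
      exact congrArg Subtype.val ((hf c hc).1 hab)
  have hhom : ∀ c, c < N → ∀ a b, T.Adj a b → G.Adj (φ c a) (φ c b) := by
    intro c hc a b hab
    rcases htyp a b hab with ⟨ha, hb⟩ | ⟨hb, rfl⟩ | ⟨ha, rfl⟩
    · exact hH0 (hinn' c hc a b ha hb hab).1
    · exact hoG _ _ (hleaf c hc b hb).1
    · exact (hoG _ _ (hleaf c hc a ha).1).symm
  have key : ∀ x y, ((H0.Adj x y ∧ ¬ (Hs (TS T S) H0 f N).Adj x y) ∨ o x y) →
      ∃! p : Fin N × Sym2 U, p.2 ∈ T.edgeSet ∧ Sym2.map (φ p.1) p.2 = s(x, y) := by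
    rintro x y (⟨hxy, hn⟩ | hxy)
    · -- an inner edge
      have h1 : ∃ c, c < N ∧ cov (TS T S) (f c) x y = 1 := by
        by_contra hne
        push Not at hne
        apply hn
        rw [Hs_adj]
        refine ⟨hxy, fun c hc => ?_⟩
        rcases cov_zero_or_one (TS T S) (f c) x y with h | h
        · exact h
        · exact absurd h (hne c hc)
      obtain ⟨c, hc, hcv⟩ := h1
      obtain ⟨a, b, hab, hax, hby⟩ := cov_eq_one.1 hcv
      refine ⟨(⟨c, hc⟩, s(a.1, b.1)), ⟨hTS' a b hab, ?_⟩, ?_⟩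
      · simp only [Sym2.map_mk]
        rw [φn c a.1 a.2, φn c b.1 b.2, Subtype.coe_eta, Subtype.coe_eta, hax, hby]
      · rintro ⟨⟨c', hc'⟩, e'⟩ ⟨he', hm⟩
        simp only at he' hm
        obtain ⟨a', b', rfl, hab', hax', hby'⟩ := lift he' hm
        rcases htyp a' b' hab' with ⟨ha, hb⟩ | ⟨hb, rfl⟩ | ⟨ha, rfl⟩
        · obtain ⟨h2, h3⟩ := hinn c' hc' a' b' ha hb hab'
          rw [hax', hby'] at h2 h3
          have hcc : c' = c := by
            rcases lt_trichotomy c c' with h | h | h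
            · have h4 := (Hs_adj.1 h2).2 c h
              rw [hcv] at h4
              exact absurd h4 one_ne_zero
            · exact h.symm
            · have h4 := (hf c hc).2 a b hab
              rw [hax, hby] at h4
              have h5 := (Hs_adj.1 h4).2 c' h
              rw [h3] at h5
              exact absurd h5 one_ne_zero
          subst hcc
          rw [φn c' a' ha] at hax'
          rw [φn c' b' hb] at hby'
          have h6 := congrArg Subtype.val ((hf c' hc').1 (hax'.trans hax.symm))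
          have h7 := congrArg Subtype.val ((hf c' hc').1 (hby'.trans hby.symm))
          simp only at h6 h7
          rw [h6, h7]
        · exfalso
          have h2 := (hleaf c' hc' b' hb).1
          rw [hax', hby'] at h2
          exact hdis x y ⟨hxy, hn⟩ h2
        · exfalso
          have h2 := (hleaf c' hc' a' ha).1
          rw [hax', hby'] at h2
          exact hdis y x ⟨hxy.symm, fun h => hn h.symm⟩ h2
    · -- an arc
      obtain ⟨⟨c, j⟩, ⟨hc, hj, hgy⟩, huniq⟩ := hgu x y hxy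
      simp only at hc hj hgy
      have hx : x ∈ im (f c) := by
        by_contra hne
        rw [rq_of_notMem hne] at hj
        exact Nat.not_lt_zero _ hj
      obtain ⟨a, -, rfl⟩ := Finset.mem_image.1 hx
      rw [rq_eq (hf c hc).1] at hj
      obtain ⟨s, hs, hps, hsj⟩ := ix_surj (S := S) (par := par) (x := a.1) hj
      have hsub : (⟨par s, hpar s hs⟩ : {u : U // u ∉ S}) = a := Subtype.ext hps
      have h1 : φ c (par s) = f c a := by
        rw [φn c (par s) (hpar s hs), hsub]
      have h2 : φ c s = y := by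
        rw [φm c s hs, hsub, hps, hsj, hgy]
      refine ⟨(⟨c, hc⟩, s(par s, s)), ⟨?_, ?_⟩, ?_⟩
      · exact ((hadj s hs (par s)).2 rfl).symm
      · simp only [Sym2.map_mk]
        rw [h1, h2]
      · rintro ⟨⟨c', hc'⟩, e'⟩ ⟨he', hm⟩
        simp only at he' hm
        obtain ⟨a', b', rfl, hab', hax', hby'⟩ := lift he' hm
        rcases htyp a' b' hab' with ⟨ha, hb⟩ | ⟨hb, rfl⟩ | ⟨ha, rfl⟩
        · exfalso
          have h3 := hinn' c' hc' a' b' ha hb hab'
          rw [hax', hby'] at h3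
          exact hdis _ _ h3 hxy
        · have h3 := hix c' hc' b' hb
          have h4 := φm c' b' hb
          have h5 := φn c' (par b') (hpar b' hb)
          rw [hax'] at h5
          rw [← h5] at h3 h4
          have h6 := huniq (c', ix S par (par b') b') ⟨hc', h3, by rw [← h4, hby']⟩
          rw [Prod.mk.injEq] at h6
          obtain ⟨rfl, h7⟩ := h6
          have h8 : par b' = a.1 := congrArg Subtype.val ((hf c' hc').1 h5.symm)
          have h9 : b' = s := by
            rw [h8, ← hsj] at h7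
            exact ix_inj hb h8 hs hps h7
          subst h9
          rfl
        · exfalso
          have h3 := (hleaf c' hc' a' ha).1
          rw [hax', hby'] at h3
          exact hoa _ _ hxy h3
  refine ⟨Fin N, fun c => ⟨φ c, fun {a b} h => hhom c c.2 a b h⟩, fun c => hinj c c.2, ?_⟩
  intro e he
  induction e using Sym2.ind with
  | _ x y =>
    rcases hcov x y he with h | h | h
    · exact key x y (Or.inl h)
    · exact key x y (Or.inr h)
    · rw [Sym2.eq_swap]
      exact key y x (Or.inr h)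

end Pool.Agent.Lib.GHE
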