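import Mathlib
import Pool.Agent.Lib.MP_df0165_co.Ex.Base

set_option autoImplicit false
set_option linter.unusedSectionVars false

/-!
# Exact Graham-Haggkvist for expander hosts: codegrees (D3)
-/

namespace Pool.Agent.Lib.GHE

open Finset Classical Pool.Agent.Lib.GHA

namespace Cd

variable {U V : Type} [Fintype U] [Fintype V]

/-- Number of common neighbours lost by the removal of the copy `φ`. -/
noncomputable def Y (T : SimpleGraph U) (H : SimpleGraph V) (u v : V) (φ : U → V) : ℝ :=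
  ∑ x ∈ nb H u ∩ nb H v, (cov T φ u x + cov T φ v x - cov T φ u x * cov T φ v x)

lemma card_eq (T : SimpleGraph U) (H : SimpleGraph V) (u v : V) (φ : U → V) :
    ((nb (del T H φ) u ∩ nb (del T H φ) v).card : ℝ) =
      ((nb H u ∩ nb H v).card : ℝ) - Y T H u v φ := by
  have h1 : nb (del T H φ) u ∩ nb (del T H φ) v =
      (nb H u ∩ nb H v).filter (fun x => cov T φ u x = 0 ∧ cov T φ v x = 0) := by
    ext x
    simp only [Finset.mem_inter, Finset.mem_filter, mem_nb_del]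
    tauto
  unfold Y
  rw [h1, Finset.card_filter, Finset.card_eq_sum_ones]
  push_cast
  rw [← Finset.sum_sub_distrib]
  refine Finset.sum_congr rfl fun x _ => ?_
  rcases cov_zero_or_one T φ u x with h | h <;> rcases cov_zero_or_one T φ v x with h' | h' <;>
    simp [h, h']

lemma Y_nonneg (T : SimpleGraph U) (H : SimpleGraph V) (u v : V) (φ : U → V) :
    0 ≤ Y T H u v φ := by
  refine Finset.sum_nonneg fun x _ => ?_
  rcases cov_zero_or_one T φ u x with h | h <;> rcases cov_zero_or_one T φ v x with h' | h' <;>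
    rw [h, h'] <;> norm_num

lemma Y_le {T : SimpleGraph U} {Δ : ℕ} (hΔ : ∀ u, (nb T u).card ≤ Δ) (H : SimpleGraph V)
    (u v : V) {φ : U → V} (hφ : Function.Injective φ) : Y T H u v φ ≤ 2 * Δ := by
  have h1 := sum_cov_le hΔ hφ (nb H u ∩ nb H v) u
  have h2 := sum_cov_le hΔ hφ (nb H u ∩ nb H v) v
  have h3 : Y T H u v φ ≤
      ∑ x ∈ nb H u ∩ nb H v, cov T φ u x + ∑ x ∈ nb H u ∩ nb H v, cov T φ v x := by
    unfold Y
    rw [← Finset.sum_add_distrib]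
    refine Finset.sum_le_sum fun x _ => ?_
    have := mul_nonneg (cov_nonneg T φ u x) (cov_nonneg T φ v x)
    linarith
  linarith

lemma sum_Y (T : SimpleGraph U) (H : SimpleGraph V) (u v : V) (W : (U → V) → ℝ) :
    ∑ φ : U → V, W φ * Y T H u v φ = ∑ x ∈ nb H u ∩ nb H v,
      (∑ φ : U → V, W φ * cov T φ u x + ∑ φ : U → V, W φ * cov T φ v x
        - ∑ φ : U → V, W φ * (cov T φ u x * cov T φ v x)) := by
  unfold Y
  simp_rw [Finset.mul_sum]
  rw [Finset.sum_comm]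
  refine Finset.sum_congr rfl fun x _ => ?_
  rw [← Finset.sum_add_distrib, ← Finset.sum_sub_distrib]
  exact Finset.sum_congr rfl fun φ _ => by ring

/-- The average of the exponential. -/
lemma exp_avg {T : SimpleGraph U} {Δ : ℕ} (hΔ : ∀ u, (nb T u).card ≤ Δ) (H : SimpleGraph V)
    (u v : V) (W : (U → V) → ℝ) (hW0 : ∀ φ, 0 ≤ W φ)
    (hWi : ∀ φ, W φ ≠ 0 → Function.Injective φ) {θ S : ℝ} (hθ : 0 ≤ θ) (hθ1 : θ * (2 * Δ) ≤ 1)
    (hS : ∑ φ : U → V, W φ = S) (hS0 : 0 < S) :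
    ∑ φ : U → V, W φ * Real.exp (-(θ * Y T H u v φ)) ≤
      S * Real.exp (-(θ * (1 - 2 * θ * Δ) * ((∑ φ : U → V, W φ * Y T H u v φ) / S))) := by
  have h1 : ∀ φ : U → V, W φ * Real.exp (-(θ * Y T H u v φ)) ≤
      W φ - θ * (1 - 2 * θ * Δ) * (W φ * Y T H u v φ) := by
    intro φ
    by_cases hφ : W φ = 0
    · rw [hφ]; simp
    have hy0 := Y_nonneg T H u v φ
    have hy1 := Y_le hΔ H u v (hWi φ hφ)
    have ha : 0 ≤ θ * Y T H u v φ := mul_nonneg hθ hy0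
    have hb : θ * Y T H u v φ ≤ 1 := (mul_le_mul_of_nonneg_left hy1 hθ).trans hθ1
    have hc := Gen4.exp_neg_le ha hb
    have hd : (θ * Y T H u v φ) ^ 2 ≤ 2 * θ * Δ * (θ * Y T H u v φ) := by
      have := mul_le_mul_of_nonneg_right (mul_le_mul_of_nonneg_left hy1 hθ) ha
      nlinarith
    have he : Real.exp (-(θ * Y T H u v φ)) ≤ 1 - θ * (1 - 2 * θ * Δ) * Y T H u v φ := by
      nlinarith
    have := mul_le_mul_of_nonneg_left he (hW0 φ)
    linarith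
  have h2 : ∑ φ : U → V, W φ * Real.exp (-(θ * Y T H u v φ)) ≤
      S - θ * (1 - 2 * θ * Δ) * ∑ φ : U → V, W φ * Y T H u v φ := by
    rw [← hS, Finset.mul_sum, ← Finset.sum_sub_distrib]
    exact Finset.sum_le_sum fun φ _ => h1 φ
  refine h2.trans ?_
  have h3 := Real.add_one_le_exp
    (-(θ * (1 - 2 * θ * Δ) * ((∑ φ : U → V, W φ * Y T H u v φ) / S)))
  have h4 := mul_le_mul_of_nonneg_left h3 hS0.le
  refine le_trans (le_of_eq ?_) h4
  field_simp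
  ring

end Cd

theorem stCd (hTot : StTot) : StCd := by
  intro U V _ _ D T H γ γ' W u v hD hT hU hΔ hG hW huv
  obtain ⟨g6, g5, g4, g3, g2, g1⟩ := hD.g6
  have hg0 := hD.g_pos
  have hζ0 := hD.ζ_pos
  have hζ1 := hD.ζ_le_one
  have hd0 := hD.d_pos'
  have hn0 := hD.n_pos'
  have he0 := hD.e_pos
  have hΔ1 := hD.Δ_one
  have hγ0 := hG.γ_pos hD
  have hγ'0 := hG.γ'_pos hD
  have hgγ := hG.g_le_γ hD
  have hε0 := hD.ε_nonneg
  have hε1 : D.ε ≤ 1 / 1000 := by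
    have h1 := hD.ε_le
    have h2 : D.ζ * D.g ^ 4 ≤ 1 * 1 :=
      mul_le_mul hζ1 (by linarith) (by positivity) (by norm_num)
    linarith
  obtain ⟨⟨hS1, hS2⟩, hE, -, -⟩ := hTot U V T D.m D.Δ H W D.ε (fun _ => 0) 0 hW hT hU hD.m_pos
    (by simp) (by linarith)
  have hsd := hG.sd_pos hD
  set S : ℝ := ∑ φ : U → V, W φ with hSdef
  have hS0 : 0 < S := lt_of_lt_of_le (mul_pos (by linarith) hsd) hS1
  set lam : ℝ := 2 * D.m / sd H with hlam
  have hl0 : 0 ≤ lam := hG.lam_nonneg hD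
  have hl1 : lam ≤ 1 / (D.g * D.n) := hG.lam_le hD
  have hγ'eq : γ' = γ * (1 - lam) := hG.γ'_eq hD
  have hm0 : (0 : ℝ) ≤ D.m := Nat.cast_nonneg _
  set θ : ℝ := D.e / γ' ^ 2 with hθdef
  have hθ0 : 0 < θ := by positivity
  have hgg : D.g ^ 2 ≤ γ' ^ 2 := pow_le_pow_left₀ hg0.le hG.g_le 2
  have hθg : θ ≤ D.e / D.g ^ 2 := div_le_div_of_nonneg_left he0.le (by positivity) hgg
  -- `θ Δ ≤ ζ g ^ 4 / 1000`
  have hθΔ : θ * D.Δ ≤ D.ζ * D.g ^ 4 / 1000 := by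
    have h1 : θ * D.Δ ≤ D.e / D.g ^ 2 * D.Δ := mul_le_mul_of_nonneg_right hθg (by linarith)
    have h2 : D.e / D.g ^ 2 * D.Δ ≤ D.ζ * D.g ^ 4 / 1000 := by
      rw [div_mul_eq_mul_div, div_le_iff₀ (by positivity)]
      calc D.e * D.Δ ≤ D.ζ * D.g ^ 6 / 1000 := hD.e_le
        _ = D.ζ * D.g ^ 4 / 1000 * D.g ^ 2 := by ring
    linarith
  have hζg4 : D.ζ * D.g ^ 4 ≤ 1 := by
    have h2 : D.ζ * D.g ^ 4 ≤ 1 * 1 :=
      mul_le_mul hζ1 (by linarith) (by positivity) (by norm_num)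
    linarith
  have hζg5 : 0 ≤ D.ζ * D.g ^ 4 := by positivity
  set Z : ℝ := ((nb H u ∩ nb H v).card : ℝ) with hZ
  have hZ0 : 0 ≤ Z := Nat.cast_nonneg _
  have hZd : Z ≤ D.d := by
    have h1 : (nb H u ∩ nb H v).card ≤ D.d :=
      (Finset.card_le_card Finset.inter_subset_left).trans (hG.deg_le u)
    rw [hZ]
    exact_mod_cast h1
  -- the average loss
  set M : ℝ := ∑ φ : U → V, W φ * Cd.Y T H u v φ with hM
  have hΔd : D.Δ / (γ * D.d) ≤ D.ζ * D.g ^ 4 / 1000 := by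
    rw [div_le_iff₀ (by positivity)]
    have h1 : D.ζ * D.g ^ 6 * D.d / 1000 ≤ D.ζ * D.g ^ 4 / 1000 * (γ * D.d) := by
      have h2 : D.g ^ 6 ≤ D.g ^ 4 * γ := by
        calc D.g ^ 6 ≤ D.g ^ 5 := g6
          _ = D.g ^ 4 * D.g := by ring
          _ ≤ D.g ^ 4 * γ := mul_le_mul_of_nonneg_left hgγ (by positivity)
      have h3 : 0 ≤ D.ζ * D.d := by positivity
      nlinarith [mul_le_mul_of_nonneg_left h2 h3]
    exact hD.Δ_le.trans h1
  have hMlow : Z * (2 * ((1 - D.ε) * (2 * D.m)) - 8 * D.m * (D.Δ / (γ * D.d))) ≤ M := by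
    rw [hM, Cd.sum_Y, hZ, ← nsmul_eq_mul, ← Finset.sum_const]
    refine Finset.sum_le_sum fun x hx => ?_
    rw [Finset.mem_inter, mem_nb, mem_nb] at hx
    have e1 := (hE u x hx.1).1
    have e2 := (hE v x hx.2).1
    have e3 := hW.cherry u x v huv hx.1 hx.2
    have e4 := hG.deg_sub_one hD x
    have e5 : 0 ≤ ∑ φ : U → V, W φ * (cov T φ u x * cov T φ v x) :=
      Finset.sum_nonneg fun φ _ => mul_nonneg (hW.nonneg φ)
        (mul_nonneg (cov_nonneg T φ u x) (cov_nonneg T φ v x))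
    have e6 := mul_le_mul_of_nonneg_right e4 e5
    have e7 : ∑ φ : U → V, W φ * (cov T φ u x * cov T φ v x) ≤
        8 * D.m * (D.Δ / (γ * D.d)) := by
      have e8 : γ * D.d / 4 * ∑ φ : U → V, W φ * (cov T φ u x * cov T φ v x) ≤
          2 * D.m * D.Δ := e6.trans e3
      have e9 : 0 < γ * D.d := by positivity
      rw [← mul_div_assoc, le_div_iff₀ e9]
      nlinarith
    linarith
  have hMS : lam * Z * (2 * (1 - D.ε) - 4 * (D.Δ / (γ * D.d))) ≤ M / S := by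
    have hB : 0 ≤ 2 * ((1 - D.ε) * (2 * D.m)) - 8 * D.m * (D.Δ / (γ * D.d)) := by
      have h1 : 8 * (D.Δ / (γ * D.d)) ≤ 1 := by linarith
      have h2 := mul_le_mul_of_nonneg_left h1 hm0
      nlinarith
    have h1 : Z * (2 * ((1 - D.ε) * (2 * D.m)) - 8 * D.m * (D.Δ / (γ * D.d))) / sd H ≤ M / S := by
      have h2 : 0 ≤ Z * (2 * ((1 - D.ε) * (2 * D.m)) - 8 * D.m * (D.Δ / (γ * D.d))) :=
        mul_nonneg hZ0 hB
      calc Z * (2 * ((1 - D.ε) * (2 * D.m)) - 8 * D.m * (D.Δ / (γ * D.d))) / sd H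
          ≤ Z * (2 * ((1 - D.ε) * (2 * D.m)) - 8 * D.m * (D.Δ / (γ * D.d))) / S :=
            div_le_div_of_nonneg_left h2 hS0 hS2
        _ ≤ M / S := div_le_div_of_nonneg_right hMlow hS0.le
    refine le_trans (le_of_eq ?_) h1
    rw [hlam]
    ring
  -- the average of the exponential
  have hθ2 : 2 * θ * D.Δ = 2 * (θ * D.Δ) := by ring
  have hθ3 : θ * (2 * D.Δ) = 2 * (θ * D.Δ) := by ring
  have hθ1 : θ * (2 * D.Δ) ≤ 1 := by rw [hθ3]; linarith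
  have hA := Cd.exp_avg (Δ := D.Δ) hΔ H u v W hW.nonneg (fun φ h => (hW.hom φ h).1) hθ0.le hθ1
    hSdef.symm hS0
  have hfin : ∑ φ : U → V, W φ *
      Real.exp (D.e * (((nb (del T H φ) u ∩ nb (del T H φ) v).card : ℝ) / γ' ^ 2)) =
      Real.exp (θ * Z) * ∑ φ : U → V, W φ * Real.exp (-(θ * Cd.Y T H u v φ)) := by
    rw [Finset.mul_sum]
    refine Finset.sum_congr rfl fun φ _ => ?_
    rw [Cd.card_eq, mul_left_comm, ← Real.exp_add]
    congr 2
    rw [hθdef]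
    ring
  rw [hfin]
  refine (mul_le_mul_of_nonneg_left hA (Real.exp_pos _).le).trans ?_
  rw [mul_left_comm, ← Real.exp_add, ← Real.exp_add]
  refine mul_le_mul_of_nonneg_left (Real.exp_le_exp.2 ?_) hS0.le
  -- the inequality for the exponents
  have hk : D.e * (Z / γ ^ 2) = θ * Z * (1 - lam) ^ 2 := by
    have hl : 1 - lam ≠ 0 := by
      intro h
      rw [h, mul_zero] at hγ'eq
      exact hγ'0.ne' hγ'eq
    rw [hθdef, hγ'eq]
    field_simp
  have hk2 : θ * Z * (1 - 2 * lam) ≤ D.e * (Z / γ ^ 2) := by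
    rw [hk]
    have h1 : 0 ≤ θ * Z := mul_nonneg hθ0.le hZ0
    nlinarith [mul_nonneg h1 (sq_nonneg lam)]
  have hk3 : θ * (1 - 2 * θ * D.Δ) * (lam * Z * (2 * (1 - D.ε) - 4 * (D.Δ / (γ * D.d)))) ≤
      θ * (1 - 2 * θ * D.Δ) * (M / S) :=
    mul_le_mul_of_nonneg_left hMS (mul_nonneg hθ0.le (by rw [hθ2]; linarith))
  have hk4 : θ * (lam * Z) * (2 * D.ε + 4 * (D.Δ / (γ * D.d)) + 4 * (θ * D.Δ)) ≤
      D.e * D.d * D.ζ / D.n := by
    have h1 : 2 * D.ε + 4 * (D.Δ / (γ * D.d)) + 4 * (θ * D.Δ) ≤ D.ζ * D.g ^ 3 := by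
      have h2 := hD.ε_le
      have h3 : D.ζ * D.g ^ 4 ≤ D.ζ * D.g ^ 3 := mul_le_mul_of_nonneg_left g4 hζ0.le
      linarith
    have h2 : lam * Z ≤ 1 / (D.g * D.n) * D.d :=
      mul_le_mul hl1 hZd hZ0 (by positivity)
    have h3 : 0 ≤ lam * Z := mul_nonneg hl0 hZ0
    calc θ * (lam * Z) * (2 * D.ε + 4 * (D.Δ / (γ * D.d)) + 4 * (θ * D.Δ))
        ≤ θ * (lam * Z) * (D.ζ * D.g ^ 3) :=
          mul_le_mul_of_nonneg_left h1 (mul_nonneg hθ0.le h3)
      _ ≤ D.e / D.g ^ 2 * (1 / (D.g * D.n) * D.d) * (D.ζ * D.g ^ 3) := by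
          refine mul_le_mul_of_nonneg_right ?_ (by positivity)
          exact mul_le_mul hθg h2 h3 (by positivity)
      _ = D.e * D.d * D.ζ / D.n := by
          field_simp
  have hk5 : θ * (1 - 2 * θ * D.Δ) * (lam * Z * (2 * (1 - D.ε) - 4 * (D.Δ / (γ * D.d)))) ≥
      θ * (lam * Z) * (2 - (2 * D.ε + 4 * (D.Δ / (γ * D.d)) + 4 * (θ * D.Δ))) := by
    have h1 : 0 ≤ θ * (lam * Z) := mul_nonneg hθ0.le (mul_nonneg hl0 hZ0)
    have h2 : (0 : ℝ) ≤ 2 * θ * D.Δ * (2 * D.ε + 4 * (D.Δ / (γ * D.d))) := by positivity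
    have h3 := mul_nonneg h1 h2
    have h4 : θ * (1 - 2 * θ * D.Δ) * (lam * Z * (2 * (1 - D.ε) - 4 * (D.Δ / (γ * D.d)))) =
      θ * (lam * Z) * (2 - (2 * D.ε + 4 * (D.Δ / (γ * D.d)) + 4 * (θ * D.Δ))) +
        θ * (lam * Z) * (2 * θ * D.Δ * (2 * D.ε + 4 * (D.Δ / (γ * D.d)))) := by ring
    rw [h4]
    linarith
  have hk6 : θ * (lam * Z) * (2 - (2 * D.ε + 4 * (D.Δ / (γ * D.d)) + 4 * (θ * D.Δ))) =
      θ * Z - θ * Z * (1 - 2 * lam) -
        θ * (lam * Z) * (2 * D.ε + 4 * (D.Δ / (γ * D.d)) + 4 * (θ * D.Δ)) := by ring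
  rw [hk6] at hk5
  linarith

end Pool.Agent.Lib.GHE
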