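import Mathlib
import Pool.Agent.Lib.MP_df0165_co.Ap.PhiCont
import Pool.Agent.Lib.MP_df0165_co.Ex.Stmts

set_option autoImplicit false
set_option linter.unusedSectionVars false

/-!
# Exact Graham-Haggkvist for expander hosts: continuity of the potential along a broadcast
-/

namespace Pool.Agent.Lib.GHE.Cont

open Finset Classical Pool.Agent.Lib.GHA

variable {U V : Type} [Fintype U] [Fintype V]

lemma GA_cont (P : Par) (H : SimpleGraph V) (B : Finset V) (X : TD V) (D : Finset U)
    (ψ : U → V) (τ : U → ℝ) {p : U} (hp : p ∈ D) :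
    ContinuousOn (fun t : ℝ => GA P H B X D ψ (bump τ p t)) (PhiCont.SS H D ψ τ p) := by
  unfold GA
  apply ContinuousOn.add
  · apply ContinuousOn.add
    · apply continuousOn_finsetSum
      intro A _
      exact PhiCont.At_cont H D ψ τ hp _ _ _ _
    · apply continuousOn_finsetSum
      intro t _
      apply continuousOn_finsetSum
      intro q _
      exact PhiCont.At_cont H D ψ τ hp _ _ _ _
  · apply continuousOn_finsetSum
    intro q _
    exact PhiCont.At_cont H D ψ τ hp _ _ _ _

lemma exs_cont (D : Finset U) (ψ : U → V) (A : Finset V) :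
    Continuous (fun τ : U → ℝ => exs D ψ τ A) := by
  unfold exs
  apply continuous_finset_sum
  intro u _
  by_cases h : ψ u ∈ A
  · simp only [h, if_true]; fun_prop
  · simp only [h, if_false]; fun_prop

lemma GE_cont (P : Par) (X : TD V) (l : List (U × U)) (D : Finset U) (ψ : U → V) :
    Continuous (fun τ : U → ℝ => GE P X l D ψ τ) := by
  unfold GE
  have h := exs_cont D ψ X.Av
  fun_prop

theorem main : StCont2 := by
  intro U V _ _ Q T lw H B X w p l D ψ τ hp
  unfold PHI2
  have h0 : ContinuousOn (fun t : ℝ => PHI Q.P T H B ((w, p) :: l) D ψ (bump τ p t))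
      (PhiCont.SS H D ψ τ p) := stPhiCont U V Q.P T H B w p l D ψ τ hp
  have h3 := ((PhiCont.G3_cont Q.P T H B ((w, p) :: l) D ψ).comp
    (continuous_bump τ p)).continuousOn (s := PhiCont.SS H D ψ τ p)
  have hA := GA_cont Q.P H B X D ψ τ hp
  have hE := ((GE_cont Q.P X ((w, p) :: l) D ψ).comp
    (continuous_bump τ p)).continuousOn (s := PhiCont.SS H D ψ τ p)
  exact (((h0.add (continuousOn_const.mul h3)).add (continuousOn_const.mul hA)).add
    continuousOn_const).add (continuousOn_const.mul hE)

end Pool.Agent.Lib.GHE.Cont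

namespace Pool.Agent.Lib.GHE

theorem stCont2 : StCont2 := Cont.main

end Pool.Agent.Lib.GHE
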