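import Mathlib
import Pool.Agent.Lib.MP_df0165_co.Ex.Base

set_option autoImplicit false
set_option linter.unusedSectionVars false

/-!
# Exact Graham-Haggkvist for expander hosts: counting arcs
-/

namespace Pool.Agent.Lib.GHE.Count

open Finset Classical Pool.Agent.Lib.GHA Pool.Agent.Lib.GHE

variable {V : Type} [Fintype V]

lemma mem_on {o : V → V → Prop} {u v : V} : v ∈ on o u ↔ o u v := by simp [on]

/-- Arcs counted by their tails and by their heads. -/
lemma sum_on_flip (o : V → V → Prop) :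
    ∑ v : V, (on o v).card = ∑ v : V, (on (fun x y => o y x) v).card := by
  unfold on
  simp only [Finset.card_filter]
  rw [Finset.sum_comm]

/-- The degrees in the parts of a splitting. -/
lemma card_split {G H0 R1 : SimpleGraph V} {o2 : V → V → Prop} (h : Spl G H0 R1 o2) (v : V) :
    (nb G v).card = (nb H0 v).card + (nb R1 v).card + (on o2 v).card
      + (on (fun x y => o2 y x) v).card := by
  have h1 : nb G v = ((nb H0 v ∪ nb R1 v) ∪ on o2 v) ∪ on (fun x y => o2 y x) v := by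
    ext x
    simp only [Finset.mem_union, mem_nb, mem_on]
    constructor
    · intro hx
      rcases h.part v x hx with h' | h' | h' | h'
      · exact Or.inl (Or.inl (Or.inl h'))
      · exact Or.inl (Or.inl (Or.inr h'))
      · exact Or.inl (Or.inr h')
      · exact Or.inr h'
    · rintro (((h' | h') | h') | h')
      · exact h.h0 h'
      · exact h.r1 h'
      · exact h.o2_adj _ _ h'
      · exact (h.o2_adj _ _ h').symm
  have d1 : Disjoint (nb H0 v) (nb R1 v) := by
    rw [Finset.disjoint_left]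
    intro x hx hx'
    rw [mem_nb] at hx hx'
    exact h.d1 v x hx hx'
  have d2 : Disjoint (nb H0 v ∪ nb R1 v) (on o2 v) := by
    rw [Finset.disjoint_left]
    intro x hx hx'
    rw [mem_on] at hx'
    rw [Finset.mem_union, mem_nb, mem_nb] at hx
    rcases hx with hx | hx
    · exact h.d2 v x hx hx'
    · exact h.d3 v x hx hx'
  have d3 : Disjoint ((nb H0 v ∪ nb R1 v) ∪ on o2 v) (on (fun x y => o2 y x) v) := by
    rw [Finset.disjoint_left]
    intro x hx hx'
    rw [mem_on] at hx'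
    rw [Finset.mem_union, Finset.mem_union, mem_nb, mem_nb, mem_on] at hx
    rcases hx with (hx | hx) | hx
    · exact h.d2 x v hx.symm hx'
    · exact h.d3 x v hx.symm hx'
    · exact h.o2_asymm v x hx hx'
  rw [h1, Finset.card_union_of_disjoint d3, Finset.card_union_of_disjoint d2,
    Finset.card_union_of_disjoint d1]

/-- Arcs of the orientation of `L` from smaller to larger vertices. -/
noncomputable def lp (L : SimpleGraph V) (v : V) : Finset V :=
  (nb L v).filter (fun x => Fintype.equivFin V v < Fintype.equivFin V x)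

lemma mem_lp {L : SimpleGraph V} {v x : V} :
    x ∈ lp L v ↔ L.Adj v x ∧ Fintype.equivFin V v < Fintype.equivFin V x := by
  simp [lp, mem_nb]

lemma lp_le (L : SimpleGraph V) (v : V) : (lp L v).card ≤ (nb L v).card :=
  Finset.card_le_card (Finset.filter_subset _ _)

lemma sum_lp (L : SimpleGraph V) : 2 * ∑ v : V, (lp L v).card = ∑ v : V, (nb L v).card := by
  have h1 : ∀ v : V, (nb L v).card
      = (on (fun x y => y ∈ lp L x) v).card + (on (fun x y => x ∈ lp L y) v).card := by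
    intro v
    rw [← Finset.card_union_of_disjoint]
    · congr 1
      ext x
      simp only [Finset.mem_union, mem_nb, mem_on, mem_lp]
      constructor
      · intro hx
        rcases lt_trichotomy (Fintype.equivFin V v) (Fintype.equivFin V x) with h | h | h
        · exact Or.inl ⟨hx, h⟩
        · exact absurd ((Fintype.equivFin V).injective h) hx.ne
        · exact Or.inr ⟨hx.symm, h⟩
      · rintro (h | h)
        · exact h.1
        · exact h.1.symm
    · rw [Finset.disjoint_left]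
      intro x hx hx'
      rw [mem_on, mem_lp] at hx hx'
      exact lt_asymm hx.2 hx'.2
  have h2 : ∀ v : V, on (fun x y => y ∈ lp L x) v = lp L v := by
    intro v; ext x; rw [mem_on]
  have h3 := sum_on_flip (fun x y => y ∈ lp L x)
  rw [Finset.sum_congr rfl (fun v _ => h1 v), Finset.sum_add_distrib, ← h3]
  simp only [h2]
  ring

/-- The arcs of the rest. -/
def oo (o2 o1 : V → V → Prop) (L : SimpleGraph V) (u v : V) : Prop :=
  o2 u v ∨ o1 u v ∨ v ∈ lp L u

lemma on_oo {G H0 R1 L : SimpleGraph V} {o2 o1 : V → V → Prop} (h : Spl G H0 R1 o2)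
    (h1 : ∀ u v, o1 u v → R1.Adj u v) (hL : L ≤ H0) (u : V) :
    (on (oo o2 o1 L) u).card = (on o2 u).card + (on o1 u).card + (lp L u).card := by
  have e : on (oo o2 o1 L) u = (on o2 u ∪ on o1 u) ∪ lp L u := by
    ext x
    simp only [Finset.mem_union, mem_on, oo, or_assoc]
  rw [e, Finset.card_union_of_disjoint, Finset.card_union_of_disjoint]
  · rw [Finset.disjoint_left]
    intro x hx hx'
    rw [mem_on] at hx hx'
    exact h.d3 u x (h1 u x hx') hx
  · rw [Finset.disjoint_left]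
    intro x hx hx'
    rw [mem_lp] at hx'
    rw [Finset.mem_union, mem_on, mem_on] at hx
    rcases hx with hx | hx
    · exact h.d2 u x (hL hx'.1) hx
    · exact h.d1 u x (hL hx'.1) (h1 u x hx)

/-- The out-neighbourhoods of the rest lie in the neighbourhoods outside `H0` and in `L`. -/
lemma on_oo_subset {G H0 R1 L : SimpleGraph V} {o2 o1 : V → V → Prop} (h : Spl G H0 R1 o2)
    (h1 : ∀ u v, o1 u v → R1.Adj u v) (u : V) :
    on (oo o2 o1 L) u ⊆ rn G H0 u ∪ nb L u := by
  intro x hx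
  rw [mem_on] at hx
  rw [Finset.mem_union, rn, Finset.mem_sdiff, mem_nb, mem_nb, mem_nb]
  rcases hx with hx | hx | hx
  · exact Or.inl ⟨h.o2_adj _ _ hx, fun h' => h.d2 _ _ h' hx⟩
  · exact Or.inl ⟨h.r1 (h1 _ _ hx), fun h' => h.d1 _ _ h' (h1 _ _ hx)⟩
  · exact Or.inr (mem_lp.1 hx).1

/-- The in-neighbourhoods of the rest. -/
lemma in_oo_subset {G H0 R1 L : SimpleGraph V} {o2 o1 : V → V → Prop} (h : Spl G H0 R1 o2)
    (h1 : ∀ u v, o1 u v → R1.Adj u v) (y : V) :
    univ.filter (fun u => y ∈ on (oo o2 o1 L) u) ⊆ rn G H0 y ∪ nb L y := by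
  intro u hu
  rw [Finset.mem_filter, mem_on] at hu
  rw [Finset.mem_union, rn, Finset.mem_sdiff, mem_nb, mem_nb, mem_nb]
  rcases hu.2 with hx | hx | hx
  · exact Or.inl ⟨(h.o2_adj _ _ hx).symm, fun h' => h.d2 _ _ h'.symm hx⟩
  · exact Or.inl ⟨(h.r1 (h1 _ _ hx)).symm, fun h' => h.d1 _ _ h'.symm (h1 _ _ hx)⟩
  · exact Or.inr (mem_lp.1 hx).1.symm

lemma oo_adj {G H0 R1 L : SimpleGraph V} {o2 o1 : V → V → Prop} (h : Spl G H0 R1 o2)
    (h1 : ∀ u v, o1 u v → R1.Adj u v) (hL : L ≤ H0) {u v : V} (huv : oo o2 o1 L u v) :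
    G.Adj u v := by
  rcases huv with hx | hx | hx
  · exact h.o2_adj _ _ hx
  · exact h.r1 (h1 _ _ hx)
  · exact h.h0 (hL (mem_lp.1 hx).1)

lemma oo_asymm {G H0 R1 L : SimpleGraph V} {o2 o1 : V → V → Prop} (h : Spl G H0 R1 o2)
    (h1 : ∀ u v, o1 u v → R1.Adj u v) (h2 : ∀ u v, R1.Adj u v → (o1 u v ↔ ¬ o1 v u))
    (hL : L ≤ H0) {u v : V} (huv : oo o2 o1 L u v) : ¬ oo o2 o1 L v u := by
  intro hvu
  rcases huv with hx | hx | hx <;> rcases hvu with hy | hy | hy
  · exact h.o2_asymm _ _ hx hy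
  · exact h.d3 _ _ (h1 _ _ hy).symm hx
  · exact h.d2 _ _ (hL (mem_lp.1 hy).1).symm hx
  · exact h.d3 _ _ (h1 _ _ hx).symm hy
  · exact (h2 _ _ (h1 _ _ hx)).1 hx hy
  · exact h.d1 _ _ (hL (mem_lp.1 hy).1).symm (h1 _ _ hx)
  · exact h.d2 _ _ (hL (mem_lp.1 hx).1).symm hy
  · exact h.d1 _ _ (hL (mem_lp.1 hx).1).symm (h1 _ _ hy)
  · exact lt_asymm (mem_lp.1 hx).2 (mem_lp.1 hy).2

lemma oo_cover {G H0 R1 L : SimpleGraph V} {o2 o1 : V → V → Prop} (h : Spl G H0 R1 o2)
    (h2 : ∀ u v, R1.Adj u v → (o1 u v ↔ ¬ o1 v u))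
    {u v : V} (huv : G.Adj u v) :
    (H0.Adj u v ∧ ¬ L.Adj u v) ∨ oo o2 o1 L u v ∨ oo o2 o1 L v u := by
  rcases h.part u v huv with hx | hx | hx | hx
  · by_cases hl : L.Adj u v
    · right
      rcases lt_trichotomy (Fintype.equivFin V u) (Fintype.equivFin V v) with h' | h' | h'
      · exact Or.inl (Or.inr (Or.inr (mem_lp.2 ⟨hl, h'⟩)))
      · exact absurd ((Fintype.equivFin V).injective h') huv.ne
      · exact Or.inr (Or.inr (Or.inr (mem_lp.2 ⟨hl.symm, h'⟩)))
    · exact Or.inl ⟨hx, hl⟩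
  · right
    by_cases hy : o1 v u
    · exact Or.inr (Or.inr (Or.inl hy))
    · exact Or.inl (Or.inr (Or.inl ((h2 u v hx).2 hy)))
  · exact Or.inr (Or.inl (Or.inl hx))
  · exact Or.inr (Or.inr (Or.inl hx))

lemma oo_disj {G H0 R1 L : SimpleGraph V} {o2 o1 : V → V → Prop} (h : Spl G H0 R1 o2)
    (h1 : ∀ u v, o1 u v → R1.Adj u v) {u v : V} (huv : H0.Adj u v ∧ ¬ L.Adj u v) :
    ¬ oo o2 o1 L u v := by
  rintro (hx | hx | hx)
  · exact h.d2 _ _ huv.1 hx
  · exact h.d1 _ _ huv.1 (h1 _ _ hx)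
  · exact huv.2 (mem_lp.1 hx).1

end Pool.Agent.Lib.GHE.Count
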