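import Mathlib
import Pool.Agent.Lib.MP_df0165_co.Ex.Count

set_option autoImplicit false
set_option linter.unusedSectionVars false

/-!
# Exact Graham-Haggkvist for expander hosts: orientation and distribution
-/

namespace Pool.Agent.Lib.GHE.Core

open Finset Classical Pool.Agent.Lib.GHA Pool.Agent.Lib.GHE Pool.Agent.Lib.GHE.Count

variable {U V : Type} [Fintype U] [Fintype V]

/-- All data after the random splitting and the dynamics; `d = 2 m`, `n` copies. -/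
structure Dat (T : SimpleGraph U) (m l Δ : ℕ) (S : Finset U) (par : U → U)
    (G H0 R1 : SimpleGraph V) (o2 : V → V → Prop) (f : ℕ → {u : U // u ∉ S} → V)
    (ρ p1 p2 δ0 ε δ χ γN r : ℝ) : Prop where
  tree : T.IsTree
  tree' : (TS T S).IsTree
  card : Fintype.card U = m + 1
  S_card : S.card = l
  m_pos : 1 ≤ m
  l_pos : 1 ≤ l
  par_nb : ∀ s ∈ S, nb T s = {par s}
  par_S : ∀ s ∈ S, par s ∉ S
  deg : ∀ u, (nb T u).card ≤ Δ
  Δ_pos : 1 ≤ Δ
  G_reg : ∀ v, (nb G v).card = 2 * m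
  n2 : 2 ≤ Fintype.card V
  spl : Spl G H0 R1 o2
  R1_deg : ∀ v, |((nb R1 v).card : ℝ) - p1 * (2 * m : ℕ)| ≤ δ * (2 * m : ℕ)
  o2_deg : ∀ v, |((on o2 v).card : ℝ) - p2 * (2 * m : ℕ) / 2| ≤ δ * (2 * m : ℕ)
  rn_cod : ∀ u v, u ≠ v →
    ((rn G H0 u ∩ rn G H0 v).card : ℝ) ≤ ((p1 + p2) ^ 2 + δ) * (2 * m : ℕ)
  cut : ∀ X : Finset V, 2 * X.card ≤ Fintype.card V →
    p1 * χ / 2 * (2 * m : ℕ) * X.card ≤ ∑ u ∈ X, ((nb R1 u \ X).card : ℝ)
  copy : ∀ t, t < Fintype.card V → Function.Injective (f t) ∧ ∀ a b, (TS T S).Adj a b →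
    (Hs (TS T S) H0 f t).Adj (f t a) (f t b)
  L_deg : ∀ v, ((nb (Hs (TS T S) H0 f (Fintype.card V)) v).card : ℝ) ≤ 2 * γN * (2 * m : ℕ)
  a_eq : ∀ u, |(aa (lvs S par) f (Fintype.card V) u : ℝ) - l| ≤ ε * (2 * m : ℕ)
  K_le : ∀ u y, u ≠ y → (KK (lvs S par) f (Fintype.card V) u y : ℝ) ≤ l / 2 + ε * (2 * m : ℕ)
  one : ∀ u c, c < Fintype.card V →
    ((on o2 u ∩ im (f c)).card : ℝ) ≤ (on o2 u).card / 2 + ε * (2 * m : ℕ)
  two : ∀ u c c', c < Fintype.card V → c' < Fintype.card V → c ≠ c' →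
    ((on o2 u ∩ im (f c) ∩ im (f c')).card : ℝ) ≤ (on o2 u).card / 4 + ε * (2 * m : ℕ)
  inR : ∀ c y, c < Fintype.card V → y ∉ im (f c) →
    ((∑ u ∈ rn G H0 y, rq (lvs S par) (f c) u : ℕ) : ℝ) ≤ r * l + ε * (2 * m : ℕ)
  inL : ∀ c y, c < Fintype.card V → y ∉ im (f c) →
    ((∑ u ∈ nb (Hs (TS T S) H0 f (Fintype.card V)) y, rq (lvs S par) (f c) u : ℕ) : ℝ)
      ≤ 2 * γN * (2 * m : ℕ)
  l_eq : (l : ℝ) = ρ * m
  p_eq : p1 + p2 + δ0 = ρ
  p1_pos : 0 ≤ p1
  p2_pos : 0 ≤ p2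
  δ0_pos : 0 ≤ δ0
  ε_pos : 0 ≤ ε
  δ_pos : 0 ≤ δ
  γN_pos : 0 ≤ γN
  k1 : ε + 2 * δ + p1 + 2 * γN ≤ ρ / 20000
  k2 : ρ ^ 2 + δ + 4 * γN ≤ ρ / 20000
  k3 : r * ρ / 2 + ε + 2 * γN ≤ ρ / 20000
  k4 : 2 * (ε + 2 * δ + δ0 / 2 + 2 * γN) ≤ p1 * χ / 2
  k5 : ε + δ + 2 * γN ≤ p1 / 2
  k6 : (Δ : ℝ) * (4 * Real.log (Fintype.card V)) ≤ 1 / 10000 * l

variable {T : SimpleGraph U} {m l Δ : ℕ} {S : Finset U} {par : U → U}
  {G H0 R1 : SimpleGraph V} {o2 : V → V → Prop} {f : ℕ → {u : U // u ∉ S} → V}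
  {ρ p1 p2 δ0 ε δ χ γN r : ℝ}

lemma lvs_le (S : Finset U) (par : U → U) (hpar : ∀ s ∈ S, nb T s = {par s})
    (hΔ : ∀ u, (nb T u).card ≤ Δ) (x : {u : U // u ∉ S}) : lvs S par x ≤ Δ := by
  refine le_trans (Finset.card_le_card ?_) (hΔ x.1)
  intro s hs
  rw [Finset.mem_filter] at hs
  rw [mem_nb]
  have h1 : par s ∈ nb T s := by rw [hpar s hs.1]; exact Finset.mem_singleton_self _
  rw [hs.2, mem_nb] at h1
  exact h1.symm

lemma sum_lvs (S : Finset U) (par : U → U) (hpar : ∀ s ∈ S, par s ∉ S) :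
    ∑ x : {u : U // u ∉ S}, lvs S par x = S.card := by
  unfold lvs
  simp only [Finset.card_filter]
  rw [Finset.sum_comm, Finset.card_eq_sum_ones]
  refine Finset.sum_congr rfl (fun s hs => ?_)
  rw [Finset.sum_eq_single (⟨par s, hpar s hs⟩ : {u : U // u ∉ S})]
  · simp
  · intro x _ hx
    rw [if_neg]
    intro h
    exact hx (Subtype.ext h.symm)
  · intro h
    exact absurd (Finset.mem_univ _) h

/-- Requests, cut off for the copies which are not used. -/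
noncomputable def rqq (S : Finset U) (par : U → U) (f : ℕ → {u : U // u ∉ S} → V) (c : ℕ)
    (u : V) : ℕ := if c < Fintype.card V then rq (lvs S par) (f c) u else 0

lemma rqq_eq (S : Finset U) (par : U → U) (f : ℕ → {u : U // u ∉ S} → V) {c : ℕ}
    (hc : c < Fintype.card V) (u : V) : rqq S par f c u = rq (lvs S par) (f c) u := if_pos hc

/-- The whole graph `L` of leftover edges. -/
noncomputable def LL (T : SimpleGraph U) (S : Finset U) (H0 : SimpleGraph V)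
    (f : ℕ → {u : U // u ∉ S} → V) : SimpleGraph V :=
  Hs (TS T S) H0 f (Fintype.card V)

namespace Dat

variable (D : Dat T m l Δ S par G H0 R1 o2 f ρ p1 p2 δ0 ε δ χ γN r)

include D

lemma d_pos : (0 : ℝ) < (2 * m : ℕ) := by
  have := D.m_pos
  exact_mod_cast (by omega : 0 < 2 * m)

lemma l_d : (l : ℝ) = ρ * (2 * m : ℕ) / 2 := by
  rw [D.l_eq]; push_cast; ring

lemma LL_le : LL T S H0 f ≤ H0 := Hs_le _ _ _ _

lemma ρ_pos : 0 ≤ ρ := by
  have := D.p_eq
  have := D.p1_pos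
  have := D.p2_pos
  have := D.δ0_pos
  linarith

/-- number of requests minus fixed arcs, as a natural number -/
lemma b_ge (u : V) : (on o2 u).card + (lp (LL T S H0 f) u).card
    ≤ aa (lvs S par) f (Fintype.card V) u := by
  have h1 := (abs_le.1 (D.a_eq u)).1
  have h2 := (abs_le.1 (D.o2_deg u)).2
  have h3 : ((lp (LL T S H0 f) u).card : ℝ) ≤ 2 * γN * (2 * m : ℕ) :=
    le_trans (by exact_mod_cast lp_le _ u) (D.L_deg u)
  have h4 := D.l_d
  have hd := D.d_pos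
  have h5 := D.k5
  have h6 := D.p_eq
  have h7 := D.δ0_pos
  have h8 : (ε + δ + 2 * γN) * (2 * m : ℕ) ≤ p1 / 2 * (2 * m : ℕ) :=
    mul_le_mul_of_nonneg_right h5 hd.le
  have h9 : ρ * (2 * m : ℕ) = (p1 + p2 + δ0) * (2 * m : ℕ) := by rw [h6]
  have h10 : 0 ≤ δ0 * (2 * m : ℕ) := mul_nonneg h7 hd.le
  have : (((on o2 u).card + (lp (LL T S H0 f) u).card : ℕ) : ℝ)
      ≤ (aa (lvs S par) f (Fintype.card V) u : ℝ) := by
    push_cast at *
    nlinarith
  exact_mod_cast this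

lemma l_le : l ≤ m := by
  have h3 : (univ : Finset U).card = m + 1 := by rw [Finset.card_univ, D.card]
  obtain ⟨s, hs⟩ : S.Nonempty := Finset.card_pos.1 (by rw [D.S_card]; exact D.l_pos)
  have h4 : (insert (par s) S).card ≤ m + 1 := by
    rw [← h3]; exact Finset.card_le_univ _
  rw [Finset.card_insert_of_notMem (D.par_S s hs), D.S_card] at h4
  omega

lemma card_U' : Fintype.card {u : U // u ∉ S} = (m - l) + 1 := by
  have h1 : Fintype.card {u : U // u ∉ S} = Fintype.card U - S.card := by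
    rw [Fintype.card_subtype_compl (fun u => u ∈ S)]
    simp
  have h2 := D.l_le
  rw [h1, D.card, D.S_card]
  omega

lemma sum_Hs (t : ℕ) (ht : t ≤ Fintype.card V) :
    sd (Hs (TS T S) H0 f t) = sd H0 - t * (2 * ((m : ℝ) - l)) := by
  have hc : ((m - l : ℕ) : ℝ) = (m : ℝ) - l := by
    rw [Nat.cast_sub D.l_le]
  induction t with
  | zero => simp [Hs]
  | succ t ih =>
    have h1 := D.copy t (by omega)
    rw [Hs_succ, sd_del D.tree' D.card_U' h1.1 h1.2, ih (by omega), hc]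
    push_cast
    ring

lemma sum_aa : ∑ u : V, aa (lvs S par) f (Fintype.card V) u = Fintype.card V * l := by
  unfold aa
  rw [Finset.sum_comm]
  have h1 : ∀ c ∈ range (Fintype.card V), ∑ u : V, rq (lvs S par) (f c) u = l := by
    intro c _
    rw [sum_rq, sum_lvs S par D.par_S, D.S_card]
  rw [Finset.sum_congr rfl h1]
  simp

/-- prescribed out-degrees for `R1` -/
noncomputable def b (_D : Dat T m l Δ S par G H0 R1 o2 f ρ p1 p2 δ0 ε δ χ γN r) (u : V) : ℕ :=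
  aa (lvs S par) f (Fintype.card V) u - ((on o2 u).card + (lp (LL T S H0 f) u).card)

lemma b_add (u : V) : D.b u + ((on o2 u).card + (lp (LL T S H0 f) u).card)
    = aa (lvs S par) f (Fintype.card V) u := Nat.sub_add_cancel (D.b_ge u)

lemma sum_b : ∑ v : V, (nb R1 v).card = 2 * ∑ v : V, D.b v := by
  have h1 : ∑ v : V, (nb G v).card = Fintype.card V * (2 * m) := by
    rw [Finset.sum_congr rfl (fun v _ => D.G_reg v)]
    simp
  have h2 : ∑ v : V, (nb G v).card = ∑ v : V, (nb H0 v).card + ∑ v : V, (nb R1 v).card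
      + 2 * ∑ v : V, (on o2 v).card := by
    rw [Finset.sum_congr rfl (fun v _ => card_split D.spl v), Finset.sum_add_distrib,
      Finset.sum_add_distrib, Finset.sum_add_distrib, ← sum_on_flip o2]
    ring
  have h3 := D.sum_Hs (Fintype.card V) le_rfl
  have h4 : 2 * ∑ v : V, (lp (LL T S H0 f) v).card = ∑ v : V, (nb (LL T S H0 f) v).card :=
    sum_lp _
  have h5 : ∑ v : V, D.b v + (∑ v : V, (on o2 v).card + ∑ v : V, (lp (LL T S H0 f) v).card)
      = Fintype.card V * l := by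
    rw [← D.sum_aa, ← Finset.sum_add_distrib, ← Finset.sum_add_distrib]
    exact Finset.sum_congr rfl (fun v _ => D.b_add v)
  have h3' : ((∑ v : V, (nb (LL T S H0 f) v).card : ℕ) : ℝ)
      = ((∑ v : V, (nb H0 v).card : ℕ) : ℝ) - Fintype.card V * (2 * ((m : ℝ) - l)) := by
    have := h3
    unfold sd at this
    push_cast
    exact this
  have h4' : (2 : ℝ) * ((∑ v : V, (lp (LL T S H0 f) v).card : ℕ) : ℝ)
      = ((∑ v : V, (nb (LL T S H0 f) v).card : ℕ) : ℝ) := by exact_mod_cast h4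
  have h5' : ((∑ v : V, D.b v : ℕ) : ℝ) + (((∑ v : V, (on o2 v).card : ℕ) : ℝ)
      + ((∑ v : V, (lp (LL T S H0 f) v).card : ℕ) : ℝ)) = Fintype.card V * (l : ℝ) := by
    exact_mod_cast h5
  have h12 : (Fintype.card V : ℝ) * (2 * m) = ((∑ v : V, (nb H0 v).card : ℕ) : ℝ)
      + ((∑ v : V, (nb R1 v).card : ℕ) : ℝ) + 2 * ((∑ v : V, (on o2 v).card : ℕ) : ℝ) := by
    have := h1.symm.trans h2
    exact_mod_cast this
  have : ((∑ v : V, (nb R1 v).card : ℕ) : ℝ) = ((2 * ∑ v : V, D.b v : ℕ) : ℝ) := by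
    push_cast at h3' h4' h5' h12 ⊢
    linarith
  exact_mod_cast this

lemma b_close (v : V) : |(D.b v : ℝ) - (nb R1 v).card / 2|
    ≤ (ε + 2 * δ + δ0 / 2 + 2 * γN) * (2 * m : ℕ) := by
  have h1 := abs_le.1 (D.a_eq v)
  have h2 := abs_le.1 (D.o2_deg v)
  have h3 : ((lp (LL T S H0 f) v).card : ℝ) ≤ 2 * γN * (2 * m : ℕ) :=
    le_trans (by exact_mod_cast lp_le _ v) (D.L_deg v)
  have h3' : (0 : ℝ) ≤ ((lp (LL T S H0 f) v).card : ℝ) := Nat.cast_nonneg _
  have h4 := D.l_d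
  have hd := D.d_pos
  have h6 := D.p_eq
  have h7 : 0 ≤ δ0 * (2 * m : ℕ) := mul_nonneg D.δ0_pos hd.le
  have h8 := abs_le.1 (D.R1_deg v)
  have h9 : 0 ≤ γN * (2 * m : ℕ) := mul_nonneg D.γN_pos hd.le
  have h10 : 0 ≤ δ * (2 * m : ℕ) := mul_nonneg D.δ_pos hd.le
  have h11 : (D.b v : ℝ) + ((on o2 v).card + (lp (LL T S H0 f) v).card)
      = aa (lvs S par) f (Fintype.card V) v := by exact_mod_cast D.b_add v
  have h12 : ρ * (2 * m : ℕ) = p1 * (2 * m : ℕ) + p2 * (2 * m : ℕ) + δ0 * (2 * m : ℕ) := by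
    rw [← h6]; ring
  rw [abs_le]
  have e : (ε + 2 * δ + δ0 / 2 + 2 * γN) * (2 * m : ℕ) = ε * (2 * m : ℕ) + 2 * (δ * (2 * m : ℕ))
      + δ0 * (2 * m : ℕ) / 2 + 2 * (γN * (2 * m : ℕ)) := by ring
  have e2 : 2 * γN * (2 * m : ℕ) = 2 * (γN * (2 * m : ℕ)) := by ring
  rw [e]
  rw [e2] at h3
  constructor <;> linarith [h1.1, h1.2, h2.1, h2.2, h8.1, h8.2]

/-- The orientation of `R1`. -/
lemma orient (hOri : StOri2) : ∃ o1 : V → V → Prop, (∀ u v, o1 u v → R1.Adj u v) ∧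
    (∀ u v, R1.Adj u v → (o1 u v ↔ ¬ o1 v u)) ∧ ∀ u, (on o1 u).card = D.b u := by
  refine hOri V R1 D.b ((ε + 2 * δ + δ0 / 2 + 2 * γN) * (2 * m : ℕ)) D.sum_b D.b_close ?_
  intro X hX
  refine le_trans ?_ (D.cut X hX)
  have hd := D.d_pos
  have h1 : 2 * ((ε + 2 * δ + δ0 / 2 + 2 * γN) * (2 * m : ℕ)) ≤ p1 * χ / 2 * (2 * m : ℕ) := by
    have := mul_le_mul_of_nonneg_right D.k4 hd.le
    linarith
  exact mul_le_mul_of_nonneg_right h1 (Nat.cast_nonneg _)

lemma kl {x : ℝ} (h : x ≤ ρ / 20000) : x * (2 * m : ℕ) ≤ 1 / 10000 * l := by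
  have hd := D.d_pos
  have := mul_le_mul_of_nonneg_right h hd.le
  rw [D.l_d]
  linarith

/-- size of the out-neighbourhood of the rest -/
lemma card_on {o1 : V → V → Prop} (ho : ∀ u v, o1 u v → R1.Adj u v)
    (hc : ∀ u, (on o1 u).card = D.b u) (u : V) :
    (on (oo o2 o1 (LL T S H0 f)) u).card = aa (lvs S par) f (Fintype.card V) u := by
  rw [on_oo D.spl ho D.LL_le, hc, ← D.b_add u]
  ring

/-- the arcs outside `o2` are few -/
lemma rest_small {o1 : V → V → Prop} (ho : ∀ u v, o1 u v → R1.Adj u v) (u : V) :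
    ((on o1 u).card : ℝ) + (lp (LL T S H0 f) u).card
      ≤ (p1 + δ + 2 * γN) * (2 * m : ℕ) := by
  have h1 : ((on o1 u).card : ℝ) ≤ (nb R1 u).card := by
    have : on o1 u ⊆ nb R1 u := by
      intro x hx
      rw [mem_on] at hx
      exact mem_nb.2 (ho _ _ hx)
    exact_mod_cast Finset.card_le_card this
  have h2 := (abs_le.1 (D.R1_deg u)).2
  have h3 : ((lp (LL T S H0 f) u).card : ℝ) ≤ 2 * γN * (2 * m : ℕ) :=
    le_trans (by exact_mod_cast lp_le _ u) (D.L_deg u)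
  have e : (p1 + δ + 2 * γN) * (2 * m : ℕ) = p1 * (2 * m : ℕ) + δ * (2 * m : ℕ)
    + 2 * γN * (2 * m : ℕ) := by ring
  rw [e]
  linarith

/-- intersection of an out-neighbourhood with a set -/
lemma card_inter {o1 : V → V → Prop} (A : Finset V) (u : V) :
    ((on (oo o2 o1 (LL T S H0 f)) u ∩ A).card : ℝ) ≤ (on o2 u ∩ A).card
      + (((on o1 u).card : ℝ) + (lp (LL T S H0 f) u).card) := by
  have h1 : on (oo o2 o1 (LL T S H0 f)) u ∩ A ⊆ (on o2 u ∩ A) ∪ (on o1 u ∪ lp (LL T S H0 f) u) := by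
    intro x hx
    rw [Finset.mem_inter, mem_on] at hx
    rw [Finset.mem_union, Finset.mem_inter, Finset.mem_union, mem_on, mem_on]
    rcases hx.1 with h | h | h
    · exact Or.inl ⟨h, hx.2⟩
    · exact Or.inr (Or.inl h)
    · exact Or.inr (Or.inr h)
  have h2 := (Finset.card_le_card h1).trans (Finset.card_union_le _ _)
  have h3 := h2.trans (Nat.add_le_add_left (Finset.card_union_le _ _) _)
  exact_mod_cast h3

/-- The data for the distribution of the leaves. -/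
lemma ld {o1 : V → V → Prop} (ho : ∀ u v, o1 u v → R1.Adj u v)
    (hc : ∀ u, (on o1 u).card = D.b u) :
    LD (Fintype.card V) Δ (l : ℝ) (fun c => im (f c)) (rqq S par f)
      (fun u => on (oo o2 o1 (LL T S H0 f)) u) := by
  have hd := D.d_pos
  have hp1 := D.p1_pos
  have hε := D.ε_pos
  have hδ := D.δ_pos
  have hγ := D.γN_pos
  have hδ0 := D.δ0_pos
  have hpe := D.p_eq
  have hk1 := D.k1
  have hk2 := D.k2
  have hk3 := D.k3
  have hld := D.l_d
  have hlw := lvs_le S par D.par_nb D.deg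
  have hεl : ε * (2 * m : ℕ) ≤ 1 / 10000 * l := D.kl (by linarith)
  have hsm : ∀ u, ((on o2 u).card : ℝ) ≤ l + δ * (2 * m : ℕ) := by
    intro u
    have h := (abs_le.1 (D.o2_deg u)).2
    have h1 : p2 * (2 * m : ℕ) ≤ ρ * (2 * m : ℕ) :=
      mul_le_mul_of_nonneg_right (by linarith) hd.le
    linarith
  refine
    { N_le := le_rfl
      card2 := D.n2
      L_pos := by exact_mod_cast D.l_pos
      sum := fun u => ?_
      a_lo := fun u => ?_
      a_hi := fun u => ?_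
      one := fun u c hcn => ?_
      two := fun u c c' hcn hcn' hne => ?_
      col := fun u y hy => ?_
      cod := fun u u' hu => ?_
      inn := fun c y hcn hy => ?_
      tot := fun c hcn => ?_
      req_le := ?_
      Δ_pos := D.Δ_pos
      Δ_le := D.k6 }
  · rw [D.card_on ho hc]
    unfold aa
    exact Finset.sum_congr rfl (fun c hcc => (rqq_eq S par f (Finset.mem_range.1 hcc) u).symm)
  · rw [D.card_on ho hc]
    have := (abs_le.1 (D.a_eq u)).1
    linarith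
  · rw [D.card_on ho hc]
    have := (abs_le.1 (D.a_eq u)).2
    linarith
  · have h1 := D.card_inter (o1 := o1) (im (f c)) u
    have h2 := D.rest_small ho u
    have h3 := D.one u c hcn
    have h4 := hsm u
    have h5 : (ε + 2 * δ + p1 + 2 * γN) * (2 * m : ℕ) ≤ 1 / 10000 * l := D.kl hk1
    have e1 : (ε + 2 * δ + p1 + 2 * γN) * (2 * m : ℕ) = ε * (2 * m : ℕ) + 2 * (δ * (2 * m : ℕ))
      + (p1 + 2 * γN) * (2 * m : ℕ) := by ring
    have e2 : (p1 + δ + 2 * γN) * (2 * m : ℕ) = δ * (2 * m : ℕ) + (p1 + 2 * γN) * (2 * m : ℕ) := by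
      ring
    have e3 : 0 ≤ δ * (2 * m : ℕ) := mul_nonneg hδ hd.le
    linarith
  · have h1 := D.card_inter (o1 := o1) (im (f c) ∩ im (f c')) u
    have h2 := D.rest_small ho u
    have h3 := D.two u c c' hcn hcn' hne
    have h4 := hsm u
    have h5 : (ε + 2 * δ + p1 + 2 * γN) * (2 * m : ℕ) ≤ 1 / 10000 * l := D.kl hk1
    have e1 : (ε + 2 * δ + p1 + 2 * γN) * (2 * m : ℕ) = ε * (2 * m : ℕ) + 2 * (δ * (2 * m : ℕ))
      + (p1 + 2 * γN) * (2 * m : ℕ) := by ring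
    have e2 : (p1 + δ + 2 * γN) * (2 * m : ℕ) = δ * (2 * m : ℕ) + (p1 + 2 * γN) * (2 * m : ℕ) := by
      ring
    have e3 : 0 ≤ δ * (2 * m : ℕ) := mul_nonneg hδ hd.le
    simp only [← Finset.inter_assoc] at h1 ⊢
    linarith
  · have hne : u ≠ y := by
      rintro rfl
      rw [mem_on] at hy
      exact G.loopless.irrefl _ (oo_adj D.spl ho D.LL_le hy)
    have h1 := D.K_le u y hne
    have h2 : (∑ c ∈ range (Fintype.card V), if y ∈ im (f c) then rqq S par f c u else 0)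
        = KK (lvs S par) f (Fintype.card V) u y := by
      unfold KK
      exact Finset.sum_congr rfl (fun c hcc => by rw [rqq_eq S par f (Finset.mem_range.1 hcc) u])
    rw [h2]
    linarith
  · have h1 : on (oo o2 o1 (LL T S H0 f)) u ∩ on (oo o2 o1 (LL T S H0 f)) u'
        ⊆ (rn G H0 u ∩ rn G H0 u') ∪ (nb (LL T S H0 f) u ∪ nb (LL T S H0 f) u') := by
      intro x hx
      rw [Finset.mem_inter] at hx
      have a1 := on_oo_subset D.spl ho u hx.1
      have a2 := on_oo_subset D.spl ho u' hx.2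
      rw [Finset.mem_union] at a1 a2
      rw [Finset.mem_union, Finset.mem_inter, Finset.mem_union]
      tauto
    have h2 := (Finset.card_le_card h1).trans (Finset.card_union_le _ _)
    have h3 := h2.trans (Nat.add_le_add_left (Finset.card_union_le _ _) _)
    have h4 : ((on (oo o2 o1 (LL T S H0 f)) u ∩ on (oo o2 o1 (LL T S H0 f)) u').card : ℝ)
        ≤ (rn G H0 u ∩ rn G H0 u').card + (((nb (LL T S H0 f) u).card : ℝ)
          + (nb (LL T S H0 f) u').card) := by exact_mod_cast h3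
    have h5 := D.rn_cod u u' hu
    have h6 := D.L_deg u
    have h7 := D.L_deg u'
    have h8 : (p1 + p2) ^ 2 ≤ ρ ^ 2 := by
      have := D.p2_pos
      exact pow_le_pow_left₀ (by linarith) (by linarith) 2
    have h9 : ((p1 + p2) ^ 2 + δ) * (2 * m : ℕ) ≤ (ρ ^ 2 + δ) * (2 * m : ℕ) :=
      mul_le_mul_of_nonneg_right (by linarith) hd.le
    have h10 : (ρ ^ 2 + δ + 4 * γN) * (2 * m : ℕ) ≤ 1 / 10000 * l := D.kl hk2
    have e1 : (ρ ^ 2 + δ + 4 * γN) * (2 * m : ℕ) = (ρ ^ 2 + δ) * (2 * m : ℕ)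
      + 2 * γN * (2 * m : ℕ) + 2 * γN * (2 * m : ℕ) := by ring
    have h6' : ((nb (LL T S H0 f) u).card : ℝ) ≤ 2 * γN * (2 * m : ℕ) := h6
    have h7' : ((nb (LL T S H0 f) u').card : ℝ) ≤ 2 * γN * (2 * m : ℕ) := h7
    linarith
  · have h1 : univ.filter (fun u => y ∈ on (oo o2 o1 (LL T S H0 f)) u)
        ⊆ rn G H0 y ∪ nb (LL T S H0 f) y := in_oo_subset D.spl ho y
    have h2 : (∑ u ∈ univ.filter (fun u => y ∈ on (oo o2 o1 (LL T S H0 f)) u),
        rq (lvs S par) (f c) u) ≤ ∑ u ∈ rn G H0 y, rq (lvs S par) (f c) u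
          + ∑ u ∈ nb (LL T S H0 f) y, rq (lvs S par) (f c) u := by
      refine (Finset.sum_le_sum_of_subset h1).trans ?_
      have := Finset.sum_union_inter (s₁ := rn G H0 y) (s₂ := nb (LL T S H0 f) y)
        (f := fun u => rq (lvs S par) (f c) u)
      omega
    have h3 := D.inR c y hcn hy
    have h4 := D.inL c y hcn hy
    have h5 : (((∑ u ∈ univ.filter (fun u => y ∈ on (oo o2 o1 (LL T S H0 f)) u),
        rq (lvs S par) (f c) u : ℕ)) : ℝ) ≤ ((∑ u ∈ rn G H0 y, rq (lvs S par) (f c) u : ℕ) : ℝ)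
          + ((∑ u ∈ nb (LL T S H0 f) y, rq (lvs S par) (f c) u : ℕ) : ℝ) := by
      exact_mod_cast h2
    have h6 : (r * ρ / 2 + ε + 2 * γN) * (2 * m : ℕ) ≤ 1 / 10000 * l := D.kl hk3
    have e1 : (r * ρ / 2 + ε + 2 * γN) * (2 * m : ℕ) = r * l + ε * (2 * m : ℕ)
      + 2 * γN * (2 * m : ℕ) := by rw [hld]; ring
    have h4' : ((∑ u ∈ nb (LL T S H0 f) y, rq (lvs S par) (f c) u : ℕ) : ℝ)
      ≤ 2 * γN * (2 * m : ℕ) := h4
    simp only [rqq_eq S par f hcn]
    linarith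
  · have h1 : ∑ u : V, rq (lvs S par) (f c) u = l := by
      rw [sum_rq, sum_lvs S par D.par_S, D.S_card]
    simp only [rqq_eq S par f hcn]
    exact_mod_cast h1.le
  · intro c u
    unfold rqq
    split_ifs with hcn
    · exact rq_le hlw (D.copy c hcn).1 u
    · exact Nat.zero_le _

/-- The decomposition. -/
theorem decomp (hOri : StOri2) (hDist : StDist) (hAsm : StAsm) : Decomp T G := by
  obtain ⟨o1, h1, h2, h3⟩ := D.orient hOri
  obtain ⟨g, g1, g2, g3⟩ := hDist V _ _ _ _ _ _ (D.ld h1 h3)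
  have hL := D.LL_le
  refine hAsm U V T G H0 S par (Fintype.card V) f (oo o2 o1 (LL T S H0 f)) g D.tree D.par_nb
    D.par_S D.spl.h0 D.copy (fun u v h => oo_adj D.spl h1 hL h)
    (fun u v h => oo_asymm D.spl h1 h2 hL h) (fun u v h => oo_cover D.spl h2 h)
    (fun u v h => oo_disj D.spl h1 h) ?_ ?_ ?_
  · intro u c j hc hj
    have := g1 u c j hc (by rw [rqq_eq S par f hc]; exact hj)
    exact ⟨mem_on.1 this.1, this.2⟩
  · intro u y huy
    obtain ⟨p, hp, hu⟩ := g2 u y (mem_on.2 huy)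
    refine ⟨p, ⟨hp.1, ?_, hp.2.2⟩, ?_⟩
    · rw [← rqq_eq S par f hp.1]; exact hp.2.1
    · intro q hq
      exact hu q ⟨hq.1, by rw [rqq_eq S par f hq.1]; exact hq.2.1, hq.2.2⟩
  · intro c u u' j j' hc hj hj' h
    exact g3 c u u' j j' hc (by rw [rqq_eq S par f hc]; exact hj)
      (by rw [rqq_eq S par f hc]; exact hj') h

end Dat

end Pool.Agent.Lib.GHE.Core
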