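import Mathlib
import Pool.Agent.Lib.MP_df0165_co.Ex.Core

set_option autoImplicit false
set_option linter.unusedSectionVars false

/-!
# Exact Graham-Haggkvist for expander hosts: choice of the constants, main theorem
-/

namespace Pool.Agent.Lib.GHE.Fin

open Finset Classical Pool.Agent.Lib.GHA Pool.Agent.Lib.GHE Pool.Agent.Lib.GHE.Count
  Pool.Agent.Lib.GHE.Core

variable {U V : Type} [Fintype U] [Fintype V]

lemma ncard_nb (G : SimpleGraph V) (v : V) : (G.neighborSet v).ncard = (nb G v).card := by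
  rw [← Set.ncard_coe_finset]
  congr 1
  ext x
  simp [nb]

lemma nb_TS_le (T : SimpleGraph U) (S : Finset U) (x : {u : U // u ∉ S}) :
    (nb (TS T S) x).card ≤ (nb T x.1).card := by
  refine Finset.card_le_card_of_injOn Subtype.val ?_ (fun a _ b _ h => Subtype.ext h)
  intro a ha
  rw [Finset.mem_coe, mem_nb] at ha
  rw [Finset.mem_coe, mem_nb]
  exact ha

lemma cut_le (G : SimpleGraph V) (X : Finset V) :
    ({e : Sym2 V | e ∈ G.edgeSet ∧ ∃ x ∈ (X : Set V), ∃ y ∉ (X : Set V), e = s(x, y)}.ncard : ℝ)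
      ≤ ∑ u ∈ X, ((nb G u \ X).card : ℝ) := by
  have h1 : {e : Sym2 V | e ∈ G.edgeSet ∧ ∃ x ∈ (X : Set V), ∃ y ∉ (X : Set V), e = s(x, y)}
      ⊆ (((X.sigma (fun u => nb G u \ X)).image (fun q => s(q.1, q.2)) : Finset (Sym2 V)) :
        Set (Sym2 V)) := by
    rintro e ⟨he, x, hx, y, hy, rfl⟩
    rw [Finset.mem_coe, Finset.mem_image]
    rw [Finset.mem_coe] at hx hy
    refine ⟨⟨x, y⟩, ?_, rfl⟩
    rw [Finset.mem_sigma, Finset.mem_sdiff, mem_nb]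
    exact ⟨hx, he, hy⟩
  have h2 := Set.ncard_le_ncard h1 (Set.toFinite _)
  rw [Set.ncard_coe_finset] at h2
  have h3 := h2.trans Finset.card_image_le
  rw [Finset.card_sigma] at h3
  exact_mod_cast h3

lemma decomp_of_no_edge (T : SimpleGraph U) {G : SimpleGraph V} (h : ∀ x y, ¬ G.Adj x y) :
    Decomp T G := by
  refine ⟨Empty, fun i => i.elim, fun i => i.elim, ?_⟩
  intro e he
  induction e using Sym2.ind with
  | _ x y => exact absurd he (h x y)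

/-- the constants -/
structure Con (β χ p1 δ0 ε : ℝ) : Prop where
  β_pos : 0 < β
  β_le : β ≤ 1 / 10 ^ 6
  χ_pos : 0 < χ
  χ_le : χ ≤ 1 / 2
  p1_eq : p1 = β / 10 ^ 6
  δ0_eq : δ0 = p1 * χ / 100
  ε_eq : ε = p1 * χ / 1000

/-- numerical inequalities for the structure `Dat` -/
lemma con_num {β χ p1 δ0 ε δ γN ρ : ℝ} (h : Con β χ p1 δ0 ε) (hδ' : δ ≤ δ0 / 10)
    (hγ : γN ≤ δ0 + δ) (hρ : β / 2 ≤ ρ) (hρ' : ρ ≤ β) :
    ε + 2 * δ + p1 + 2 * γN ≤ ρ / 20000 ∧ ρ ^ 2 + δ + 4 * γN ≤ ρ / 20000 ∧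
    2 * β * ρ / 2 + ε + 2 * γN ≤ ρ / 20000 ∧ 2 * (ε + 2 * δ + δ0 / 2 + 2 * γN) ≤ p1 * χ / 2 ∧
    ε + δ + 2 * γN ≤ p1 / 2 := by
  have hβ := h.β_pos
  have hβ' := h.β_le
  have hχ := h.χ_pos
  have hχ' := h.χ_le
  have hp1 : 0 < p1 := by rw [h.p1_eq]; positivity
  have hpχ : 0 < p1 * χ := mul_pos hp1 hχ
  have hpχ' : p1 * χ ≤ p1 / 2 := by nlinarith
  have hδ0 := h.δ0_eq
  have hε := h.ε_eq
  have hp1ρ : p1 ≤ 2 * ρ / 10 ^ 6 := by rw [h.p1_eq]; linarith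
  have hρ0 : 0 < ρ := by linarith
  have hρ2 : ρ ^ 2 ≤ ρ / 10 ^ 6 := by nlinarith
  have hβρ : β * ρ ≤ ρ / 10 ^ 6 := by nlinarith
  refine ⟨?_, ?_, ?_, ?_, ?_⟩
  · linarith
  · linarith
  · linarith
  · linarith
  · linarith


lemma hp1_le {β χ p1 δ0 ε : ℝ} (h : Con β χ p1 δ0 ε) : 0 < p1 ∧ p1 ≤ 1 / 10 ^ 12 := by
  have h1 := h.β_pos
  have h2 := h.β_le
  refine ⟨by rw [h.p1_eq]; positivity, ?_⟩
  rw [h.p1_eq]
  linarith only [h2]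

lemma hpχ_le {β χ p1 δ0 ε : ℝ} (h : Con β χ p1 δ0 ε) : 0 < p1 * χ ∧ p1 * χ ≤ p1 / 2 := by
  obtain ⟨h1, h2⟩ := hp1_le h
  have h3 := h.χ_pos
  have h4 := h.χ_le
  refine ⟨mul_pos h1 h3, ?_⟩
  nlinarith only [h1, h4]

lemma hδ0_le {β χ p1 δ0 ε : ℝ} (h : Con β χ p1 δ0 ε) : 0 < δ0 ∧ δ0 ≤ p1 := by
  obtain ⟨h1, h2⟩ := hp1_le h
  obtain ⟨h3, h4⟩ := hpχ_le h
  rw [h.δ0_eq]
  refine ⟨by positivity, by linarith only [h1, h4]⟩

lemma hε_le {β χ p1 δ0 ε : ℝ} (h : Con β χ p1 δ0 ε) : 0 < ε ∧ ε < 1 := by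
  obtain ⟨h1, h2⟩ := hp1_le h
  obtain ⟨h3, h4⟩ := hpχ_le h
  rw [h.ε_eq]
  refine ⟨by positivity, by linarith only [h1, h2, h4]⟩

/-- the statement of the dynamics for fixed constants -/
def DynAt (g β ε δ κ : ℝ) : Prop :=
  ∀ (U V : Type) [Fintype U] [Fintype V] (T : SimpleGraph U) (lw : U → ℕ)
      (m Δ d l N : ℕ) (H0 : SimpleGraph V) (A Bs : V → Finset V) (γ0 r : ℝ),
      T.IsTree → Fintype.card U = m + 1 → 1 ≤ m → (m : ℝ) ≤ (1 - β) * d / 2 → 1 ≤ Δ →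
      (∀ u, (nb T u).card ≤ Δ) → (∀ u, lw u ≤ Δ) → ∑ u : U, lw u = l → l ≤ d →
      2 ≤ Fintype.card V → (Δ : ℝ) * Real.log (Fintype.card V) ≤ κ * d →
      N ≤ Fintype.card V →
      sd H0 = γ0 * (Fintype.card V * d) → 1 / 2 ≤ γ0 → γ0 ≤ 1 →
      g ≤ γ0 - N * (2 * m) / (Fintype.card V * d) →
      (∀ v, (nb H0 v).card ≤ d) → (∀ v, |((nb H0 v).card : ℝ) - γ0 * d| ≤ δ * d) →
      (∀ u v, u ≠ v → ((nb H0 u ∩ nb H0 v).card : ℝ) ≤ (γ0 ^ 2 + δ) * d) →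
      (∀ u, (Bs u).card ≤ d) → (∀ y, (A y).card ≤ d) → 0 ≤ r → r ≤ 1 / 2 →
      (∀ q y, q ≠ y → ((nb H0 q ∩ A y).card : ℝ) ≤ r * γ0 * d) →
      ∃ f : ℕ → U → V, (∀ t, t < N → Function.Injective (f t) ∧
          ∀ a b, T.Adj a b → (Hs T H0 f t).Adj (f t a) (f t b)) ∧
        (∀ v, ((nb (Hs T H0 f N) v).card : ℝ)
          ≤ 2 * (γ0 - N * (2 * m) / (Fintype.card V * d)) * d) ∧
        (∀ u, |(aa lw f N u : ℝ) - N * l / Fintype.card V| ≤ ε * d) ∧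
        (∀ u y, u ≠ y → (KK lw f N u y : ℝ) ≤ N * l / (2 * Fintype.card V) + ε * d) ∧
        (∀ u c, c < N → ((Bs u ∩ im (f c)).card : ℝ) ≤ (Bs u).card / 2 + ε * d) ∧
        (∀ u c c', c < N → c' < N → c ≠ c' →
          ((Bs u ∩ im (f c) ∩ im (f c')).card : ℝ) ≤ (Bs u).card / 4 + ε * d) ∧
        (∀ c y, c < N → y ∉ im (f c) →
          ((∑ u ∈ A y, rq lw (f c) u : ℕ) : ℝ) ≤ r * l + ε * d) ∧
        (∀ c y, c < N → y ∉ im (f c) →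
          ((∑ u ∈ nb (Hs T H0 f N) y, rq lw (f c) u : ℕ) : ℝ)
            ≤ 2 * (γ0 - N * (2 * m) / (Fintype.card V * d)) * d)

/-- the statement of the random splitting for fixed constants -/
def LabAt (δ ν κ : ℝ) : Prop :=
  ∀ (V : Type) [Fintype V] (G : SimpleGraph V) (d : ℕ) (p0 p1 p2 χ : ℝ),
      (∀ v, (nb G v).card = d) → 2 ≤ Fintype.card V → Real.log (Fintype.card V) ≤ κ * d →
      0 ≤ p0 → ν ≤ p1 → 0 ≤ p2 → p0 + p1 + p2 = 1 → ν ≤ χ →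
      (∀ X : Finset V, 2 * X.card ≤ Fintype.card V →
        χ * d * X.card ≤ ∑ u ∈ X, ((nb G u \ X).card : ℝ)) →
      ∃ (H0 R1 : SimpleGraph V) (o2 : V → V → Prop), Spl G H0 R1 o2 ∧
        (∀ v, |((nb H0 v).card : ℝ) - p0 * d| ≤ δ * d) ∧
        (∀ v, |((nb R1 v).card : ℝ) - p1 * d| ≤ δ * d) ∧
        (∀ v, |((on o2 v).card : ℝ) - p2 * d / 2| ≤ δ * d) ∧
        (∀ u v, u ≠ v → ((nb H0 u ∩ nb H0 v).card : ℝ) ≤ (p0 ^ 2 + δ) * d) ∧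
        (∀ u v, u ≠ v → ((rn G H0 u ∩ rn G H0 v).card : ℝ) ≤ ((p1 + p2) ^ 2 + δ) * d) ∧
        (∀ u v, u ≠ v → ((nb H0 u ∩ rn G H0 v).card : ℝ) ≤ (p0 * (p1 + p2) + δ) * d) ∧
        ∀ X : Finset V, 2 * X.card ≤ Fintype.card V →
          p1 * χ / 2 * d * X.card ≤ ∑ u ∈ X, ((nb R1 u \ X).card : ℝ)

/-- choice of the constants -/
lemma exists_con (hDyn : StDyn2) (hLab : StLab) {χ0 η : ℝ} (hχ0 : 0 < χ0) (hη : 0 < η) :
    ∃ β χ p1 δ0 ε δ δD κD κL c : ℝ, Con β χ p1 δ0 ε ∧ χ ≤ χ0 / 2 ∧ β ≤ η / 2 ∧ 0 < δ ∧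
      δ ≤ δD / 8 ∧ δ ≤ δ0 / 10 ∧ 0 < c ∧ c ≤ κD ∧ c ≤ κL ∧ c ≤ β / 10 ^ 5 ∧
      DynAt (δ0 / 2) (β / 2) ε δD κD ∧ LabAt δ (p1 * χ) κL := by
  obtain ⟨χ, hχdef⟩ : ∃ χ : ℝ, χ = min (χ0 / 2) (1 / 2) := ⟨_, rfl⟩
  obtain ⟨β, hβdef⟩ : ∃ β : ℝ, β = min (η / 2) (1 / 10 ^ 6) := ⟨_, rfl⟩
  obtain ⟨p1, hp1def⟩ : ∃ p1 : ℝ, p1 = β / 10 ^ 6 := ⟨_, rfl⟩
  obtain ⟨δ0, hδ0def⟩ : ∃ δ0 : ℝ, δ0 = p1 * χ / 100 := ⟨_, rfl⟩
  obtain ⟨ε, hεdef⟩ : ∃ ε : ℝ, ε = p1 * χ / 1000 := ⟨_, rfl⟩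
  have hχ : 0 < χ := by rw [hχdef]; exact lt_min (by positivity) (by norm_num)
  have hχ' : χ ≤ 1 / 2 := by rw [hχdef]; exact min_le_right _ _
  have hχ0' : χ ≤ χ0 / 2 := by rw [hχdef]; exact min_le_left _ _
  have hβ : 0 < β := by rw [hβdef]; exact lt_min (by positivity) (by norm_num)
  have hβ' : β ≤ 1 / 10 ^ 6 := by rw [hβdef]; exact min_le_right _ _
  have hβη : β ≤ η / 2 := by rw [hβdef]; exact min_le_left _ _
  have hCon : Con β χ p1 δ0 ε := ⟨hβ, hβ', hχ, hχ', hp1def, hδ0def, hεdef⟩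
  obtain ⟨hp1, hp1'⟩ := hp1_le hCon
  obtain ⟨hpχ, hpχ'⟩ := hpχ_le hCon
  obtain ⟨hδ0, hδ0'⟩ := hδ0_le hCon
  obtain ⟨hε, hε'⟩ := hε_le hCon
  obtain ⟨δD, hδD, κD, hκD, hD⟩ := hDyn (δ0 / 2) (β / 2) ε (by positivity)
    (by linarith only [hδ0', hp1']) (by positivity) (by linarith only [hβ']) hε hε'
  obtain ⟨δ, hδdef⟩ : ∃ δ : ℝ, δ = min (δD / 8) (δ0 / 10) := ⟨_, rfl⟩
  have hδ : 0 < δ := by rw [hδdef]; exact lt_min (by positivity) (by positivity)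
  have hδ1 : δ ≤ δD / 8 := by rw [hδdef]; exact min_le_left _ _
  have hδ2 : δ ≤ δ0 / 10 := by rw [hδdef]; exact min_le_right _ _
  obtain ⟨κL, hκL, hL⟩ := hLab δ (p1 * χ) hδ (by linarith only [hδ2, hδ0', hp1']) hpχ
    (by linarith only [hpχ', hp1'])
  obtain ⟨c, hcdef⟩ : ∃ c : ℝ, c = min (min κD κL) (β / 10 ^ 5) := ⟨_, rfl⟩
  have hc : 0 < c := by rw [hcdef]; exact lt_min (lt_min hκD hκL) (by positivity)
  have hcD : c ≤ κD := by rw [hcdef]; exact (min_le_left _ _).trans (min_le_left _ _)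
  have hcL : c ≤ κL := by rw [hcdef]; exact (min_le_left _ _).trans (min_le_right _ _)
  have hcβ : c ≤ β / 10 ^ 5 := by rw [hcdef]; exact min_le_right _ _
  exact ⟨β, χ, p1, δ0, ε, δ, δD, κD, κL, c, hCon, hχ0', hβη, hδ, hδ1, hδ2, hc, hcD, hcL, hcβ,
    hD, hL⟩

/-- basic facts on the number of vertices -/
lemma n_facts (G : SimpleGraph V) (m : ℕ) (hG : ∀ v, (nb G v).card = 2 * m) (hm1 : 1 ≤ m)
    (v0 : V) : 2 * m + 1 ≤ Fintype.card V ∧ 1 ≤ Real.log (Fintype.card V) := by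
  have hn3 : 2 * m + 1 ≤ Fintype.card V := by
    have h1 : (insert v0 (nb G v0)).card ≤ Fintype.card V := Finset.card_le_univ _
    rw [Finset.card_insert_of_notMem, hG v0] at h1
    · exact h1
    · rw [mem_nb]; exact G.loopless.irrefl _
  refine ⟨hn3, ?_⟩
  have h0 : (0 : ℝ) < Fintype.card V := by
    exact_mod_cast (by omega : 0 < Fintype.card V)
  rw [Real.le_log_iff_exp_le h0]
  have h1 : (3 : ℝ) ≤ Fintype.card V := by exact_mod_cast (by omega : 3 ≤ Fintype.card V)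
  have h2 := Real.exp_one_lt_d9
  linarith only [h1, h2]

/-- the maximum degree -/
lemma max_deg (T : SimpleGraph U) (hT : T.IsTree) (m : ℕ) (hm : T.edgeSet.ncard = m)
    (hm1 : 1 ≤ m) {c L : ℝ}
    (hdeg : ∀ u : U, ((T.neighborSet u).ncard : ℝ) * L ≤ c * m) :
    Fintype.card U = m + 1 ∧ ∃ Δ : ℕ, (∀ u, (nb T u).card ≤ Δ) ∧ (Δ : ℝ) * L ≤ c * m ∧
      1 ≤ Δ := by
  have hcardU : Fintype.card U = m + 1 := by
    have h1 := hT.card_edgeFinset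
    rw [← hm, ← SimpleGraph.coe_edgeFinset, Set.ncard_coe_finset]
    omega
  refine ⟨hcardU, Finset.univ.sup (fun u : U => (nb T u).card),
    fun u => Finset.le_sup (f := fun u : U => (nb T u).card) (Finset.mem_univ u), ?_, ?_⟩
  · have hne : (univ : Finset U).Nonempty := by
      rw [Finset.univ_nonempty_iff]
      exact Fintype.card_pos_iff.1 (by omega)
    obtain ⟨u, -, hu⟩ := Finset.exists_mem_eq_sup univ hne (fun u : U => (nb T u).card)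
    rw [hu, ← ncard_nb]
    exact hdeg u
  · by_contra hcon
    have h0 : Finset.univ.sup (fun u : U => (nb T u).card) = 0 := by omega
    have h1 : ∑ b : U, (nb T b).card = 2 * m := by
      have h2 := T.sum_degrees_eq_twice_card_edges
      have h3 := hT.card_edgeFinset
      have h4 : ∑ b : U, (nb T b).card = ∑ b : U, T.degree b := by
        refine Finset.sum_congr rfl (fun b _ => ?_)
        rw [← T.card_neighborFinset_eq_degree]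
        congr 1
        ext y
        simp [nb]
      rw [h4, h2]
      omega
    have h2 : ∑ b : U, (nb T b).card = 0 := Finset.sum_eq_zero (fun b _ =>
      Nat.le_zero.1 (h0 ▸ Finset.le_sup (f := fun u : U => (nb T u).card) (Finset.mem_univ b)))
    omega

/-- the number of leaves used -/
lemma leaf_facts (T : SimpleGraph U) {m Δ : ℕ} {β η c L : ℝ} (hβ : 0 < β)
    (hβ' : β ≤ 1 / 10 ^ 6) (hβη : β ≤ η) (hm1 : 1 ≤ m) (hcβ : c ≤ β / 10 ^ 5)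
    (hL : 1 ≤ L) (hΔ1 : 1 ≤ Δ) (hΔL : (Δ : ℝ) * L ≤ c * m)
    (hleaf : η * (m : ℝ) ≤ {u | (T.neighborSet u).ncard = 1}.ncard) :
    ∃ l : ℕ, 1 ≤ l ∧ l + 1 ≤ m ∧ l ≤ (univ.filter (fun u => (nb T u).card = 1)).card ∧
      β * m / 2 ≤ l ∧ (l : ℝ) ≤ β * m := by
  have hmR : (1 : ℝ) ≤ m := by exact_mod_cast hm1
  have hΔ1R : (1 : ℝ) ≤ Δ := by exact_mod_cast hΔ1
  have hcm : 1 ≤ c * m := by
    refine le_trans ?_ hΔL
    nlinarith only [hΔ1R, hL]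
  have hβm : 10 ^ 5 ≤ β * m := by
    have h1 : c * m ≤ β / 10 ^ 5 * m := mul_le_mul_of_nonneg_right hcβ (by linarith only [hmR])
    have h2 : (1 : ℝ) ≤ β / 10 ^ 5 * m := hcm.trans h1
    have e : β / 10 ^ 5 * m = β * m / 10 ^ 5 := by ring
    rw [e, le_div_iff₀ (by positivity)] at h2
    linarith only [h2]
  have hβm0 : 0 ≤ β * m := by positivity
  obtain ⟨l, hl⟩ : ∃ l : ℕ, l = ⌊β * m⌋₊ := ⟨_, rfl⟩
  have hl1 : (l : ℝ) ≤ β * m := by rw [hl]; exact Nat.floor_le hβm0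
  have hl2 : β * m < l + 1 := by rw [hl]; exact Nat.lt_floor_add_one _
  have hl3 : β * m / 2 ≤ l := by linarith only [hl2, hβm]
  refine ⟨l, ?_, ?_, ?_, hl3, hl1⟩
  · have : (1 : ℝ) ≤ l := by linarith only [hl3, hβm]
    exact_mod_cast this
  · have h1 : β * m ≤ 1 / 10 ^ 6 * m := mul_le_mul_of_nonneg_right hβ' (by linarith only [hmR])
    have h2 : (10 : ℝ) ^ 5 ≤ m := by linarith only [h1, hβm, hmR]
    have : ((l + 1 : ℕ) : ℝ) ≤ m := by push_cast; linarith only [h1, h2, hl1, hmR]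
    exact_mod_cast this
  · have h1 : {u | (T.neighborSet u).ncard = 1}.ncard
        = (univ.filter (fun u => (nb T u).card = 1)).card := by
      rw [← Set.ncard_coe_finset]
      congr 1
      ext u
      simp [ncard_nb]
    rw [h1] at hleaf
    have h2 : β * m ≤ η * m := mul_le_mul_of_nonneg_right hβη (by linarith only [hmR])
    have : (l : ℝ) ≤ (univ.filter (fun u => (nb T u).card = 1)).card := by
      linarith only [hleaf, h2, hl1]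
    exact_mod_cast this

/-- numerical facts on the densities -/
lemma dens_facts {m l : ℕ} {β χ p1 δ0 ε ρ : ℝ} (hCon : Con β χ p1 δ0 ε) (hm1 : 1 ≤ m)
    (hρ : ρ = l / m) (hl3 : β * m / 2 ≤ l) (hl1 : (l : ℝ) ≤ β * m) :
    (l : ℝ) = ρ * m ∧ β / 2 ≤ ρ ∧ ρ ≤ β ∧ 0 ≤ ρ - p1 - δ0 := by
  have hm0R : (0 : ℝ) < m := by exact_mod_cast hm1
  have hρ1 : β / 2 ≤ ρ := by rw [hρ, le_div_iff₀ hm0R]; linarith only [hl3]
  have hρ2 : ρ ≤ β := by rw [hρ, div_le_iff₀ hm0R]; exact hl1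
  refine ⟨by rw [hρ]; field_simp, hρ1, hρ2, ?_⟩
  obtain ⟨h1, h2⟩ := hδ0_le hCon
  have h3 := hCon.p1_eq
  have h4 := hCon.β_pos
  linarith only [h1, h2, h3, h4, hρ1]

/-- expansion hypothesis of the splitting lemma -/
lemma cut_ok (G : SimpleGraph V) {m : ℕ} {χ χ0 : ℝ} (h0 : χ ≤ χ0 / 2)
    (hcut : ∀ X : Set V, 2 * X.ncard ≤ Fintype.card V →
          χ0 * m * X.ncard ≤
            {e : Sym2 V | e ∈ G.edgeSet ∧ ∃ x ∈ X, ∃ y ∉ X, e = s(x, y)}.ncard)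
    (X : Finset V) (hX : 2 * X.card ≤ Fintype.card V) :
    χ * (2 * m : ℕ) * X.card ≤ ∑ u ∈ X, ((nb G u \ X).card : ℝ) := by
  have h1 := hcut (X : Set V) (by rw [Set.ncard_coe_finset]; exact hX)
  rw [Set.ncard_coe_finset] at h1
  have h2 := h1.trans (cut_le G X)
  refine le_trans ?_ h2
  have hm : (0 : ℝ) ≤ m := Nat.cast_nonneg _
  have h3 : χ * (2 * m : ℕ) ≤ χ0 * m := by
    push_cast
    nlinarith only [h0, hm]
  exact mul_le_mul_of_nonneg_right h3 (Nat.cast_nonneg _)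

/-- the density of `H0` -/
lemma gamma_facts {G H0 : SimpleGraph V} (hH : H0 ≤ G) {m l : ℕ} {p0 δ γ0 ρ : ℝ}
    (hm1 : 1 ≤ m) (hn : 0 < Fintype.card V) (hlm : l + 1 ≤ m) (hρ : ρ = l / m)
    (hG : ∀ v, (nb G v).card = 2 * m)
    (hγ : γ0 = sd H0 / (Fintype.card V * (2 * m : ℕ)))
    (hH0 : ∀ v, |((nb H0 v).card : ℝ) - p0 * (2 * m : ℕ)| ≤ δ * (2 * m : ℕ)) :
    sd H0 = γ0 * (Fintype.card V * (2 * m : ℕ)) ∧ γ0 ≤ p0 + δ ∧ p0 - δ ≤ γ0 ∧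
      (∀ v, (nb H0 v).card ≤ 2 * m) ∧ γ0 ≤ 1 ∧
      γ0 - Fintype.card V * (2 * (m - l : ℕ)) / (Fintype.card V * (2 * m : ℕ)) = γ0 - 1 + ρ := by
  have hm0R : (0 : ℝ) < m := by exact_mod_cast hm1
  have hnR : (0 : ℝ) < (Fintype.card V : ℝ) := by exact_mod_cast hn
  have hD : (0 : ℝ) < Fintype.card V * (2 * m : ℕ) := by
    push_cast
    positivity
  have hH0le : ∀ v, (nb H0 v).card ≤ 2 * m := by
    intro v
    rw [← hG v]
    refine Finset.card_le_card (fun x hx => ?_)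
    rw [mem_nb] at hx ⊢
    exact hH hx
  refine ⟨?_, ?_, ?_, hH0le, ?_, ?_⟩
  · rw [hγ]; field_simp
  · rw [hγ, div_le_iff₀ hD]
    have h1 : sd H0 ≤ ∑ _v : V, (p0 + δ) * ((2 * m : ℕ) : ℝ) := by
      refine Finset.sum_le_sum (fun v _ => ?_)
      have := (abs_le.1 (hH0 v)).2
      linarith only [this]
    rw [Finset.sum_const, nsmul_eq_mul, Finset.card_univ] at h1
    refine h1.trans (le_of_eq (by ring))
  · rw [hγ, le_div_iff₀ hD]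
    have h1 : ∑ _v : V, (p0 - δ) * ((2 * m : ℕ) : ℝ) ≤ sd H0 := by
      refine Finset.sum_le_sum (fun v _ => ?_)
      have := (abs_le.1 (hH0 v)).1
      linarith only [this]
    rw [Finset.sum_const, nsmul_eq_mul, Finset.card_univ] at h1
    refine le_trans (le_of_eq (by ring)) h1
  · rw [hγ, div_le_one hD]
    have h1 : sd H0 ≤ ∑ _v : V, ((2 * m : ℕ) : ℝ) :=
      Finset.sum_le_sum (fun v _ => by exact_mod_cast hH0le v)
    rw [Finset.sum_const, nsmul_eq_mul, Finset.card_univ] at h1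
    exact h1
  · have hcast : ((m - l : ℕ) : ℝ) = (m : ℝ) - l := by
      rw [Nat.cast_sub (by omega)]
    rw [hcast, hρ]
    push_cast
    field_simp
    ring

/-- the degree condition of the dynamics -/
lemma deg_ok {H0 : SimpleGraph V} {m : ℕ} {p0 δ γ0 δD : ℝ}
    (hγ1 : γ0 ≤ p0 + δ) (hγ2 : p0 - δ ≤ γ0) (hδ : 0 < δ) (hδ1 : δ ≤ δD / 8)
    (hH0 : ∀ v, |((nb H0 v).card : ℝ) - p0 * (2 * m : ℕ)| ≤ δ * (2 * m : ℕ)) (v : V) :
    |((nb H0 v).card : ℝ) - γ0 * (2 * m : ℕ)| ≤ δD * (2 * m : ℕ) := by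
  have hdR : (0 : ℝ) ≤ ((2 * m : ℕ) : ℝ) := Nat.cast_nonneg _
  obtain ⟨h1, h1'⟩ := abs_le.1 (hH0 v)
  have h2 : (p0 - γ0) * ((2 * m : ℕ) : ℝ) ≤ δ * (2 * m : ℕ) :=
    mul_le_mul_of_nonneg_right (by linarith only [hγ2]) hdR
  have h3 : -(δ * ((2 * m : ℕ) : ℝ)) ≤ (p0 - γ0) * (2 * m : ℕ) := by
    have := mul_le_mul_of_nonneg_right (show -δ ≤ p0 - γ0 by linarith only [hγ1]) hdR
    linarith only [this]
  have h4 : 2 * δ * ((2 * m : ℕ) : ℝ) ≤ δD * (2 * m : ℕ) :=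
    mul_le_mul_of_nonneg_right (by linarith only [hδ1, hδ]) hdR
  rw [abs_le]
  constructor
  · linarith only [h1, h3, h4]
  · linarith only [h1', h2, h4]

/-- the codegree condition of the dynamics -/
lemma cod_ok {p0 δ γ0 δD : ℝ} (h0 : 0 ≤ p0) (hγ2 : p0 - δ ≤ γ0)
    (hγ : γ0 ≤ 1) (hδ : 0 < δ) (hδ' : δ ≤ 1 / 10 ^ 12) (hδ1 : δ ≤ δD / 8) :
    p0 ^ 2 + δ ≤ γ0 ^ 2 + δD := by
  have h2 : p0 ^ 2 ≤ (γ0 + δ) ^ 2 := pow_le_pow_left₀ h0 (by linarith only [hγ2]) 2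
  have h3 : (γ0 + δ) ^ 2 = γ0 ^ 2 + 2 * γ0 * δ + δ * δ := by ring
  have h4 : γ0 * δ ≤ 1 * δ := mul_le_mul_of_nonneg_right hγ hδ.le
  have h5 : δ * δ ≤ 1 * δ := mul_le_mul_of_nonneg_right (by linarith only [hδ']) hδ.le
  linarith only [h2, h3, h4, h5, hδ1, hδ]

/-- the mixed codegree condition of the dynamics -/
lemma mix_ok {β χ p1 δ0 ε p2 ρ δ γ0 : ℝ} (hCon : Con β χ p1 δ0 ε) (hp : p1 + p2 + δ0 = ρ)
    (hp2 : 0 ≤ p2) (hρ2 : ρ ≤ β) (hγ2 : 1 - ρ + δ0 - δ ≤ γ0) (hγ : 1 / 2 ≤ γ0)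
    (hδ : 0 < δ) (hδ2 : δ ≤ δ0 / 10) :
    (1 - ρ + δ0) * (p1 + p2) + δ ≤ 2 * β * γ0 := by
  obtain ⟨h1, h2⟩ := hδ0_le hCon
  obtain ⟨hp1, hp1'⟩ := hp1_le hCon
  have hβ := hCon.β_pos
  have hβ' := hCon.β_le
  have h3 := hCon.p1_eq
  have e : p1 + p2 = ρ - δ0 := by linarith only [hp]
  rw [e]
  have h4 : (1 - ρ + δ0) * (ρ - δ0) ≤ (γ0 + δ) * β :=
    mul_le_mul (by linarith only [hγ2]) (by linarith only [hρ2, h1])
      (by linarith only [hp, hp1, hp2]) (by linarith only [hγ, hδ])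
  have h5 : δ * β ≤ δ * 1 := mul_le_mul_of_nonneg_left (by linarith only [hβ']) hδ.le
  have h6 : 1 / 2 * β ≤ γ0 * β := mul_le_mul_of_nonneg_right hγ hβ.le
  have h7 : 2 * δ ≤ 1 / 2 * β := by linarith only [hδ2, h2, h3, hβ]
  have h8 : (γ0 + δ) * β = γ0 * β + δ * β := by ring
  linarith only [h4, h5, h6, h7, h8]

/-- the cardinality of the reduced tree -/
lemma card_rest {m l : ℕ} (S : Finset U) (hU : Fintype.card U = m + 1) (hS : S.card = l)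
    (hlm : l + 1 ≤ m) : Fintype.card {u : U // u ∉ S} = (m - l) + 1 := by
  have h1 : Fintype.card {u : U // u ∉ S} = Fintype.card U - S.card := by
    rw [Fintype.card_subtype_compl (fun u => u ∈ S)]
    simp
  rw [h1, hU, hS]
  omega

/-- the dynamics applied to the reduced tree -/
lemma dyn_ok {β χ p1 δ0 ε δ δD κD c p2 ρ γ0 : ℝ} {m l Δ : ℕ}
    (hCon : Con β χ p1 δ0 ε) (hD : DynAt (δ0 / 2) (β / 2) ε δD κD)
    (hδ : 0 < δ) (hδ1 : δ ≤ δD / 8) (hδ2 : δ ≤ δ0 / 10) (hcD : c ≤ κD) (hc : 0 < c)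
    (T : SimpleGraph U) (S : Finset U) (par : U → U) {G H0 R1 : SimpleGraph V}
    {o2 : V → V → Prop}
    (hU : Fintype.card U = m + 1) (hS : S.card = l) (hlpos : 1 ≤ l) (hlm : l + 1 ≤ m)
    (hpar : ∀ s ∈ S, nb T s = {par s}) (hparS : ∀ s ∈ S, par s ∉ S)
    (htree' : (TS T S).IsTree) (hΔ : ∀ u, (nb T u).card ≤ Δ) (hΔ1 : 1 ≤ Δ)
    (hn2 : 2 ≤ Fintype.card V) (hΔlog : (Δ : ℝ) * Real.log (Fintype.card V) ≤ c * m)
    (hG : ∀ v, (nb G v).card = 2 * m) (hSpl : Spl G H0 R1 o2)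
    (hρ : ρ = l / m) (hlρ : (l : ℝ) = ρ * m) (hρ1 : β / 2 ≤ ρ) (hρ2 : ρ ≤ β)
    (hp : p1 + p2 + δ0 = ρ) (hp2 : 0 ≤ p2)
    (hγdef : γ0 = sd H0 / (Fintype.card V * (2 * m : ℕ)))
    (hH0 : ∀ v, |((nb H0 v).card : ℝ) - (1 - ρ + δ0) * (2 * m : ℕ)| ≤ δ * (2 * m : ℕ))
    (hcodH : ∀ u v, u ≠ v →
      ((nb H0 u ∩ nb H0 v).card : ℝ) ≤ ((1 - ρ + δ0) ^ 2 + δ) * (2 * m : ℕ))
    (hcodHR : ∀ u v, u ≠ v →
      ((nb H0 u ∩ rn G H0 v).card : ℝ) ≤ ((1 - ρ + δ0) * (p1 + p2) + δ) * (2 * m : ℕ)) :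
    0 ≤ γ0 - 1 + ρ ∧ γ0 - 1 + ρ ≤ δ0 + δ ∧
    ∃ f : ℕ → {u : U // u ∉ S} → V,
      (∀ t, t < Fintype.card V → Function.Injective (f t) ∧ ∀ a b, (TS T S).Adj a b →
        (Hs (TS T S) H0 f t).Adj (f t a) (f t b)) ∧
      (∀ v, ((nb (Hs (TS T S) H0 f (Fintype.card V)) v).card : ℝ)
        ≤ 2 * (γ0 - 1 + ρ) * (2 * m : ℕ)) ∧
      (∀ u, |(aa (lvs S par) f (Fintype.card V) u : ℝ) - l| ≤ ε * (2 * m : ℕ)) ∧
      (∀ u y, u ≠ y → (KK (lvs S par) f (Fintype.card V) u y : ℝ) ≤ l / 2 + ε * (2 * m : ℕ)) ∧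
      (∀ u c, c < Fintype.card V →
        ((on o2 u ∩ im (f c)).card : ℝ) ≤ (on o2 u).card / 2 + ε * (2 * m : ℕ)) ∧
      (∀ u c c', c < Fintype.card V → c' < Fintype.card V → c ≠ c' →
        ((on o2 u ∩ im (f c) ∩ im (f c')).card : ℝ) ≤ (on o2 u).card / 4 + ε * (2 * m : ℕ)) ∧
      (∀ c y, c < Fintype.card V → y ∉ im (f c) →
        ((∑ u ∈ rn G H0 y, rq (lvs S par) (f c) u : ℕ) : ℝ)
          ≤ 2 * β * l + ε * (2 * m : ℕ)) ∧
      ∀ c y, c < Fintype.card V → y ∉ im (f c) →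
        ((∑ u ∈ nb (Hs (TS T S) H0 f (Fintype.card V)) y, rq (lvs S par) (f c) u : ℕ) : ℝ)
          ≤ 2 * (γ0 - 1 + ρ) * (2 * m : ℕ) := by
  have hβ := hCon.β_pos
  have hβ' := hCon.β_le
  obtain ⟨hδ0, hδ0'⟩ := hδ0_le hCon
  obtain ⟨hp1, hp1'⟩ := hp1_le hCon
  have hm1 : 1 ≤ m := by omega
  have hnpos : 0 < Fintype.card V := by omega
  obtain ⟨hsd, hγ1, hγ2, hH0le, hγ01, hγN⟩ :=
    gamma_facts hSpl.h0 hm1 hnpos hlm hρ hG hγdef hH0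
  have hdR : (0 : ℝ) ≤ ((2 * m : ℕ) : ℝ) := Nat.cast_nonneg _
  have hγ : 1 / 2 ≤ γ0 := by linarith only [hγ2, hρ2, hβ', hδ2, hδ0]
  have hm0R : (0 : ℝ) ≤ m := Nat.cast_nonneg _
  have a1 : ((m - l : ℕ) : ℝ) ≤ (1 - β / 2) * ((2 * m : ℕ) : ℝ) / 2 := by
    rw [Nat.cast_sub (by omega)]
    have h1 : β / 2 * m ≤ ρ * m := mul_le_mul_of_nonneg_right hρ1 hm0R
    push_cast
    linarith only [h1, hlρ]
  have a2 : (Δ : ℝ) * Real.log (Fintype.card V) ≤ κD * (2 * m : ℕ) := by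
    refine hΔlog.trans ?_
    have h1 : c * m ≤ κD * m := mul_le_mul_of_nonneg_right hcD hm0R
    have h2 : 0 ≤ κD * m := mul_nonneg (hc.le.trans hcD) hm0R
    push_cast
    linarith only [h1, h2]
  have a3 : δ0 / 2 ≤ γ0 - Fintype.card V * (2 * (m - l : ℕ)) /
      (Fintype.card V * (2 * m : ℕ)) := by
    rw [hγN]
    linarith only [hγ2, hδ2, hδ0]
  have a4 : (1 - ρ + δ0) ^ 2 + δ ≤ γ0 ^ 2 + δD :=
    cod_ok (by linarith only [hρ2, hβ', hδ0]) hγ2 hγ01 hδ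
      (by linarith only [hδ2, hδ0', hp1', hδ0]) hδ1
  have a5 := mix_ok hCon hp hp2 hρ2 hγ2 hγ hδ hδ2
  obtain ⟨f, hf, o1, o2', o3, o4, o5, o6, o7⟩ := hD {u : U // u ∉ S} V (TS T S) (lvs S par)
    (m - l) Δ (2 * m) l (Fintype.card V) H0 (rn G H0) (on o2) γ0 (2 * β) htree'
    (card_rest S hU hS hlm) (by omega) a1
    hΔ1 (fun x => (nb_TS_le T S x).trans (hΔ x.1)) (lvs_le S par hpar hΔ)
    (by rw [sum_lvs S par hparS, hS]) (by omega) hn2 a2 le_rfl hsd hγ hγ01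
    a3 hH0le (deg_ok hγ1 hγ2 hδ hδ1 hH0)
    (fun u v huv => (hcodH u v huv).trans (mul_le_mul_of_nonneg_right a4 hdR))
    (by
      intro u
      rw [← hG u]
      refine Finset.card_le_card (fun x hx => ?_)
      rw [mem_on] at hx
      exact mem_nb.2 (hSpl.o2_adj _ _ hx))
    (by
      intro y
      rw [← hG y]
      exact Finset.card_le_card Finset.sdiff_subset)
    (by positivity) (by linarith only [hβ'])
    (fun q y hqy => (hcodHR q y hqy).trans (mul_le_mul_of_nonneg_right a5 hdR))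
  rw [hγN] at o1 o7
  have hnR : (0 : ℝ) < (Fintype.card V : ℝ) := by exact_mod_cast hnpos
  have hNl : ((Fintype.card V : ℕ) : ℝ) * l / Fintype.card V = l := by field_simp
  have hNl2 : ((Fintype.card V : ℕ) : ℝ) * l / (2 * Fintype.card V) = l / 2 := by field_simp
  refine ⟨by linarith only [hγ2, hδ2, hδ0], by linarith only [hγ1], f, hf, o1, ?_, ?_, o4, o5,
    o6, o7⟩
  · intro u
    have := o2' u
    rw [hNl] at this
    exact this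
  · intro u y huy
    have := o3 u y huy
    rw [hNl2] at this
    exact this

end Pool.Agent.Lib.GHE.Fin

namespace Pool.Agent.Lib.GHE

open Finset Classical Pool.Agent.Lib.GHA Pool.Agent.Lib.GHE.Count Pool.Agent.Lib.GHE.Core
  Pool.Agent.Lib.GHE.Fin

theorem stMainE (hDyn : StDyn2) (hLab : StLab) (hOri : StOri2) (hDist : StDist)
    (hLeaf : StLeaf) (hAsm : StAsm) : StMainE := by
  intro χ0 η hχ0 hη
  obtain ⟨β, χ, p1, δ0, ε, δ, δD, κD, κL, c, hCon, hχχ, hβη, hδ, hδ1, hδ2, hc, hcD, hcL, hcβ,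
    hD, hL⟩ := exists_con hDyn hLab hχ0 hη
  refine ⟨c, hc, ?_⟩
  intro U _ T hT hleaf V _ G _ hreg hcut hdeg
  obtain ⟨m, hm⟩ : ∃ m : ℕ, T.edgeSet.ncard = m := ⟨_, rfl⟩
  rw [hm] at hleaf hreg hcut hdeg
  have hG : ∀ v, (nb G v).card = 2 * m := by
    intro v
    rw [← hreg v, ← G.card_neighborFinset_eq_degree]
    congr 1
    ext x
    simp [nb]
  -- trivial cases
  by_cases hm0 : m = 0
  · apply decomp_of_no_edge
    intro x y hxy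
    have := hG x
    rw [hm0, mul_zero, Finset.card_eq_zero] at this
    have h2 : y ∈ nb G x := mem_nb.2 hxy
    rw [this] at h2
    exact absurd h2 (Finset.notMem_empty _)
  by_cases hV : IsEmpty V
  · exact decomp_of_no_edge T (fun x => hV.elim x)
  rw [not_isEmpty_iff] at hV
  have hm1 : 1 ≤ m := Nat.one_le_iff_ne_zero.2 hm0
  obtain ⟨v0⟩ := hV
  obtain ⟨hn3, hlog⟩ := n_facts G m hG hm1 v0
  have hn2 : 2 ≤ Fintype.card V := by omega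
  obtain ⟨hcardU, Δ, hΔ, hΔlog, hΔ1⟩ := max_deg T hT m hm hm1 hdeg
  obtain ⟨l, hlpos, hlm, hlleaf, hl3, hl1⟩ := leaf_facts T hCon.β_pos hCon.β_le
    (by linarith only [hβη, hη] : β ≤ η) hm1 hcβ hlog hΔ1 hΔlog hleaf
  have hm2 : 2 ≤ m := by omega
  obtain ⟨S, par, hS, hpar, hparS, htree'⟩ := hLeaf U T m l hT hcardU hm2 hlleaf hlm
  -- the densities
  obtain ⟨ρ, hρ⟩ : ∃ ρ : ℝ, ρ = l / m := ⟨_, rfl⟩
  obtain ⟨hlρ, hρ1, hρ2, hp2⟩ := dens_facts hCon hm1 hρ hl3 hl1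
  obtain ⟨p2, hp2def⟩ : ∃ p2 : ℝ, p2 = ρ - p1 - δ0 := ⟨_, rfl⟩
  rw [← hp2def] at hp2
  have hp : p1 + p2 + δ0 = ρ := by rw [hp2def]; ring
  obtain ⟨hδ0, hδ0'⟩ := hδ0_le hCon
  obtain ⟨hp1, hp1'⟩ := hp1_le hCon
  have hβ' := hCon.β_le
  have hχ' := hCon.χ_le
  have hχ := hCon.χ_pos
  have hm0R : (0 : ℝ) ≤ m := Nat.cast_nonneg _
  -- the random splitting
  have b1 : Real.log (Fintype.card V) ≤ κL * (2 * m : ℕ) := by
    have hΔ1R : (1 : ℝ) ≤ Δ := by exact_mod_cast hΔ1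
    have h1 : 1 * Real.log (Fintype.card V) ≤ (Δ : ℝ) * Real.log (Fintype.card V) :=
      mul_le_mul_of_nonneg_right hΔ1R (by linarith only [hlog])
    have h2 : c * (m : ℝ) ≤ κL * m := mul_le_mul_of_nonneg_right hcL hm0R
    have h3 : 0 ≤ κL * m := mul_nonneg (hc.le.trans hcL) hm0R
    push_cast
    linarith only [h1, h2, h3, hΔlog]
  have b2 : p1 * χ ≤ p1 := by
    have := (hpχ_le hCon).2
    linarith only [this, hp1]
  have b3 : p1 * χ ≤ χ := by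
    have : p1 * χ ≤ 1 * χ := mul_le_mul_of_nonneg_right (by linarith only [hp1']) hχ.le
    linarith only [this]
  obtain ⟨H0, R1, o2, hSpl, hH0, hR1, ho2, hcodH, hcodR, hcodHR, hcutR⟩ :=
    hL V G (2 * m) (1 - ρ + δ0) p1 p2 χ hG hn2 b1
      (by linarith only [hρ2, hβ', hδ0]) b2 hp2 (by rw [hp2def]; ring) b3
      (cut_ok G hχχ hcut)
  -- the dynamics
  obtain ⟨γ0, hγdef⟩ : ∃ γ0 : ℝ, γ0 = sd H0 / (Fintype.card V * (2 * m : ℕ)) := ⟨_, rfl⟩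
  obtain ⟨hγa, hγb, f, hf, o1, o2', o3, o4, o5, o6, o7⟩ := dyn_ok hCon hD hδ hδ1 hδ2 hcD hc T S
    par hcardU hS hlpos hlm hpar hparS htree' hΔ hΔ1 hn2 hΔlog hG hSpl hρ hlρ hρ1 hρ2 hp hp2
    hγdef hH0 hcodH hcodHR
  obtain ⟨k1, k2, k3, k4, k5⟩ := con_num (γN := γ0 - 1 + ρ) hCon hδ2 hγb hρ1 hρ2
  have k6 : (Δ : ℝ) * (4 * Real.log (Fintype.card V)) ≤ 1 / 10000 * l := by
    have h1 : c * (m : ℝ) ≤ β / 10 ^ 5 * m := mul_le_mul_of_nonneg_right hcβ hm0R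
    linarith only [h1, hΔlog, hl3]
  have hDat : Dat T m l Δ S par G H0 R1 o2 f ρ p1 p2 δ0 ε δ χ (γ0 - 1 + ρ) (2 * β) :=
    { tree := hT
      tree' := htree'
      card := hcardU
      S_card := hS
      m_pos := hm1
      l_pos := hlpos
      par_nb := hpar
      par_S := hparS
      deg := hΔ
      Δ_pos := hΔ1
      G_reg := hG
      n2 := hn2
      spl := hSpl
      R1_deg := hR1
      o2_deg := ho2
      rn_cod := hcodR
      cut := hcutR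
      copy := hf
      L_deg := o1
      a_eq := o2'
      K_le := o3
      one := o4
      two := o5
      inR := o6
      inL := o7
      l_eq := hlρ
      p_eq := hp
      p1_pos := hp1.le
      p2_pos := hp2
      δ0_pos := hδ0.le
      ε_pos := (hε_le hCon).1.le
      δ_pos := hδ.le
      γN_pos := hγa
      k1 := k1
      k2 := k2
      k3 := k3
      k4 := k4
      k5 := k5
      k6 := k6 }
  exact hDat.decomp hOri hDist hAsm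

end Pool.Agent.Lib.GHE
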