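import Mathlib
import Pool.Agent.Lib.MP_df0165_co.Ex.Fin

set_option autoImplicit false
set_option linter.unusedSectionVars false

/-!
# Exact Graham-Haggkvist: dense hosts are expanders
-/

namespace Pool.Agent.Lib.GHE.Dense

open Finset Classical Pool.Agent.Lib.GHA Pool.Agent.Lib.GHE

variable {U V : Type} [Fintype U] [Fintype V]

/-- number of edges between `X` and the rest -/
lemma cut_ge (G : SimpleGraph V) (X : Finset V) :
    ∑ u ∈ X, (nb G u \ X).card ≤
      {e : Sym2 V | e ∈ G.edgeSet ∧ ∃ x ∈ (X : Set V), ∃ y ∉ (X : Set V), e = s(x, y)}.ncard := by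
  have h1 : (((X.sigma (fun u => nb G u \ X)).image (fun q => s(q.1, q.2)) : Finset (Sym2 V)) :
        Set (Sym2 V)) ⊆
      {e : Sym2 V | e ∈ G.edgeSet ∧ ∃ x ∈ (X : Set V), ∃ y ∉ (X : Set V), e = s(x, y)} := by
    intro e he
    rw [Finset.mem_coe, Finset.mem_image] at he
    obtain ⟨⟨x, y⟩, hq, rfl⟩ := he
    rw [Finset.mem_sigma, Finset.mem_sdiff, mem_nb] at hq
    exact ⟨hq.2.1, x, Finset.mem_coe.2 hq.1, y, fun h => hq.2.2 (Finset.mem_coe.1 h), rfl⟩
  have h2 := Set.ncard_le_ncard h1 (Set.toFinite _)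
  rw [Set.ncard_coe_finset, Finset.card_image_of_injOn, Finset.card_sigma] at h2
  · exact h2
  · rintro ⟨x, y⟩ hq ⟨x', y'⟩ hq' h
    rw [Finset.mem_coe, Finset.mem_sigma, Finset.mem_sdiff] at hq hq'
    simp only [Sym2.eq_iff] at h
    rcases h with ⟨rfl, rfl⟩ | ⟨rfl, rfl⟩
    · rfl
    · exact absurd hq.1 hq'.2.2

/-- In a dense regular graph every set has many edges leaving it. -/
lemma dense_cut (G : SimpleGraph V) (m : ℕ) (ε : ℝ) (hG : ∀ v, (nb G v).card = 2 * m)
    (hn : (Fintype.card V : ℝ) ≤ (4 - ε) * m) (X : Finset V)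
    (hX : 2 * X.card ≤ Fintype.card V) :
    ε / 2 * m * X.card ≤ ∑ u ∈ X, ((nb G u \ X).card : ℝ) := by
  have h1 : ∑ _u ∈ X, ε / 2 * (m : ℝ) ≤ ∑ u ∈ X, ((nb G u \ X).card : ℝ) := by
    refine Finset.sum_le_sum (fun u _ => ?_)
    have h2 : (nb G u).card ≤ (nb G u \ X).card + X.card := by
      have := Finset.card_sdiff_add_card_inter (nb G u) X
      have h3 := Finset.card_le_card (Finset.inter_subset_right : nb G u ∩ X ⊆ X)
      omega
    rw [hG u] at h2
    have h4 : ((2 * m : ℕ) : ℝ) ≤ (nb G u \ X).card + X.card := by exact_mod_cast h2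
    have h5 : (2 : ℝ) * X.card ≤ Fintype.card V := by exact_mod_cast hX
    push_cast at h4
    linarith
  rw [Finset.sum_const, nsmul_eq_mul] at h1
  linarith

/-- The same for sets and the number of crossing edges. -/
lemma dense_cut_set (G : SimpleGraph V) [DecidableRel G.Adj] (m : ℕ) (ε : ℝ)
    (hreg : G.IsRegularOfDegree (2 * m)) (hn : (Fintype.card V : ℝ) ≤ (4 - ε) * m) (X : Set V)
    (hX : 2 * X.ncard ≤ Fintype.card V) :
    ε / 2 * m * X.ncard ≤
      ({e : Sym2 V | e ∈ G.edgeSet ∧ ∃ x ∈ X, ∃ y ∉ X, e = s(x, y)}.ncard : ℝ) := by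
  have e : X = ((X.toFinset : Finset V) : Set V) := by simp
  rw [e] at hX ⊢
  rw [Set.ncard_coe_finset] at hX ⊢
  have hG : ∀ v, (nb G v).card = 2 * m := by
    intro v
    rw [← hreg v, ← G.card_neighborFinset_eq_degree]
    congr 1
    ext x
    simp [nb]
  refine (dense_cut G _ ε hG hn X.toFinset hX).trans ?_
  have := cut_ge G X.toFinset
  exact_mod_cast this

end Pool.Agent.Lib.GHE.Dense
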