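import Pool.Agent.Lib.MP_df0165_co.Ex.Stmts

set_option autoImplicit false

/-!
# Exact Graham-Haggkvist for expander hosts: distribution of the leaves (B2)
-/

namespace Pool.Agent.Lib.GHE

open Finset Classical Pool.Agent.Lib.GHA

namespace DistA

/-- Selection of one of several choices so that a sum of exponentials does not grow. -/
lemma select {I J : Type} [Fintype I] [Nonempty I] (s : Finset J) (w : J → ℝ) (x : I → J → ℝ)
    (A : J → ℝ) (Δ : ℝ) (hΔ : 0 < Δ) (hw : ∀ j ∈ s, 0 ≤ w j) (hx0 : ∀ i, ∀ j ∈ s, 0 ≤ x i j)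
    (hx1 : ∀ i, ∀ j ∈ s, x i j ≤ Δ) (hA : ∀ j ∈ s, ∑ i, x i j ≤ Fintype.card I * A j) :
    ∃ i, ∑ j ∈ s, w j * Real.exp ((x i j - 2 * A j) / Δ) ≤ ∑ j ∈ s, w j := by
  by_contra hcon
  push Not at hcon
  have h1 : ∑ _i : I, ∑ j ∈ s, w j < ∑ i : I, ∑ j ∈ s, w j * Real.exp ((x i j - 2 * A j) / Δ) :=
    sum_lt_sum_of_nonempty univ_nonempty fun i _ => hcon i
  rw [sum_const, card_univ, nsmul_eq_mul, sum_comm] at h1
  have h2 : ∑ j ∈ s, ∑ i : I, w j * Real.exp ((x i j - 2 * A j) / Δ) ≤
      ∑ j ∈ s, (Fintype.card I : ℝ) * w j := by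
    apply sum_le_sum
    intro j hj
    rw [← mul_sum, mul_comm (Fintype.card I : ℝ)]
    apply mul_le_mul_of_nonneg_left _ (hw j hj)
    have h3 : ∀ i : I, Real.exp ((x i j - 2 * A j) / Δ) ≤
        Real.exp (-(2 * A j / Δ)) * (1 + 2 * (x i j / Δ)) := by
      intro i
      have e1 : (x i j - 2 * A j) / Δ = -(2 * A j / Δ) + x i j / Δ := by ring
      rw [e1, Real.exp_add]
      apply mul_le_mul_of_nonneg_left _ (Real.exp_pos _).le
      have hy0 : 0 ≤ x i j / Δ := div_nonneg (hx0 i j hj) hΔ.le
      have hy1 : x i j / Δ ≤ 1 := (div_le_one hΔ).2 (hx1 i j hj)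
      have h4 := Real.abs_exp_sub_one_sub_id_le (x := x i j / Δ) (by rw [abs_of_nonneg hy0]; exact hy1)
      have h5 := (abs_le.1 h4).2
      nlinarith
    calc ∑ i : I, Real.exp ((x i j - 2 * A j) / Δ) ≤
          ∑ i : I, Real.exp (-(2 * A j / Δ)) * (1 + 2 * (x i j / Δ)) :=
          sum_le_sum fun i _ => h3 i
      _ = Real.exp (-(2 * A j / Δ)) * (Fintype.card I + 2 * ((∑ i : I, x i j) / Δ)) := by
          rw [← mul_sum, sum_add_distrib, sum_const, card_univ, nsmul_eq_mul, mul_one, ← mul_sum,
            sum_div]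
      _ ≤ Real.exp (-(2 * A j / Δ)) * (Fintype.card I * (1 + 2 * A j / Δ)) := by
          apply mul_le_mul_of_nonneg_left _ (Real.exp_pos _).le
          have h6 : (∑ i : I, x i j) / Δ ≤ Fintype.card I * A j / Δ :=
            div_le_div_of_nonneg_right (hA j hj) hΔ.le
          have e2 : (Fintype.card I : ℝ) * (1 + 2 * A j / Δ) =
              Fintype.card I + 2 * (Fintype.card I * A j / Δ) := by ring
          rw [e2]
          linarith
      _ ≤ Real.exp (-(2 * A j / Δ)) * (Fintype.card I * Real.exp (2 * A j / Δ)) := by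
          apply mul_le_mul_of_nonneg_left _ (Real.exp_pos _).le
          apply mul_le_mul_of_nonneg_left _ (Nat.cast_nonneg _)
          have := Real.add_one_le_exp (2 * A j / Δ)
          linarith
      _ = Fintype.card I := by
          rw [mul_comm (Fintype.card I : ℝ), ← mul_assoc, ← Real.exp_add, neg_add_cancel,
            Real.exp_zero, one_mul]
  rw [← mul_sum] at h2
  exact absurd (h1.trans_le h2) (lt_irrefl _)

section

variable {V : Type} [Fintype V]

/-- The requests at `u`. -/
def Rw (N : ℕ) (req : ℕ → V → ℕ) (u : V) : Finset (Σ _ : ℕ, ℕ) :=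
  (range N).sigma (fun c => range (req c u))

omit [Fintype V] in
lemma mem_Rw {N : ℕ} {req : ℕ → V → ℕ} {u : V} {c j : ℕ} :
    (⟨c, j⟩ : Σ _ : ℕ, ℕ) ∈ Rw N req u ↔ c < N ∧ j < req c u := by
  unfold Rw
  rw [mem_sigma, mem_range, mem_range]

omit [Fintype V] in
lemma sum_Rw (N : ℕ) (req : ℕ → V → ℕ) (u : V) (F : ℕ → ℕ → ℝ) :
    ∑ p ∈ Rw N req u, F p.1 p.2 = ∑ c ∈ range N, ∑ j ∈ range (req c u), F c j := by
  unfold Rw
  rw [sum_sigma]

omit [Fintype V] in
lemma card_Rw (N : ℕ) (req : ℕ → V → ℕ) (u : V) :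
    (Rw N req u).card = ∑ c ∈ range N, req c u := by
  unfold Rw
  rw [card_sigma]
  simp

omit [Fintype V] in
lemma card_R (N : ℕ) (req : ℕ → V → ℕ) (u : V) (Q : ℕ → Prop) :
    ((univ : Finset (Rw N req u)).filter (fun r => Q r.1.1)).card =
      ∑ c ∈ range N, if Q c then req c u else 0 := by
  have h1 : ((univ : Finset (Rw N req u)).filter (fun r => Q r.1.1)).card =
      ((Rw N req u).filter (fun p => Q p.1)).card := by
    rw [← Finset.card_image_of_injective _ Subtype.val_injective]
    congr 1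
    ext x
    rw [mem_image, mem_filter]
    constructor
    · rintro ⟨y, hy, rfl⟩
      rw [mem_filter] at hy
      exact ⟨y.2, hy.2⟩
    · rintro ⟨hx, hq⟩
      exact ⟨⟨x, hx⟩, mem_filter.2 ⟨mem_univ _, hq⟩, rfl⟩
  rw [h1, card_filter]
  unfold Rw
  rw [sum_sigma]
  apply sum_congr rfl
  intro c _
  by_cases h : Q c
  · simp [h]
  · simp [h]

/-- Contribution of the assignment `h` at the vertex `v` to the count `j`. -/
noncomputable def xc (N : ℕ) (req : ℕ → V → ℕ) (Np : V → Finset V) (v : V) (h : ℕ → ℕ → V)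
    (j : V × (ℕ ⊕ V)) : ℝ :=
  match j.2 with
  | Sum.inl c => ∑ i ∈ range (req c v), if h c i ∈ Np j.1 then 1 else 0
  | Sum.inr y => ∑ c ∈ range N, ∑ i ∈ range (req c v), if h c i = y then (req c j.1 : ℝ) else 0

/-- Compensator of the count `j` at the vertex `v`. -/
noncomputable def Ac (N : ℕ) (Vc : ℕ → Finset V) (req : ℕ → V → ℕ) (Np : V → Finset V) (v : V)
    (j : V × (ℕ ⊕ V)) : ℝ :=
  match j.2 with
  | Sum.inl c => 16 / ((Np v).card : ℝ) * ((req c v : ℝ) * ((Np v ∩ Np j.1).card : ℝ))
  | Sum.inr y => if y ∈ Np v then 16 / ((Np v).card : ℝ) *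
      ∑ c ∈ range N, (if y ∈ Vc c then 0 else (req c v : ℝ) * (req c j.1 : ℝ)) else 0

/-- The indices of the potential. -/
noncomputable def SJ (N : ℕ) (P : Finset V) : Finset (V × (ℕ ⊕ V)) :=
  Pᶜ ×ˢ (range N).disjSum univ

lemma mem_SJ_inl {N : ℕ} {P : Finset V} {u : V} {c : ℕ} :
    (u, Sum.inl c) ∈ SJ N P ↔ u ∉ P ∧ c < N := by
  unfold SJ
  rw [mem_product, mem_compl]
  simp

lemma mem_SJ_inr {N : ℕ} {P : Finset V} {u : V} {y : V} :
    (u, (Sum.inr y : ℕ ⊕ V)) ∈ SJ N P ↔ u ∉ P := by
  unfold SJ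
  rw [mem_product, mem_compl]
  simp

/-- The exponent of the potential. -/
noncomputable def ex (N : ℕ) (Vc : ℕ → Finset V) (req : ℕ → V → ℕ) (Np : V → Finset V)
    (P : Finset V) (g : V → ℕ → ℕ → V) (j : V × (ℕ ⊕ V)) : ℝ :=
  ∑ v ∈ P, (xc N req Np v (g v) j - 2 * Ac N Vc req Np v j)

/-- The potential. -/
noncomputable def Ph (N Δ : ℕ) (Vc : ℕ → Finset V) (req : ℕ → V → ℕ) (Np : V → Finset V)
    (P : Finset V) (g : V → ℕ → ℕ → V) : ℝ :=
  ∑ j ∈ SJ N P, Real.exp (ex N Vc req Np P g j / Δ)

/-- The invariant of the process. -/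
structure Inv (N Δ : ℕ) (Vc : ℕ → Finset V) (req : ℕ → V → ℕ) (Np : V → Finset V)
    (P : Finset V) (g : V → ℕ → ℕ → V) : Prop where
  mem : ∀ u ∈ P, ∀ c j, c < N → j < req c u → g u c j ∈ Np u ∧ g u c j ∉ Vc c
  uniq : ∀ u ∈ P, ∀ y ∈ Np u, ∃! p : ℕ × ℕ, p.1 < N ∧ p.2 < req p.1 u ∧ g u p.1 p.2 = y
  dist : ∀ u ∈ P, ∀ u' ∈ P, ∀ c j j', c < N → j < req c u → j' < req c u' →
    g u c j = g u' c j' → u = u' ∧ j = j'
  pot : Ph N Δ Vc req Np P g ≤ 2 * (Fintype.card V : ℝ) ^ 2

variable {N Δ : ℕ} {L : ℝ} {Vc : ℕ → Finset V} {req : ℕ → V → ℕ} {Np : V → Finset V}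

lemma cardV_ge (h : LD N Δ L Vc req Np) : (2 : ℝ) ≤ Fintype.card V := by
  exact_mod_cast h.card2

lemma logbound (h : LD N Δ L Vc req Np) :
    (Δ : ℝ) * Real.log (2 * (Fintype.card V : ℝ) ^ 2) ≤ 1 / 10000 * L := by
  have hn := cardV_ge h
  refine le_trans ?_ h.Δ_le
  apply mul_le_mul_of_nonneg_left _ (Nat.cast_nonneg _)
  have h1 : 2 * (Fintype.card V : ℝ) ^ 2 ≤ (Fintype.card V : ℝ) ^ 4 := by
    have h2 : (2 : ℝ) ≤ (Fintype.card V : ℝ) ^ 2 := by nlinarith
    have h3 : (Fintype.card V : ℝ) ^ 4 = (Fintype.card V : ℝ) ^ 2 * (Fintype.card V : ℝ) ^ 2 := by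
      ring
    rw [h3]
    exact mul_le_mul_of_nonneg_right h2 (by positivity)
  calc Real.log (2 * (Fintype.card V : ℝ) ^ 2) ≤ Real.log ((Fintype.card V : ℝ) ^ 4) :=
        Real.log_le_log (by positivity) h1
    _ = 4 * Real.log (Fintype.card V) := by rw [Real.log_pow]; norm_num

lemma Δ_small (h : LD N Δ L Vc req Np) : 8 * (Δ : ℝ) ≤ (1 - 1 / 10000) * L := by
  have hn := cardV_ge h
  have h1 := h.Δ_le
  have h2 : (1 / 2 : ℝ) ≤ Real.log (Fintype.card V) := by
    have h3 : Real.log 2 ≤ Real.log (Fintype.card V) := Real.log_le_log (by norm_num) hn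
    have h4 := Real.log_two_gt_d9
    linarith
  have h5 : (Δ : ℝ) * 2 ≤ Δ * (4 * Real.log (Fintype.card V)) :=
    mul_le_mul_of_nonneg_left (by linarith) (Nat.cast_nonneg _)
  have := h.L_pos
  linarith

lemma a_pos (h : LD N Δ L Vc req Np) (u : V) : (0 : ℝ) < (Np u).card := by
  have h1 := h.a_lo u
  have := h.L_pos
  linarith

lemma inv_a (h : LD N Δ L Vc req Np) (u : V) : 16 / ((Np u).card : ℝ) ≤ 17 / L := by
  have h1 := h.a_lo u
  have h2 := h.L_pos
  have h3 := a_pos h u
  rw [div_le_div_iff₀ h3 h2]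
  nlinarith

/-- Sum of the compensators, first kind. -/
lemma sumA1 (h : LD N Δ L Vc req Np) (P : Finset V) (u : V) (hu : u ∉ P) (c : ℕ) (hc : c < N) :
    ∑ v ∈ P, Ac N Vc req Np v (u, Sum.inl c) ≤ 17 / 10000 * L := by
  have hL := h.L_pos
  have h1 : ∀ v ∈ P, Ac N Vc req Np v (u, Sum.inl c) ≤ 17 / 10000 * (req c v : ℝ) := by
    intro v hv
    have hne : v ≠ u := fun h => hu (h ▸ hv)
    have h2 := h.cod v u hne
    have h3 := inv_a h v
    unfold Ac
    simp only
    calc 16 / ((Np v).card : ℝ) * ((req c v : ℝ) * ((Np v ∩ Np u).card : ℝ)) ≤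
          17 / L * ((req c v : ℝ) * (1 / 10000 * L)) := by
          apply mul_le_mul h3 _ (by positivity) (by positivity)
          exact mul_le_mul_of_nonneg_left h2 (Nat.cast_nonneg _)
      _ = 17 / 10000 * (req c v : ℝ) := by field_simp
  calc ∑ v ∈ P, Ac N Vc req Np v (u, Sum.inl c) ≤ ∑ v ∈ P, 17 / 10000 * (req c v : ℝ) :=
        sum_le_sum h1
    _ ≤ ∑ v : V, 17 / 10000 * (req c v : ℝ) :=
        sum_le_sum_of_subset_of_nonneg (subset_univ _) fun _ _ _ => by positivity
    _ = 17 / 10000 * ((∑ v : V, req c v : ℕ) : ℝ) := by rw [← mul_sum]; push_cast; rfl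
    _ ≤ 17 / 10000 * L := mul_le_mul_of_nonneg_left (h.tot c hc) (by norm_num)

/-- Sum of the compensators, second kind. -/
lemma sumA2 (h : LD N Δ L Vc req Np) (P : Finset V) (u y : V) :
    ∑ v ∈ P, Ac N Vc req Np v (u, Sum.inr y) ≤ 18 / 10000 * L := by
  have hL := h.L_pos
  have h1 : ∀ v ∈ P, Ac N Vc req Np v (u, Sum.inr y) ≤
      17 / L * ∑ c ∈ range N, (if y ∈ Vc c then 0 else
        (req c u : ℝ) * if y ∈ Np v then (req c v : ℝ) else 0) := by
    intro v _
    unfold Ac
    simp only
    by_cases hy : y ∈ Np v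
    · rw [if_pos hy]
      simp only [if_pos hy]
      have h3 := inv_a h v
      have h4 : ∑ c ∈ range N, (if y ∈ Vc c then 0 else (req c v : ℝ) * (req c u : ℝ)) =
          ∑ c ∈ range N, (if y ∈ Vc c then 0 else (req c u : ℝ) * (req c v : ℝ)) := by
        apply sum_congr rfl
        intro c _
        rw [mul_comm]
      rw [h4]
      apply mul_le_mul_of_nonneg_right h3
      apply sum_nonneg
      intro c _
      split_ifs <;> positivity
    · rw [if_neg hy]
      apply mul_nonneg (by positivity)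
      apply sum_nonneg
      intro c _
      split_ifs <;> positivity
  calc ∑ v ∈ P, Ac N Vc req Np v (u, Sum.inr y) ≤
        ∑ v ∈ P, 17 / L * ∑ c ∈ range N, (if y ∈ Vc c then 0 else
        (req c u : ℝ) * if y ∈ Np v then (req c v : ℝ) else 0) := sum_le_sum h1
    _ ≤ ∑ v : V, 17 / L * ∑ c ∈ range N, (if y ∈ Vc c then 0 else
        (req c u : ℝ) * if y ∈ Np v then (req c v : ℝ) else 0) := by
        apply sum_le_sum_of_subset_of_nonneg (subset_univ _)
        intro v _ _
        apply mul_nonneg (by positivity)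
        apply sum_nonneg
        intro c _
        split_ifs <;> positivity
    _ = 17 / L * ∑ c ∈ range N, (if y ∈ Vc c then 0 else
        (req c u : ℝ) * ∑ v : V, if y ∈ Np v then (req c v : ℝ) else 0) := by
        rw [← mul_sum, sum_comm]
        congr 1
        apply sum_congr rfl
        intro c _
        by_cases hy : y ∈ Vc c
        · simp [hy]
        · simp only [if_neg hy]
          rw [mul_sum]
    _ ≤ 17 / L * ∑ c ∈ range N, ((req c u : ℝ) * (1 / 10000 * L)) := by
        apply mul_le_mul_of_nonneg_left _ (by positivity)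
        apply sum_le_sum
        intro c hc
        by_cases hy : y ∈ Vc c
        · rw [if_pos hy]; positivity
        · rw [if_neg hy]
          apply mul_le_mul_of_nonneg_left _ (Nat.cast_nonneg _)
          have h5 := h.inn c y (mem_range.1 hc) hy
          rw [sum_filter] at h5
          push_cast at h5
          exact h5
    _ = 17 / 10000 * ((∑ c ∈ range N, req c u : ℕ) : ℝ) := by
        rw [← sum_mul]; push_cast; field_simp
    _ ≤ 17 / 10000 * ((1 + 1 / 10000) * L) := by
        apply mul_le_mul_of_nonneg_left _ (by norm_num)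
        rw [← h.sum u]
        exact h.a_hi u
    _ ≤ 18 / 10000 * L := by linarith

/-- The counts are small. -/
lemma count_le (h : LD N Δ L Vc req Np) {P : Finset V} {g : V → ℕ → ℕ → V}
    (hI : Inv N Δ Vc req Np P g) (j : V × (ℕ ⊕ V)) (hj : j ∈ SJ N P) :
    ∑ v ∈ P, xc N req Np v (g v) j ≤ 2 * ∑ v ∈ P, Ac N Vc req Np v j + 1 / 10000 * L := by
  have hΔ : (0 : ℝ) < Δ := by exact_mod_cast h.Δ_pos
  have h1 : Real.exp (ex N Vc req Np P g j / Δ) ≤ 2 * (Fintype.card V : ℝ) ^ 2 := by
    refine le_trans ?_ hI.pot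
    unfold Ph
    exact single_le_sum (f := fun j => Real.exp (ex N Vc req Np P g j / Δ))
      (fun _ _ => (Real.exp_pos _).le) hj
  have h2 := Real.log_le_log (Real.exp_pos _) h1
  rw [Real.log_exp, div_le_iff₀ hΔ] at h2
  have h3 := logbound h
  have h4 : ex N Vc req Np P g j =
      ∑ v ∈ P, xc N req Np v (g v) j - 2 * ∑ v ∈ P, Ac N Vc req Np v j := by
    unfold ex
    rw [sum_sub_distrib, mul_sum]
  rw [h4] at h2
  linarith

/-- Leaves of the copy `c` placed so far. -/
noncomputable def Lf (req : ℕ → V → ℕ) (P : Finset V) (g : V → ℕ → ℕ → V) (c : ℕ) : Finset V :=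
  P.biUnion (fun v => (range (req c v)).image (g v c))

omit [Fintype V] in
lemma mem_Lf {P : Finset V} {g : V → ℕ → ℕ → V} {c : ℕ} {y : V} :
    y ∈ Lf req P g c ↔ ∃ v ∈ P, ∃ i, i < req c v ∧ g v c i = y := by
  unfold Lf
  rw [mem_biUnion]
  constructor
  · rintro ⟨v, hv, hy⟩
    rw [mem_image] at hy
    obtain ⟨i, hi, h⟩ := hy
    exact ⟨v, hv, i, mem_range.1 hi, h⟩
  · rintro ⟨v, hv, i, hi, h⟩
    exact ⟨v, hv, mem_image.2 ⟨i, mem_range.2 hi, h⟩⟩

lemma card_Lf (h : LD N Δ L Vc req Np) {P : Finset V} {g : V → ℕ → ℕ → V}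
    (hI : Inv N Δ Vc req Np P g) (u : V) (hu : u ∉ P) (c : ℕ) (hc : c < N) :
    ((Np u ∩ Lf req P g c).card : ℝ) ≤ 35 / 10000 * L := by
  have h1 := count_le h hI (u, Sum.inl c) (mem_SJ_inl.2 ⟨hu, hc⟩)
  have h2 := sumA1 h P u hu c hc
  have h3 : ((Np u ∩ Lf req P g c).card : ℝ) ≤ ∑ v ∈ P, xc N req Np v (g v) (u, Sum.inl c) := by
    have hsub : Np u ∩ Lf req P g c ⊆ P.biUnion (fun v =>
        ((range (req c v)).filter (fun i => g v c i ∈ Np u)).image (g v c)) := by
      intro y hy
      rw [mem_inter, mem_Lf] at hy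
      obtain ⟨hy, v, hv, i, hi, rfl⟩ := hy
      rw [mem_biUnion]
      exact ⟨v, hv, mem_image.2 ⟨i, mem_filter.2 ⟨mem_range.2 hi, hy⟩, rfl⟩⟩
    have h4 : (Np u ∩ Lf req P g c).card ≤
        ∑ v ∈ P, ((range (req c v)).filter (fun i => g v c i ∈ Np u)).card :=
      (card_le_card hsub).trans (card_biUnion_le.trans (sum_le_sum fun v _ => card_image_le))
    have h5 : ((∑ v ∈ P, ((range (req c v)).filter (fun i => g v c i ∈ Np u)).card : ℕ) : ℝ) =
        ∑ v ∈ P, xc N req Np v (g v) (u, Sum.inl c) := by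
      push_cast
      apply sum_congr rfl
      intro v _
      unfold xc
      simp only
      rw [card_filter]
      push_cast
      rfl
    rw [← h5]
    exact_mod_cast h4
  linarith

lemma req_Lf (h : LD N Δ L Vc req Np) {P : Finset V} {g : V → ℕ → ℕ → V}
    (hI : Inv N Δ Vc req Np P g) (u : V) (hu : u ∉ P) (y : V) :
    ∑ c ∈ range N, (if y ∈ Lf req P g c then (req c u : ℝ) else 0) ≤ 37 / 10000 * L := by
  have h1 := count_le h hI (u, Sum.inr y) (mem_SJ_inr.2 hu)
  have h2 := sumA2 h P u y
  have h3 : ∑ c ∈ range N, (if y ∈ Lf req P g c then (req c u : ℝ) else 0) ≤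
      ∑ v ∈ P, xc N req Np v (g v) (u, Sum.inr y) := by
    unfold xc
    simp only
    rw [sum_comm]
    apply sum_le_sum
    intro c _
    by_cases hy : y ∈ Lf req P g c
    · rw [if_pos hy]
      rw [mem_Lf] at hy
      obtain ⟨v, hv, i, hi, hgi⟩ := hy
      calc (req c u : ℝ) = if g v c i = y then (req c u : ℝ) else 0 := by rw [if_pos hgi]
        _ ≤ ∑ i ∈ range (req c v), (if g v c i = y then (req c u : ℝ) else 0) :=
            single_le_sum (f := fun i => if g v c i = y then (req c u : ℝ) else 0)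
              (fun _ _ => by split_ifs <;> positivity) (mem_range.2 hi)
        _ ≤ _ := single_le_sum
              (f := fun v => ∑ i ∈ range (req c v), if g v c i = y then (req c u : ℝ) else 0)
              (fun _ _ => sum_nonneg fun _ _ => by split_ifs <;> positivity) hv
    · rw [if_neg hy]
      exact sum_nonneg fun _ _ => sum_nonneg fun _ _ => by split_ifs <;> positivity
  linarith

/-- The matchings at the vertex `u`. -/
lemma matchings (hM : StMat) (h : LD N Δ L Vc req Np) {P : Finset V} {g : V → ℕ → ℕ → V}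
    (hI : Inv N Δ Vc req Np P g) (u : V) (hu : u ∉ P) :
    ∃ (K : ℕ) (M : Fin K → Rw N req u → Np u), ((Np u).card : ℝ) ≤ 16 * K ∧ 1 ≤ K ∧
      (∀ i, Function.Bijective (M i)) ∧
      (∀ i r, (M i r).1 ∉ Vc r.1.1 ∧ (M i r).1 ∉ Lf req P g r.1.1) ∧
      ∀ i j r, i ≠ j → M i r ≠ M j r := by
  have hL := h.L_pos
  have ha := a_pos h u
  have halo := h.a_lo u
  have hRc : (Rw N req u).card = (Np u).card := by rw [card_Rw, h.sum]
  obtain ⟨ok, hok⟩ : ∃ ok : Rw N req u → Np u → Prop, ∀ r y, ok r y ↔
      (y.1 ∉ Vc r.1.1 ∧ y.1 ∉ Lf req P g r.1.1) := ⟨fun r y =>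
      (y.1 ∉ Vc r.1.1 ∧ y.1 ∉ Lf req P g r.1.1), fun _ _ => Iff.rfl⟩
  obtain ⟨nm, hnm⟩ : ∃ nm : Rw N req u → ℕ, ∀ r, nm r = r.1.1 := ⟨fun r => r.1.1, fun _ => rfl⟩
  obtain ⟨K, M, h1, h2, h3, h4, h5⟩ := hM (Rw N req u) (Np u) ℕ nm ok (Np u).card
    (by rw [Fintype.card_coe, hRc]) (by rw [Fintype.card_coe]) (by exact_mod_cast ha) (by
      intro c
      have h1 : (univ.filter (fun r => nm r = c)).card ≤ req c u := by
        calc (univ.filter (fun r => nm r = c)).card ≤ (range (req c u)).card := by
              apply card_le_card_of_injOn (fun r => r.1.2)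
              · rintro ⟨⟨c', j⟩, hr⟩ hr'
                rw [mem_coe, mem_filter, hnm] at hr'
                have h6 := hr'.2
                simp only at h6
                subst h6
                rw [mem_coe, mem_range]
                exact (mem_Rw.1 hr).2
              · rintro ⟨⟨c', j⟩, hr⟩ hr' ⟨⟨c'', j'⟩, hs⟩ hs' hj
                rw [mem_coe, mem_filter, hnm] at hr' hs'
                have h6 := hr'.2
                have h7 := hs'.2
                simp only at h6 h7 hj
                subst h6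
                subst h7
                subst hj
                rfl
          _ = req c u := card_range _
      have h2 := h.req_le c u
      have h3 := Δ_small h
      have h4 : (8 * Δ : ℝ) ≤ (Np u).card := h3.trans halo
      have h5 : 8 * Δ ≤ (Np u).card := by exact_mod_cast h4
      have h7 : (fun r => propDecidable (nm r = c)) =
          (fun r : Rw N req u => instDecidableEqNat (nm r) c) := Subsingleton.elim _ _
      rw [h7]
      exact (Nat.mul_le_mul_left 8 (h1.trans h2)).trans h5) (by
      rintro ⟨⟨c, j⟩, hcj⟩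
      have hc := (mem_Rw.1 hcj).1
      have hsub : Np u ⊆ (univ.filter (fun y => ok ⟨⟨c, j⟩, hcj⟩ y)).image Subtype.val ∪
          ((Np u ∩ Vc c) ∪ (Np u ∩ Lf req P g c)) := by
        intro y hy
        rw [mem_union, mem_union, mem_image, mem_inter, mem_inter]
        by_cases h1 : y ∈ Vc c
        · exact Or.inr (Or.inl ⟨hy, h1⟩)
        · by_cases h2 : y ∈ Lf req P g c
          · exact Or.inr (Or.inr ⟨hy, h2⟩)
          · exact Or.inl ⟨⟨y, hy⟩, mem_filter.2 ⟨mem_univ _, (hok _ _).2 ⟨h1, h2⟩⟩, rfl⟩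
      have h1 := (card_le_card hsub).trans ((card_union_le _ _).trans
        (Nat.add_le_add card_image_le (card_union_le _ _)))
      have h2 : ((Np u).card : ℝ) ≤ (univ.filter (fun y => ok ⟨⟨c, j⟩, hcj⟩ y)).card +
            ((Np u ∩ Vc c).card + (Np u ∩ Lf req P g c).card) := by exact_mod_cast h1
      have h3 := h.one u c hc
      have h4 := card_Lf h hI u hu c hc
      linarith) (by
      rintro ⟨y, hy⟩
      obtain ⟨Q1, hQ1⟩ : ∃ Q1 : ℕ → Prop, ∀ c, Q1 c ↔ y ∈ Vc c := ⟨_, fun _ => Iff.rfl⟩
      obtain ⟨Q2, hQ2⟩ : ∃ Q2 : ℕ → Prop, ∀ c, Q2 c ↔ y ∈ Lf req P g c := ⟨_, fun _ => Iff.rfl⟩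
      have hsub : (univ : Finset (Rw N req u)) ⊆ univ.filter (fun r => ok r ⟨y, hy⟩) ∪
          (univ.filter (fun r => Q1 r.1.1) ∪ univ.filter (fun r => Q2 r.1.1)) := by
        intro r _
        rw [mem_union, mem_union, mem_filter, mem_filter, mem_filter, hok, hQ1, hQ2]
        by_cases h1 : y ∈ Vc r.1.1
        · exact Or.inr (Or.inl ⟨mem_univ _, h1⟩)
        · by_cases h2 : y ∈ Lf req P g r.1.1
          · exact Or.inr (Or.inr ⟨mem_univ _, h2⟩)
          · exact Or.inl ⟨mem_univ _, h1, h2⟩
      have h1 := (card_le_card hsub).trans ((card_union_le _ _).trans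
        (Nat.add_le_add_left (card_union_le _ _) _))
      rw [card_univ, Fintype.card_coe, hRc, card_R, card_R] at h1
      have h2 : ((Np u).card : ℝ) ≤ (univ.filter (fun r => ok r ⟨y, hy⟩)).card +
            (((∑ c ∈ range N, if Q1 c then req c u else 0 : ℕ) : ℝ) +
              ((∑ c ∈ range N, if Q2 c then req c u else 0 : ℕ) : ℝ)) := by exact_mod_cast h1
      have h3 := h.col u y hy
      have h4 := req_Lf h hI u hu y
      have h5 : ((∑ c ∈ range N, if Q1 c then req c u else 0 : ℕ) : ℝ) =
          ((∑ c ∈ range N, if y ∈ Vc c then req c u else 0 : ℕ) : ℝ) := by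
        congr 1
        apply sum_congr rfl
        intro c _
        by_cases h6 : y ∈ Vc c
        · rw [if_pos h6, if_pos ((hQ1 c).2 h6)]
        · rw [if_neg h6, if_neg fun h7 => h6 ((hQ1 c).1 h7)]
      have h8 : ((∑ c ∈ range N, if Q2 c then req c u else 0 : ℕ) : ℝ) =
          ∑ c ∈ range N, (if y ∈ Lf req P g c then (req c u : ℝ) else 0) := by
        push_cast
        apply sum_congr rfl
        intro c _
        by_cases h6 : y ∈ Lf req P g c
        · rw [if_pos h6, if_pos ((hQ2 c).2 h6)]
        · rw [if_neg h6, if_neg fun h7 => h6 ((hQ2 c).1 h7)]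
      rw [h5, h8] at h2
      linarith) (by
      rintro ⟨⟨c, j⟩, hcj⟩ ⟨⟨c', j'⟩, hcj'⟩ hne
      have hc := (mem_Rw.1 hcj).1
      have hc' := (mem_Rw.1 hcj').1
      rw [hnm, hnm] at hne
      simp only at hne
      have hsub : (univ.filter (fun y => ¬ ok ⟨⟨c, j⟩, hcj⟩ y ∧
          ¬ ok ⟨⟨c', j'⟩, hcj'⟩ y)).image Subtype.val ⊆ (Np u ∩ Vc c ∩ Vc c') ∪
          ((Np u ∩ Lf req P g c) ∪ (Np u ∩ Lf req P g c')) := by
        intro y hy
        rw [mem_image] at hy
        obtain ⟨⟨y', hy0⟩, hy', rfl⟩ := hy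
        rw [mem_filter, hok, hok] at hy'
        rw [mem_union, mem_union, mem_inter, mem_inter, mem_inter, mem_inter]
        obtain ⟨_, h1, h2⟩ := hy'
        simp only at h1 h2 ⊢
        by_cases h3 : y' ∈ Lf req P g c
        · exact Or.inr (Or.inl ⟨hy0, h3⟩)
        · by_cases h4 : y' ∈ Lf req P g c'
          · exact Or.inr (Or.inr ⟨hy0, h4⟩)
          · left
            refine ⟨⟨hy0, ?_⟩, ?_⟩
            · by_contra h5
              exact h1 ⟨h5, h3⟩
            · by_contra h5
              exact h2 ⟨h5, h4⟩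
      have h1 := (card_le_card hsub).trans ((card_union_le _ _).trans
        (Nat.add_le_add_left (card_union_le _ _) _))
      rw [card_image_of_injective _ Subtype.val_injective] at h1
      have h2 : ((univ.filter (fun y => ¬ ok ⟨⟨c, j⟩, hcj⟩ y ∧
          ¬ ok ⟨⟨c', j'⟩, hcj'⟩ y)).card : ℝ) ≤ (Np u ∩ Vc c ∩ Vc c').card +
            ((Np u ∩ Lf req P g c).card + (Np u ∩ Lf req P g c').card) := by exact_mod_cast h1
      have h3 := h.two u c c' hc hc' hne
      have h4 := card_Lf h hI u hu c hc
      have h5 := card_Lf h hI u hu c' hc'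
      linarith)
  exact ⟨K, M, h1, h2, h3, fun i r => (hok _ _).1 (h4 i r), h5⟩


/-- The assignment given by a matching. -/
noncomputable def asg (N : ℕ) (req : ℕ → V → ℕ) (Np : V → Finset V) (u : V)
    (M : Rw N req u → Np u) : ℕ → ℕ → V :=
  fun c j => if h : (⟨c, j⟩ : Σ _ : ℕ, ℕ) ∈ Rw N req u then (M ⟨⟨c, j⟩, h⟩).1 else u

omit [Fintype V] in
lemma asg_pos {u : V} {M : Rw N req u → Np u} {c j : ℕ}
    (h : (⟨c, j⟩ : Σ _ : ℕ, ℕ) ∈ Rw N req u) : asg N req Np u M c j = (M ⟨⟨c, j⟩, h⟩).1 :=
  dif_pos h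

/-- One step of the process. -/
lemma step (hM : StMat) (h : LD N Δ L Vc req Np) {P : Finset V} {g : V → ℕ → ℕ → V}
    (hI : Inv N Δ Vc req Np P g) (u : V) (hu : u ∉ P) :
    ∃ g', Inv N Δ Vc req Np (insert u P) g' := by
  obtain ⟨K, M, hK, hK1, hbij, hok, hne⟩ := matchings hM h hI u hu
  have ha := a_pos h u
  have hΔ : (0 : ℝ) < Δ := by exact_mod_cast h.Δ_pos
  have hKne : Nonempty (Fin K) := ⟨⟨0, hK1⟩⟩
  have hKcard : (Fintype.card (Fin K) : ℝ) = K := by simp
  have hKa : 1 ≤ (K : ℝ) * (16 / ((Np u).card : ℝ)) := by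
    rw [← mul_div_assoc, le_div_iff₀ ha]
    linarith
  -- the selection
  obtain ⟨i, hi⟩ := select (SJ N (insert u P))
    (fun j => Real.exp (ex N Vc req Np P g j / Δ))
    (fun (i : Fin K) j => xc N req Np u (asg N req Np u (M i)) j)
    (fun j => Ac N Vc req Np u j) Δ hΔ (fun j _ => (Real.exp_pos _).le)
    (by
      rintro i ⟨u', c | y⟩ _
      · exact sum_nonneg fun _ _ => by split_ifs <;> norm_num
      · exact sum_nonneg fun _ _ => sum_nonneg fun _ _ => by split_ifs <;> positivity)
    (by
      rintro i ⟨u', c | y⟩ hj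
      · calc xc N req Np u (asg N req Np u (M i)) (u', Sum.inl c) ≤
              ∑ _i ∈ range (req c u), (1 : ℝ) := sum_le_sum fun _ _ => by split_ifs <;> norm_num
          _ = req c u := by simp
          _ ≤ Δ := by exact_mod_cast h.req_le c u
      · -- at most one row has the image `y`
        have e1 : xc N req Np u (asg N req Np u (M i)) (u', Sum.inr y) =
            ∑ p ∈ Rw N req u, if asg N req Np u (M i) p.1 p.2 = y then (req p.1 u' : ℝ) else 0 :=
          (sum_Rw N req u
            (fun c j => if asg N req Np u (M i) c j = y then (req c u' : ℝ) else 0)).symm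
        rw [e1, ← sum_filter]
        have hcard : ((Rw N req u).filter (fun p => asg N req Np u (M i) p.1 p.2 = y)).card ≤ 1 := by
          rw [card_le_one]
          rintro ⟨c, j⟩ hp ⟨c', j'⟩ hp'
          rw [mem_filter] at hp hp'
          have e2 := hp.2.trans hp'.2.symm
          simp only at e2
          rw [asg_pos hp.1, asg_pos hp'.1] at e2
          have e3 := (hbij i).1 (Subtype.ext e2)
          exact congrArg Subtype.val e3
        calc ∑ p ∈ (Rw N req u).filter (fun p => asg N req Np u (M i) p.1 p.2 = y),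
              (req p.1 u' : ℝ) ≤
              ∑ _p ∈ (Rw N req u).filter (fun p => asg N req Np u (M i) p.1 p.2 = y), (Δ : ℝ) :=
              sum_le_sum fun p _ => by exact_mod_cast h.req_le p.1 u'
          _ = ((Rw N req u).filter (fun p => asg N req Np u (M i) p.1 p.2 = y)).card * (Δ : ℝ) := by
              rw [sum_const, nsmul_eq_mul]
          _ ≤ 1 * (Δ : ℝ) := mul_le_mul_of_nonneg_right (by exact_mod_cast hcard) hΔ.le
          _ = Δ := one_mul _)
    (by
      rintro ⟨u', c | y⟩ hj
      · -- first kind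
        have hc := (mem_SJ_inl.1 hj).2
        rw [hKcard]
        have e1 : ∑ i : Fin K, xc N req Np u (asg N req Np u (M i)) (u', Sum.inl c) ≤
            (req c u : ℝ) * ((Np u ∩ Np u').card : ℝ) := by
          unfold xc
          simp only
          rw [sum_comm]
          calc ∑ j ∈ range (req c u), ∑ i : Fin K,
                (if asg N req Np u (M i) c j ∈ Np u' then (1 : ℝ) else 0) ≤
                ∑ _j ∈ range (req c u), ((Np u ∩ Np u').card : ℝ) := by
                apply sum_le_sum
                intro j hjr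
                have hp : (⟨c, j⟩ : Σ _ : ℕ, ℕ) ∈ Rw N req u := mem_Rw.2 ⟨hc, mem_range.1 hjr⟩
                rw [sum_boole]
                have : ((univ : Finset (Fin K)).filter
                    (fun i => asg N req Np u (M i) c j ∈ Np u')).card ≤ (Np u ∩ Np u').card := by
                  apply card_le_card_of_injOn (fun i => asg N req Np u (M i) c j)
                  · intro i hi'
                    rw [mem_coe, mem_filter] at hi'
                    rw [mem_coe, mem_inter]
                    refine ⟨?_, hi'.2⟩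
                    simp only
                    rw [asg_pos hp]
                    exact (M i ⟨⟨c, j⟩, hp⟩).2
                  · intro i _ i' _ hii
                    by_contra hn
                    simp only at hii
                    rw [asg_pos hp, asg_pos hp] at hii
                    exact hne i i' ⟨⟨c, j⟩, hp⟩ hn (Subtype.ext hii)
                exact_mod_cast this
            _ = _ := by rw [sum_const, card_range, nsmul_eq_mul]
        refine e1.trans ?_
        have e2 : (0 : ℝ) ≤ (req c u : ℝ) * ((Np u ∩ Np u').card : ℝ) := by positivity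
        change _ ≤ (K : ℝ) * (16 / ((Np u).card : ℝ) *
          ((req c u : ℝ) * ((Np u ∩ Np u').card : ℝ)))
        calc (req c u : ℝ) * ((Np u ∩ Np u').card : ℝ) =
              1 * ((req c u : ℝ) * ((Np u ∩ Np u').card : ℝ)) := (one_mul _).symm
          _ ≤ (K : ℝ) * (16 / ((Np u).card : ℝ)) * ((req c u : ℝ) * ((Np u ∩ Np u').card : ℝ)) :=
              mul_le_mul_of_nonneg_right hKa e2
          _ = _ := by ring
      · -- second kind
        rw [hKcard]
        have e0 : ∀ i : Fin K, xc N req Np u (asg N req Np u (M i)) (u', Sum.inr y) =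
            ∑ p ∈ Rw N req u, if asg N req Np u (M i) p.1 p.2 = y then (req p.1 u' : ℝ) else 0 :=
          fun i => (sum_Rw N req u
            (fun c j => if asg N req Np u (M i) c j = y then (req c u' : ℝ) else 0)).symm
        by_cases hy : y ∈ Np u
        · have e1 : ∑ i : Fin K, xc N req Np u (asg N req Np u (M i)) (u', Sum.inr y) ≤
              ∑ c ∈ range N, (if y ∈ Vc c then 0 else (req c u : ℝ) * (req c u' : ℝ)) := by
            simp only [e0]
            rw [sum_comm]
            calc ∑ p ∈ Rw N req u, ∑ i : Fin K,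
                  (if asg N req Np u (M i) p.1 p.2 = y then (req p.1 u' : ℝ) else 0) ≤
                  ∑ p ∈ Rw N req u, (if y ∈ Vc p.1 then 0 else (req p.1 u' : ℝ)) := by
                  apply sum_le_sum
                  rintro ⟨c, j⟩ hp
                  by_cases hyc : y ∈ Vc c
                  · rw [if_pos hyc]
                    apply le_of_eq
                    apply sum_eq_zero
                    intro i _
                    rw [if_neg]
                    intro heq
                    simp only at heq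
                    rw [asg_pos hp] at heq
                    apply (hok i ⟨⟨c, j⟩, hp⟩).1
                    rw [heq]
                    exact hyc
                  · rw [if_neg hyc, ← sum_filter, sum_const, nsmul_eq_mul]
                    have hcard : ((univ : Finset (Fin K)).filter
                        (fun i => asg N req Np u (M i) c j = y)).card ≤ 1 := by
                      rw [card_le_one]
                      intro i hi' i' hi''
                      rw [mem_filter] at hi' hi''
                      by_contra hn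
                      have e2 := hi'.2.trans hi''.2.symm
                      rw [asg_pos hp, asg_pos hp] at e2
                      exact hne i i' ⟨⟨c, j⟩, hp⟩ hn (Subtype.ext e2)
                    calc _ ≤ (1 : ℝ) * (req c u' : ℝ) :=
                          mul_le_mul_of_nonneg_right (by exact_mod_cast hcard)
                            (Nat.cast_nonneg _)
                      _ = _ := one_mul _
              _ = ∑ c ∈ range N, ∑ _j ∈ range (req c u),
                    (if y ∈ Vc c then 0 else (req c u' : ℝ)) :=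
                  sum_Rw N req u (fun c _ => if y ∈ Vc c then 0 else (req c u' : ℝ))
              _ = _ := by
                  apply sum_congr rfl
                  intro c _
                  rw [sum_const, card_range, nsmul_eq_mul]
                  by_cases hyc : y ∈ Vc c
                  · rw [if_pos hyc, if_pos hyc, mul_zero]
                  · rw [if_neg hyc, if_neg hyc]
          refine e1.trans ?_
          have e2 : (0 : ℝ) ≤ ∑ c ∈ range N,
              (if y ∈ Vc c then 0 else (req c u : ℝ) * (req c u' : ℝ)) :=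
            sum_nonneg fun _ _ => by split_ifs <;> positivity
          unfold Ac
          simp only
          rw [if_pos hy]
          calc ∑ c ∈ range N, (if y ∈ Vc c then 0 else (req c u : ℝ) * (req c u' : ℝ)) =
                1 * ∑ c ∈ range N, (if y ∈ Vc c then 0 else (req c u : ℝ) * (req c u' : ℝ)) :=
                (one_mul _).symm
            _ ≤ (K : ℝ) * (16 / ((Np u).card : ℝ)) *
                ∑ c ∈ range N, (if y ∈ Vc c then 0 else (req c u : ℝ) * (req c u' : ℝ)) :=
                mul_le_mul_of_nonneg_right hKa e2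
            _ = _ := by ring
        · have e1 : ∑ i : Fin K, xc N req Np u (asg N req Np u (M i)) (u', Sum.inr y) = 0 := by
            simp only [e0]
            apply sum_eq_zero
            intro i _
            apply sum_eq_zero
            rintro ⟨c, j⟩ hp
            rw [if_neg]
            intro heq
            simp only at heq
            rw [asg_pos hp] at heq
            apply hy
            rw [← heq]
            exact (M i ⟨⟨c, j⟩, hp⟩).2
          rw [e1]
          unfold Ac
          simp only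
          rw [if_neg hy, mul_zero])
  -- the new state
  set h' := asg N req Np u (M i) with hh'
  have hne' : ∀ v ∈ P, v ≠ u := fun v hv e => hu (e ▸ hv)
  have hgu : ∀ v ∈ P, Function.update g u h' v = g v := fun v hv =>
    Function.update_of_ne (hne' v hv) _ _
  have hguu : Function.update g u h' u = h' := Function.update_self _ _ _
  have hrow : ∀ c j, c < N → j < req c u → ∃ hp : (⟨c, j⟩ : Σ _ : ℕ, ℕ) ∈ Rw N req u,
      h' c j = (M i ⟨⟨c, j⟩, hp⟩).1 := by
    intro c j hc hj
    have hp : (⟨c, j⟩ : Σ _ : ℕ, ℕ) ∈ Rw N req u := mem_Rw.2 ⟨hc, hj⟩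
    exact ⟨hp, asg_pos hp⟩
  have hnotL : ∀ c j, c < N → j < req c u → ∀ v ∈ P, ∀ j', j' < req c v → g v c j' ≠ h' c j := by
    intro c j hc hj v hv j' hj' heq
    obtain ⟨hp, e1⟩ := hrow c j hc hj
    have e2 := (hok i ⟨⟨c, j⟩, hp⟩).2
    apply e2
    rw [mem_Lf]
    exact ⟨v, hv, j', hj', by rw [heq, e1]⟩
  refine ⟨Function.update g u h', ?_, ?_, ?_, ?_⟩
  · intro v hv c j hc hj
    rw [mem_insert] at hv
    rcases hv with rfl | hv
    · rw [hguu]
      obtain ⟨hp, e1⟩ := hrow c j hc hj
      rw [e1]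
      exact ⟨(M i ⟨⟨c, j⟩, hp⟩).2, (hok i ⟨⟨c, j⟩, hp⟩).1⟩
    · rw [hgu v hv]
      exact hI.mem v hv c j hc hj
  · intro v hv y hy
    rw [mem_insert] at hv
    rcases hv with rfl | hv
    · rw [hguu]
      obtain ⟨⟨⟨c, j⟩, hp⟩, hr⟩ := (hbij i).2 ⟨y, hy⟩
      refine ⟨(c, j), ⟨(mem_Rw.1 hp).1, (mem_Rw.1 hp).2, ?_⟩, ?_⟩
      · change h' c j = y
        rw [hh', asg_pos hp, hr]
      · rintro ⟨c', j'⟩ ⟨hc', hj', he⟩
        simp only at hc' hj' he
        obtain ⟨hp', e1⟩ := hrow c' j' hc' hj'
        rw [e1] at he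
        have e2 : M i ⟨⟨c', j'⟩, hp'⟩ = M i ⟨⟨c, j⟩, hp⟩ := by
          rw [hr]
          exact Subtype.ext he
        have e3 := congrArg Subtype.val ((hbij i).1 e2)
        simp only [Sigma.mk.injEq, heq_eq_eq] at e3
        rw [e3.1, e3.2]
    · rw [hgu v hv]
      exact hI.uniq v hv y hy
  · intro v hv v' hv' c j j' hc hj hj' heq
    rw [mem_insert] at hv hv'
    rcases hv with rfl | hv
    · rcases hv' with rfl | hv'
      · refine ⟨rfl, ?_⟩
        rw [hguu] at heq
        obtain ⟨hp, e1⟩ := hrow c j hc hj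
        obtain ⟨hp', e1'⟩ := hrow c j' hc hj'
        rw [e1, e1'] at heq
        have e3 := congrArg Subtype.val ((hbij i).1 (Subtype.ext heq))
        simp only [Sigma.mk.injEq, heq_eq_eq, true_and] at e3
        exact e3
      · exfalso
        rw [hguu, hgu v' hv'] at heq
        exact hnotL c j hc hj v' hv' j' hj' heq.symm
    · rcases hv' with rfl | hv'
      · exfalso
        rw [hguu, hgu v hv] at heq
        exact hnotL c j' hc hj' v hv j hj heq
      · rw [hgu v hv, hgu v' hv'] at heq
        exact hI.dist v hv v' hv' c j j' hc hj hj' heq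
  · -- the potential
    have e1 : ∀ j, ex N Vc req Np (insert u P) (Function.update g u h') j =
        ex N Vc req Np P g j + (xc N req Np u h' j - 2 * Ac N Vc req Np u j) := by
      intro j
      unfold ex
      rw [sum_insert hu, hguu, add_comm]
      congr 1
      apply sum_congr rfl
      intro v hv
      rw [hgu v hv]
    have e2 : Ph N Δ Vc req Np (insert u P) (Function.update g u h') =
        ∑ j ∈ SJ N (insert u P), Real.exp (ex N Vc req Np P g j / Δ) *
          Real.exp ((xc N req Np u h' j - 2 * Ac N Vc req Np u j) / Δ) := by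
      unfold Ph
      apply sum_congr rfl
      intro j _
      rw [e1, add_div, Real.exp_add]
    rw [e2]
    refine hi.trans (le_trans ?_ hI.pot)
    unfold Ph
    apply sum_le_sum_of_subset_of_nonneg
    · rintro ⟨u', x⟩ hx
      unfold SJ at hx ⊢
      rw [mem_product, mem_compl, mem_insert] at hx
      rw [mem_product, mem_compl]
      exact ⟨fun hc => hx.1 (Or.inr hc), hx.2⟩
    · intro j _ _
      exact (Real.exp_pos _).le

lemma start (h : LD N Δ L Vc req Np) (g : V → ℕ → ℕ → V) : Inv N Δ Vc req Np ∅ g := by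
  refine ⟨fun u hu => absurd hu (notMem_empty u), fun u hu => absurd hu (notMem_empty u),
    fun u hu => absurd hu (notMem_empty u), ?_⟩
  unfold Ph ex
  simp only [sum_empty, zero_div, Real.exp_zero]
  rw [sum_const, nsmul_eq_mul, mul_one]
  have e1 : (SJ N (∅ : Finset V)).card = Fintype.card V * (N + Fintype.card V) := by
    unfold SJ
    rw [card_product, compl_empty, card_univ, card_disjSum, card_range, card_univ]
  rw [e1]
  push_cast
  have h1 : (N : ℝ) ≤ Fintype.card V := by exact_mod_cast h.N_le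
  have h2 : (0 : ℝ) ≤ Fintype.card V := Nat.cast_nonneg _
  nlinarith

end

end DistA

open DistA in
theorem stDist (hM : StMat) : StDist := by
  intro V _ N Δ L Vc req Np h
  have hV : Nonempty V := by
    apply Fintype.card_pos_iff.1
    have := h.card2
    omega
  obtain ⟨v0⟩ := hV
  have hall : ∀ P : Finset V, ∃ g, Inv N Δ Vc req Np P g := by
    intro P
    induction P using Finset.induction_on with
    | empty => exact ⟨fun _ _ _ => v0, start h _⟩
    | insert u P hu ih =>
      obtain ⟨g, hg⟩ := ih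
      exact step hM h hg u hu
  obtain ⟨g, hg⟩ := hall univ
  refine ⟨g, fun u c j hc hj => hg.mem u (mem_univ u) c j hc hj,
    fun u y hy => hg.uniq u (mem_univ u) y hy, ?_⟩
  intro c u u' j j' hc hj hj' heq
  exact hg.dist u (mem_univ u) u' (mem_univ u') c j j' hc hj hj' heq

end Pool.Agent.Lib.GHE
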