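import Mathlib
import Pool.Agent.Lib.MP_df0165_co.Ex.Stmts

set_option autoImplicit false
set_option linter.unusedSectionVars false

/-!
# Exact Graham-Haggkvist for expander hosts: lower tail of the degrees
-/

namespace Pool.Agent.Lib.GHE

open Finset Classical Pool.Agent.Lib.GHA

namespace Dm

variable {U V : Type} [Fintype U] [Fintype V]

/-- Number of edges of the copy at `v`. -/
noncomputable def Y (T : SimpleGraph U) (H : SimpleGraph V) (φ : U → V) (v : V) : ℝ :=
  ∑ x ∈ nb H v, cov T φ v x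

lemma Y_eq (T : SimpleGraph U) (H : SimpleGraph V) (φ : U → V) (v : V) :
    Y T H φ v = (((nb H v).filter (fun x => ∃ a b, T.Adj a b ∧ φ a = v ∧ φ b = x)).card : ℝ) := by
  unfold Y cov
  rw [Finset.sum_boole]

lemma Y_nonneg (T : SimpleGraph U) (H : SimpleGraph V) (φ : U → V) (v : V) :
    0 ≤ Y T H φ v := by
  rw [Y_eq]; positivity

lemma card_del (T : SimpleGraph U) (H : SimpleGraph V) (φ : U → V) (v : V) :
    ((nb (del T H φ) v).card : ℝ) = (nb H v).card - Y T H φ v := by
  rw [Y_eq]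
  have h1 : nb (del T H φ) v
      = (nb H v).filter (fun x => ¬ ∃ a b, T.Adj a b ∧ φ a = v ∧ φ b = x) := by
    ext x
    rw [mem_filter]
    unfold nb
    rw [mem_filter, mem_filter]
    simp only [mem_univ, true_and]
    exact Iff.rfl
  have h2 := Finset.card_filter_add_card_filter_not (s := nb H v)
    (fun x => ∃ a b, T.Adj a b ∧ φ a = v ∧ φ b = x)
  rw [h1, eq_sub_iff_add_eq, add_comm]
  exact_mod_cast h2

lemma Y_le (T : SimpleGraph U) (H : SimpleGraph V) (φ : U → V) (v : V) (Δ : ℕ)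
    (hφ : Function.Injective φ) (hΔ : ∀ u, (nb T u).card ≤ Δ) : Y T H φ v ≤ Δ := by
  rw [Y_eq]
  by_cases hv : ∃ a, φ a = v
  · obtain ⟨a, ha⟩ := hv
    have h1 : (nb H v).filter (fun x => ∃ a b, T.Adj a b ∧ φ a = v ∧ φ b = x)
        ⊆ (nb T a).image φ := by
      intro x hx
      rw [mem_filter] at hx
      obtain ⟨-, a', b, hab, ha', hb⟩ := hx
      have h2 : a' = a := hφ (ha'.trans ha.symm)
      subst h2
      rw [mem_image]
      exact ⟨b, by simp only [nb, mem_filter, mem_univ, true_and]; exact hab, hb⟩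
    have h2 := (card_le_card h1).trans (card_image_le.trans (hΔ a))
    exact_mod_cast h2
  · have h1 : (nb H v).filter (fun x => ∃ a b, T.Adj a b ∧ φ a = v ∧ φ b = x) = ∅ := by
      rw [filter_eq_empty_iff]
      rintro x - ⟨a, b, -, ha, -⟩
      exact hv ⟨a, ha⟩
    rw [h1]; simp

lemma exp_le (x : ℝ) (h0 : 0 ≤ x) (h1 : x ≤ 1) : Real.exp x ≤ 1 + x + x ^ 2 := by
  have h2 := Real.abs_exp_sub_one_sub_id_le (x := x) (by rw [abs_of_nonneg h0]; exact h1)
  have h3 := le_abs_self (Real.exp x - 1 - x)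
  linarith

lemma num (e deg d n m g γ γ' ζ ε Δ S : ℝ) (he : 0 < e) (hdeg : 0 ≤ deg) (hdd : deg ≤ d)
    (hd : 0 < d) (hn : 0 < n) (hm : 0 ≤ m) (hmd : 2 * m ≤ d) (hg : 0 < g) (hg1 : g ≤ 1)
    (hgγ : g ≤ γ') (hγ : γ' = γ - 2 * m / (n * d)) (hζ : 0 < ζ) (hζ1 : ζ ≤ 1) (hε : 0 ≤ ε)
    (hε1 : ε ≤ ζ * g ^ 4 / 1000) (hΔ : 0 ≤ Δ) (heΔ : e * Δ ≤ ζ * g ^ 6 / 1000)
    (hS : (1 - ε) * (γ * (n * d)) ≤ S) :
    Real.exp (-(e * (deg / γ'))) * (S + e / γ' * (1 + e * Δ / γ') * (2 * m * deg))
      ≤ S * (Real.exp (e * d * ζ / n) * Real.exp (-(e * (deg / γ)))) := by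
  have hγ'0 : 0 < γ' := lt_of_lt_of_le hg hgγ
  have hlam0 : 0 ≤ 2 * m / (n * d) := by positivity
  have hγγ : γ' ≤ γ := by linarith
  have hγ0 : 0 < γ := lt_of_lt_of_le hγ'0 hγγ
  have hg4 : g ^ 4 ≤ 1 := pow_le_one₀ hg.le hg1
  have hε2 : ε ≤ 1 / 1000 := by
    have : ζ * g ^ 4 ≤ 1 := mul_le_one₀ hζ1 (by positivity) hg4
    linarith
  have hS0 : 0 < S := lt_of_lt_of_le (by have : 0 < 1 - ε := by linarith
                                         positivity) hS
  set lam : ℝ := 2 * m / (γ * (n * d)) with hlam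
  have hlam0' : 0 ≤ lam := by positivity
  have hlam1 : lam ≤ 1 / (g * n) := by
    rw [hlam, div_le_div_iff₀ (by positivity) (by positivity)]
    have h1 : 2 * m * (g * n) ≤ d * (γ * n) := by
      apply mul_le_mul hmd _ (by positivity) hd.le
      exact mul_le_mul_of_nonneg_right (hgγ.trans hγγ) hn.le
    nlinarith
  have hx0 : 0 ≤ e * Δ / γ' := by positivity
  have hx1 : e * Δ / γ' ≤ ζ * g ^ 4 / 1000 := by
    rw [div_le_iff₀ hγ'0]
    have h1 : ζ * g ^ 6 / 1000 ≤ ζ * g ^ 4 / 1000 * g := by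
      have h2 : g ^ 6 ≤ g ^ 4 * g := by
        have : g ^ 6 = g ^ 4 * g * g := by ring
        rw [this]
        exact mul_le_of_le_one_right (by positivity) hg1
      have := mul_le_mul_of_nonneg_left h2 hζ.le
      nlinarith
    have h2 : ζ * g ^ 4 / 1000 * g ≤ ζ * g ^ 4 / 1000 * γ' :=
      mul_le_mul_of_nonneg_left hgγ (by positivity)
    linarith
  set x : ℝ := e * Δ / γ' with hx
  -- the sum
  have h1 : 2 * m * deg ≤ S * (lam * deg / (1 - ε)) := by
    have h2 : 2 * m * deg = (1 - ε) * (γ * (n * d)) * (lam * deg / (1 - ε)) := by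
      rw [hlam]
      have : 1 - ε ≠ 0 := by linarith
      field_simp
    rw [h2]
    exact mul_le_mul_of_nonneg_right hS (by
      have : 0 < 1 - ε := by linarith
      positivity)
  set q : ℝ := e / γ' * (1 + x) * (lam * deg / (1 - ε)) with hq
  have h2 : S + e / γ' * (1 + x) * (2 * m * deg) ≤ S * Real.exp q := by
    have h3 : e / γ' * (1 + x) * (2 * m * deg) ≤ S * q := by
      have h4 := mul_le_mul_of_nonneg_left h1 (show 0 ≤ e / γ' * (1 + x) by positivity)
      rw [hq]
      linarith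
    have h4 : 1 + q ≤ Real.exp q := by
      have := Real.add_one_le_exp q
      linarith
    have h5 := mul_le_mul_of_nonneg_left h4 hS0.le
    nlinarith
  have h3 : Real.exp (-(e * (deg / γ'))) * (S * Real.exp q)
      ≤ S * (Real.exp (e * d * ζ / n) * Real.exp (-(e * (deg / γ)))) := by
    have h4 : Real.exp (-(e * (deg / γ'))) * (S * Real.exp q)
        = S * Real.exp (-(e * (deg / γ')) + q) := by
      rw [Real.exp_add]; ring
    rw [h4, ← Real.exp_add]
    apply mul_le_mul_of_nonneg_left _ hS0.le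
    apply Real.exp_le_exp.2
    -- main inequality
    have h5 : e * (deg / γ') - e * (deg / γ) = e / γ' * (lam * deg) := by
      have h6 : γ - γ' = γ * lam := by
        rw [hlam, hγ]
        field_simp
        ring
      have h7 : e * (deg / γ') - e * (deg / γ) = e * deg * (γ - γ') / (γ * γ') := by
        field_simp
      rw [h7, h6]
      field_simp
    have h6 : q - e / γ' * (lam * deg) ≤ e * d * ζ / n := by
      have h7 : q - e / γ' * (lam * deg) = e / γ' * (lam * deg) * ((x + ε) / (1 - ε)) := by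
        rw [hq]
        have : 1 - ε ≠ 0 := by linarith
        field_simp
        ring
      have h8 : (x + ε) / (1 - ε) ≤ ζ * g ^ 4 / 100 := by
        rw [div_le_iff₀ (by linarith)]
        have : ζ * g ^ 4 / 100 * (1 - ε) ≥ ζ * g ^ 4 / 200 := by
          have h9 : (1 : ℝ) / 2 ≤ 1 - ε := by linarith
          have := mul_le_mul_of_nonneg_left h9 (show 0 ≤ ζ * g ^ 4 / 100 by positivity)
          linarith
        have : 0 ≤ ζ * g ^ 4 := by positivity
        linarith
      have h9 : e / γ' * (lam * deg) ≤ e / g * (1 / (g * n) * d) := by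
        apply mul_le_mul _ _ (by positivity) (by positivity)
        · exact div_le_div_of_nonneg_left he.le hg hgγ
        · exact mul_le_mul hlam1 hdd hdeg (by positivity)
      rw [h7]
      calc e / γ' * (lam * deg) * ((x + ε) / (1 - ε))
          ≤ e / g * (1 / (g * n) * d) * (ζ * g ^ 4 / 100) := by
            apply mul_le_mul h9 h8 _ (by positivity)
            apply div_nonneg <;> linarith
        _ = e * d * ζ / n * (g ^ 2 / 100) := by
            field_simp
        _ ≤ e * d * ζ / n * 1 := by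
            apply mul_le_mul_of_nonneg_left _ (by positivity)
            have : g ^ 2 ≤ 1 := pow_le_one₀ hg.le hg1
            linarith
        _ = e * d * ζ / n := mul_one _
    linarith
  exact (mul_le_mul_of_nonneg_left h2 (Real.exp_nonneg _)).trans h3

end Dm

theorem stDm (hTot : StTot) : StDm := by
  intro U V _ _ D T H γ γ' W v hD hT hU hΔ hG hS
  have hg := hD.g_pos
  have hγ'0 : 0 < γ' := lt_of_lt_of_le hg hG.g_le
  have hd : (0 : ℝ) < D.d := by exact_mod_cast hD.d_pos
  have hn : (0 : ℝ) < D.n := by exact_mod_cast hD.n_pos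
  have hg4 : D.g ^ 4 ≤ 1 := pow_le_one₀ hg.le hD.g_le
  have hg6 : D.g ^ 6 ≤ 1 := pow_le_one₀ hg.le hD.g_le
  have hζ1 : D.ζ ≤ 1 := hD.ζ_le.trans hD.z_le
  have hε1 : D.ε ≤ 1 := by
    have h1 := hD.ε_le
    have : D.ζ * D.g ^ 4 ≤ 1 := mul_le_one₀ hζ1 (by positivity) hg4
    linarith
  obtain ⟨⟨hlo, hhi⟩, hcov, -, -⟩ := hTot U V T D.m D.Δ H W D.ε (fun _ => 0) 0 hS hT hU
    hD.m_pos (by simp) hε1
  set S : ℝ := ∑ φ : U → V, W φ with hSdef
  have hSY : ∑ φ : U → V, W φ * Dm.Y T H φ v ≤ 2 * D.m * (nb H v).card := by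
    have h1 : ∑ φ : U → V, W φ * Dm.Y T H φ v
        = ∑ x ∈ nb H v, ∑ φ : U → V, W φ * cov T φ v x := by
      rw [Finset.sum_comm]
      refine Finset.sum_congr rfl fun φ _ => ?_
      rw [Dm.Y, Finset.mul_sum]
    rw [h1]
    have h2 : ∑ x ∈ nb H v, ∑ φ : U → V, W φ * cov T φ v x ≤ ∑ x ∈ nb H v, (2 * D.m : ℝ) := by
      refine Finset.sum_le_sum fun x hx => ?_
      have hx' : H.Adj v x := by
        simpa only [nb, mem_filter, mem_univ, true_and] using hx
      exact (hcov v x hx').2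
    rw [Finset.sum_const, nsmul_eq_mul] at h2
    linarith
  set c : ℝ := D.e / γ' * (1 + D.e * D.Δ / γ') with hc
  have hx1 : D.e * D.Δ / γ' ≤ 1 := by
    rw [div_le_one hγ'0]
    have h1 := hD.e_le
    have h2 : D.ζ * D.g ^ 6 / 1000 ≤ D.g := by
      have h3 : D.g ^ 6 ≤ D.g := by
        have : D.g ^ 6 = D.g ^ 5 * D.g := by ring
        rw [this]
        exact mul_le_of_le_one_left hg.le (pow_le_one₀ hg.le hD.g_le)
      have h4 : D.ζ * D.g ^ 6 ≤ 1 * D.g := mul_le_mul hζ1 h3 (by positivity) (by norm_num)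
      linarith
    linarith [hG.g_le]
  have hterm : ∀ φ : U → V, W φ * Real.exp (-(D.e * ((nb (del T H φ) v).card / γ')))
      ≤ Real.exp (-(D.e * ((nb H v).card / γ'))) * (W φ + c * (W φ * Dm.Y T H φ v)) := by
    intro φ
    by_cases hφ : W φ = 0
    · rw [hφ]; simp
    · have hinj := (hS.hom φ hφ).1
      have hY0 := Dm.Y_nonneg T H φ v
      have hYΔ := Dm.Y_le T H φ v D.Δ hinj hΔ
      have h1 : -(D.e * (((nb (del T H φ) v).card : ℝ) / γ'))
          = -(D.e * ((nb H v).card / γ')) + D.e / γ' * Dm.Y T H φ v := by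
        rw [Dm.card_del]
        field_simp
        ring
      rw [h1, Real.exp_add]
      have h2 : Real.exp (D.e / γ' * Dm.Y T H φ v) ≤ 1 + c * Dm.Y T H φ v := by
        have he := hD.e_pos
        have hy0 : 0 ≤ D.e / γ' * Dm.Y T H φ v := by positivity
        have hy1 : D.e / γ' * Dm.Y T H φ v ≤ D.e * D.Δ / γ' := by
          have : D.e / γ' * Dm.Y T H φ v ≤ D.e / γ' * D.Δ :=
            mul_le_mul_of_nonneg_left hYΔ (by positivity)
          calc _ ≤ _ := this
            _ = _ := by ring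
        have h3 := Dm.exp_le _ hy0 (hy1.trans hx1)
        have h4 : (D.e / γ' * Dm.Y T H φ v) ^ 2
            ≤ D.e / γ' * Dm.Y T H φ v * (D.e * D.Δ / γ') := by
          rw [pow_two]
          exact mul_le_mul_of_nonneg_left hy1 hy0
        rw [hc]
        nlinarith
      have h3 := mul_le_mul_of_nonneg_left h2 (mul_nonneg (hS.nonneg φ)
        (Real.exp_nonneg (-(D.e * ((nb H v).card / γ')))))
      calc W φ * (Real.exp (-(D.e * ((nb H v).card / γ')))
            * Real.exp (D.e / γ' * Dm.Y T H φ v))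
          = W φ * Real.exp (-(D.e * ((nb H v).card / γ')))
            * Real.exp (D.e / γ' * Dm.Y T H φ v) := by ring
        _ ≤ W φ * Real.exp (-(D.e * ((nb H v).card / γ'))) * (1 + c * Dm.Y T H φ v) := h3
        _ = _ := by ring
  have hsum : ∑ φ : U → V, W φ * Real.exp (-(D.e * ((nb (del T H φ) v).card / γ')))
      ≤ Real.exp (-(D.e * ((nb H v).card / γ'))) * (S + c * (2 * D.m * (nb H v).card)) := by
    refine (Finset.sum_le_sum fun φ _ => hterm φ).trans ?_
    rw [← Finset.mul_sum, Finset.sum_add_distrib, ← Finset.mul_sum]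
    apply mul_le_mul_of_nonneg_left _ (Real.exp_nonneg _)
    have hc0 : 0 ≤ c := by
      have he := hD.e_pos
      rw [hc]; positivity
    have := mul_le_mul_of_nonneg_left hSY hc0
    linarith
  refine hsum.trans ?_
  have hmd : (2 : ℝ) * D.m ≤ D.d := by exact_mod_cast hD.m_le
  refine Dm.num D.e (nb H v).card D.d D.n D.m D.g γ γ' D.ζ D.ε D.Δ S hD.e_pos (by positivity)
    (by exact_mod_cast hG.deg_le v) hd hn (by positivity) hmd hg hD.g_le hG.g_le hG.next
    hD.ζ_pos hζ1 hD.ε_nonneg hD.ε_le (by positivity) hD.e_le ?_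
  rw [← hG.sum]
  exact hlo

end Pool.Agent.Lib.GHE
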