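import Pool.Agent.Lib.MP_df0165_co.Ex.Stmts

set_option autoImplicit false
set_option linter.unusedSectionVars false

/-!
# Module R0: expectations of products
-/

namespace Pool.Agent.Lib.GHE

open Finset Classical Pool.Agent.Lib.GHA

namespace Exp

variable {E L : Type} [Fintype E] [Fintype L] {p : L → ℝ}

lemma part1 (hp : ∑ x : L, p x = 1) (F : Finset E) (g : E → L → ℝ) :
    ∑ ω : E → L, (∏ e : E, p (ω e)) * ∏ e ∈ F, g e (ω e) = ∏ e ∈ F, ∑ x : L, p x * g e x := by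
  have h1 : ∀ ω : E → L, (∏ e : E, p (ω e)) * ∏ e ∈ F, g e (ω e) =
      ∏ e : E, (p (ω e) * if e ∈ F then g e (ω e) else 1) := by
    intro ω
    rw [Finset.prod_mul_distrib, Finset.prod_ite_mem, Finset.univ_inter]
  have h2 := Finset.prod_univ_sum (fun _ : E => (univ : Finset L))
    (fun e x => p x * if e ∈ F then g e x else 1)
  rw [Fintype.piFinset_univ] at h2
  rw [Finset.sum_congr rfl fun ω _ => h1 ω]
  refine Eq.trans ?_ (h2.symm.trans ?_)
  · rfl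
  · rw [← Finset.prod_subset (Finset.subset_univ F)]
    · refine Finset.prod_congr rfl fun e he => ?_
      refine Finset.sum_congr rfl fun x _ => ?_
      rw [if_pos he]
    · intro e _ he
      simp only [if_neg he, mul_one]
      exact hp

/-- the indicator functions of the blocks -/
noncomputable def gg {I : Type} (Y : Finset I) (e1 e2 : I → E) (S1 S2 : I → Finset L) (e : E)
    (x : L) : ℝ :=
  ∏ i ∈ Y, ((if e1 i = e ∧ x ∉ S1 i then 0 else 1) * (if e2 i = e ∧ x ∉ S2 i then 0 else 1))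

lemma prod_one {I : Type} (e1 : I → E) (S1 : I → Finset L) (ω : E → L) (i : I) :
    ∏ e : E, (if e1 i = e ∧ ω e ∉ S1 i then (0 : ℝ) else 1) =
      if ω (e1 i) ∈ S1 i then 1 else 0 := by
  by_cases h : ω (e1 i) ∈ S1 i
  · rw [if_pos h]
    refine Finset.prod_eq_one fun e _ => if_neg ?_
    rintro ⟨rfl, h2⟩
    exact h2 h
  · rw [if_neg h]
    exact Finset.prod_eq_zero (Finset.mem_univ (e1 i)) (if_pos ⟨rfl, h⟩)

lemma prod_gg {I : Type} (Y : Finset I) (e1 e2 : I → E) (S1 S2 : I → Finset L) (ω : E → L) :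
    ∏ e : E, gg Y e1 e2 S1 S2 e (ω e) =
      ∏ i ∈ Y, if ω (e1 i) ∈ S1 i ∧ ω (e2 i) ∈ S2 i then (1 : ℝ) else 0 := by
  unfold gg
  rw [Finset.prod_comm]
  refine Finset.prod_congr rfl fun i _ => ?_
  rw [Finset.prod_mul_distrib, prod_one e1 S1 ω i, prod_one e2 S2 ω i]
  by_cases h1 : ω (e1 i) ∈ S1 i <;> by_cases h2 : ω (e2 i) ∈ S2 i <;> simp [h1, h2]

lemma gg_one {I : Type} {Y : Finset I} {e1 e2 : I → E} {S1 S2 : I → Finset L}
    (h1 : Set.InjOn e1 Y) (hd : ∀ i ∈ Y, ∀ j ∈ Y, e1 i ≠ e2 j) {i : I} (hi : i ∈ Y) (x : L) :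
    gg Y e1 e2 S1 S2 (e1 i) x = if x ∈ S1 i then 1 else 0 := by
  unfold gg
  rw [Finset.prod_eq_single_of_mem i hi]
  · rw [if_neg (fun h : e2 i = e1 i ∧ _ => hd i hi i hi h.1.symm), mul_one]
    by_cases hx : x ∈ S1 i
    · rw [if_pos hx, if_neg fun h => h.2 hx]
    · rw [if_neg hx, if_pos ⟨rfl, hx⟩]
  · intro j hj hne
    rw [if_neg (fun h => hne (h1 hj hi h.1)),
      if_neg (fun h : e2 j = e1 i ∧ _ => hd i hi j hj h.1.symm), mul_one]

lemma gg_two {I : Type} {Y : Finset I} {e1 e2 : I → E} {S1 S2 : I → Finset L}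
    (h2 : Set.InjOn e2 Y) (hd : ∀ i ∈ Y, ∀ j ∈ Y, e1 i ≠ e2 j) {i : I} (hi : i ∈ Y) (x : L) :
    gg Y e1 e2 S1 S2 (e2 i) x = if x ∈ S2 i then 1 else 0 := by
  unfold gg
  rw [Finset.prod_eq_single_of_mem i hi]
  · rw [if_neg (fun h : e1 i = e2 i ∧ _ => hd i hi i hi h.1), one_mul]
    by_cases hx : x ∈ S2 i
    · rw [if_pos hx, if_neg fun h => h.2 hx]
    · rw [if_neg hx, if_pos ⟨rfl, hx⟩]
  · intro j hj hne
    rw [if_neg (fun h : e1 j = e2 i ∧ _ => hd j hj i hi h.1),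
      if_neg (fun h => hne (h2 hj hi h.1)), mul_one]

lemma gg_none {I : Type} {Y : Finset I} {e1 e2 : I → E} {S1 S2 : I → Finset L} {e : E}
    (h1 : e ∉ Y.image e1) (h2 : e ∉ Y.image e2) (x : L) : gg Y e1 e2 S1 S2 e x = 1 := by
  unfold gg
  refine Finset.prod_eq_one fun i hi => ?_
  rw [if_neg (fun h => h1 (Finset.mem_image.2 ⟨i, hi, h.1⟩)),
    if_neg (fun h => h2 (Finset.mem_image.2 ⟨i, hi, h.1⟩)), mul_one]

lemma sum_ind (S : Finset L) : ∑ x : L, p x * (if x ∈ S then (1 : ℝ) else 0) = ∑ x ∈ S, p x := by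
  simp only [mul_ite, mul_one, mul_zero]
  rw [Finset.sum_ite_mem, Finset.univ_inter]

lemma block (hp : ∑ x : L, p x = 1) {I : Type} (Y : Finset I) (e1 e2 : I → E)
    (S1 S2 : I → Finset L) (q1 q2 : ℝ) (h1 : Set.InjOn e1 Y) (h2 : Set.InjOn e2 Y)
    (hd : ∀ i ∈ Y, ∀ j ∈ Y, e1 i ≠ e2 j) (hq1 : ∀ i ∈ Y, ∑ x ∈ S1 i, p x = q1)
    (hq2 : ∀ i ∈ Y, ∑ x ∈ S2 i, p x = q2) :
    ∑ ω : E → L, (∏ e : E, p (ω e)) *
      (∏ i ∈ Y, if ω (e1 i) ∈ S1 i ∧ ω (e2 i) ∈ S2 i then (1 : ℝ) else 0) =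
      (q1 * q2) ^ Y.card := by
  have h3 := part1 hp (univ : Finset E) (gg Y e1 e2 S1 S2)
  rw [Finset.sum_congr rfl fun ω _ => by rw [prod_gg Y e1 e2 S1 S2 ω]] at h3
  rw [h3]
  have h4 : ∀ e : E, ∑ x : L, p x * gg Y e1 e2 S1 S2 e x =
      (if e ∈ Y.image e1 then q1 else 1) * (if e ∈ Y.image e2 then q2 else 1) := by
    intro e
    by_cases he1 : e ∈ Y.image e1
    · obtain ⟨i, hi, rfl⟩ := Finset.mem_image.1 he1
      have he2 : e1 i ∉ Y.image e2 := by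
        intro h
        obtain ⟨j, hj, hj2⟩ := Finset.mem_image.1 h
        exact hd i hi j hj hj2.symm
      rw [if_pos he1, if_neg he2, mul_one]
      refine Eq.trans ?_ ((sum_ind (p := p) (S1 i)).trans (hq1 i hi))
      exact Finset.sum_congr rfl fun x _ => by rw [gg_one h1 hd hi]
    · by_cases he2 : e ∈ Y.image e2
      · rw [if_neg he1, if_pos he2, one_mul]
        obtain ⟨i, hi, rfl⟩ := Finset.mem_image.1 he2
        refine Eq.trans ?_ ((sum_ind (p := p) (S2 i)).trans (hq2 i hi))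
        exact Finset.sum_congr rfl fun x _ => by rw [gg_two h2 hd hi]
      · rw [if_neg he1, if_neg he2, mul_one, ← hp]
        exact Finset.sum_congr rfl fun x _ => by rw [gg_none he1 he2, mul_one]
  rw [Finset.prod_congr rfl fun e _ => h4 e, Finset.prod_mul_distrib, Finset.prod_ite_mem,
    Finset.prod_ite_mem, Finset.univ_inter, Finset.univ_inter, Finset.prod_const,
    Finset.prod_const, Finset.card_image_of_injOn h1, Finset.card_image_of_injOn h2, mul_pow]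

end Exp

open Exp in
theorem stExp : StExp := by
  intro E L _ _ p _ hp
  refine ⟨fun F g => part1 hp F g, ?_⟩
  intro I _ J e1 e2 S1 S2 c q1 q2 h1 h2 hd hq1 hq2
  have h3 : ∀ ω : E → L, (∏ e : E, p (ω e)) *
      ∏ i ∈ J, (1 + c * if ω (e1 i) ∈ S1 i ∧ ω (e2 i) ∈ S2 i then (1 : ℝ) else 0) =
      ∑ Y ∈ J.powerset, c ^ Y.card * ((∏ e : E, p (ω e)) *
        ∏ i ∈ Y, if ω (e1 i) ∈ S1 i ∧ ω (e2 i) ∈ S2 i then (1 : ℝ) else 0) := by
    intro ω
    rw [Finset.prod_one_add, Finset.mul_sum]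
    refine Finset.sum_congr rfl fun Y _ => ?_
    rw [Finset.prod_mul_distrib, Finset.prod_const]
    ring
  rw [Finset.sum_congr rfl fun ω _ => h3 ω, Finset.sum_comm]
  have h4 : (1 + c * (q1 * q2)) ^ J.card = ∑ Y ∈ J.powerset, c ^ Y.card * (q1 * q2) ^ Y.card := by
    rw [← Finset.prod_const, Finset.prod_one_add]
    refine Finset.sum_congr rfl fun Y _ => ?_
    rw [Finset.prod_const, mul_pow]
  rw [h4]
  refine Finset.sum_congr rfl fun Y hY => ?_
  have hYJ := Finset.mem_powerset.1 hY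
  rw [← Finset.mul_sum]
  congr 1
  exact block hp Y e1 e2 S1 S2 q1 q2 (h1.mono (Finset.coe_subset.2 hYJ))
    (h2.mono (Finset.coe_subset.2 hYJ)) (fun i hi j hj => hd i (hYJ hi) j (hYJ hj))
    (fun i hi => hq1 i (hYJ hi)) (fun i hi => hq2 i (hYJ hi))

end Pool.Agent.Lib.GHE
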