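import Mathlib
import Pool.Agent.Lib.MP_df0165_co.Ex.Stmts
import Pool.Agent.Lib.MP_df0165_co.Ap.Gen3
import Pool.Agent.Lib.MP_df0165_co.Ap.GenA

set_option autoImplicit false
set_option linter.unusedSectionVars false

/-!
# Exact Graham-Haggkvist for expander hosts: generator of the exposure test
-/

namespace Pool.Agent.Lib.GHE.GEm

open Finset Classical Pool.Agent.Lib.GHA Pool.Agent.Lib.GHE

variable {U V : Type} [Fintype U] [Fintype V]

/-- Indicator of the set `A`. -/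
noncomputable def ia (A : Finset V) (y : V) : ℝ := if y ∈ A then 1 else 0

lemma ia_zero_or_one (A : Finset V) (y : V) : ia A y = 0 ∨ ia A y = 1 := by
  unfold ia; split_ifs <;> simp

lemma exs_bump {D : Finset U} (ψ : U → V) (τ : U → ℝ) (A : Finset V) {p : U} (hp : p ∈ D)
    (t : ℝ) : exs D ψ (bump τ p t) A = exs D ψ τ A + t * ia A (ψ p) := by
  unfold exs
  have h : ∀ u ∈ D, (if ψ u ∈ A then bump τ p t u else 0)
      = (if ψ u ∈ A then τ u else 0) + if u = p then t * ia A (ψ p) else 0 := by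
    intro u _
    by_cases hu : u = p
    · subst hu
      by_cases h1 : ψ u ∈ A <;> simp [bump, ia, h1]
    · by_cases h1 : ψ u ∈ A <;> simp [bump, hu, h1]
  rw [Finset.sum_congr rfl h, Finset.sum_add_distrib, Finset.sum_ite_eq']
  rw [if_pos hp]

lemma exs_next {D : Finset U} (ψ : U → V) {τ : U → ℝ} (A : Finset V) {w : U} (hw : w ∉ D)
    (hτw : τ w = 0) (y : V) : exs (insert w D) (Function.update ψ w y) τ A = exs D ψ τ A := by
  unfold exs
  rw [Finset.sum_insert hw, hτw]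
  have h0 : (if Function.update ψ w y w ∈ A then (0 : ℝ) else 0) = 0 := by split_ifs <;> rfl
  rw [h0, zero_add]
  apply Finset.sum_congr rfl
  intro u hu
  rw [Function.update_of_ne (fun h : u = w => hw (h ▸ hu))]

/-- Number of remaining steps with parent in `A`. -/
noncomputable def pa (l : List (U × U)) (D : Finset U) (ψ : U → V) (A : Finset V) : ℕ :=
  l.countP (fun s => decide (s.2 ∈ D ∧ ψ s.2 ∈ A))

lemma pa_cons {D : Finset U} (ψ : U → V) (w : U) {p : U} (hp : p ∈ D) (l : List (U × U))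
    (A : Finset V) : (pa ((w, p) :: l) D ψ A : ℝ) = (pa l D ψ A : ℝ) + ia A (ψ p) := by
  unfold pa ia
  rw [List.countP_cons]
  by_cases h : ψ p ∈ A
  · simp [hp, h]
  · simp [h]

lemma pa_next_le {D : Finset U} (ψ : U → V) (w : U) (l : List (U × U))
    (A : Finset V) (y : V) :
    (pa l (insert w D) (Function.update ψ w y) A : ℝ)
      ≤ (pa l D ψ A : ℝ) + (rem l w : ℝ) * ia A y := by
  by_cases hy : y ∈ A
  · have h1 : ia A y = 1 := if_pos hy
    rw [h1, mul_one]
    have : pa l (insert w D) (Function.update ψ w y) A ≤ pa l D ψ A + rem l w := by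
      unfold pa rem
      apply Gen3.countP_le_add
      intro s hs
      simp only [decide_eq_true_eq] at hs ⊢
      obtain ⟨h1, h3⟩ := hs
      rw [Finset.mem_insert] at h1
      by_cases hsw : s.2 = w
      · exact Or.inr hsw
      · left
        rw [Function.update_of_ne hsw] at h3
        exact ⟨h1.resolve_left hsw, h3⟩
    exact_mod_cast this
  · have h1 : ia A y = 0 := if_neg hy
    rw [h1, mul_zero, add_zero]
    have : pa l (insert w D) (Function.update ψ w y) A ≤ pa l D ψ A := by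
      unfold pa
      apply List.countP_mono_left
      intro s _ hs
      simp only [decide_eq_true_eq] at hs ⊢
      obtain ⟨h1, h3⟩ := hs
      rw [Finset.mem_insert] at h1
      by_cases hsw : s.2 = w
      · rw [hsw, Function.update_self] at h3
        exact absurd h3 hy
      · rw [Function.update_of_ne hsw] at h3
        exact ⟨h1.resolve_left hsw, h3⟩
    exact_mod_cast this

lemma GE_eq (P : Par) (X : TD V) (l : List (U × U)) (D : Finset U) (ψ : U → V) (τ : U → ℝ) :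
    GE P X l D ψ τ = Real.exp (P.e2 * (exs D ψ τ X.Av + P.ρ * (pa l D ψ X.Av : ℝ)
      + P.ρ' * (rest l D : ℝ))) := rfl

lemma GE_nonneg (P : Par) (X : TD V) (l : List (U × U)) (D : Finset U) (ψ : U → V)
    (τ : U → ℝ) : 0 ≤ GE P X l D ψ τ := (Real.exp_pos _).le

lemma GE_deriv (P : Par) (X : TD V) (l : List (U × U)) {D : Finset U} (ψ : U → V) (τ : U → ℝ)
    {p : U} (hp : p ∈ D) :
    HasDerivAt (fun t : ℝ => GE P X l D ψ (bump τ p t))
      (GE P X l D ψ τ * (P.e2 * ia X.Av (ψ p))) 0 := by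
  have h1 : HasDerivAt (fun t : ℝ => P.e2 * (exs D ψ (bump τ p t) X.Av
      + P.ρ * (pa l D ψ X.Av : ℝ) + P.ρ' * (rest l D : ℝ))) (P.e2 * ia X.Av (ψ p)) 0 := by
    have h2 : (fun t : ℝ => P.e2 * (exs D ψ (bump τ p t) X.Av
        + P.ρ * (pa l D ψ X.Av : ℝ) + P.ρ' * (rest l D : ℝ)))
        = fun t : ℝ => (P.e2 * ia X.Av (ψ p)) * t + P.e2 * (exs D ψ τ X.Av
        + P.ρ * (pa l D ψ X.Av : ℝ) + P.ρ' * (rest l D : ℝ)) := by
      funext t
      rw [exs_bump ψ τ X.Av hp t]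
      ring
    rw [h2]
    have h3 := ((hasDerivAt_id (0 : ℝ)).const_mul (P.e2 * ia X.Av (ψ p))).add_const
      (P.e2 * (exs D ψ τ X.Av + P.ρ * (pa l D ψ X.Av : ℝ) + P.ρ' * (rest l D : ℝ)))
    simpa using h3
  have h4 := h1.exp
  have h5 : exs D ψ (bump τ p 0) X.Av = exs D ψ τ X.Av := by
    rw [exs_bump ψ τ X.Av hp 0]; ring
  simp only [h5] at h4
  exact h4

lemma GE_next_le {P : Par} (hP : P.Ok) (X : TD V) {D : Finset U} (ψ : U → V) {τ : U → ℝ}
    {w p : U} (hw : w ∉ D) (hp : p ∈ D) (hτw : τ w = 0) (l : List (U × U)) (y : V) :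
    GE P X l (insert w D) (Function.update ψ w y) τ
      ≤ GE P X ((w, p) :: l) D ψ τ * Real.exp (P.e2 * P.ρ * (-ia X.Av (ψ p)
          + (rem l w : ℝ) * (ia X.Av y - P.γ * (1 + P.d1)))) := by
  rw [GE_eq, GE_eq, ← Real.exp_add]
  apply Real.exp_le_exp.mpr
  rw [exs_next ψ X.Av hw hτw y, pa_cons ψ w hp l X.Av, Gen3.rest_cons w hp l,
    Gen3.rest_next hw l]
  have h4 := pa_next_le (D := D) ψ w l X.Av y
  have h5 := mul_le_mul_of_nonneg_left h4 hP.ρ_pos.le
  have h6 : P.ρ' = P.γ * (1 + P.d1) * P.ρ := rfl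
  have h7 : exs D ψ τ X.Av
      + P.ρ * (pa l (insert w D) (Function.update ψ w y) X.Av : ℝ)
      + P.ρ' * ((rest l D : ℝ) - (rem l w : ℝ))
      ≤ (exs D ψ τ X.Av + P.ρ * ((pa l D ψ X.Av : ℝ) + ia X.Av (ψ p))
      + P.ρ' * (rest l D : ℝ)) + P.ρ * (-ia X.Av (ψ p)
        + (rem l w : ℝ) * (ia X.Av y - P.γ * (1 + P.d1))) := by
    rw [h6]
    linarith
  have h8 := mul_le_mul_of_nonneg_left h7 hP.e2_nonneg
  linarith

end Pool.Agent.Lib.GHE.GEm

namespace Pool.Agent.Lib.GHE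

open Finset Classical Pool.Agent.Lib.GHA GEm

theorem stGE : StGE := by
  intro U V _ _ Q T lw H B X w p l D ψ τ hQ hG hX h hS
  have hP : Q.P.Ok := hQ.ok
  have hGS := hS.gs
  obtain ⟨hw, hp, hu, hgr⟩ := h.grow
  simp only at hw hp hu hgr
  have hτw : τ w = 0 := h.zero w hw
  have hqS : ψ p ∈ D.image ψ := Finset.mem_image_of_mem _ hp
  have hk : rem l w ≤ Q.P.Δ := (rem_le_cons (w, p) l w).trans (h.rem_le w)
  set Y : Finset V := (nb H (ψ p) \ B) \ D.image ψ with hY
  have hYcard : Y.card ≤ Q.P.d := by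
    refine le_trans (Finset.card_le_card ?_) (hG.deg_le (ψ p))
    exact Finset.sdiff_subset.trans Finset.sdiff_subset
  have hc := hP.c_pos
  have ha : ∀ y ∈ Y, 2 * Q.P.c ≤ av H D ψ τ y := by
    intro y hy
    rw [hY, Finset.mem_sdiff, Finset.mem_sdiff] at hy
    exact hGS.av_ge y hy.1.2 hy.2
  have h1a : ∀ y ∈ Y, 0 < 1 / av H D ψ τ y := by
    intro y hy
    have := ha y hy
    have h0 : 0 < av H D ψ τ y := by linarith
    positivity
  have hB : nb H (ψ p) ∩ B = ∅ := by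
    rw [Finset.eq_empty_iff_forall_notMem]
    intro y hy
    rw [Finset.mem_inter] at hy
    have h1 : ψ p ∈ nb H y := mem_nb.2 (mem_nb.1 hy.1).symm
    rw [hX.iso y hy.2] at h1
    exact absurd h1 (Finset.notMem_empty _)
  have hR : (Q.P.γ - Q.P.α - Q.P.δ) * Q.P.d ≤ ∑ y ∈ Y, 1 / av H D ψ τ y + 0 := by
    have h1 := hGS.R_ge (ψ p) hqS
    rw [hB, Finset.card_empty, Nat.cast_zero] at h1
    exact h1
  have hRx : ∑ y ∈ Y, 1 / av H D ψ τ y * ia X.Av y
      ≤ (Q.P.γ ^ 2 + Q.P.α + Q.P.δ) * Q.P.d := by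
    have hfil : ((nb H (ψ p) ∩ X.Av) \ B) \ D.image ψ = Y.filter (fun y => y ∈ X.Av) := by
      ext y
      rw [hY]
      simp only [Finset.mem_sdiff, Finset.mem_inter, Finset.mem_filter]
      tauto
    have h1 := hS.av_le (ψ p) hqS
    rw [hfil, Finset.sum_filter] at h1
    refine le_trans (le_of_eq ?_) h1
    apply Finset.sum_congr rfl
    intro y _
    unfold ia
    split_ifs <;> simp
  have hkey := Gen3.key hP Y (fun y => av H D ψ τ y) (ia X.Av) 0 (ia X.Av (ψ p)) (rem l w)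
    (ia_zero_or_one _ _) hk le_rfl ha (ia_zero_or_one _) hYcard hR hRx
  rw [sub_zero] at hkey
  refine ⟨GE Q.P X ((w, p) :: l) D ψ τ * (Q.P.e2 * ia X.Av (ψ p)),
    GE_deriv Q.P X ((w, p) :: l) ψ τ hp, ?_⟩
  have hb0 : bump τ p 0 = τ := by
    funext u
    simp [bump]
  simp only [hb0]
  set N : ℝ := GE Q.P X ((w, p) :: l) D ψ τ with hN
  have hN0 : 0 ≤ N := GE_nonneg _ _ _ _ _ _
  have h2 : ∑ y ∈ Y, 1 / av H D ψ τ y *
        (GE Q.P X l (insert w D) (Function.update ψ w y) τ - N)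
      ≤ N * ∑ y ∈ Y, 1 / av H D ψ τ y *
        (Real.exp (Q.P.e2 * Q.P.ρ * (-ia X.Av (ψ p)
          + (rem l w : ℝ) * (ia X.Av y - Q.P.γ * (1 + Q.P.d1)))) - 1) := by
    rw [Finset.mul_sum]
    apply Finset.sum_le_sum
    intro y hy
    have h3 := GE_next_le hP X ψ hw hp hτw l y
    have h4 := mul_le_mul_of_nonneg_left (sub_le_sub_right h3 N) (h1a y hy).le
    refine h4.trans (le_of_eq ?_)
    rw [← hN]
    ring
  have h5 := mul_le_mul_of_nonneg_left hkey hN0
  rw [mul_zero, mul_add] at h5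
  linarith

end Pool.Agent.Lib.GHE
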