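import Mathlib
import Pool.Agent.Lib.MP_df0165_co.Ex.Stmts

set_option autoImplicit false
set_option linter.unusedSectionVars false

/-!
# Exact Graham-Haggkvist: generator of the old potential when the vertices of `B` are isolated
-/

namespace Pool.Agent.Lib.GHE.GOm

open Finset Classical Pool.Agent.Lib.GHA

variable {U V : Type} [Fintype U] [Fintype V]

lemma Sup.const_mul {Y : Finset V} {a : V → ℝ} {f : ℝ → ℝ} {g : V → ℝ}
    (h : GenA.Sup Y a f g) {k : ℝ} (hk : 0 ≤ k) :
    GenA.Sup Y a (fun t => k * f t) (fun y => k * g y) := by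
  obtain ⟨d, hd, hs⟩ := h
  refine ⟨k * d, hd.const_mul k, ?_⟩
  have e : ∑ y ∈ Y, 1 / a y * (k * g y - k * f 0) = k * ∑ y ∈ Y, 1 / a y * (g y - f 0) := by
    rw [Finset.mul_sum]
    exact Finset.sum_congr rfl (fun y _ => by ring)
  rw [e, ← mul_add]
  exact mul_nonpos_of_nonneg_of_nonpos hk hs

/-- A vertex of `B` has no neighbours. -/
lemma inter_empty {H : SimpleGraph V} {B : Finset V} (hB : ∀ v ∈ B, nb H v = ∅) (x : V) :
    nb H x ∩ B = ∅ := by
  refine Finset.eq_empty_of_forall_notMem (fun y hy => ?_)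
  obtain ⟨h1, h2⟩ := Finset.mem_inter.1 hy
  have h3 : x ∈ nb H y := mem_nb.2 (mem_nb.1 h1).symm
  rw [hB y h2] at h3
  exact Finset.notMem_empty x h3

end Pool.Agent.Lib.GHE.GOm

namespace Pool.Agent.Lib.GHE

open Finset Classical Pool.Agent.Lib.GHA

/-- (S4) generator of the old potential and of the group `G3` when the vertices of `B` are
isolated. -/
theorem stGO : StGO := by
  intro U V _ _ P T H B w p l D ψ τ hP hG hB hI hS
  have hc := hP.c_pos
  have hav : ∀ y, y ∉ B → y ∉ D.image ψ → P.c ≤ av H D ψ τ y := fun y h1 h2 => by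
    have := hS.av_ge y h1 h2
    linarith
  have hE : ((nb H (ψ p) ∩ B).card : ℝ) = 0 := by
    rw [GOm.inter_empty hB]
    simp
  have sA : GenA.Sup ((nb H (ψ p) \ B) \ D.image ψ) (fun y => av H D ψ τ y)
      (fun t => AP H B P.e1 P.ka P.K1 D ψ (bump τ p t))
      (fun y => AP H B P.e1 P.ka P.K1 (insert w D) (Function.update ψ w y) τ) := by
    obtain ⟨g', h1, h2⟩ := stGenA U V P T H B w p l D ψ τ hP hG hI hav
    refine ⟨g', h1, ?_⟩
    simpa only [bump_zero] using h2
  have s3 : GenA.Sup ((nb H (ψ p) \ B) \ D.image ψ) (fun y => av H D ψ τ y)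
      (fun t => G3 P T H B ((w, p) :: l) D ψ (bump τ p t))
      (fun y => G3 P T H B l (insert w D) (Function.update ψ w y) τ) := by
    obtain ⟨g', h1, h2⟩ := stGen3 U V P T H B w p l D ψ τ hP hG hI hS
    refine ⟨g', h1, ?_⟩
    rw [hE, zero_mul, sub_zero] at h2
    simpa only [bump_zero] using h2
  have s4 : GenA.Sup ((nb H (ψ p) \ B) \ D.image ψ) (fun y => av H D ψ τ y)
      (fun t => G4 P ((w, p) :: l) D (bump τ p t))
      (fun _ => G4 P l (insert w D) τ) := by
    obtain ⟨g', h1, h2⟩ := stGen4 U V P T H B w p l D ψ τ hP hG hI hS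
    refine ⟨g', h1, ?_⟩
    rw [hE, zero_mul, sub_zero] at h2
    simpa only [bump_zero] using h2
  refine ⟨?_, s3⟩
  unfold PHI
  exact ((GOm.Sup.const_mul sA (Real.exp_pos _).le).add
    (GOm.Sup.const_mul s3 (Real.exp_pos _).le)).add
    (GOm.Sup.const_mul s4 (Real.exp_pos _).le)

end Pool.Agent.Lib.GHE
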