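import Mathlib
import Pool.Agent.Lib.MP_df0165_co.Ex.Stmts

set_option autoImplicit false
set_option linter.unusedSectionVars false
set_option linter.unusedVariables false

/-!
# Exact Graham-Haggkvist: consequences of `PHI2 < 1` (module GS2)
-/

namespace Pool.Agent.Lib.GHE.GSm

open Finset Classical Pool.Agent.Lib.GHA

variable {U V : Type} [Fintype U] [Fintype V]

/-! ## The groups are nonnegative -/

lemma At_nonneg (H : SimpleGraph V) (s e1 ka : ℝ) (A : Finset V) (D : Finset U)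
    (ψ : U → V) (τ : U → ℝ) : 0 ≤ At H s e1 ka A D ψ τ := (Real.exp_pos _).le

lemma GA_nonneg (P : Par) (H : SimpleGraph V) (B : Finset V) (X : TD V) (D : Finset U)
    (ψ : U → V) (τ : U → ℝ) : 0 ≤ GA P H B X D ψ τ := by
  unfold GA
  refine add_nonneg (add_nonneg ?_ ?_) ?_
  · exact Finset.sum_nonneg (fun A _ => At_nonneg _ _ _ _ _ _ _ _)
  · exact Finset.sum_nonneg (fun t _ => Finset.sum_nonneg (fun q _ => At_nonneg _ _ _ _ _ _ _ _))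
  · exact Finset.sum_nonneg (fun q _ => At_nonneg _ _ _ _ _ _ _ _)

lemma GT_term_nonneg (Q : Par2) (lw : U → ℕ) (D : Finset U) (ψ : U → V)
    (t : Finset V × ℝ × V) : 0 ≤ (if t.2.2 ∈ D.image ψ then (0 : ℝ) else
    Real.exp (Q.eT * (lwt lw D ψ t.1 + Q.ks t.2.1 * ∑ u ∈ Dᶜ, (lw u : ℝ)
      - Q.ks t.2.1 * Q.l - Q.dT * Q.P.d))) := by
  split_ifs
  · exact le_rfl
  · exact (Real.exp_pos _).le

lemma GT_nonneg (Q : Par2) (lw : U → ℕ) (X : TD V) (D : Finset U) (ψ : U → V) :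
    0 ≤ GT Q lw X D ψ := by
  unfold GT
  exact Finset.sum_nonneg (fun t _ => GT_term_nonneg Q lw D ψ t)

lemma GE_nonneg (P : Par) (X : TD V) (l : List (U × U)) (D : Finset U) (ψ : U → V)
    (τ : U → ℝ) : 0 ≤ GE P X l D ψ τ := (Real.exp_pos _).le

lemma w5_pos (Q : Par2) : 0 < Q.w5 := Real.exp_pos _

lemma ks_nonneg {Q : Par2} (hQ : Q.Ok) {r : ℝ} (hr : 0 ≤ r) : 0 ≤ Q.ks r := by
  unfold Par2.ks
  exact add_nonneg (div_nonneg hr hQ.ok.γ_pos.le) hQ.d3_pos.le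

section bounds

variable {Q : Par2} {T : SimpleGraph U} {lw : U → ℕ} {H : SimpleGraph V} {B : Finset V}
  {X : TD V} {l : List (U × U)} {D : Finset U} {ψ : U → V} {τ : U → ℝ}

lemma PHI_nonneg (hQ : Q.Ok) (hG : Good Q.P H B) (hI : Inv Q.P T H B l D ψ τ) :
    0 ≤ PHI Q.P T H B l D ψ τ := by
  obtain ⟨⟨h1, h3, h4⟩, -⟩ := stGS U V Q.P T H B l D ψ τ hQ.ok hG hI
  unfold PHI
  exact add_nonneg (add_nonneg (mul_nonneg (Real.exp_pos _).le h1)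
    (mul_nonneg (Real.exp_pos _).le h3)) (mul_nonneg (Real.exp_pos _).le h4)

/-- The five groups are small. -/
lemma groups (hQ : Q.Ok) (hG : Good Q.P H B) (hI : Inv Q.P T H B l D ψ τ)
    (h : PHI2 Q T lw H B X l D ψ τ < 1) :
    PHI Q.P T H B l D ψ τ < 1 ∧ Q.w5 * G3 Q.P T H B l D ψ τ < 1 ∧
      Q.P.w1 * GA Q.P H B X D ψ τ < 1 ∧ GT Q lw X D ψ < 1 ∧
      Q.w5 * GE Q.P X l D ψ τ < 1 := by
  have h0 := PHI_nonneg hQ hG hI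
  have h1 : 0 ≤ Q.w5 * G3 Q.P T H B l D ψ τ := mul_nonneg (w5_pos Q).le GHA.GSm.G3_nonneg
  have h2 : 0 ≤ Q.P.w1 * GA Q.P H B X D ψ τ :=
    mul_nonneg (Real.exp_pos _).le (GA_nonneg _ _ _ _ _ _ _)
  have h3 := GT_nonneg Q lw X D ψ
  have h4 : 0 ≤ Q.w5 * GE Q.P X l D ψ τ := mul_nonneg (w5_pos Q).le (GE_nonneg _ _ _ _ _ _)
  unfold PHI2 at h
  refine ⟨?_, ?_, ?_, ?_, ?_⟩ <;> linarith

/-! ## Exposures -/

/-- From `w5 * x < 1` and `exp (e2 * s) ≤ x` to `s < 1/2`. -/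
lemma half_of (hQ : Q.Ok) {x s : ℝ} (h : Q.w5 * x < 1) (hb : Real.exp (Q.P.e2 * s) ≤ x) :
    s < 1 / 2 := by
  unfold Par2.w5 at h
  have h1 := GHA.GSm.exp_lt h hb
  by_contra hcon
  push Not at hcon
  have := mul_le_mul_of_nonneg_left hcon hQ.ok.e2_nonneg
  linarith

lemma q_half (hQ : Q.Ok) (h : Q.w5 * G3 Q.P T H B l D ψ τ < 1) {x : V} (hx : x ∉ B) :
    Qx T H D ψ τ x ≤ 1 / 2 := by
  by_cases ha : act H D ψ x
  · have h4 := GHA.GSm.P3_le_G3 (P := Q.P) (T := T) (H := H) (l := l) (D := D) (ψ := ψ)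
      (τ := τ) hx
    unfold P3 at h4
    rw [if_pos ha] at h4
    have h5 := half_of hQ h h4
    have h8 : 0 ≤ Q.P.ρ * (pend T H l D ψ x : ℝ) :=
      mul_nonneg hQ.ok.ρ_pos.le (Nat.cast_nonneg _)
    have h9 : 0 ≤ Q.P.ρ' * (rest l D : ℝ) := mul_nonneg hQ.ok.ρ'_pos.le (Nat.cast_nonneg _)
    linarith
  · have h0 : Qx T H D ψ τ x = 0 := by
      unfold Qx
      refine Finset.sum_eq_zero (fun u hu => ?_)
      have hu' := (Finset.mem_filter.1 hu).1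
      rw [rr_of_not_adj, mul_zero]
      intro hadj
      exact ha (Or.inr ⟨u, hu', hadj⟩)
    rw [h0]
    norm_num

/-! ## Compensated counts -/

/-- From a bound of the exponential term to a bound of the sum of `hv`. -/
lemma hv_bound (hQ : Q.Ok) (hG : Good Q.P H B) (hI : Inv Q.P T H B l D ψ τ)
    (h : PHI Q.P T H B l D ψ τ < 1) (hA1 : Q.P.w1 * GA Q.P H B X D ψ τ < 1) {A : Finset V}
    (hA : ∀ y ∈ A, y ∉ B) (hcard : A.card ≤ Q.P.d)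
    {s : ℝ} (hs : At H s Q.P.e1 Q.P.ka A D ψ τ ≤ GA Q.P H B X D ψ τ) :
    s * ∑ y ∈ A, hv H D ψ τ y ≤ Q.P.δ * Q.P.d := by
  have hP := hQ.ok
  unfold At at hs
  unfold Par.w1 at hA1
  have h2 := GHA.GSm.exp_lt hA1 hs
  have h3 := GHA.GSm.sum_eb_le hP hG hI h hA
  have hd : (A.card : ℝ) ≤ Q.P.d := by exact_mod_cast hcard
  have hka := hP.ka_pos
  have he1 := hP.e1_pos
  have hδ := hP.δ_pos
  have hc := hP.c_pos
  have h4 : Q.P.ka * ∑ y ∈ A, eb H D ψ τ y ≤ Q.P.ka * Q.P.d :=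
    mul_le_mul_of_nonneg_left (h3.trans hd) hka.le
  have hkae : Q.P.ka = Q.P.e1 * (Q.P.δ / 4) := by
    unfold Par.ka
    have hc3 : Q.P.c ^ 3 ≠ 0 := pow_ne_zero _ hc.ne'
    have h5 : Q.P.e1 ^ 2 / Q.P.c ^ 3 = Q.P.e1 * (Q.P.e1 / Q.P.c ^ 3) := by ring
    rw [h5]
    congr 1
    unfold Par.e1
    field_simp
  have hc2 : Q.P.c2 = Q.P.e1 * (Q.P.δ / 2) := by unfold Par.c2; ring
  rw [hkae] at h4
  rw [hc2] at h2
  rw [hkae] at h2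
  have hdd : (0 : ℝ) ≤ Q.P.d := Nat.cast_nonneg _
  have h6 : Q.P.e1 * (s * ∑ y ∈ A, hv H D ψ τ y) ≤ Q.P.e1 * (Q.P.δ * Q.P.d) := by
    have h7 : s * Q.P.e1 * ∑ y ∈ A, hv H D ψ τ y ≤ Q.P.e1 * (Q.P.δ / 2) * Q.P.d
        + Q.P.e1 * (Q.P.δ / 4) * Q.P.d := by linarith
    have h8 : 0 ≤ Q.P.e1 * Q.P.δ * Q.P.d := mul_nonneg (mul_nonneg he1.le hδ.le) hdd
    nlinarith
  exact le_of_mul_le_mul_left h6 he1

lemma As_le_GA {A : Finset V} (hA : A ∈ X.As) :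
    At H (-1) Q.P.e1 Q.P.ka (A \ B) D ψ τ ≤ GA Q.P H B X D ψ τ := by
  unfold GA
  have h1 : At H (-1) Q.P.e1 Q.P.ka (A \ B) D ψ τ
      ≤ ∑ A ∈ X.As, At H (-1) Q.P.e1 Q.P.ka (A \ B) D ψ τ :=
    Finset.single_le_sum (f := fun A => At H (-1) Q.P.e1 Q.P.ka (A \ B) D ψ τ)
      (fun A _ => At_nonneg _ _ _ _ _ _ _ _) hA
  have h2 : 0 ≤ ∑ t ∈ X.Ts, ∑ q ∈ Bᶜ, At H 1 Q.P.e1 Q.P.ka ((nb H q ∩ t.1) \ B) D ψ τ :=
    Finset.sum_nonneg (fun t _ => Finset.sum_nonneg (fun q _ => At_nonneg _ _ _ _ _ _ _ _))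
  have h3 : 0 ≤ ∑ q ∈ Bᶜ, At H 1 Q.P.e1 Q.P.ka ((nb H q ∩ X.Av) \ B) D ψ τ :=
    Finset.sum_nonneg (fun q _ => At_nonneg _ _ _ _ _ _ _ _)
  linarith

lemma Ts_le_GA {t : Finset V × ℝ × V} (ht : t ∈ X.Ts) {q : V} (hq : q ∉ B) :
    At H 1 Q.P.e1 Q.P.ka ((nb H q ∩ t.1) \ B) D ψ τ ≤ GA Q.P H B X D ψ τ := by
  have h1 : 0 ≤ ∑ A ∈ X.As, At H (-1) Q.P.e1 Q.P.ka (A \ B) D ψ τ :=
    Finset.sum_nonneg (fun A _ => At_nonneg _ _ _ _ _ _ _ _)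
  have h2 : ∑ q ∈ Bᶜ, At H 1 Q.P.e1 Q.P.ka ((nb H q ∩ t.1) \ B) D ψ τ
      ≤ ∑ t ∈ X.Ts, ∑ q ∈ Bᶜ, At H 1 Q.P.e1 Q.P.ka ((nb H q ∩ t.1) \ B) D ψ τ := by
    refine Finset.single_le_sum
      (f := fun t : Finset V × ℝ × V =>
        ∑ q ∈ Bᶜ, At H 1 Q.P.e1 Q.P.ka ((nb H q ∩ t.1) \ B) D ψ τ) ?_ ht
    intro t _
    exact Finset.sum_nonneg (fun q _ => At_nonneg _ _ _ _ _ _ _ _)
  have h3 : At H 1 Q.P.e1 Q.P.ka ((nb H q ∩ t.1) \ B) D ψ τ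
      ≤ ∑ q ∈ Bᶜ, At H 1 Q.P.e1 Q.P.ka ((nb H q ∩ t.1) \ B) D ψ τ := by
    refine Finset.single_le_sum
      (f := fun q : V => At H 1 Q.P.e1 Q.P.ka ((nb H q ∩ t.1) \ B) D ψ τ) ?_
      (Finset.mem_compl.2 hq)
    intro q _
    exact At_nonneg _ _ _ _ _ _ _ _
  have h4 : 0 ≤ ∑ q ∈ Bᶜ, At H 1 Q.P.e1 Q.P.ka ((nb H q ∩ X.Av) \ B) D ψ τ :=
    Finset.sum_nonneg (fun q _ => At_nonneg _ _ _ _ _ _ _ _)
  unfold GA
  exact (h3.trans h2).trans ((le_add_of_nonneg_left h1).trans (le_add_of_nonneg_right h4))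

lemma Av_le_GA {q : V} (hq : q ∉ B) :
    At H 1 Q.P.e1 Q.P.ka ((nb H q ∩ X.Av) \ B) D ψ τ ≤ GA Q.P H B X D ψ τ := by
  unfold GA
  have h1 : 0 ≤ ∑ A ∈ X.As, At H (-1) Q.P.e1 Q.P.ka (A \ B) D ψ τ :=
    Finset.sum_nonneg (fun A _ => At_nonneg _ _ _ _ _ _ _ _)
  have h2 : 0 ≤ ∑ t ∈ X.Ts, ∑ q ∈ Bᶜ, At H 1 Q.P.e1 Q.P.ka ((nb H q ∩ t.1) \ B) D ψ τ :=
    Finset.sum_nonneg (fun t _ => Finset.sum_nonneg (fun q _ => At_nonneg _ _ _ _ _ _ _ _))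
  have h3 : At H 1 Q.P.e1 Q.P.ka ((nb H q ∩ X.Av) \ B) D ψ τ
      ≤ ∑ q ∈ Bᶜ, At H 1 Q.P.e1 Q.P.ka ((nb H q ∩ X.Av) \ B) D ψ τ :=
    Finset.single_le_sum
      (f := fun q => At H 1 Q.P.e1 Q.P.ka ((nb H q ∩ X.Av) \ B) D ψ τ)
      (fun q _ => At_nonneg _ _ _ _ _ _ _ _) (Finset.mem_compl.2 hq)
  linarith

/-- Upper bound for the compensated count in `nb H q ∩ S`. -/
lemma count_le (hQ : Q.Ok) (hG : Good Q.P H B) (hI : Inv Q.P T H B l D ψ τ)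
    (h : PHI Q.P T H B l D ψ τ < 1) (hA1 : Q.P.w1 * GA Q.P H B X D ψ τ < 1) {q : V}
    {S : Finset V} {r : ℝ} (hr : ((nb H q ∩ S).card : ℝ) ≤ r * Q.P.d)
    (hs : At H 1 Q.P.e1 Q.P.ka ((nb H q ∩ S) \ B) D ψ τ ≤ GA Q.P H B X D ψ τ) :
    ∑ y ∈ ((nb H q ∩ S) \ B) \ D.image ψ, 1 / av H D ψ τ y ≤ (r + Q.P.δ) * Q.P.d := by
  have hA : ∀ y ∈ (nb H q ∩ S) \ B, y ∉ B := fun y hy => (Finset.mem_sdiff.1 hy).2
  have hsub : (nb H q ∩ S) \ B ⊆ nb H q := Finset.sdiff_subset.trans Finset.inter_subset_left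
  have hcard : ((nb H q ∩ S) \ B).card ≤ Q.P.d := (Finset.card_le_card hsub).trans (hG.deg_le _)
  have h1 := hv_bound hQ hG hI h hA1 hA hcard hs
  have h2 : (((nb H q ∩ S) \ B).card : ℝ) ≤ ((nb H q ∩ S).card : ℝ) := by
    exact_mod_cast Finset.card_le_card Finset.sdiff_subset
  rw [GHA.GSm.sum_inv]
  linarith

end bounds

end Pool.Agent.Lib.GHE.GSm

namespace Pool.Agent.Lib.GHE

open Finset Classical Pool.Agent.Lib.GHA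

/-- (S5) the groups are nonnegative, and `PHI2 < 1` implies the good inequalities. -/
theorem stGS2 : StGS2 := by
  intro U V _ _ Q T lw H B X l D ψ τ hQ hG hX hI
  refine ⟨⟨GHE.GSm.PHI_nonneg hQ hG hI, GHA.GSm.G3_nonneg, GHE.GSm.GA_nonneg _ _ _ _ _ _ _,
    GHE.GSm.GT_nonneg _ _ _ _ _, GHE.GSm.GE_nonneg _ _ _ _ _ _⟩, fun h => ?_⟩
  obtain ⟨h0, h3, h1, hT, hE⟩ := GHE.GSm.groups hQ hG hI h
  refine ⟨(stGS U V Q.P T H B l D ψ τ hQ.ok hG hI).2 h0, ?_, ?_, ?_, ?_, ?_, ?_⟩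
  · intro y hy hy'
    have h4 := GHE.GSm.q_half hQ h3 hy
    rw [GHA.GSm.Qx_eq_Ex hy'] at h4
    unfold av
    linarith
  · intro A hA
    have hA' : ∀ y ∈ A \ B, y ∉ B := fun y hy => (Finset.mem_sdiff.1 hy).2
    have hcard : (A \ B).card ≤ Q.P.d :=
      (Finset.card_le_card Finset.sdiff_subset).trans (hX.as_le A hA)
    have h4 := GHE.GSm.hv_bound hQ hG hI h0 h1 hA' hcard (GHE.GSm.As_le_GA hA)
    linarith
  · intro t ht q hq hne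
    obtain ⟨u, hu, rfl⟩ := Finset.mem_image.1 hq
    exact GHE.GSm.count_le hQ hG hI h0 h1 (hX.ts t ht _ hne)
      (GHE.GSm.Ts_le_GA ht (hI.disj u hu))
  · intro q hq
    obtain ⟨u, hu, rfl⟩ := Finset.mem_image.1 hq
    exact GHE.GSm.count_le hQ hG hI h0 h1 (hX.av _ (hI.disj u hu))
      (GHE.GSm.Av_le_GA (hI.disj u hu))
  · intro t ht hty
    have h4 : (if t.2.2 ∈ D.image ψ then (0 : ℝ) else
        Real.exp (Q.eT * (lwt lw D ψ t.1 + Q.ks t.2.1 * ∑ u ∈ Dᶜ, (lw u : ℝ)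
          - Q.ks t.2.1 * Q.l - Q.dT * Q.P.d))) ≤ GT Q lw X D ψ := by
      unfold GT
      exact Finset.single_le_sum (f := fun t : Finset V × ℝ × V =>
        (if t.2.2 ∈ D.image ψ then (0 : ℝ) else
        Real.exp (Q.eT * (lwt lw D ψ t.1 + Q.ks t.2.1 * ∑ u ∈ Dᶜ, (lw u : ℝ)
          - Q.ks t.2.1 * Q.l - Q.dT * Q.P.d))))
        (fun t _ => GHE.GSm.GT_term_nonneg Q lw D ψ t) ht
    rw [if_neg hty] at h4
    have h5 := h4.trans_lt hT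
    rw [Real.exp_lt_one_iff] at h5
    have h6 : lwt lw D ψ t.1 + Q.ks t.2.1 * ∑ u ∈ Dᶜ, (lw u : ℝ)
          - Q.ks t.2.1 * Q.l - Q.dT * Q.P.d < 0 := by
      by_contra hcon
      push Not at hcon
      have := mul_nonneg hQ.eT_nonneg hcon
      linarith
    have h7 : 0 ≤ Q.ks t.2.1 * ∑ u ∈ Dᶜ, (lw u : ℝ) :=
      mul_nonneg (GHE.GSm.ks_nonneg hQ (hX.r_nonneg t ht))
        (Finset.sum_nonneg (fun u _ => Nat.cast_nonneg _))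
    linarith
  · have h4 : Real.exp (Q.P.e2 * (exs D ψ τ X.Av
        + Q.P.ρ * (l.countP (fun s => decide (s.2 ∈ D ∧ ψ s.2 ∈ X.Av)) : ℝ)
        + Q.P.ρ' * (rest l D : ℝ))) ≤ GE Q.P X l D ψ τ := le_rfl
    have h5 := GHE.GSm.half_of hQ hE h4
    have h8 : 0 ≤ Q.P.ρ * (l.countP (fun s => decide (s.2 ∈ D ∧ ψ s.2 ∈ X.Av)) : ℝ) :=
      mul_nonneg hQ.ok.ρ_pos.le (Nat.cast_nonneg _)
    have h9 : 0 ≤ Q.P.ρ' * (rest l D : ℝ) := mul_nonneg hQ.ok.ρ'_pos.le (Nat.cast_nonneg _)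
    linarith

end Pool.Agent.Lib.GHE
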