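import Mathlib
import Pool.Agent.Lib.MP_df0165_co.Ex.Stmts

set_option autoImplicit false
set_option linter.unusedSectionVars false

/-!
# Exact Graham-Haggkvist: generator of the group `GT`
-/

namespace Pool.Agent.Lib.GHE

open Finset Classical Pool.Agent.Lib.GHA

namespace GTm

variable {U V : Type} [Fintype U] [Fintype V]

lemma lwt_next (lw : U → ℕ) {D : Finset U} (ψ : U → V) {w : U} (hw : w ∉ D) (y : V)
    (A : Finset V) :
    lwt lw (insert w D) (Function.update ψ w y) A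
      = lwt lw D ψ A + if y ∈ A then (lw w : ℝ) else 0 := by
  unfold lwt
  rw [Finset.sum_insert hw, Function.update_self, add_comm]
  congr 1
  apply Finset.sum_congr rfl
  intro u hu
  rw [Function.update_of_ne (fun h : u = w => hw (h ▸ hu))]

lemma compl_next (lw : U → ℕ) {D : Finset U} {w : U} (hw : w ∉ D) :
    ∑ u ∈ Dᶜ, (lw u : ℝ) = ∑ u ∈ (insert w D)ᶜ, (lw u : ℝ) + lw w := by
  have h1 : (insert w D)ᶜ = Dᶜ.erase w := by
    ext u
    simp
  rw [h1, Finset.sum_erase_add]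
  exact Finset.mem_compl.mpr hw

/-- The numerical inequality. -/
lemma num {γ α δ s d3 r k : ℝ} (hγ : 0 < γ) (hγ1 : γ ≤ 1) (hα : 0 ≤ α) (hδ : 0 ≤ δ)
    (hs : 0 ≤ s) (hd3 : 0 < d3) (hd31 : d3 ≤ 1) (hr : 0 ≤ r) (hr1 : r ≤ 1)
    (hk : k = r / γ + d3) (hsm : 16 * (α + δ + s) ≤ d3 * γ ^ 2) :
    0 ≤ k ∧ k * γ ≤ 2 ∧ s * k ≤ 1 / 8 ∧ s ≤ 1 ∧
      (1 + s) * (r + δ) ≤ k * (1 - s * k) * (γ - α - δ) := by
  have hk0 : 0 ≤ k := by rw [hk]; positivity
  have hkγ : k * γ = r + d3 * γ := by rw [hk]; field_simp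
  have hd3γ : 0 < d3 * γ := by positivity
  have hd3γ1 : d3 * γ ≤ 1 := by nlinarith
  have hkγ2 : k * γ ≤ 2 := by rw [hkγ]; linarith
  have hγ2 : d3 * γ ^ 2 ≤ d3 * γ := by
    have : d3 * γ ^ 2 = d3 * γ * γ := by ring
    rw [this]
    nlinarith
  -- `x k ≤ x (2 / γ)` for small `x`
  have key : ∀ x : ℝ, 0 ≤ x → 16 * x ≤ d3 * γ ^ 2 → x * k ≤ d3 * γ / 8 := by
    intro x hx hx'
    have h1 : 16 * x * k ≤ d3 * γ ^ 2 * k := mul_le_mul_of_nonneg_right hx' hk0
    have h2 : d3 * γ ^ 2 * k = d3 * γ * (k * γ) := by ring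
    have h3 : d3 * γ * (k * γ) ≤ d3 * γ * 2 := mul_le_mul_of_nonneg_left hkγ2 hd3γ.le
    linarith
  have h1 := key (α + δ) (by linarith) (by linarith)
  have h2 := key s hs (by linarith)
  have hs1 : s ≤ 1 := by linarith
  have h3 : r + 7 / 8 * (d3 * γ) ≤ k * (γ - α - δ) := by
    have e : k * (γ - α - δ) = k * γ - (α + δ) * k := by ring
    rw [e, hkγ]
    linarith
  have h4 : 1 - d3 * γ / 8 ≤ 1 - s * k := by linarith
  have h5 : (r + 7 / 8 * (d3 * γ)) * (1 - d3 * γ / 8) ≤ k * (γ - α - δ) * (1 - s * k) :=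
    mul_le_mul h3 h4 (by linarith) (by linarith)
  have h6 : r + 1 / 2 * (d3 * γ) ≤ (r + 7 / 8 * (d3 * γ)) * (1 - d3 * γ / 8) := by
    have h7 : r * (d3 * γ) ≤ d3 * γ := by nlinarith
    have h8 : (d3 * γ) * (d3 * γ) ≤ d3 * γ := by nlinarith
    have e : (r + 7 / 8 * (d3 * γ)) * (1 - d3 * γ / 8)
        = r + 7 / 8 * (d3 * γ) - r * (d3 * γ) / 8 - 7 / 64 * ((d3 * γ) * (d3 * γ)) := by ring
    rw [e]
    linarith
  have h9 : (1 + s) * (r + δ) ≤ r + 1 / 2 * (d3 * γ) := by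
    have e : (1 + s) * (r + δ) = r + δ + s * r + s * δ := by ring
    have h10 : s * r ≤ s := by nlinarith
    have h11 : s * δ ≤ δ := by nlinarith
    rw [e]
    linarith
  refine ⟨hk0, hkγ2, by linarith, hs1, ?_⟩
  have e : k * (1 - s * k) * (γ - α - δ) = k * (γ - α - δ) * (1 - s * k) := by ring
  rw [e]
  linarith

lemma exp_le_sq {z : ℝ} (hz : |z| ≤ 1) : Real.exp z ≤ 1 + z + z ^ 2 := by
  have h := (abs_le.mp (Real.abs_exp_sub_one_sub_id_le hz)).2
  linarith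

/-- The generator of one term. -/
lemma one (Q : Par2) (T : SimpleGraph U) (lw : U → ℕ) (H : SimpleGraph V) (B : Finset V)
    (X : TD V) {w p : U} {D : Finset U} {ψ : U → V} {τ : U → ℝ} (hQ : Q.Ok)
    (hX : X.Ok Q.P H B) (hlw : ∀ u, lw u ≤ Q.P.Δ) (hw : w ∉ D) (hp : p ∈ D)
    (hS : GS2 Q T lw H B X D ψ τ) {t : Finset V × ℝ × V}
    (ht : t ∈ X.Ts) :
    GenA.Sup ((nb H (ψ p) \ B) \ D.image ψ) (fun y => av H D ψ τ y)
      (fun _ => if t.2.2 ∈ D.image ψ then 0 else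
        Real.exp (Q.eT * (lwt lw D ψ t.1 + Q.ks t.2.1 * ∑ u ∈ Dᶜ, (lw u : ℝ)
          - Q.ks t.2.1 * Q.l - Q.dT * Q.P.d)))
      (fun y => if t.2.2 ∈ (insert w D).image (Function.update ψ w y) then 0 else
        Real.exp (Q.eT * (lwt lw (insert w D) (Function.update ψ w y) t.1
          + Q.ks t.2.1 * ∑ u ∈ (insert w D)ᶜ, (lw u : ℝ)
          - Q.ks t.2.1 * Q.l - Q.dT * Q.P.d))) := by
  refine ⟨0, hasDerivAt_const _ _, ?_⟩
  rw [zero_add]
  by_cases h0 : t.2.2 ∈ D.image ψ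
  · apply le_of_eq
    apply Finset.sum_eq_zero
    intro y _
    have h1 : t.2.2 ∈ (insert w D).image (Function.update ψ w y) := by
      rw [image_update hw]; exact Finset.mem_insert_of_mem h0
    simp only [if_pos h0, if_pos h1, sub_zero, mul_zero]
  set Y := (nb H (ψ p) \ B) \ D.image ψ with hY
  set E := Real.exp (Q.eT * (lwt lw D ψ t.1 + Q.ks t.2.1 * ∑ u ∈ Dᶜ, (lw u : ℝ)
          - Q.ks t.2.1 * Q.l - Q.dT * Q.P.d)) with hE
  have hE0 : 0 < E := Real.exp_pos _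
  set s : ℝ := Q.eT * lw w with hs
  set k : ℝ := Q.ks t.2.1 with hk
  set r : ℝ := t.2.1 with hr
  have hs0 : 0 ≤ s := mul_nonneg hQ.eT_nonneg (Nat.cast_nonneg _)
  have hsΔ : s ≤ Q.eT * Q.P.Δ :=
    mul_le_mul_of_nonneg_left (by exact_mod_cast hlw w) hQ.eT_nonneg
  have hok := hQ.ok
  obtain ⟨hk0, hkγ, hsk, hs1, hnum⟩ := num (s := s) hok.γ_pos hok.γ_le hok.α_nonneg hok.δ_pos.le
    hs0 hQ.d3_pos hQ.d3_le (hX.r_nonneg t ht) (hX.r_le t ht) (show k = r / Q.P.γ + Q.d3 from rfl)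
    (by have := hQ.small3; linarith)
  have hap : ∀ y ∈ Y, 0 < av H D ψ τ y := by
    intro y hy
    rw [hY, Finset.mem_sdiff, Finset.mem_sdiff] at hy
    have := hS.gs.av_ge y hy.1.2 hy.2
    have := hok.c_pos
    linarith
  have hqy : ψ p ≠ t.2.2 := by
    intro h
    exact h0 (h ▸ Finset.mem_image_of_mem ψ hp)
  -- bound for one vertex
  have hone : ∀ y ∈ Y, 1 / av H D ψ τ y *
      ((if t.2.2 ∈ (insert w D).image (Function.update ψ w y) then 0 else
        Real.exp (Q.eT * (lwt lw (insert w D) (Function.update ψ w y) t.1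
          + k * ∑ u ∈ (insert w D)ᶜ, (lw u : ℝ) - k * Q.l - Q.dT * Q.P.d))) - E)
      ≤ E * s * ((1 + s) * (if y ∈ t.1 then 1 / av H D ψ τ y else 0)
        - k * (1 - s * k) * (1 / av H D ψ τ y)) := by
    intro y hy
    have ha := hap y hy
    set i : ℝ := if y ∈ t.1 then 1 else 0 with hi
    have hi01 : i = 0 ∨ i = 1 := by rw [hi]; split_ifs <;> simp
    set z : ℝ := s * (i - k) with hz
    have hz1 : |z| ≤ 1 := by
      rw [abs_le]
      have h1 : 0 ≤ s * i ∧ s * i ≤ 1 := by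
        rcases hi01 with h | h <;> rw [h] <;> constructor <;> linarith
      have h2 : 0 ≤ s * k := mul_nonneg hs0 hk0
      have e : z = s * i - s * k := by rw [hz]; ring
      rw [e]
      constructor <;> linarith
    have hexp : Real.exp (Q.eT * (lwt lw (insert w D) (Function.update ψ w y) t.1
          + k * ∑ u ∈ (insert w D)ᶜ, (lw u : ℝ) - k * Q.l - Q.dT * Q.P.d))
        = E * Real.exp z := by
      rw [hE, ← Real.exp_add]
      congr 1
      rw [lwt_next lw ψ hw, compl_next lw hw, hz, hs]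
      have e : (if y ∈ t.1 then (lw w : ℝ) else 0) = i * lw w := by
        rw [hi]; split_ifs <;> ring
      rw [e]
      ring
    have h3 : (if t.2.2 ∈ (insert w D).image (Function.update ψ w y) then 0 else
        Real.exp (Q.eT * (lwt lw (insert w D) (Function.update ψ w y) t.1
          + k * ∑ u ∈ (insert w D)ᶜ, (lw u : ℝ) - k * Q.l - Q.dT * Q.P.d)))
        ≤ E * (1 + z + z ^ 2) := by
      have h4 : E * Real.exp z ≤ E * (1 + z + z ^ 2) :=
        mul_le_mul_of_nonneg_left (exp_le_sq hz1) hE0.le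
      split_ifs
      · exact (mul_nonneg hE0.le (Real.exp_pos z).le).trans h4
      · rw [hexp]; exact h4
    have h5 : z + z ^ 2 ≤ s * ((1 + s) * i - k * (1 - s * k)) := by
      have h6 : z ^ 2 ≤ s ^ 2 * (i + k ^ 2) := by
        have e : z ^ 2 = s ^ 2 * (i ^ 2 - 2 * (i * k) + k ^ 2) := by rw [hz]; ring
        rw [e]
        apply mul_le_mul_of_nonneg_left _ (sq_nonneg s)
        rcases hi01 with h | h <;> rw [h] <;> nlinarith
      have e2 : s * ((1 + s) * i - k * (1 - s * k)) = s * (i - k) + s ^ 2 * (i + k ^ 2) := by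
        ring
      rw [e2, ← hz]
      linarith
    have h7 : (if t.2.2 ∈ (insert w D).image (Function.update ψ w y) then 0 else
        Real.exp (Q.eT * (lwt lw (insert w D) (Function.update ψ w y) t.1
          + k * ∑ u ∈ (insert w D)ᶜ, (lw u : ℝ) - k * Q.l - Q.dT * Q.P.d))) - E
        ≤ E * (s * ((1 + s) * i - k * (1 - s * k))) := by
      have h8 := mul_le_mul_of_nonneg_left h5 hE0.le
      have e3 : E * (1 + z + z ^ 2) = E + E * (z + z ^ 2) := by ring
      rw [e3] at h3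
      linarith
    have h9 := mul_le_mul_of_nonneg_left h7 (show 0 ≤ 1 / av H D ψ τ y by positivity)
    refine h9.trans (le_of_eq ?_)
    have e4 : (if y ∈ t.1 then 1 / av H D ψ τ y else 0) = i * (1 / av H D ψ τ y) := by
      rw [hi]; split_ifs <;> ring
    rw [e4]
    ring
  have hbound : ∑ y ∈ Y, 1 / av H D ψ τ y *
      ((if t.2.2 ∈ (insert w D).image (Function.update ψ w y) then 0 else
        Real.exp (Q.eT * (lwt lw (insert w D) (Function.update ψ w y) t.1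
          + k * ∑ u ∈ (insert w D)ᶜ, (lw u : ℝ) - k * Q.l - Q.dT * Q.P.d))) - E)
      ≤ E * s * ((1 + s) * (∑ y ∈ Y, if y ∈ t.1 then 1 / av H D ψ τ y else 0)
        - k * (1 - s * k) * ∑ y ∈ Y, 1 / av H D ψ τ y) := by
    refine (Finset.sum_le_sum hone).trans (le_of_eq ?_)
    rw [← Finset.mul_sum, Finset.sum_sub_distrib, ← Finset.mul_sum, ← Finset.mul_sum]
  rw [if_neg h0]
  refine hbound.trans ?_
  -- the two sums
  have hRA : (∑ y ∈ Y, if y ∈ t.1 then 1 / av H D ψ τ y else 0) ≤ (r + Q.P.δ) * Q.P.d := by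
    rw [← Finset.sum_filter]
    have e : Y.filter (fun y => y ∈ t.1) = ((nb H (ψ p) ∩ t.1) \ B) \ D.image ψ := by
      ext y
      simp only [hY, Finset.mem_filter, Finset.mem_sdiff, Finset.mem_inter]
      tauto
    rw [e]
    exact hS.ts_le t ht (ψ p) (Finset.mem_image_of_mem ψ hp) hqy
  have hR : (Q.P.γ - Q.P.α - Q.P.δ) * Q.P.d ≤ ∑ y ∈ Y, 1 / av H D ψ τ y := by
    have h1 := hS.gs.R_ge (ψ p) (Finset.mem_image_of_mem ψ hp)
    have h2 : nb H (ψ p) ∩ B = ∅ := by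
      rw [Finset.eq_empty_iff_forall_notMem]
      intro y hy
      rw [Finset.mem_inter] at hy
      have h3 := hX.iso y hy.2
      have h4 : ψ p ∈ nb H y := mem_nb.mpr (mem_nb.mp hy.1).symm
      rw [h3] at h4
      exact absurd h4 (Finset.notMem_empty _)
    rw [h2] at h1
    simpa using h1
  have hfin : (1 + s) * (∑ y ∈ Y, if y ∈ t.1 then 1 / av H D ψ τ y else 0)
        - k * (1 - s * k) * ∑ y ∈ Y, 1 / av H D ψ τ y ≤ 0 := by
    have hd : (0 : ℝ) ≤ Q.P.d := Nat.cast_nonneg _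
    have h1 : (1 + s) * (∑ y ∈ Y, if y ∈ t.1 then 1 / av H D ψ τ y else 0)
        ≤ (1 + s) * ((r + Q.P.δ) * Q.P.d) :=
      mul_le_mul_of_nonneg_left hRA (by linarith)
    have h2 : k * (1 - s * k) * ((Q.P.γ - Q.P.α - Q.P.δ) * Q.P.d)
        ≤ k * (1 - s * k) * ∑ y ∈ Y, 1 / av H D ψ τ y :=
      mul_le_mul_of_nonneg_left hR (mul_nonneg hk0 (by linarith))
    have h3 := mul_le_mul_of_nonneg_right hnum hd
    have e1 : (1 + s) * ((r + Q.P.δ) * Q.P.d) = (1 + s) * (r + Q.P.δ) * Q.P.d := by ring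
    have e2 : k * (1 - s * k) * ((Q.P.γ - Q.P.α - Q.P.δ) * Q.P.d)
        = k * (1 - s * k) * (Q.P.γ - Q.P.α - Q.P.δ) * Q.P.d := by ring
    linarith
  exact mul_nonpos_of_nonneg_of_nonpos (mul_nonneg hE0.le hs0) hfin

end GTm

theorem stGT : StGT := by
  intro U V _ _ Q T lw H B X w p l D ψ τ hQ _ hX hlw hI hS
  have hg := hI.grow
  obtain ⟨hw, hp, -, -⟩ : w ∉ D ∧ p ∈ D ∧ (∀ u ∈ D, T.Adj u w ↔ u = p) ∧
      Grow T (insert w D) l univ := hg
  unfold GT
  exact GenA.Sup.sum X.Ts (fun t ht => GTm.one Q T lw H B X hQ hX hlw hw hp hS ht)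

end Pool.Agent.Lib.GHE
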