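import Mathlib
import Pool.Agent.Lib.MP_df0165_co.Ex.Stmts

set_option autoImplicit false
set_option linter.unusedSectionVars false

/-!
# Exact Graham-Haggkvist for expander hosts: the initial value of the potential
-/

namespace Pool.Agent.Lib.GHE

open Finset Classical Pool.Agent.Lib.GHA

namespace Init2

variable {U V : Type} [Fintype U] [Fintype V]

/-- number of children -/
lemma rem_lt {T : SimpleGraph U} {a b : U} {l : List (U × U)} {Δ : ℕ} (hab : T.Adj a b)
    (hgrow : Grow T {a, b} l univ) (hdeg : ∀ u, (nb T u).card ≤ Δ) (u : U) :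
    rem l u + 1 ≤ Δ := by
  obtain ⟨-, -, hcnt⟩ := stCount U T a b l univ hab hgrow
  rw [Init.rem_eq_count, hcnt u (Finset.mem_univ u), Finset.inter_univ]
  exact hdeg u

lemma len_eq {T : SimpleGraph U} {a b : U} {l : List (U × U)} {m : ℕ} (hab : T.Adj a b)
    (hgrow : Grow T {a, b} l univ) (hcard : Fintype.card U = m + 1) : l.length + 2 = m + 1 := by
  obtain ⟨hlen, -, -⟩ := stCount U T a b l univ hab hgrow
  rw [hlen, Finset.card_univ, hcard]

/-- the exposure terms -/
lemma G3_le {P : Par} (hP : P.Ok) {T : SimpleGraph U} {H : SimpleGraph V} {B : Finset V}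
    (hG : Good P H B) (v0 : V) {a b : U} (hne : a ≠ b) (l : List (U × U)) (z y : V)
    (hrem : ∀ u, rem l u + 1 ≤ P.Δ) (hlen : l.length + 2 = P.m + 1) :
    G3 P T H B l {a, b} (rt v0 a b z y) (fun _ => 0) ≤ P.I3 * (2 * P.d + 2 + P.d * P.m) := by
  have hl := Init.rt_left v0 a b z y
  have hr := Init.rt_right v0 hne z y
  have he2 := hP.e2_nonneg
  have hρ := hP.ρ_pos
  have hρ' := hP.ρ'_pos
  have hI3 : 0 < P.I3 := Real.exp_pos _
  have hd0 : (0 : ℝ) ≤ P.d := Nat.cast_nonneg _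
  have hlenR : (l.length : ℝ) ≤ P.m := by
    have : l.length ≤ P.m := by omega
    exact_mod_cast this
  unfold G3
  have h1 : ∀ x ∈ Bᶜ, P3 T H P.e2 P.ρ P.ρ' l {a, b} (rt v0 a b z y) (fun _ => 0) x ≤
      if act H {a, b} (rt v0 a b z y) x then P.I3 else 0 := by
    intro x _
    unfold P3
    split_ifs with hact
    · unfold Par.I3
      apply Real.exp_le_exp.2
      rw [Init.Qx_zero]
      have h2 : (pend T H l {a, b} (rt v0 a b z y) x : ℝ) ≤ 2 * P.Δ := by
        have h3 := Init.pend_le T H l a b (rt v0 a b z y) x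
        have h4 := hrem a
        have h5 := hrem b
        exact_mod_cast (by omega : pend T H l {a, b} (rt v0 a b z y) x ≤ 2 * P.Δ)
      have h3 : (rest l {a, b} : ℝ) ≤ P.m := by
        have h4 : rest l {a, b} ≤ l.length := List.countP_le_length
        have h5 : (rest l {a, b} : ℝ) ≤ l.length := by exact_mod_cast h4
        linarith
      apply mul_le_mul_of_nonneg_left _ he2
      nlinarith
    · exact le_refl _
  have h2 : ((Bᶜ.filter fun x => act H {a, b} (rt v0 a b z y) x).card : ℝ) ≤ 2 * P.d + 2 := by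
    have h3 : (Bᶜ.filter fun x => act H {a, b} (rt v0 a b z y) x) ⊆
        {z, y} ∪ (nb H z ∪ nb H y) := by
      intro x hx
      rw [Finset.mem_filter] at hx
      have hx2 := hx.2
      unfold act at hx2
      rw [Init.image_rt v0 hne] at hx2
      rw [Finset.mem_union, Finset.mem_union, mem_nb, mem_nb]
      rcases hx2 with hx2 | ⟨u, hu, hx2⟩
      · exact Or.inl hx2
      · rw [Finset.mem_insert, Finset.mem_singleton] at hu
        rcases hu with rfl | rfl
        · rw [hl] at hx2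
          exact Or.inr (Or.inl hx2)
        · rw [hr] at hx2
          exact Or.inr (Or.inr hx2)
    have h4 := Finset.card_le_card h3
    have h5 := Finset.card_union_le ({z, y} : Finset V) (nb H z ∪ nb H y)
    have h6 := Finset.card_union_le (nb H z) (nb H y)
    have h7 : ({z, y} : Finset V).card ≤ 2 := Finset.card_le_two
    have h8 := hG.deg_le z
    have h9 := hG.deg_le y
    exact_mod_cast (by omega :
      (Bᶜ.filter fun x => act H {a, b} (rt v0 a b z y) x).card ≤ 2 * P.d + 2)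
  have h3 := Finset.sum_le_sum h1
  rw [← Finset.sum_filter, Finset.sum_const, nsmul_eq_mul] at h3
  have h4 : ((Bᶜ.filter fun x => act H {a, b} (rt v0 a b z y) x).card : ℝ) * P.I3 ≤
      (2 * P.d + 2) * P.I3 := mul_le_mul_of_nonneg_right h2 hI3.le
  have h5 : P.d * P.I3 * (l.length : ℝ) ≤ P.d * P.I3 * P.m :=
    mul_le_mul_of_nonneg_left hlenR (mul_nonneg hd0 hI3.le)
  linarith

lemma At_neg2 {P : Par} (hP : P.Ok) (H : SimpleGraph V) (A : Finset V) (v0 : V) {a b : U}
    (h : a ≠ b) (z y : V) :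
    At H (-1) P.e1 P.ka A {a, b} (rt v0 a b z y) (fun _ => 0) ≤ 2 := by
  have h1 := Init.At_neg_le hP H A v0 h z y
  split_ifs at h1 <;> linarith

lemma At_pos2 {P : Par} (hP : P.Ok) (H : SimpleGraph V) (A : Finset V) (v0 : V) {a b : U}
    (h : a ≠ b) (z y : V) :
    At H 1 P.e1 P.ka A {a, b} (rt v0 a b z y) (fun _ => 0) ≤ 2 := by
  have h1 := Init.At_pos_le hP H A v0 h z y
  linarith

/-- the group of the tests -/
lemma GA_le {P : Par} (hP : P.Ok) (H : SimpleGraph V) (B : Finset V) (X : TD V) (v0 : V)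
    {a b : U} (h : a ≠ b) (z y : V) (kA kT : ℕ) (hA : X.As.card ≤ kA) (hT : X.Ts.card ≤ kT) :
    GA P H B X {a, b} (rt v0 a b z y) (fun _ => 0) ≤
      2 * (kA + (kT + 1) * (Fintype.card V : ℝ)) := by
  unfold GA
  have hAR : (X.As.card : ℝ) ≤ kA := by exact_mod_cast hA
  have hTR : (X.Ts.card : ℝ) ≤ kT := by exact_mod_cast hT
  have hn : (0 : ℝ) ≤ Fintype.card V := Nat.cast_nonneg _
  have hB : ((Bᶜ : Finset V).card : ℝ) ≤ Fintype.card V := by
    exact_mod_cast Finset.card_le_univ _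
  have hq : ∀ f : V → Finset V, ∑ q ∈ Bᶜ, At H 1 P.e1 P.ka (f q) {a, b} (rt v0 a b z y)
      (fun _ => 0) ≤ 2 * (Fintype.card V : ℝ) := by
    intro f
    calc ∑ q ∈ Bᶜ, At H 1 P.e1 P.ka (f q) {a, b} (rt v0 a b z y) (fun _ => 0) ≤
        ∑ _q ∈ (Bᶜ : Finset V), (2 : ℝ) :=
          Finset.sum_le_sum fun q _ => At_pos2 hP H (f q) v0 h z y
      _ = ((Bᶜ : Finset V).card : ℝ) * 2 := by rw [Finset.sum_const, nsmul_eq_mul]
      _ ≤ _ := by linarith
  have h1 : ∑ A ∈ X.As, At H (-1) P.e1 P.ka (A \ B) {a, b} (rt v0 a b z y) (fun _ => 0) ≤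
      2 * kA := by
    calc ∑ A ∈ X.As, At H (-1) P.e1 P.ka (A \ B) {a, b} (rt v0 a b z y) (fun _ => 0) ≤
        ∑ _A ∈ X.As, (2 : ℝ) := Finset.sum_le_sum fun A _ => At_neg2 hP H (A \ B) v0 h z y
      _ = (X.As.card : ℝ) * 2 := by rw [Finset.sum_const, nsmul_eq_mul]
      _ ≤ _ := by linarith
  have h2 : ∑ t ∈ X.Ts, ∑ q ∈ Bᶜ, At H 1 P.e1 P.ka ((nb H q ∩ t.1) \ B) {a, b}
      (rt v0 a b z y) (fun _ => 0) ≤ kT * (2 * (Fintype.card V : ℝ)) := by
    calc _ ≤ ∑ _t ∈ X.Ts, (2 * (Fintype.card V : ℝ)) :=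
          Finset.sum_le_sum fun t _ => hq fun q => (nb H q ∩ t.1) \ B
      _ = (X.Ts.card : ℝ) * (2 * (Fintype.card V : ℝ)) := by
          rw [Finset.sum_const, nsmul_eq_mul]
      _ ≤ _ := mul_le_mul_of_nonneg_right hTR (by positivity)
  have h3 := hq fun q => (nb H q ∩ X.Av) \ B
  linarith

lemma ks_nonneg {Q : Par2} (hQ : Q.Ok) {r : ℝ} (hr : 0 ≤ r) : 0 ≤ Q.ks r := by
  unfold Par2.ks
  have h1 := hQ.ok.γ_pos
  have h2 := hQ.d3_pos
  positivity

/-- the tests for the positions of the leaves -/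
lemma GT_le {Q : Par2} (hQ : Q.Ok) {H : SimpleGraph V} {B : Finset V} {X : TD V}
    (hX : X.Ok Q.P H B) {lw : U → ℕ} (hlw : ∀ u, lw u ≤ Q.P.Δ) (hsum : ∑ u : U, lw u = Q.l)
    {D : Finset U} (hD : D.card ≤ 2) (ψ : U → V) (kT : ℕ) (hT : X.Ts.card ≤ kT) :
    GT Q lw X D ψ ≤ kT * Real.exp (-(Q.eT * (Q.dT * Q.P.d - 2 * Q.P.Δ))) := by
  unfold GT
  have hTR : (X.Ts.card : ℝ) ≤ kT := by exact_mod_cast hT
  calc _ ≤ ∑ _t ∈ X.Ts, Real.exp (-(Q.eT * (Q.dT * Q.P.d - 2 * Q.P.Δ))) := by
        apply Finset.sum_le_sum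
        intro t ht
        split_ifs with h
        · exact (Real.exp_pos _).le
        · apply Real.exp_le_exp.2
          have h1 : lwt lw D ψ t.1 ≤ 2 * Q.P.Δ := by
            unfold lwt
            calc ∑ u ∈ D, (if ψ u ∈ t.1 then (lw u : ℝ) else 0) ≤ ∑ _u ∈ D, (Q.P.Δ : ℝ) := by
                  apply Finset.sum_le_sum
                  intro u _
                  split_ifs
                  · exact_mod_cast hlw u
                  · positivity
              _ = (D.card : ℝ) * Q.P.Δ := by rw [Finset.sum_const, nsmul_eq_mul]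
              _ ≤ _ := by
                  apply mul_le_mul_of_nonneg_right _ (Nat.cast_nonneg _)
                  exact_mod_cast hD
          have h2 : ∑ u ∈ Dᶜ, (lw u : ℝ) ≤ Q.l := by
            have h3 : ∑ u ∈ Dᶜ, lw u ≤ ∑ u : U, lw u :=
              Finset.sum_le_sum_of_subset (Finset.subset_univ _)
            rw [hsum] at h3
            exact_mod_cast h3
          have h4 := mul_le_mul_of_nonneg_left h2 (ks_nonneg hQ (hX.r_nonneg t ht))
          have h5 : Q.eT * (lwt lw D ψ t.1 + Q.ks t.2.1 * ∑ u ∈ Dᶜ, (lw u : ℝ)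
              - Q.ks t.2.1 * Q.l - Q.dT * Q.P.d) ≤ Q.eT * (2 * Q.P.Δ - Q.dT * Q.P.d) :=
            mul_le_mul_of_nonneg_left (by linarith) hQ.eT_nonneg
          linarith
    _ = (X.Ts.card : ℝ) * Real.exp (-(Q.eT * (Q.dT * Q.P.d - 2 * Q.P.Δ))) := by
        rw [Finset.sum_const, nsmul_eq_mul]
    _ ≤ _ := mul_le_mul_of_nonneg_right hTR (Real.exp_pos _).le

lemma countP_pair (l : List (U × U)) (a b : U) (p : U → Prop) :
    l.countP (fun s => decide (s.2 ∈ ({a, b} : Finset U) ∧ p s.2)) ≤ rem l a + rem l b := by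
  unfold rem
  induction l with
  | nil => simp
  | cons s l ih =>
    rw [List.countP_cons, List.countP_cons, List.countP_cons]
    have h1 : (if decide (s.2 ∈ ({a, b} : Finset U) ∧ p s.2) = true
        then 1 else 0) ≤ (if decide (s.2 = a) = true then 1 else 0) +
          (if decide (s.2 = b) = true then 1 else 0 : ℕ) := by
      by_cases h : s.2 ∈ ({a, b} : Finset U) ∧ p s.2
      · have h2 := h.1
        rw [Finset.mem_insert, Finset.mem_singleton] at h2
        rcases h2 with h2 | h2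
        · have e1 : decide (s.2 = a) = true := by simpa using h2
          rw [if_pos e1]
          split_ifs <;> omega
        · have e1 : decide (s.2 = b) = true := by simpa using h2
          rw [if_pos e1]
          split_ifs <;> omega
      · have e1 : ¬ (decide (s.2 ∈ ({a, b} : Finset U) ∧ p s.2) = true) := by simpa using h
        rw [if_neg e1]
        omega
    omega

/-- the term of the exposure test -/
lemma GE_le {P : Par} (hP : P.Ok) (X : TD V) (l : List (U × U)) (a b : U) (ψ : U → V)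
    (hrem : ∀ u, rem l u + 1 ≤ P.Δ) (hlen : l.length + 2 = P.m + 1) :
    GE P X l {a, b} ψ (fun _ => 0) ≤ P.I3 := by
  unfold GE Par.I3
  apply Real.exp_le_exp.2
  apply mul_le_mul_of_nonneg_left _ hP.e2_nonneg
  have hρ := hP.ρ_pos
  have hρ' := hP.ρ'_pos
  have h1 : exs ({a, b} : Finset U) ψ (fun _ => 0) X.Av = 0 := by
    unfold exs
    exact Finset.sum_eq_zero fun u _ => by simp
  have h2 : ((l.countP (fun s => decide (s.2 ∈ ({a, b} : Finset U) ∧ ψ s.2 ∈ X.Av)) : ℕ) : ℝ) ≤
      2 * P.Δ := by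
    have h3 : l.countP (fun s => decide (s.2 ∈ ({a, b} : Finset U) ∧ ψ s.2 ∈ X.Av)) ≤
        rem l a + rem l b := by
      refine le_trans (le_of_eq (List.countP_congr (fun s _ => ?_)))
        (countP_pair l a b (fun u => ψ u ∈ X.Av))
      simp
    have h4 := hrem a
    have h5 := hrem b
    have h6 := h3.trans (by omega : rem l a + rem l b ≤ 2 * P.Δ)
    exact_mod_cast h6
  have h3 : (rest l {a, b} : ℝ) ≤ P.m := by
    have h4 : rest l {a, b} ≤ l.length := List.countP_le_length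
    exact_mod_cast (by omega : rest l {a, b} ≤ P.m)
  rw [h1]
  nlinarith

end Init2

theorem stInit2 : StInit2 := by
  intro U V _ _ Q T lw H B X v0 a b l z y kA kT hQ hG hX hlw hsum hA hT hab hgrow hcard hdeg hzy
    hzB hyB
  have hP := hQ.ok
  have hne : a ≠ b := hab.ne
  have hrem := Init2.rem_lt hab hgrow hdeg
  have hlen := Init2.len_eq hab hgrow hcard
  have h0 := (initThm U V Q.P T H B v0 a b l z y hP hG hab hgrow hcard hdeg hzy hzB hyB).2
  have h3 := Init2.G3_le (T := T) hP hG v0 hne l z y hrem hlen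
  have hGA := Init2.GA_le hP H B X v0 hne z y kA kT hA hT
  have hGT := Init2.GT_le hQ hX hlw hsum (D := {a, b}) Finset.card_le_two (rt v0 a b z y) kT hT
  have hGE := Init2.GE_le hP X l a b (rt v0 a b z y) hrem hlen
  unfold PHI2 Par2.phi
  have w1 : 0 ≤ Q.P.w1 := (Real.exp_pos _).le
  have w5 : 0 ≤ Q.w5 := (Real.exp_pos _).le
  have q3 := mul_le_mul_of_nonneg_left h3 w5
  have qA := mul_le_mul_of_nonneg_left hGA w1
  have qE := mul_le_mul_of_nonneg_left hGE w5
  have e1 : Q.w5 * Q.P.I3 * (2 * Q.P.d + 3 + Q.P.d * Q.P.m) =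
      Q.w5 * (Q.P.I3 * (2 * Q.P.d + 2 + Q.P.d * Q.P.m)) + Q.w5 * Q.P.I3 := by ring
  rw [e1]
  linarith

end Pool.Agent.Lib.GHE
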