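import Mathlib
import Pool.Agent.Lib.MP_df0165_co.Ex.Stmts

set_option autoImplicit false
set_option linter.unusedSectionVars false

/-!
# Exact Graham-Haggkvist for expander hosts: the random labels (R1)
-/

namespace Pool.Agent.Lib.GHE.Lab

open Finset Classical Pool.Agent.Lib.GHA Pool.Agent.Lib.GHE

section gen

variable {E : Type} [Fintype E]

/-- Expectation over the labellings. -/
noncomputable def Ex (p : Fin 4 → ℝ) (f : (E → Fin 4) → ℝ) : ℝ :=
  ∑ ω : E → Fin 4, (∏ e : E, p (ω e)) * f ω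

lemma wt_nonneg (p : Fin 4 → ℝ) (hp : ∀ x, 0 ≤ p x) (ω : E → Fin 4) :
    0 ≤ ∏ e : E, p (ω e) := Finset.prod_nonneg fun _ _ => hp _

lemma Ex_mono (p : Fin 4 → ℝ) (hp : ∀ x, 0 ≤ p x) (f g : (E → Fin 4) → ℝ)
    (h : ∀ ω, f ω ≤ g ω) : Ex p f ≤ Ex p g :=
  Finset.sum_le_sum fun ω _ => mul_le_mul_of_nonneg_left (h ω) (wt_nonneg p hp ω)

lemma Ex_add (p : Fin 4 → ℝ) (f g : (E → Fin 4) → ℝ) :
    Ex p (fun ω => f ω + g ω) = Ex p f + Ex p g := by
  unfold Ex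
  rw [← Finset.sum_add_distrib]
  exact Finset.sum_congr rfl fun ω _ => by ring

lemma Ex_mul (p : Fin 4 → ℝ) (f : (E → Fin 4) → ℝ) (c : ℝ) :
    Ex p (fun ω => c * f ω) = c * Ex p f := by
  unfold Ex
  rw [Finset.mul_sum]
  exact Finset.sum_congr rfl fun ω _ => by ring

lemma Ex_sum {ι : Type} (p : Fin 4 → ℝ) (s : Finset ι) (f : ι → (E → Fin 4) → ℝ) :
    Ex p (fun ω => ∑ i ∈ s, f i ω) = ∑ i ∈ s, Ex p (f i) := by
  unfold Ex
  rw [Finset.sum_comm]
  exact Finset.sum_congr rfl fun ω _ => by rw [Finset.mul_sum]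

lemma Ex_one (hExp : StExp) (p : Fin 4 → ℝ) (hp : ∀ x, 0 ≤ p x) (hp1 : ∑ x, p x = 1) :
    Ex p (fun _ : E → Fin 4 => (1 : ℝ)) = 1 := by
  have h := (hExp E (Fin 4) p hp hp1).1 ∅ (fun _ _ => 1)
  simpa [Ex] using h

lemma exists_lt (hExp : StExp) (p : Fin 4 → ℝ) (hp : ∀ x, 0 ≤ p x) (hp1 : ∑ x, p x = 1)
    (f : (E → Fin 4) → ℝ) (h : Ex p f < 1) : ∃ ω, f ω < 1 := by
  by_contra hc
  push Not at hc
  have h1 := Ex_mono p hp (fun _ => (1 : ℝ)) f hc
  rw [Ex_one hExp p hp hp1] at h1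
  linarith

/-- Number of successes. -/
noncomputable def cnt {I : Type} (J : Finset I) (e1 e2 : I → E) (S1 S2 : I → Finset (Fin 4))
    (ω : E → Fin 4) : ℕ := (J.filter (fun i => ω (e1 i) ∈ S1 i ∧ ω (e2 i) ∈ S2 i)).card

lemma exp_cnt {I : Type} (J : Finset I) (e1 e2 : I → E) (S1 S2 : I → Finset (Fin 4))
    (ω : E → Fin 4) (θ : ℝ) :
    Real.exp (θ * cnt J e1 e2 S1 S2 ω) =
      ∏ i ∈ J, (1 + (Real.exp θ - 1) * if ω (e1 i) ∈ S1 i ∧ ω (e2 i) ∈ S2 i then 1 else 0) := by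
  have h : ∀ i ∈ J, (1 + (Real.exp θ - 1) *
      (if ω (e1 i) ∈ S1 i ∧ ω (e2 i) ∈ S2 i then (1 : ℝ) else 0)) =
      if ω (e1 i) ∈ S1 i ∧ ω (e2 i) ∈ S2 i then Real.exp θ else 1 := by
    intro i _
    split_ifs <;> ring
  rw [Finset.prod_congr rfl h, Finset.prod_ite, Finset.prod_const, Finset.prod_const_one,
    mul_one, ← Real.exp_nat_mul]
  unfold cnt
  rw [mul_comm]

/-- Hypotheses of the two-edge tests. -/
structure Hy {I : Type} (p : Fin 4 → ℝ) (J : Finset I) (e1 e2 : I → E)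
    (S1 S2 : I → Finset (Fin 4)) (q : ℝ) : Prop where
  i1 : Set.InjOn e1 J
  i2 : Set.InjOn e2 J
  ne : ∀ i ∈ J, ∀ j ∈ J, e1 i ≠ e2 j
  q12 : ∃ q1 q2 : ℝ, (∀ i ∈ J, ∑ x ∈ S1 i, p x = q1) ∧ (∀ i ∈ J, ∑ x ∈ S2 i, p x = q2) ∧
    q = q1 * q2

lemma one_add_le (θ q : ℝ) (hθ : |θ| ≤ 1) (hq0 : 0 ≤ q) (hq1 : q ≤ 1) :
    0 ≤ 1 + (Real.exp θ - 1) * q ∧ 1 + (Real.exp θ - 1) * q ≤ Real.exp (θ * q + θ ^ 2) := by
  have h1 := Real.abs_exp_sub_one_sub_id_le hθ
  have h2 := (abs_le.1 h1).2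
  have h3 : 0 < Real.exp θ := Real.exp_pos θ
  refine ⟨by nlinarith, ?_⟩
  have h4 : (Real.exp θ - 1) * q ≤ (θ + θ ^ 2) * q :=
    mul_le_mul_of_nonneg_right (by linarith) hq0
  have h5 : θ ^ 2 * q ≤ θ ^ 2 := by nlinarith [sq_nonneg θ]
  have h6 := Real.add_one_le_exp (θ * q + θ ^ 2)
  nlinarith

lemma Ex_exp_cnt (hExp : StExp) {I : Type} [Fintype I] (p : Fin 4 → ℝ) (hp : ∀ x, 0 ≤ p x)
    (hp1 : ∑ x, p x = 1) (J : Finset I) (e1 e2 : I → E) (S1 S2 : I → Finset (Fin 4)) (q θ : ℝ)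
    (h : Hy p J e1 e2 S1 S2 q) (hθ : |θ| ≤ 1) (hq0 : 0 ≤ q) (hq1 : q ≤ 1) :
    Ex p (fun ω => Real.exp (θ * cnt J e1 e2 S1 S2 ω)) ≤
      Real.exp (J.card * (θ * q + θ ^ 2)) := by
  obtain ⟨q1, q2, h1, h2, rfl⟩ := h.q12
  have h3 := (hExp E (Fin 4) p hp hp1).2 I J e1 e2 S1 S2 (Real.exp θ - 1) q1 q2 h.i1 h.i2 h.ne
    h1 h2
  have h4 : Ex p (fun ω => Real.exp (θ * cnt J e1 e2 S1 S2 ω)) =
      (1 + (Real.exp θ - 1) * (q1 * q2)) ^ J.card := by
    rw [← h3]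
    unfold Ex
    refine Finset.sum_congr rfl fun ω _ => ?_
    simp only [exp_cnt]
    congr 1
    refine Finset.prod_congr rfl fun i _ => ?_
    by_cases hh : ω (e1 i) ∈ S1 i ∧ ω (e2 i) ∈ S2 i <;> simp [hh]
  rw [h4]
  have h5 := one_add_le θ (q1 * q2) hθ hq0 hq1
  calc (1 + (Real.exp θ - 1) * (q1 * q2)) ^ J.card
      ≤ (Real.exp (θ * (q1 * q2) + θ ^ 2)) ^ J.card := pow_le_pow_left₀ h5.1 h5.2 _
    _ = _ := by rw [← Real.exp_nat_mul]

/-- Upper tests. -/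
lemma test_up (hExp : StExp) {I : Type} [Fintype I] (p : Fin 4 → ℝ) (hp : ∀ x, 0 ≤ p x)
    (hp1 : ∑ x, p x = 1) (J : Finset I) (e1 e2 : I → E) (S1 S2 : I → Finset (Fin 4))
    (q δ : ℝ) (d : ℕ) (h : Hy p J e1 e2 S1 S2 q) (hδ0 : 0 < δ) (hδ1 : δ < 1) (hq0 : 0 ≤ q)
    (hq1 : q ≤ 1) (hJ : J.card ≤ d) :
    Ex p (fun ω => Real.exp (δ / 2 * (cnt J e1 e2 S1 S2 ω - (q + δ) * d))) ≤
      Real.exp (-(δ ^ 2 * d / 4)) := by
  have h1 := Ex_exp_cnt hExp p hp hp1 J e1 e2 S1 S2 q (δ / 2) h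
    (by rw [abs_of_pos (by linarith)]; linarith) hq0 hq1
  have h2 : Ex p (fun ω => Real.exp (δ / 2 * (cnt J e1 e2 S1 S2 ω - (q + δ) * d))) =
      Real.exp (-(δ / 2 * ((q + δ) * d))) *
        Ex p (fun ω => Real.exp (δ / 2 * cnt J e1 e2 S1 S2 ω)) := by
    rw [← Ex_mul]
    unfold Ex
    refine Finset.sum_congr rfl fun ω _ => ?_
    simp only []
    rw [← Real.exp_add]
    congr 2
    ring
  rw [h2]
  calc Real.exp (-(δ / 2 * ((q + δ) * d))) *
        Ex p (fun ω => Real.exp (δ / 2 * cnt J e1 e2 S1 S2 ω))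
      ≤ Real.exp (-(δ / 2 * ((q + δ) * d))) *
        Real.exp (J.card * (δ / 2 * q + (δ / 2) ^ 2)) :=
        mul_le_mul_of_nonneg_left h1 (Real.exp_pos _).le
    _ = Real.exp (-(δ / 2 * ((q + δ) * d)) + J.card * (δ / 2 * q + (δ / 2) ^ 2)) := by
        rw [Real.exp_add]
    _ ≤ _ := by
        apply Real.exp_le_exp.2
        have h3 : (J.card : ℝ) ≤ d := by exact_mod_cast hJ
        have h4 : 0 ≤ δ / 2 * q + (δ / 2) ^ 2 := by positivity
        have h5 := mul_le_mul_of_nonneg_right h3 h4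
        nlinarith

/-- Lower tests. -/
lemma test_lo (hExp : StExp) {I : Type} [Fintype I] (p : Fin 4 → ℝ) (hp : ∀ x, 0 ≤ p x)
    (hp1 : ∑ x, p x = 1) (J : Finset I) (e1 e2 : I → E) (S1 S2 : I → Finset (Fin 4))
    (q δ : ℝ) (d : ℕ) (h : Hy p J e1 e2 S1 S2 q) (hδ0 : 0 < δ) (hδ1 : δ < 1) (hq0 : 0 ≤ q)
    (hq1 : q ≤ 1) (hJ : J.card = d) :
    Ex p (fun ω => Real.exp (-(δ / 2) * (cnt J e1 e2 S1 S2 ω - (q - δ) * d))) ≤
      Real.exp (-(δ ^ 2 * d / 4)) := by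
  have h1 := Ex_exp_cnt hExp p hp hp1 J e1 e2 S1 S2 q (-(δ / 2)) h
    (by rw [abs_neg, abs_of_pos (by linarith)]; linarith) hq0 hq1
  have h2 : Ex p (fun ω => Real.exp (-(δ / 2) * (cnt J e1 e2 S1 S2 ω - (q - δ) * d))) =
      Real.exp (δ / 2 * ((q - δ) * d)) *
        Ex p (fun ω => Real.exp (-(δ / 2) * cnt J e1 e2 S1 S2 ω)) := by
    rw [← Ex_mul]
    unfold Ex
    refine Finset.sum_congr rfl fun ω _ => ?_
    simp only []
    rw [← Real.exp_add]
    congr 2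
    ring
  rw [h2]
  calc Real.exp (δ / 2 * ((q - δ) * d)) *
        Ex p (fun ω => Real.exp (-(δ / 2) * cnt J e1 e2 S1 S2 ω))
      ≤ Real.exp (δ / 2 * ((q - δ) * d)) *
        Real.exp (J.card * (-(δ / 2) * q + (-(δ / 2)) ^ 2)) :=
        mul_le_mul_of_nonneg_left h1 (Real.exp_pos _).le
    _ = Real.exp (δ / 2 * ((q - δ) * d) + J.card * (-(δ / 2) * q + (-(δ / 2)) ^ 2)) := by
        rw [Real.exp_add]
    _ ≤ _ := by
        apply Real.exp_le_exp.2
        rw [hJ]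
        nlinarith

/-- Number of edges of a set with the label `1`. -/
noncomputable def c1 (F : Finset E) (ω : E → Fin 4) : ℕ := (F.filter (fun e => ω e = 1)).card

/-- Tests for the cuts. -/
lemma test_cut (hExp : StExp) (p : Fin 4 → ℝ) (hp : ∀ x, 0 ≤ p x)
    (hp1 : ∑ x, p x = 1) (F : Finset E) (b : ℝ) :
    Ex p (fun ω => Real.exp (b - c1 F ω)) ≤ Real.exp (b - 5 / 8 * (p 1 * F.card)) := by
  have h1 := (hExp E (Fin 4) p hp hp1).1 F
    (fun _ y => if y = 1 then Real.exp (-1) else 1)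
  have h2 : ∑ x : Fin 4, p x * (if x = 1 then Real.exp (-1) else 1) =
      1 - (1 - Real.exp (-1)) * p 1 := by
    rw [Fin.sum_univ_four] at hp1 ⊢
    rw [if_neg (by decide), if_pos rfl, if_neg (by decide), if_neg (by decide)]
    linarith
  have h3 : Ex p (fun ω => Real.exp (b - c1 F ω)) =
      Real.exp b * (1 - (1 - Real.exp (-1)) * p 1) ^ F.card := by
    rw [Finset.prod_congr rfl (fun e _ => h2), Finset.prod_const] at h1
    rw [← h1, Finset.mul_sum]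
    unfold Ex
    refine Finset.sum_congr rfl fun ω _ => ?_
    have h4 : ∏ e ∈ F, (if ω e = 1 then Real.exp (-1) else 1) = Real.exp (-(c1 F ω : ℝ)) := by
      rw [Finset.prod_ite, Finset.prod_const, Finset.prod_const_one, mul_one,
        ← Real.exp_nat_mul]
      unfold c1
      congr 1
      ring
    simp only []
    rw [h4, sub_eq_add_neg, Real.exp_add]
    ring
  rw [h3]
  have he : Real.exp (-1) ≤ 3 / 8 := by
    have := Real.exp_neg_one_lt_d9
    linarith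
  have hp11 : p 1 ≤ 1 := by
    rw [← hp1]
    exact Finset.single_le_sum (f := p) (fun i _ => hp i) (Finset.mem_univ 1)
  have h5 : 0 ≤ 1 - (1 - Real.exp (-1)) * p 1 := by
    have := Real.exp_pos (-1)
    nlinarith [hp 1]
  have h6 : 1 - (1 - Real.exp (-1)) * p 1 ≤ Real.exp (-(5 / 8 * p 1)) := by
    have h7 := Real.add_one_le_exp (-(5 / 8 * p 1))
    nlinarith [hp 1]
  calc Real.exp b * (1 - (1 - Real.exp (-1)) * p 1) ^ F.card
      ≤ Real.exp b * (Real.exp (-(5 / 8 * p 1))) ^ F.card :=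
        mul_le_mul_of_nonneg_left (pow_le_pow_left₀ h5 h6 _) (Real.exp_pos _).le
    _ = _ := by
        rw [← Real.exp_nat_mul, ← Real.exp_add]
        congr 1
        ring

end gen

section graph

variable {V : Type} [Fintype V]

/-- Position of a vertex in a fixed order. -/
noncomputable def rk (v : V) : ℕ := (Fintype.equivFin V v : Fin (Fintype.card V)).val

lemma rk_inj {u v : V} (h : rk u = rk v) : u = v :=
  (Fintype.equivFin V).injective (Fin.ext h)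

/-- The label of the arc from `v` to `x`. -/
noncomputable def SO (v x : V) : Finset (Fin 4) := if rk v < rk x then {2} else {3}

/-- The edges with a label in `S`. -/
def LG (G : SimpleGraph V) (ω : Sym2 V → Fin 4) (S : Finset (Fin 4)) : SimpleGraph V where
  Adj u v := G.Adj u v ∧ ω s(u, v) ∈ S
  symm := ⟨fun u v h => ⟨h.1.symm, by rw [Sym2.eq_swap]; exact h.2⟩⟩
  loopless := ⟨fun x h => G.loopless.irrefl x h.1⟩

/-- The oriented part. -/
def O2 (G : SimpleGraph V) (ω : Sym2 V → Fin 4) (u v : V) : Prop :=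
  G.Adj u v ∧ ω s(u, v) ∈ SO u v

lemma mem_nb (G : SimpleGraph V) (v x : V) : x ∈ nb G v ↔ G.Adj v x := by
  unfold nb
  simp

lemma nb_LG (G : SimpleGraph V) (ω : Sym2 V → Fin 4) (S : Finset (Fin 4)) (u : V) :
    nb (LG G ω S) u = (nb G u).filter (fun x => ω s(u, x) ∈ S) := by
  ext x
  simp only [mem_nb, Finset.mem_filter]
  rfl

lemma on_O2 (G : SimpleGraph V) (ω : Sym2 V → Fin 4) (u : V) :
    on (O2 G ω) u = (nb G u).filter (fun x => ω s(u, x) ∈ SO u x) := by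
  ext x
  simp only [on, mem_nb, Finset.mem_filter, Finset.mem_univ, true_and]
  rfl

lemma rn_LG (G : SimpleGraph V) (ω : Sym2 V → Fin 4) (u : V) :
    rn G (LG G ω {0}) u = (nb G u).filter (fun x => ω s(u, x) ∈ ({1, 2, 3} : Finset (Fin 4))) := by
  ext x
  unfold rn
  rw [nb_LG]
  simp only [Finset.mem_sdiff, Finset.mem_filter, not_and]
  have h : ∀ y : Fin 4, y ∉ ({0} : Finset (Fin 4)) ↔ y ∈ ({1, 2, 3} : Finset (Fin 4)) := by
    decide
  constructor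
  · rintro ⟨h1, h2⟩
    exact ⟨h1, (h _).1 (h2 h1)⟩
  · rintro ⟨h1, h2⟩
    exact ⟨h1, fun _ => (h _).2 h2⟩

lemma spl (G : SimpleGraph V) (ω : Sym2 V → Fin 4) :
    Spl G (LG G ω {0}) (LG G ω {1}) (O2 G ω) where
  h0 := fun _ _ h => h.1
  r1 := fun _ _ h => h.1
  o2_adj := fun _ _ h => h.1
  o2_asymm := by
    intro u v h1 h2
    have h3 := h1.2
    have h4 := h2.2
    have hne : rk u ≠ rk v := fun h => G.loopless.irrefl v (by
      have h5 := h1.1
      rwa [rk_inj h] at h5)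
    rw [Sym2.eq_swap] at h4
    unfold SO at h3 h4
    rcases lt_or_gt_of_ne hne with h | h
    · rw [if_pos h, Finset.mem_singleton] at h3
      rw [if_neg (not_lt.2 h.le), Finset.mem_singleton, h3] at h4
      exact absurd h4 (by decide)
    · rw [if_neg (not_lt.2 h.le), Finset.mem_singleton] at h3
      rw [if_pos h, Finset.mem_singleton, h3] at h4
      exact absurd h4 (by decide)
  part := by
    intro u v h
    have hne : rk u ≠ rk v := fun h' => G.loopless.irrefl v (by rwa [rk_inj h'] at h)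
    have h4 : ∀ y : Fin 4, y = 0 ∨ y = 1 ∨ y = 2 ∨ y = 3 := by decide
    rcases h4 (ω s(u, v)) with h1 | h1 | h1 | h1
    · exact Or.inl ⟨h, by rw [h1]; decide⟩
    · exact Or.inr (Or.inl ⟨h, by rw [h1]; decide⟩)
    · rcases lt_or_gt_of_ne hne with h2 | h2
      · refine Or.inr (Or.inr (Or.inl ⟨h, ?_⟩))
        rw [h1]
        unfold SO
        rw [if_pos h2]
        decide
      · refine Or.inr (Or.inr (Or.inr ⟨h.symm, ?_⟩))
        rw [Sym2.eq_swap, h1]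
        unfold SO
        rw [if_pos h2]
        decide
    · rcases lt_or_gt_of_ne hne with h2 | h2
      · refine Or.inr (Or.inr (Or.inr ⟨h.symm, ?_⟩))
        rw [Sym2.eq_swap, h1]
        unfold SO
        rw [if_neg (not_lt.2 h2.le)]
        decide
      · refine Or.inr (Or.inr (Or.inl ⟨h, ?_⟩))
        rw [h1]
        unfold SO
        rw [if_neg (not_lt.2 h2.le)]
        decide
  d1 := by
    intro u v h1 h2
    have h3 := Finset.mem_singleton.1 h1.2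
    have h4 := Finset.mem_singleton.1 h2.2
    rw [h3] at h4
    exact absurd h4 (by decide)
  d2 := by
    intro u v h1 h2
    have h3 := Finset.mem_singleton.1 h1.2
    have h4 := h2.2
    rw [h3] at h4
    unfold SO at h4
    split_ifs at h4 <;> exact absurd h4 (by decide)
  d3 := by
    intro u v h1 h2
    have h3 := Finset.mem_singleton.1 h1.2
    have h4 := h2.2
    rw [h3] at h4
    unfold SO at h4
    split_ifs at h4 <;> exact absurd h4 (by decide)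

/-! ### Single tests -/

/-- Counter of the single tests. -/
noncomputable def cs (G : SimpleGraph V) (S : V → V → Finset (Fin 4)) (v : V)
    (ω : Sym2 V → Fin 4) : ℕ :=
  cnt (nb G v) (fun x => s(v, x)) (fun x => s(x, x)) (S v) (fun _ => univ) ω

lemma cs_eq (G : SimpleGraph V) (S : V → V → Finset (Fin 4)) (v : V) (ω : Sym2 V → Fin 4) :
    cs G S v ω = ((nb G v).filter (fun x => ω s(v, x) ∈ S v x)).card := by
  unfold cs cnt
  congr 1
  ext x
  simp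

lemma hy_s (p : Fin 4 → ℝ) (hp1 : ∑ x, p x = 1) (G : SimpleGraph V)
    (S : V → V → Finset (Fin 4)) (v : V) (q : ℝ) (hS : ∀ v x, ∑ y ∈ S v x, p y = q) :
    Hy p (nb G v) (fun x => s(v, x)) (fun x => s(x, x)) (S v) (fun _ => univ) q where
  i1 := fun x _ y _ h => Sym2.congr_right.1 h
  i2 := by
    intro x _ y _ h
    simpa using h
  ne := by
    intro x hx y _ h
    rw [mem_nb] at hx
    simp only [Sym2.eq_iff] at h
    rcases h with ⟨h1, h2⟩ | ⟨h1, h2⟩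
    · exact hx.ne (by rw [h1, h2])
    · exact hx.ne (by rw [h1, h2])
  q12 := ⟨q, 1, fun x _ => hS v x, fun _ _ => hp1, by ring⟩

/-- Sum of the single tests. -/
noncomputable def YS (G : SimpleGraph V) (S : V → V → Finset (Fin 4)) (q δ : ℝ) (d : ℕ)
    (ω : Sym2 V → Fin 4) : ℝ :=
  ∑ v : V, (Real.exp (δ / 2 * (cs G S v ω - (q + δ) * d))
    + Real.exp (-(δ / 2) * (cs G S v ω - (q - δ) * d)))

lemma YS_nonneg (G : SimpleGraph V) (S : V → V → Finset (Fin 4)) (q δ : ℝ) (d : ℕ)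
    (ω : Sym2 V → Fin 4) : 0 ≤ YS G S q δ d ω :=
  Finset.sum_nonneg fun _ _ => by positivity

lemma YS_good (G : SimpleGraph V) (S : V → V → Finset (Fin 4)) (q δ : ℝ) (d : ℕ)
    (ω : Sym2 V → Fin 4) (hδ : 0 < δ) (h : YS G S q δ d ω < 1) (v : V) :
    |(cs G S v ω : ℝ) - q * d| ≤ δ * d := by
  have h1 : Real.exp (δ / 2 * (cs G S v ω - (q + δ) * d))
      + Real.exp (-(δ / 2) * (cs G S v ω - (q - δ) * d)) < 1 :=
    lt_of_le_of_lt (Finset.single_le_sum (f := fun v => Real.exp (δ / 2 * (cs G S v ω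
      - (q + δ) * d)) + Real.exp (-(δ / 2) * (cs G S v ω - (q - δ) * d)))
      (fun _ _ => by positivity) (Finset.mem_univ v)) h
  have h2 : Real.exp (δ / 2 * (cs G S v ω - (q + δ) * d)) < 1 := by
    have := Real.exp_pos (-(δ / 2) * (cs G S v ω - (q - δ) * d))
    linarith
  have h3 : Real.exp (-(δ / 2) * (cs G S v ω - (q - δ) * d)) < 1 := by
    have := Real.exp_pos (δ / 2 * (cs G S v ω - (q + δ) * d))
    linarith
  rw [Real.exp_lt_one_iff] at h2 h3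
  rw [abs_le]
  constructor
  · by_contra hc
    push Not at hc
    nlinarith
  · by_contra hc
    push Not at hc
    nlinarith

lemma YS_Ex (hExp : StExp) (p : Fin 4 → ℝ) (hp : ∀ x, 0 ≤ p x) (hp1 : ∑ x, p x = 1)
    (G : SimpleGraph V) (S : V → V → Finset (Fin 4)) (q δ : ℝ) (d : ℕ)
    (hS : ∀ v x, ∑ y ∈ S v x, p y = q) (hq0 : 0 ≤ q) (hq1 : q ≤ 1) (hδ0 : 0 < δ) (hδ1 : δ < 1)
    (hd : ∀ v, (nb G v).card = d) :
    Ex p (YS G S q δ d) ≤ 2 * Fintype.card V * Real.exp (-(δ ^ 2 * d / 4)) := by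
  have h1 : Ex p (YS G S q δ d) = ∑ v : V,
      (Ex p (fun ω => Real.exp (δ / 2 * (cs G S v ω - (q + δ) * d)))
        + Ex p (fun ω => Real.exp (-(δ / 2) * (cs G S v ω - (q - δ) * d)))) := by
    unfold YS
    rw [Ex_sum]
    exact Finset.sum_congr rfl fun v _ => Ex_add p _ _
  rw [h1]
  calc _ ≤ ∑ v : V, (Real.exp (-(δ ^ 2 * d / 4)) + Real.exp (-(δ ^ 2 * d / 4))) := by
        refine Finset.sum_le_sum fun v _ => add_le_add ?_ ?_
        · exact test_up hExp p hp hp1 _ _ _ _ _ q δ d (hy_s p hp1 G S v q hS) hδ0 hδ1 hq0 hq1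
            (hd v).le
        · exact test_lo hExp p hp hp1 _ _ _ _ _ q δ d (hy_s p hp1 G S v q hS) hδ0 hδ1 hq0 hq1
            (hd v)
    _ = _ := by
        rw [Finset.sum_const, Finset.card_univ, nsmul_eq_mul]
        ring

/-! ### Tests for pairs -/

/-- Counter of the pair tests. -/
noncomputable def cp (G : SimpleGraph V) (S1 S2 : Finset (Fin 4)) (u v : V)
    (ω : Sym2 V → Fin 4) : ℕ :=
  cnt (nb G u ∩ nb G v) (fun x => s(u, x)) (fun x => s(v, x)) (fun _ => S1) (fun _ => S2) ω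

lemma cp_eq (G : SimpleGraph V) (S1 S2 : Finset (Fin 4)) (u v : V) (ω : Sym2 V → Fin 4) :
    cp G S1 S2 u v ω = ((nb G u).filter (fun x => ω s(u, x) ∈ S1) ∩
      (nb G v).filter (fun x => ω s(v, x) ∈ S2)).card := by
  unfold cp cnt
  congr 1
  ext x
  simp only [Finset.mem_filter, Finset.mem_inter]
  tauto

lemma hy_p (p : Fin 4 → ℝ) (G : SimpleGraph V)
    (S1 S2 : Finset (Fin 4)) (u v : V) (huv : u ≠ v) :
    Hy p (nb G u ∩ nb G v) (fun x => s(u, x)) (fun x => s(v, x)) (fun _ => S1) (fun _ => S2)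
      ((∑ y ∈ S1, p y) * ∑ y ∈ S2, p y) where
  i1 := fun x _ y _ h => Sym2.congr_right.1 h
  i2 := fun x _ y _ h => Sym2.congr_right.1 h
  ne := by
    intro x hx y hy h
    rw [Finset.mem_inter, mem_nb, mem_nb] at hx hy
    simp only [Sym2.eq_iff] at h
    rcases h with ⟨h1, h2⟩ | ⟨h1, h2⟩
    · exact huv h1
    · rw [h1] at hy
      exact G.loopless.irrefl _ hy.1
  q12 := ⟨_, _, fun _ _ => rfl, fun _ _ => rfl, rfl⟩

/-- Sum of the pair tests. -/
noncomputable def YP (G : SimpleGraph V) (S1 S2 : Finset (Fin 4)) (q δ : ℝ) (d : ℕ)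
    (ω : Sym2 V → Fin 4) : ℝ :=
  ∑ u : V, ∑ v ∈ univ.erase u, Real.exp (δ / 2 * (cp G S1 S2 u v ω - (q + δ) * d))

lemma YP_nonneg (G : SimpleGraph V) (S1 S2 : Finset (Fin 4)) (q δ : ℝ) (d : ℕ)
    (ω : Sym2 V → Fin 4) : 0 ≤ YP G S1 S2 q δ d ω :=
  Finset.sum_nonneg fun _ _ => Finset.sum_nonneg fun _ _ => (Real.exp_pos _).le

lemma YP_good (G : SimpleGraph V) (S1 S2 : Finset (Fin 4)) (q δ : ℝ) (d : ℕ)
    (ω : Sym2 V → Fin 4) (hδ : 0 < δ) (h : YP G S1 S2 q δ d ω < 1) (u v : V) (huv : u ≠ v) :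
    (cp G S1 S2 u v ω : ℝ) ≤ (q + δ) * d := by
  have h1 : ∑ v ∈ univ.erase u, Real.exp (δ / 2 * (cp G S1 S2 u v ω - (q + δ) * d)) < 1 :=
    lt_of_le_of_lt (Finset.single_le_sum (f := fun u => ∑ v ∈ univ.erase u,
      Real.exp (δ / 2 * (cp G S1 S2 u v ω - (q + δ) * d)))
      (fun _ _ => Finset.sum_nonneg fun _ _ => (Real.exp_pos _).le) (Finset.mem_univ u)) h
  have h2 : Real.exp (δ / 2 * (cp G S1 S2 u v ω - (q + δ) * d)) < 1 :=
    lt_of_le_of_lt (Finset.single_le_sum (f := fun v =>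
      Real.exp (δ / 2 * (cp G S1 S2 u v ω - (q + δ) * d)))
      (fun _ _ => (Real.exp_pos _).le)
      (Finset.mem_erase.2 ⟨huv.symm, Finset.mem_univ v⟩)) h1
  rw [Real.exp_lt_one_iff] at h2
  by_contra hc
  push Not at hc
  nlinarith

lemma YP_Ex (hExp : StExp) (p : Fin 4 → ℝ) (hp : ∀ x, 0 ≤ p x) (hp1 : ∑ x, p x = 1)
    (G : SimpleGraph V) (S1 S2 : Finset (Fin 4)) (q δ : ℝ) (d : ℕ)
    (hq : q = (∑ y ∈ S1, p y) * ∑ y ∈ S2, p y) (hδ0 : 0 < δ) (hδ1 : δ < 1)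
    (hd : ∀ v, (nb G v).card = d) :
    Ex p (YP G S1 S2 q δ d) ≤ Fintype.card V ^ 2 * Real.exp (-(δ ^ 2 * d / 4)) := by
  have hs : ∀ S : Finset (Fin 4), 0 ≤ ∑ y ∈ S, p y ∧ ∑ y ∈ S, p y ≤ 1 := by
    intro S
    refine ⟨Finset.sum_nonneg fun y _ => hp y, ?_⟩
    rw [← hp1]
    exact Finset.sum_le_sum_of_subset_of_nonneg (Finset.subset_univ S) fun y _ _ => hp y
  have hq0 : 0 ≤ q := by rw [hq]; exact mul_nonneg (hs S1).1 (hs S2).1
  have hq1 : q ≤ 1 := by rw [hq]; exact mul_le_one₀ (hs S1).2 (hs S2).1 (hs S2).2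
  have h1 : Ex p (YP G S1 S2 q δ d) = ∑ u : V, ∑ v ∈ univ.erase u,
      Ex p (fun ω => Real.exp (δ / 2 * (cp G S1 S2 u v ω - (q + δ) * d))) := by
    unfold YP
    rw [Ex_sum]
    exact Finset.sum_congr rfl fun u _ => Ex_sum p _ _
  rw [h1]
  calc _ ≤ ∑ u : V, ∑ v ∈ univ.erase u, Real.exp (-(δ ^ 2 * d / 4)) := by
        refine Finset.sum_le_sum fun u _ => Finset.sum_le_sum fun v hv => ?_
        have huv : u ≠ v := fun h => (Finset.mem_erase.1 hv).1 h.symm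
        have h2 := hy_p p G S1 S2 u v huv
        rw [← hq] at h2
        refine test_up hExp p hp hp1 _ _ _ _ _ q δ d h2 hδ0 hδ1 hq0 hq1 ?_
        rw [← hd u]
        exact Finset.card_le_card Finset.inter_subset_left
    _ ≤ ∑ u : V, ∑ v : V, Real.exp (-(δ ^ 2 * d / 4)) := by
        refine Finset.sum_le_sum fun u _ => ?_
        exact Finset.sum_le_sum_of_subset_of_nonneg (Finset.subset_univ _)
          fun _ _ _ => (Real.exp_pos _).le
    _ = _ := by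
        simp only [Finset.sum_const, Finset.card_univ, nsmul_eq_mul]
        ring

/-! ### Tests for cuts -/

/-- The edges of `K` leaving the set `X`. -/
noncomputable def FX (K : SimpleGraph V) (X : Finset V) : Finset (Sym2 V) :=
  (X.sigma (fun u => nb K u \ X)).image (fun t => s(t.1, t.2))

lemma mem_FX (K : SimpleGraph V) (X : Finset V) (e : Sym2 V) :
    e ∈ FX K X ↔ ∃ u x, u ∈ X ∧ x ∉ X ∧ K.Adj u x ∧ e = s(u, x) := by
  unfold FX
  rw [Finset.mem_image]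
  constructor
  · rintro ⟨⟨u, x⟩, h, rfl⟩
    rw [Finset.mem_sigma, Finset.mem_sdiff, mem_nb] at h
    exact ⟨u, x, h.1, h.2.2, h.2.1, rfl⟩
  · rintro ⟨u, x, h1, h2, h3, rfl⟩
    exact ⟨⟨u, x⟩, by rw [Finset.mem_sigma, Finset.mem_sdiff, mem_nb]; exact ⟨h1, h3, h2⟩, rfl⟩

lemma card_FX (K : SimpleGraph V) (X : Finset V) :
    (FX K X).card = ∑ u ∈ X, (nb K u \ X).card := by
  unfold FX
  rw [Finset.card_image_of_injOn, Finset.card_sigma]
  rintro ⟨u, x⟩ h ⟨u', x'⟩ h' he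
  rw [Finset.mem_coe, Finset.mem_sigma, Finset.mem_sdiff] at h h'
  simp only [Sym2.eq_iff] at he
  rcases he with ⟨h1, h2⟩ | ⟨h1, h2⟩
  · subst h1; subst h2; rfl
  · exact absurd (by rw [← h1]; exact h.1) h'.2.2

lemma FX_LG (G : SimpleGraph V) (ω : Sym2 V → Fin 4) (X : Finset V) :
    FX (LG G ω {1}) X = (FX G X).filter (fun e => ω e = 1) := by
  ext e
  rw [Finset.mem_filter, mem_FX, mem_FX]
  constructor
  · rintro ⟨u, x, h1, h2, h3, rfl⟩
    exact ⟨⟨u, x, h1, h2, h3.1, rfl⟩, Finset.mem_singleton.1 h3.2⟩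
  · rintro ⟨⟨u, x, h1, h2, h3, rfl⟩, h4⟩
    exact ⟨u, x, h1, h2, ⟨h3, Finset.mem_singleton.2 h4⟩, rfl⟩

/-- Sum of the cut tests. -/
noncomputable def YC (G : SimpleGraph V) (b : ℝ) (ω : Sym2 V → Fin 4) : ℝ :=
  ∑ X ∈ univ.filter (fun X : Finset V => X.Nonempty ∧ 2 * X.card ≤ Fintype.card V),
    Real.exp (b * X.card - c1 (FX G X) ω)

lemma YC_nonneg (G : SimpleGraph V) (b : ℝ) (ω : Sym2 V → Fin 4) : 0 ≤ YC G b ω :=
  Finset.sum_nonneg fun _ _ => (Real.exp_pos _).le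

lemma YC_good (G : SimpleGraph V) (b : ℝ) (ω : Sym2 V → Fin 4) (h : YC G b ω < 1)
    (X : Finset V) (hX : 2 * X.card ≤ Fintype.card V) :
    b * X.card ≤ ∑ u ∈ X, ((nb (LG G ω {1}) u \ X).card : ℝ) := by
  rcases X.eq_empty_or_nonempty with h0 | h0
  · subst h0
    simp
  have h1 : Real.exp (b * X.card - c1 (FX G X) ω) < 1 :=
    lt_of_le_of_lt (Finset.single_le_sum (f := fun X : Finset V =>
      Real.exp (b * X.card - c1 (FX G X) ω)) (fun _ _ => (Real.exp_pos _).le)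
      (Finset.mem_filter.2 ⟨Finset.mem_univ X, h0, hX⟩)) h
  rw [Real.exp_lt_one_iff] at h1
  have h2 : ((c1 (FX G X) ω : ℕ) : ℝ) = ∑ u ∈ X, ((nb (LG G ω {1}) u \ X).card : ℝ) := by
    unfold c1
    rw [← FX_LG, card_FX]
    push_cast
    rfl
  rw [← h2]
  linarith

lemma sum_pow_nonempty (x : ℝ) :
    ∑ X ∈ univ.filter (fun X : Finset V => X.Nonempty), x ^ X.card
      = (1 + x) ^ Fintype.card V - 1 := by
  have h1 := Finset.sum_pow_mul_eq_add_pow x 1 (univ : Finset V)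
  rw [Finset.card_univ, add_comm x 1] at h1
  rw [← h1]
  simp only [one_pow, mul_one]
  have h2 : (univ : Finset V).powerset =
      insert ∅ (univ.filter (fun X : Finset V => X.Nonempty)) := by
    ext X
    simp only [Finset.mem_powerset, Finset.subset_univ, Finset.mem_insert, Finset.mem_filter,
      Finset.mem_univ, true_and, true_iff]
    exact X.eq_empty_or_nonempty
  rw [h2, Finset.sum_insert (by simp)]
  simp

lemma YC_Ex (hExp : StExp) (p : Fin 4 → ℝ) (hp : ∀ x, 0 ≤ p x) (hp1 : ∑ x, p x = 1)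
    (G : SimpleGraph V) (d : ℕ) (χ ν : ℝ) (hν : 0 < ν) (hp1ν : ν ≤ p 1) (hχ : ν ≤ χ)
    (hc : ∀ X : Finset V, 2 * X.card ≤ Fintype.card V →
        χ * d * X.card ≤ ∑ u ∈ X, ((nb G u \ X).card : ℝ)) :
    Ex p (YC G (p 1 * χ / 2 * d)) ≤
      (1 + Real.exp (-(ν ^ 2 * d / 8))) ^ Fintype.card V - 1 := by
  unfold YC
  rw [Ex_sum, ← sum_pow_nonempty]
  calc _ ≤ ∑ X ∈ univ.filter (fun X : Finset V => X.Nonempty ∧ 2 * X.card ≤ Fintype.card V),
        Real.exp (-(ν ^ 2 * d / 8)) ^ X.card := by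
        refine Finset.sum_le_sum fun X hX => ?_
        rw [Finset.mem_filter] at hX
        refine (test_cut hExp p hp hp1 (FX G X) (p 1 * χ / 2 * d * X.card)).trans ?_
        rw [← Real.exp_nat_mul]
        apply Real.exp_le_exp.2
        have h1 := hc X hX.2.2
        have h2 : ((FX G X).card : ℝ) = ∑ u ∈ X, ((nb G u \ X).card : ℝ) := by
          rw [card_FX]
          push_cast
          rfl
        rw [← h2] at h1
        have h3 : p 1 * (χ * d * X.card) ≤ p 1 * (FX G X).card :=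
          mul_le_mul_of_nonneg_left h1 (hp 1)
        have h4 : ν ^ 2 ≤ p 1 * χ := by nlinarith
        have h5 : (0 : ℝ) ≤ (d : ℝ) * X.card := by positivity
        have h6 := mul_le_mul_of_nonneg_right h4 h5
        nlinarith
    _ ≤ _ := by
        refine Finset.sum_le_sum_of_subset_of_nonneg ?_ fun X _ _ => by positivity
        intro X hX
        rw [Finset.mem_filter] at hX ⊢
        exact ⟨hX.1, hX.2.1⟩

end graph

/-! ### Numbers -/

lemma num_fin (δ ν κ n d : ℝ) (hκ1 : 64 * κ ≤ δ ^ 2)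
    (hκ2 : 64 * κ ≤ ν ^ 2) (hn : 2 ≤ n) (hd : 0 ≤ d) (hL : Real.log n ≤ κ * d) :
    Real.exp (-(δ ^ 2 * d / 4)) ≤ (1 / n) ^ 16 ∧ Real.exp (-(ν ^ 2 * d / 8)) ≤ (1 / n) ^ 8 := by
  have hn0 : 0 < n := by linarith
  have h1 : 1 / n = Real.exp (-Real.log n) := by
    rw [Real.exp_neg, Real.exp_log hn0, one_div]
  constructor
  · rw [h1, ← Real.exp_nat_mul]
    apply Real.exp_le_exp.2
    push_cast
    nlinarith
  · rw [h1, ← Real.exp_nat_mul]
    apply Real.exp_le_exp.2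
    push_cast
    nlinarith

lemma num_cut (n : ℕ) (hn : 2 ≤ n) (x : ℝ) (hx0 : 0 ≤ x) (hx : x ≤ (1 / (n : ℝ)) ^ 8) :
    (1 + x) ^ n - 1 ≤ 1 / 8 := by
  have hn' : (2 : ℝ) ≤ n := by exact_mod_cast hn
  have hn0 : (0 : ℝ) < n := by linarith
  have ht0 : 0 < 1 / (n : ℝ) := by positivity
  have ht : 1 / (n : ℝ) ≤ 1 / 2 := one_div_le_one_div_of_le (by norm_num) hn'
  have h1 : (1 + x) ^ n ≤ Real.exp (n * x) := by
    rw [Real.exp_nat_mul]
    exact pow_le_pow_left₀ (by linarith) (by linarith [Real.add_one_le_exp x]) _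
  have h2 : n * x ≤ 1 / 128 := by
    calc n * x ≤ n * (1 / (n : ℝ)) ^ 8 := mul_le_mul_of_nonneg_left hx hn0.le
      _ = (1 / (n : ℝ)) ^ 7 := by field_simp
      _ ≤ (1 / 2) ^ 7 := pow_le_pow_left₀ ht0.le ht 7
      _ = _ := by norm_num
  have h3 : 0 ≤ n * x := by positivity
  have h4 := (abs_le.1 (Real.abs_exp_sub_one_sub_id_le (x := n * x)
    (by rw [abs_of_nonneg h3]; linarith))).2
  nlinarith

end Pool.Agent.Lib.GHE.Lab

namespace Pool.Agent.Lib.GHE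

open Finset Classical Pool.Agent.Lib.GHA Pool.Agent.Lib.GHE.Lab

/-- (R1) the random splitting. -/
theorem stLab (hExp : StExp) : StLab := by
  intro δ ν hδ0 hδ1 hν0 hν1
  refine ⟨min (δ ^ 2) (ν ^ 2) / 64, by positivity, ?_⟩
  intro V _ G d p0 p1 p2 χ hd hn hL hp0 hp1 hp2 hps hχ hc
  set κ : ℝ := min (δ ^ 2) (ν ^ 2) / 64 with hκ
  have hκ1 : 64 * κ ≤ δ ^ 2 := by
    rw [hκ]
    linarith [min_le_left (δ ^ 2) (ν ^ 2)]
  have hκ2 : 64 * κ ≤ ν ^ 2 := by
    rw [hκ]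
    linarith [min_le_right (δ ^ 2) (ν ^ 2)]
  have hn' : (2 : ℝ) ≤ Fintype.card V := by exact_mod_cast hn
  obtain ⟨he1, he2⟩ := num_fin δ ν κ (Fintype.card V) d hκ1 hκ2 hn' (Nat.cast_nonneg d) hL
  set p : Fin 4 → ℝ := ![p0, p1, p2 / 2, p2 / 2] with hpdef
  have hpa : p 0 = p0 := rfl
  have hpb : p 1 = p1 := rfl
  have hpc : p 2 = p2 / 2 := rfl
  have hpd : p 3 = p2 / 2 := rfl
  have hp : ∀ x, 0 ≤ p x := by
    intro x
    fin_cases x
    · exact hp0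
    · exact hν0.le.trans hp1
    · exact div_nonneg hp2 (by norm_num)
    · exact div_nonneg hp2 (by norm_num)
  have hpsum : ∑ x, p x = 1 := by
    rw [Fin.sum_univ_four, hpa, hpb, hpc, hpd]
    linarith
  have hs0 : ∑ y ∈ ({0} : Finset (Fin 4)), p y = p0 := by rw [Finset.sum_singleton, hpa]
  have hs1 : ∑ y ∈ ({1} : Finset (Fin 4)), p y = p1 := by rw [Finset.sum_singleton, hpb]
  have hs2 : ∀ v x : V, ∑ y ∈ SO v x, p y = p2 / 2 := by
    intro v x
    unfold SO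
    split_ifs
    · rw [Finset.sum_singleton, hpc]
    · rw [Finset.sum_singleton, hpd]
  have hs123 : ∑ y ∈ ({1, 2, 3} : Finset (Fin 4)), p y = p1 + p2 := by
    rw [Finset.sum_insert (by decide), Finset.sum_insert (by decide), Finset.sum_singleton,
      hpb, hpc, hpd]
    ring
  have hp01 : p0 ≤ 1 := by linarith
  have hp11 : p1 ≤ 1 := by linarith
  have hp21 : p2 / 2 ≤ 1 := by linarith
  have a1 := YS_Ex hExp p hp hpsum G (fun _ _ => {0}) p0 δ d (fun _ _ => hs0) hp0 hp01 hδ0 hδ1 hd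
  have a2 := YS_Ex hExp p hp hpsum G (fun _ _ => {1}) p1 δ d (fun _ _ => hs1) (by linarith) hp11
    hδ0 hδ1 hd
  have a3 := YS_Ex hExp p hp hpsum G SO (p2 / 2) δ d hs2 (by linarith) hp21 hδ0 hδ1 hd
  have b1 := YP_Ex hExp p hp hpsum G {0} {0} (p0 ^ 2) δ d (by rw [hs0]; ring) hδ0 hδ1 hd
  have b2 := YP_Ex hExp p hp hpsum G {1, 2, 3} {1, 2, 3} ((p1 + p2) ^ 2) δ d
    (by rw [hs123]; ring) hδ0 hδ1 hd
  have b3 := YP_Ex hExp p hp hpsum G {0} {1, 2, 3} (p0 * (p1 + p2)) δ d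
    (by rw [hs0, hs123]) hδ0 hδ1 hd
  have c1 := YC_Ex hExp p hp hpsum G d χ ν hν0 (by rw [hpb]; exact hp1) hχ hc
  rw [hpb] at c1
  have c2 := num_cut (Fintype.card V) hn _ (Real.exp_pos _).le he2
  set Y : (Sym2 V → Fin 4) → ℝ := fun ω => YS G (fun _ _ => {0}) p0 δ d ω
    + (YS G (fun _ _ => {1}) p1 δ d ω + (YS G SO (p2 / 2) δ d ω
    + (YP G {0} {0} (p0 ^ 2) δ d ω + (YP G {1, 2, 3} {1, 2, 3} ((p1 + p2) ^ 2) δ d ω
    + (YP G {0} {1, 2, 3} (p0 * (p1 + p2)) δ d ω + YC G (p1 * χ / 2 * d) ω))))) with hY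
  have hEY : Ex p Y < 1 := by
    rw [hY, Ex_add, Ex_add, Ex_add, Ex_add, Ex_add, Ex_add]
    set n : ℝ := ((Fintype.card V : ℕ) : ℝ) with hndef
    set e : ℝ := Real.exp (-(δ ^ 2 * d / 4)) with hedef
    have hn0 : 0 < n := by linarith
    have ht0 : 0 < 1 / n := by positivity
    have ht : 1 / n ≤ 1 / 2 := one_div_le_one_div_of_le (by norm_num) hn'
    have f1 : n * e ≤ (1 / 2) ^ 15 := by
      calc n * e ≤ n * (1 / n) ^ 16 := mul_le_mul_of_nonneg_left he1 hn0.le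
        _ = (1 / n) ^ 15 := by field_simp
        _ ≤ _ := pow_le_pow_left₀ ht0.le ht 15
    have f2 : n ^ 2 * e ≤ (1 / 2) ^ 14 := by
      calc n ^ 2 * e ≤ n ^ 2 * (1 / n) ^ 16 := mul_le_mul_of_nonneg_left he1 (by positivity)
        _ = (1 / n) ^ 14 := by field_simp
        _ ≤ _ := pow_le_pow_left₀ ht0.le ht 14
    norm_num at f1 f2
    linarith
  obtain ⟨ω, hω⟩ := exists_lt hExp p hp hpsum Y hEY
  rw [hY] at hω
  simp only [] at hω
  have n1 := YS_nonneg G (fun _ _ => {0}) p0 δ d ω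
  have n2 := YS_nonneg G (fun _ _ => {1}) p1 δ d ω
  have n3 := YS_nonneg G SO (p2 / 2) δ d ω
  have n4 := YP_nonneg G {0} {0} (p0 ^ 2) δ d ω
  have n5 := YP_nonneg G {1, 2, 3} {1, 2, 3} ((p1 + p2) ^ 2) δ d ω
  have n6 := YP_nonneg G {0} {1, 2, 3} (p0 * (p1 + p2)) δ d ω
  have n7 := YC_nonneg G (p1 * χ / 2 * d) ω
  refine ⟨LG G ω {0}, LG G ω {1}, O2 G ω, spl G ω, ?_, ?_, ?_, ?_, ?_, ?_, ?_⟩
  · intro v
    have h := YS_good G (fun _ _ => {0}) p0 δ d ω hδ0 (by linarith) v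
    rw [cs_eq] at h
    rw [nb_LG]
    exact h
  · intro v
    have h := YS_good G (fun _ _ => {1}) p1 δ d ω hδ0 (by linarith) v
    rw [cs_eq] at h
    rw [nb_LG]
    exact h
  · intro v
    have h := YS_good G SO (p2 / 2) δ d ω hδ0 (by linarith) v
    rw [cs_eq] at h
    rw [on_O2]
    have h2 : p2 * d / 2 = p2 / 2 * d := by ring
    rw [h2]
    exact h
  · intro u v huv
    have h := YP_good G {0} {0} (p0 ^ 2) δ d ω hδ0 (by linarith) u v huv
    rw [cp_eq] at h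
    rw [nb_LG, nb_LG]
    exact h
  · intro u v huv
    have h := YP_good G {1, 2, 3} {1, 2, 3} ((p1 + p2) ^ 2) δ d ω hδ0 (by linarith) u v huv
    rw [cp_eq] at h
    rw [rn_LG, rn_LG]
    exact h
  · intro u v huv
    have h := YP_good G {0} {1, 2, 3} (p0 * (p1 + p2)) δ d ω hδ0 (by linarith) u v huv
    rw [cp_eq] at h
    rw [nb_LG, rn_LG]
    exact h
  · intro X hX
    exact YC_good G (p1 * χ / 2 * d) ω (by linarith) X hX

end Pool.Agent.Lib.GHE
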