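import Mathlib
import Pool.Agent.Lib.MP_df0165_co.Ex.Stmts

set_option autoImplicit false

/-!
# Exact Graham-Haggkvist for expander hosts: choice of the leaves (A1)
-/

namespace Pool.Agent.Lib.GHE

open Finset Classical Pool.Agent.Lib.GHA

namespace Leaf

variable {U : Type} [Fintype U]

theorem mem_nb' (T : SimpleGraph U) (v x : U) : x ∈ nb T v ↔ T.Adj v x := by
  simp [nb]

/-- In a connected graph with at least three vertices two leaves are not adjacent. -/
theorem no_two (T : SimpleGraph U) (hT : T.Connected) (h3 : 3 ≤ Fintype.card U) (s p : U)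
    (hs : nb T s = {p}) (hp : (nb T p).card = 1) : False := by
  have hsp : T.Adj s p := by
    rw [← mem_nb', hs]; exact mem_singleton_self p
  have hps : s ∈ nb T p := (mem_nb' T p s).2 hsp.symm
  obtain ⟨a, ha⟩ := Finset.card_eq_one.1 hp
  have hp' : nb T p = {s} := by
    rw [ha] at hps ⊢
    rw [mem_singleton.1 hps]
  have key : ∀ x y : U, T.Reachable x y → (x = s ∨ x = p) → (y = s ∨ y = p) := by
    intro x y hxy
    obtain ⟨w⟩ := hxy
    induction w with
    | nil => exact fun h => h
    | cons hadj _ ih =>
      intro h
      apply ih
      rcases h with h | h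
      · right
        have := (mem_nb' T _ _).2 hadj
        rw [h, hs] at this
        exact mem_singleton.1 this
      · left
        have := (mem_nb' T _ _).2 hadj
        rw [h, hp'] at this
        exact mem_singleton.1 this
  have hall : ∀ y : U, y ∈ ({s, p} : Finset U) := by
    intro y
    have := key s y (hT.preconnected s y) (Or.inl rfl)
    simpa using this
  have hle : Fintype.card U ≤ 2 := by
    calc Fintype.card U = (univ : Finset U).card := rfl
      _ ≤ ({s, p} : Finset U).card := Finset.card_le_card (fun y _ => hall y)
      _ ≤ 2 := Finset.card_le_two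
  omega

/-- Removal of pairwise non-adjacent leaves from a tree. -/
theorem isTree_TS (T : SimpleGraph U) (hT : T.IsTree) (S : Finset U) (par : U → U)
    (hS : S.card < Fintype.card U) (h1 : ∀ s ∈ S, nb T s = {par s})
    (h2 : ∀ s ∈ S, par s ∉ S) : (TS T S).IsTree := by
  have hne : Nonempty {u : U // u ∉ S} := by
    by_contra hcon
    rw [not_nonempty_iff] at hcon
    have : ∀ u : U, u ∈ S := by
      intro u
      by_contra hu
      exact hcon.false ⟨u, hu⟩
    have : Fintype.card U ≤ S.card := by
      calc Fintype.card U = (univ : Finset U).card := rfl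
        _ ≤ S.card := Finset.card_le_card (fun y _ => this y)
    omega
  let r : U → {u : U // u ∉ S} := fun u => if h : u ∈ S then ⟨par u, h2 u h⟩ else ⟨u, h⟩
  have hr : ∀ a b : U, T.Adj a b → (TS T S).Reachable (r a) (r b) := by
    intro a b hab
    by_cases ha : a ∈ S
    · have hb : b = par a := by
        have := (mem_nb' T a b).2 hab
        rw [h1 a ha] at this
        exact mem_singleton.1 this
      have hbS : b ∉ S := by rw [hb]; exact h2 a ha
      have : r a = r b := by
        simp only [r, dif_pos ha, dif_neg hbS]
        exact Subtype.ext hb.symm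
      rw [this]
    · by_cases hb : b ∈ S
      · have ha' : a = par b := by
          have := (mem_nb' T b a).2 hab.symm
          rw [h1 b hb] at this
          exact mem_singleton.1 this
        have : r a = r b := by
          simp only [r, dif_pos hb, dif_neg ha]
          exact Subtype.ext ha'
        rw [this]
      · apply SimpleGraph.Adj.reachable
        simp only [r, dif_neg ha, dif_neg hb, TS, SimpleGraph.comap_adj]
        exact hab
  have hreach : ∀ x y : U, T.Reachable x y → (TS T S).Reachable (r x) (r y) := by
    intro x y hxy
    obtain ⟨w⟩ := hxy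
    induction w with
    | nil => exact SimpleGraph.Reachable.refl _
    | cons hadj _ ih => exact (hr _ _ hadj).trans ih
  have hpre : (TS T S).Preconnected := by
    intro x y
    have := hreach x.1 y.1 (hT.connected.preconnected x.1 y.1)
    simpa only [r, dif_neg x.2, dif_neg y.2] using this
  have hac : (TS T S).IsAcyclic := by
    let f : TS T S →g T := ⟨Subtype.val, fun {a b} h => h⟩
    exact SimpleGraph.IsAcyclic.comap f Subtype.val_injective hT.isAcyclic
  exact ⟨⟨hpre⟩, hac⟩

end Leaf

theorem stLeaf : StLeaf := by
  intro U _ T m l hT hcard hm hl hlm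
  obtain ⟨S, hSsub, hScard⟩ := Finset.exists_subset_card_eq hl
  have : Nonempty U := Fintype.card_pos_iff.1 (by omega)
  have h1 : ∀ s ∈ S, ∃ p, nb T s = {p} := by
    intro s hs
    exact Finset.card_eq_one.1 (Finset.mem_filter.1 (hSsub hs)).2
  choose! par hpar using h1
  have h2 : ∀ s ∈ S, par s ∉ S := by
    intro s hs hps
    exact Leaf.no_two T hT.connected (by omega) s (par s) (hpar s hs)
      (Finset.mem_filter.1 (hSsub hps)).2
  exact ⟨S, par, hScard, hpar, h2, Leaf.isTree_TS T hT S par (by omega) hpar h2⟩

end Pool.Agent.Lib.GHE
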