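import Mathlib
import Pool.Agent.Lib.MP_df0165_co.Ex.Stmts

set_option autoImplicit false
set_option linter.unusedSectionVars false

/-!
# Exact Graham-Haggkvist for expander hosts: lower bound for the mass (module Low2)
-/

namespace Pool.Agent.Lib.GHE

open Finset Classical MeasureTheory intervalIntegral Pool.Agent.Lib.GHA

namespace Low2

variable {U V : Type} [Fintype U] [Fintype V]

lemma g0_pos (X : TD V) : 0 < g0 X := by
  unfold g0
  split_ifs <;> norm_num

lemma gi_nonneg (Q : Par2) (lw : U → ℕ) (X : TD V) (φ : U → V) : 0 ≤ gi Q lw X φ := by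
  unfold gi
  split_ifs <;> norm_num

lemma xi_nonneg (X : TD V) (φ : U → V) (τ : U → ℝ) : 0 ≤ xi X φ τ := le_max_left _ _

lemma F2_nonneg (Q : Par2) (T : SimpleGraph U) (lw : U → ℕ) (H : SimpleGraph V) (X : TD V)
    (φ : U → V) (τ : U → ℝ) : 0 ≤ F2 Q T lw H X φ τ :=
  mul_nonneg (mul_nonneg (FF_nonneg T H Q.P.c ∅ univ φ τ) (gi_nonneg Q lw X φ))
    (xi_nonneg X φ τ)

lemma continuous_xi (X : TD V) (φ : U → V) : Continuous (fun τ : U → ℝ => xi X φ τ) := by
  unfold xi exs
  refine continuous_const.max (continuous_const.sub ?_)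
  refine continuous_finsetSum _ (fun u _ => ?_)
  split_ifs
  · exact continuous_apply u
  · exact continuous_const

lemma continuous_F2 (Q : Par2) (T : SimpleGraph U) (lw : U → ℕ) (H : SimpleGraph V) (X : TD V)
    (φ : U → V) : Continuous (F2 Q T lw H X φ) :=
  ((continuous_FF T H Q.P.c ∅ univ φ).mul continuous_const).mul (continuous_xi X φ)

lemma w5_pos (Q : Par2) : 0 < Q.w5 := Real.exp_pos _

/-- the potential is nonnegative -/
lemma phi2_nonneg (hGS : StGS2) (Q : Par2) (T : SimpleGraph U) (lw : U → ℕ) (H : SimpleGraph V)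
    (B : Finset V) (X : TD V) (l : List (U × U)) (D : Finset U) (ψ : U → V) (τ : U → ℝ)
    (hQ : Q.Ok) (hG : Good Q.P H B) (hX : X.Ok Q.P H B) (hI : Inv Q.P T H B l D ψ τ) :
    0 ≤ PHI2 Q T lw H B X l D ψ τ := by
  obtain ⟨⟨a1, a2, a3, a4, a5⟩, -⟩ := hGS U V Q T lw H B X l D ψ τ hQ hG hX hI
  have q1 := Low.w1_pos Q.P
  have q5 := w5_pos Q
  unfold PHI2
  positivity

/-- the case of the empty list -/
lemma nil_case (hGS : StGS2) (hTerm : StTerm) (Q : Par2) (T : SimpleGraph U) (lw : U → ℕ)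
    (H : SimpleGraph V) (B : Finset V) (X : TD V) (v0 : V) (D : Finset U) (ψ : U → V) (τ : U → ℝ)
    (hQ : Q.Ok) (hG : Good Q.P H B) (hX : X.Ok Q.P H B) (hB : B.card ≤ 1)
    (hI : Inv Q.P T H B [] D ψ τ) (hav : ∀ y, y ∉ D.image ψ → 0 ≤ av H D ψ τ y) :
    g0 X * (PP H D ψ τ * (1 - PHI2 Q T lw H B X [] D ψ τ))
      ≤ gm H (F2 Q T lw H X) v0 univ [] D ψ τ := by
  have hD : D = univ := hI.grow
  subst hD
  rw [gm_nil H _ v0 univ ψ τ hI.inj]
  have h1 : (fun u => if u ∈ (univ : Finset U) then ψ u else v0) = ψ := by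
    funext u; simp
  rw [h1]
  have hphi0 := phi2_nonneg hGS Q T lw H B X [] univ ψ τ hQ hG hX hI
  have hgs := (hGS U V Q T lw H B X [] univ ψ τ hQ hG hX hI).2
  have hpp := PP_nonneg H univ ψ τ
  have hg0 := g0_pos X
  have hF := F2_nonneg Q T lw H X ψ τ
  by_cases hphi : PHI2 Q T lw H B X [] univ ψ τ < 1
  · have ht := hTerm U V Q T lw H B X ψ τ hQ hX hB hI hav (hgs hphi)
    refine le_trans ?_ ht
    refine mul_le_mul_of_nonneg_left ?_ hg0.le
    nlinarith
  · have h3 : 1 - PHI2 Q T lw H B X [] univ ψ τ ≤ 0 := by linarith [not_lt.1 hphi]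
    exact (mul_nonpos_of_nonneg_of_nonpos hg0.le
      (mul_nonpos_of_nonneg_of_nonpos hpp h3)).trans hF

/-- the integrand of the recursion -/
noncomputable def SS (Q : Par2) (T : SimpleGraph U) (lw : U → ℕ) (H : SimpleGraph V) (X : TD V)
    (v0 : V) (w p : U) (l : List (U × U)) (D : Finset U) (ψ : U → V) (τ : U → ℝ) (t : ℝ) : ℝ :=
  ∑ y ∈ (D.image ψ)ᶜ, rr H (ψ p) y *
      gm H (F2 Q T lw H X) v0 univ l (insert w D) (Function.update ψ w y) (bump τ p t)

lemma SS_cont (Q : Par2) (T : SimpleGraph U) (lw : U → ℕ) (H : SimpleGraph V) (X : TD V)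
    (v0 : V) (w p : U) (l : List (U × U)) (D : Finset U) (ψ : U → V) (τ : U → ℝ) :
    Continuous (SS Q T lw H X v0 w p l D ψ τ) := by
  apply continuous_finsetSum
  intro y _
  exact continuous_const.mul ((continuous_gm H _ (fun φ => continuous_F2 Q T lw H X φ) v0 univ l
    (insert w D) (Function.update ψ w y)).comp (continuous_bump τ p))

lemma SS_nonneg (Q : Par2) (T : SimpleGraph U) (lw : U → ℕ) (H : SimpleGraph V) (X : TD V)
    (v0 : V) (w p : U) (l : List (U × U)) (D : Finset U) (ψ : U → V) (τ : U → ℝ) (t : ℝ) :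
    0 ≤ SS Q T lw H X v0 w p l D ψ τ t :=
  Finset.sum_nonneg fun _ _ => mul_nonneg (rr_nonneg _ _ _)
    (gm_nonneg H _ (fun φ σ => F2_nonneg Q T lw H X φ σ) _ _ _ _ _ _)

/-- no vertex of `B` is adjacent to anything -/
lemma not_adj_B {P : Par} {H : SimpleGraph V} {B : Finset V} {X : TD V} (hX : X.Ok P H B)
    {v y : V} (hy : y ∈ B) : ¬ H.Adj v y := by
  intro h
  have := hX.iso y hy
  have h2 : v ∈ nb H y := by rw [mem_nb]; exact h.symm
  rw [this] at h2
  exact absurd h2 (Finset.notMem_empty _)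

lemma nb_sdiff {P : Par} {H : SimpleGraph V} {B : Finset V} {X : TD V} (hX : X.Ok P H B)
    (v : V) : nb H v \ B = nb H v := by
  ext y
  rw [Finset.mem_sdiff, mem_nb]
  exact ⟨fun h => h.1, fun h => ⟨h, fun hy => not_adj_B hX hy h⟩⟩

/-- the generator inequality at time `t` -/
lemma gen_ineq (hGA : StGA) (hGT : StGT) (hGE : StGE) (hGO : StGO) (hGS : StGS2)
    (Q : Par2) (T : SimpleGraph U) (lw : U → ℕ) (H : SimpleGraph V) (B : Finset V) (X : TD V)
    (w p : U) (l : List (U × U)) (D : Finset U) (ψ : U → V) (τ : U → ℝ)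
    (hQ : Q.Ok) (hG : Good Q.P H B) (hX : X.Ok Q.P H B) (hlw : ∀ u, lw u ≤ Q.P.Δ)
    (hI : Inv Q.P T H B ((w, p) :: l) D ψ τ) {t : ℝ} (ht : 0 ≤ t)
    (hlt : PHI2 Q T lw H B X ((w, p) :: l) D ψ (bump τ p t) < 1) :
    ∃ f' : ℝ, HasDerivAt (fun s => PHI2 Q T lw H B X ((w, p) :: l) D ψ (bump τ p s)) f' t ∧
      f' + ∑ y ∈ (D.image ψ)ᶜ \ ∅, rr H (ψ p) y / (av H D ψ τ y - t * rr H (ψ p) y) *
          (PHI2 Q T lw H B X l (insert w D) (Function.update ψ w y) (bump τ p t)
            - PHI2 Q T lw H B X ((w, p) :: l) D ψ (bump τ p t)) ≤ 0 := by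
  have hp : p ∈ D := hI.grow.2.1
  have hI' := hI.bump ht
  have hg := (hGS U V Q T lw H B X ((w, p) :: l) D ψ (bump τ p t) hQ hG hX hI').2 hlt
  have hc := hQ.ok.c_pos
  have sA := hGA U V Q.P T H B X w p l D ψ (bump τ p t) hQ.ok hI'
    (fun y h1 h2 => by have := hg.gs.av_ge y h1 h2; linarith)
  have sT := hGT U V Q T lw H B X w p l D ψ (bump τ p t) hQ hG hX hlw hI' hg
  have sE := hGE U V Q T lw H B X w p l D ψ (bump τ p t) hQ hG hX hI' hg
  obtain ⟨sO, s3⟩ := hGO U V Q.P T H B w p l D ψ (bump τ p t) hQ.ok hG hX.iso hI' hg.gs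
  have smul : ∀ (k : ℝ), 0 ≤ k → ∀ {f : ℝ → ℝ} {g : V → ℝ},
      GenA.Sup ((nb H (ψ p) \ B) \ D.image ψ) (fun y => av H D ψ (bump τ p t) y) f g →
      GenA.Sup ((nb H (ψ p) \ B) \ D.image ψ) (fun y => av H D ψ (bump τ p t) y)
        (fun t => k * f t) (fun y => k * g y) := by
    rintro k hk f g ⟨d, hd, hs⟩
    refine ⟨k * d, hd.const_mul k, ?_⟩
    have e : ∑ y ∈ (nb H (ψ p) \ B) \ D.image ψ, 1 / av H D ψ (bump τ p t) y *
        (k * g y - k * f 0) = k * ∑ y ∈ (nb H (ψ p) \ B) \ D.image ψ,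
          1 / av H D ψ (bump τ p t) y * (g y - f 0) := by
      rw [Finset.mul_sum]
      exact Finset.sum_congr rfl (fun y _ => by ring)
    rw [e, ← mul_add]
    exact mul_nonpos_of_nonneg_of_nonpos hk hs
  have key := (((sO.add (smul _ (w5_pos Q).le s3)).add (smul _ (Low.w1_pos Q.P).le sA)).add
    sT).add (smul _ (w5_pos Q).le sE)
  obtain ⟨f', hd, hs⟩ := key
  have hd' : HasDerivAt (fun s => PHI2 Q T lw H B X ((w, p) :: l) D ψ
      (bump (bump τ p t) p s)) f' 0 := hd
  simp only [bump_bump] at hd'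
  refine ⟨f', Low.deriv_shift
    (F := fun s => PHI2 Q T lw H B X ((w, p) :: l) D ψ (bump τ p s)) hd', ?_⟩
  have hav : ∀ y, av H D ψ τ y - t * rr H (ψ p) y = av H D ψ (bump τ p t) y :=
    fun y => (av_bump H D ψ τ hp t y).symm
  simp only [hav]
  rw [Low.sum_out, Finset.sdiff_empty, ← nb_sdiff hX (ψ p)]
  simp only [bump_zero] at hs
  exact hs

end Low2

open Low2 in
theorem stLow2 (hGA : StGA) (hGT : StGT) (hGE : StGE) (hGO : StGO) (hGS : StGS2)
    (hCont : StCont2) (hTerm : StTerm) : StLow2 := by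
  intro U V _ _ Q T lw H B X v0 l
  induction l with
  | nil =>
    intro D ψ τ hQ hG hX hB _ hI hav
    exact nil_case hGS hTerm Q T lw H B X v0 D ψ τ hQ hG hX hB hI hav
  | cons s l ih =>
    obtain ⟨w, p⟩ := s
    intro D ψ τ hQ hG hX hB hlw hI hav
    have hw : w ∉ D := hI.grow.1
    have hp : p ∈ D := hI.grow.2.1
    have hg0 := g0_pos X
    have hgm0 : 0 ≤ gm H (F2 Q T lw H X) v0 univ ((w, p) :: l) D ψ τ :=
      gm_nonneg H _ (fun φ σ => F2_nonneg Q T lw H X φ σ) _ _ _ _ _ _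
    have hSS : gm H (F2 Q T lw H X) v0 univ ((w, p) :: l) D ψ τ
        = ∫ t in (0 : ℝ)..1, SS Q T lw H X v0 w p l D ψ τ t :=
      gm_cons H _ (fun φ => continuous_F2 Q T lw H X φ) v0 univ w p l D ψ τ hw hp
        (Finset.mem_univ _) (Finset.subset_univ _)
    by_cases hphi : PHI2 Q T lw H B X ((w, p) :: l) D ψ τ < 1
    swap
    · have h3' := PP_nonneg H D ψ τ
      have h4' : 1 - PHI2 Q T lw H B X ((w, p) :: l) D ψ τ ≤ 0 := by linarith [not_lt.1 hphi]
      exact (mul_nonpos_of_nonneg_of_nonpos hg0.le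
        (mul_nonpos_of_nonneg_of_nonpos h3' h4')).trans hgm0
    -- the step lemma
    have hXm : ∀ y, y ∈ (D.image ψ)ᶜ ↔ y ∉ D.image ψ := fun y => Finset.mem_compl
    have hgs0 := (hGS U V Q T lw H B X ((w, p) :: l) D ψ τ hQ hG hX hI).2 hphi
    have hP := hQ.ok
    have hex : ∃ y ∈ (D.image ψ)ᶜ, rr H (ψ p) y = 1 := by
      by_contra hcon
      push Not at hcon
      have hpim : ψ p ∈ D.image ψ := Finset.mem_image_of_mem ψ hp
      have hR := hgs0.gs.R_ge (ψ p) hpim
      have e1 : (nb H (ψ p) \ B) \ D.image ψ = ∅ := by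
        rw [Finset.eq_empty_iff_forall_notMem]
        intro y hy
        rw [Finset.mem_sdiff, Finset.mem_sdiff, mem_nb] at hy
        exact hcon y ((hXm y).2 hy.2) (rr_of_adj hy.1.1)
      have e2 : nb H (ψ p) ∩ B = ∅ := by
        rw [Finset.eq_empty_iff_forall_notMem]
        intro y hy
        rw [Finset.mem_inter, mem_nb] at hy
        exact not_adj_B hX hy.2 hy.1
      rw [e1, e2] at hR
      simp only [Finset.sum_empty, Finset.card_empty, Nat.cast_zero, add_zero] at hR
      have g1 := hP.γ_pos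
      have g2 := hP.small
      have g3 : (1 : ℝ) ≤ Q.P.d := by exact_mod_cast hP.d_pos
      have g4 := hP.d1_le
      have g5 := hP.γ_le
      have g6 := hP.d1_pos
      have g7 : Q.P.d1 * Q.P.γ ^ 2 ≤ Q.P.γ := by nlinarith [mul_pos g1 g1]
      have g8 : 0 < Q.P.γ - Q.P.α - Q.P.δ := by linarith
      nlinarith
    have key := stStep V (D.image ψ)ᶜ ∅ (fun x => av H D ψ τ x) (fun x => rr H (ψ p) x)
      (fun t => PHI2 Q T lw H B X ((w, p) :: l) D ψ (bump τ p t))
      (fun y t => PHI2 Q T lw H B X l (insert w D) (Function.update ψ w y) (bump τ p t))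
      (fun t => (g0 X)⁻¹ * SS Q T lw H X v0 w p l D ψ τ t)
      (fun x hx => hav x ((hXm x).1 hx)) (fun x _ => av_le_one hI.nonneg x)
      (fun x => rr_zero_or_one H _ _) hex
      (fun t ht => phi2_nonneg hGS Q T lw H B X ((w, p) :: l) D ψ (bump τ p t) hQ hG hX
          (hI.bump ht.1))
      ((hCont U V Q T lw H B X w p l D ψ τ hp).mono (fun t ht y hy => ht.2 y ((hXm y).2 hy)))
      (continuous_const.mul (SS_cont Q T lw H X v0 w p l D ψ τ))
      (fun t _ => mul_nonneg (inv_nonneg.2 hg0.le) (SS_nonneg Q T lw H X v0 w p l D ψ τ t))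
      (fun t ht hpos hlt => by
        obtain ⟨f', h1, h2⟩ := gen_ineq hGA hGT hGE hGO hGS Q T lw H B X w p l D ψ τ hQ hG hX
          hlw hI ht.1 hlt
        refine ⟨f', h1, ?_⟩
        rw [Finset.inter_empty, Finset.sum_empty, sub_zero]
        exact h2)
      ?_
    · simp only [bump_zero, intervalIntegral.integral_const_mul] at key
      rw [hSS, Low.PP_eq hav]
      have := mul_le_mul_of_nonneg_left key hg0.le
      rwa [mul_inv_cancel_left₀ hg0.ne'] at this
    · intro t ht hpos hlt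
      have hI' := hI.bump ht.1
      have hτw : bump τ p t w = 0 := hI'.zero w hw
      -- the product
      have hprod : ∀ y, PP H (insert w D) (Function.update ψ w y) (bump τ p t)
          = ∏ x ∈ (D.image ψ)ᶜ.erase y, (av H D ψ τ x - t * rr H (ψ p) x) := by
        intro y
        rw [PP_next H ψ hw hτw]
        refine Finset.prod_congr rfl (fun x hx => ?_)
        rw [av_bump H D ψ τ hp]
        exact max_eq_right (hpos x (Finset.mem_of_mem_erase hx)).le
      rw [Finset.inter_empty, Finset.sum_empty, add_zero, Finset.sdiff_empty]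
      unfold SS
      rw [Finset.mul_sum]
      refine Finset.sum_le_sum (fun y hy => ?_)
      rw [hXm] at hy
      rcases rr_zero_or_one H (ψ p) y with hr | hr
      · rw [hr]; simp
      · have hadj : H.Adj (ψ p) y := by
          by_contra h
          rw [rr_of_not_adj h] at hr
          norm_num at hr
        have hyB : y ∉ B := fun h => not_adj_B hX h hadj
        have hn := hI.next ht.1 hy hyB hadj
        have hih := ih (insert w D) (Function.update ψ w y) (bump τ p t) hQ hG hX hB hlw hn (by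
          intro x hx
          rw [av_next H ψ hw hτw, av_bump H D ψ τ hp]
          rw [image_update hw, Finset.mem_insert, not_or] at hx
          exact (hpos x ((hXm x).2 hx.2)).le)
        have := mul_le_mul_of_nonneg_left hih (inv_nonneg.2 hg0.le)
        rw [inv_mul_cancel_left₀ hg0.ne', hprod y] at this
        rw [hr]
        linarith

end Pool.Agent.Lib.GHE
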