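import Mathlib

set_option autoImplicit false

/-!
# Exact Graham-Haggkvist for expander hosts: disjoint perfect matchings

Rows `ι` and columns `κ`, both of size `a`; `b i c` means that the pair `(i, c)` is blocked. If
every row and every column has at most `r` blocked entries and all but `t` pairs of rows have at
most `s` common blocked columns, then there are `k` disjoint perfect matchings without blocked
pairs.
-/

namespace Pool.Agent.Lib.GHX

open Finset Classical

section

variable {ι κ : Type} [Fintype ι] [Fintype κ]

/-- One perfect matching. -/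
theorem exists_matching (b : ι → κ → Prop) (a r s t : ℕ)
    (hι : Fintype.card ι = a) (hκ : Fintype.card κ = a)
    (hr : ∀ i, (univ.filter (fun c => b i c)).card ≤ r)
    (hc : ∀ c, (univ.filter (fun i => b i c)).card ≤ r)
    (hp : (univ.filter (fun p : ι × ι =>
      s < (univ.filter (fun c => b p.1 c ∧ b p.2 c)).card)).card ≤ t)
    (h1 : s + r ≤ a) (h2 : t ≤ (a - r) ^ 2) :
    ∃ f : ι ≃ κ, ∀ i, ¬ b i (f i) := by
  have hall : ∀ S : Finset ι, S.card ≤
      (S.biUnion (fun i => univ.filter (fun c => ¬ b i c))).card := by
    intro S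
    by_contra hcon
    push Not at hcon
    set U := (S.biUnion (fun i => univ.filter (fun c => ¬ b i c)))ᶜ with hU
    have hUc : U.card + (S.biUnion (fun i => univ.filter (fun c => ¬ b i c))).card = a := by
      rw [hU, card_compl, hκ]
      have := card_le_univ (S.biUnion (fun i => univ.filter (fun c => ¬ b i c)))
      rw [hκ] at this
      omega
    have hSa : S.card ≤ a := by
      rw [← hι]
      exact card_le_univ S
    have hbl : ∀ i ∈ S, ∀ c ∈ U, b i c := by
      intro i hi c hcU
      by_contra hb
      rw [hU, mem_compl, mem_biUnion] at hcU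
      exact hcU ⟨i, hi, mem_filter.2 ⟨mem_univ _, hb⟩⟩
    have hSne : S.Nonempty := card_pos.1 (by omega)
    have hUne : U.Nonempty := card_pos.1 (by omega)
    obtain ⟨i, hi⟩ := hSne
    obtain ⟨c, hcU⟩ := hUne
    have hUr : U.card ≤ r := by
      refine le_trans (card_le_card ?_) (hr i)
      intro c' hc'
      exact mem_filter.2 ⟨mem_univ _, hbl i hi c' hc'⟩
    have hSr : S.card ≤ r := by
      refine le_trans (card_le_card ?_) (hc c)
      intro i' hi'
      exact mem_filter.2 ⟨mem_univ _, hbl i' hi' c hcU⟩
    have hSS : S.card * S.card ≤ t := by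
      rw [← card_product]
      refine le_trans (card_le_card ?_) hp
      rintro ⟨i₁, i₂⟩ hp'
      rw [mem_product] at hp'
      rw [mem_filter]
      refine ⟨mem_univ _, ?_⟩
      have h3 : U ⊆ univ.filter (fun c => b i₁ c ∧ b i₂ c) := by
        intro c' hc'
        exact mem_filter.2 ⟨mem_univ _, hbl i₁ hp'.1 c' hc', hbl i₂ hp'.2 c' hc'⟩
      have h4 := card_le_card h3
      simp only
      omega
    have h5 : a - r + 1 ≤ S.card := by omega
    have h6 : (a - r + 1) * (a - r + 1) ≤ S.card * S.card := Nat.mul_le_mul h5 h5
    nlinarith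
  obtain ⟨f, hf, hf'⟩ := (Finset.all_card_le_biUnion_card_iff_exists_injective _).1 hall
  have hbij : Function.Bijective f :=
    (Fintype.bijective_iff_injective_and_card f).2 ⟨hf, by rw [hι, hκ]⟩
  refine ⟨Equiv.ofBijective f hbij, ?_⟩
  intro i
  rw [Equiv.ofBijective_apply]
  exact (mem_filter.1 (hf' i)).2

/-- Disjoint perfect matchings. -/
theorem exists_matchings (b : ι → κ → Prop) (a r s t : ℕ)
    (hι : Fintype.card ι = a) (hκ : Fintype.card κ = a)
    (hr : ∀ i, (univ.filter (fun c => b i c)).card ≤ r)
    (hc : ∀ c, (univ.filter (fun i => b i c)).card ≤ r)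
    (hp : (univ.filter (fun p : ι × ι =>
      s < (univ.filter (fun c => b p.1 c ∧ b p.2 c)).card)).card ≤ t) :
    ∀ k : ℕ, s + r + 3 * (k - 1) ≤ a → t ≤ (a - r - (k - 1)) ^ 2 →
    ∃ f : Fin k → (ι ≃ κ), (∀ j i, ¬ b i (f j i)) ∧ ∀ i j j', f j i = f j' i → j = j' := by
  intro k
  induction k with
  | zero =>
    intro _ _
    exact ⟨fun j => j.elim0, fun j => j.elim0, fun _ j => j.elim0⟩
  | succ k ih =>
    intro h1 h2
    rw [Nat.add_sub_cancel] at h1 h2
    have h3 : (a - r - k) ^ 2 ≤ (a - r - (k - 1)) ^ 2 := Nat.pow_le_pow_left (by omega) 2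
    obtain ⟨f, hf1, hf2⟩ := ih (by omega) (h2.trans h3)
    obtain ⟨b', hb'⟩ : ∃ b' : ι → κ → Prop, ∀ i c, b' i c ↔ (b i c ∨ ∃ j, f j i = c) :=
      ⟨fun i c => b i c ∨ ∃ j, f j i = c, fun _ _ => Iff.rfl⟩
    have hr' : ∀ i, (univ.filter (fun c => b' i c)).card ≤ r + k := by
      intro i
      have hsub : univ.filter (fun c => b' i c) ⊆
          univ.filter (fun c => b i c) ∪ (univ : Finset (Fin k)).image (fun j => f j i) := by
        intro c hc'
        rw [mem_filter] at hc'
        rw [mem_union, mem_filter, mem_image]
        rcases (hb' _ _).1 hc'.2 with h | ⟨j, hj⟩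
        · exact Or.inl ⟨mem_univ _, h⟩
        · exact Or.inr ⟨j, mem_univ _, hj⟩
      calc (univ.filter (fun c => b' i c)).card ≤ _ := card_le_card hsub
        _ ≤ (univ.filter (fun c => b i c)).card +
            ((univ : Finset (Fin k)).image (fun j => f j i)).card := card_union_le _ _
        _ ≤ r + k := by
            have h4 : ((univ : Finset (Fin k)).image (fun j => f j i)).card ≤ k :=
              card_image_le.trans (by simp)
            have := hr i
            omega
    have hc' : ∀ c, (univ.filter (fun i => b' i c)).card ≤ r + k := by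
      intro c
      have hsub : univ.filter (fun i => b' i c) ⊆
          univ.filter (fun i => b i c) ∪ (univ : Finset (Fin k)).image (fun j => (f j).symm c) := by
        intro i hi'
        rw [mem_filter] at hi'
        rw [mem_union, mem_filter, mem_image]
        rcases (hb' _ _).1 hi'.2 with h | ⟨j, hj⟩
        · exact Or.inl ⟨mem_univ _, h⟩
        · exact Or.inr ⟨j, mem_univ _, by rw [← hj, Equiv.symm_apply_apply]⟩
      calc (univ.filter (fun i => b' i c)).card ≤ _ := card_le_card hsub
        _ ≤ (univ.filter (fun i => b i c)).card +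
            ((univ : Finset (Fin k)).image (fun j => (f j).symm c)).card := card_union_le _ _
        _ ≤ r + k := by
            have h4 : ((univ : Finset (Fin k)).image (fun j => (f j).symm c)).card ≤ k :=
              card_image_le.trans (by simp)
            have := hc c
            omega
    have hp' : (univ.filter (fun p : ι × ι =>
        s + 2 * k < (univ.filter (fun c => b' p.1 c ∧ b' p.2 c)).card)).card ≤ t := by
      refine le_trans (card_le_card ?_) hp
      rintro ⟨i₁, i₂⟩ h4
      rw [mem_filter] at h4 ⊢
      refine ⟨mem_univ _, ?_⟩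
      have h5 := h4.2
      simp only at h5 ⊢
      have hsub : univ.filter (fun c => b' i₁ c ∧ b' i₂ c) ⊆
          univ.filter (fun c => b i₁ c ∧ b i₂ c) ∪
          ((univ : Finset (Fin k)).image (fun j => f j i₁) ∪
            (univ : Finset (Fin k)).image (fun j => f j i₂)) := by
        intro c hc'
        rw [mem_filter] at hc'
        rw [mem_union, mem_union, mem_filter, mem_image, mem_image]
        rw [hb', hb'] at hc'
        rcases hc'.2 with ⟨h | ⟨j, hj⟩, h' | ⟨j', hj'⟩⟩
        · exact Or.inl ⟨mem_univ _, h, h'⟩
        · exact Or.inr (Or.inr ⟨j', mem_univ _, hj'⟩)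
        · exact Or.inr (Or.inl ⟨j, mem_univ _, hj⟩)
        · exact Or.inr (Or.inl ⟨j, mem_univ _, hj⟩)
      have h6 := card_le_card hsub
      have h7 := card_union_le (univ.filter (fun c => b i₁ c ∧ b i₂ c))
        ((univ : Finset (Fin k)).image (fun j => f j i₁) ∪
            (univ : Finset (Fin k)).image (fun j => f j i₂))
      have h8 := card_union_le ((univ : Finset (Fin k)).image (fun j => f j i₁))
            ((univ : Finset (Fin k)).image (fun j => f j i₂))
      have h9 : ((univ : Finset (Fin k)).image (fun j => f j i₁)).card ≤ k :=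
        card_image_le.trans (by simp)
      have h10 : ((univ : Finset (Fin k)).image (fun j => f j i₂)).card ≤ k :=
        card_image_le.trans (by simp)
      omega
    obtain ⟨g, hg⟩ := exists_matching b' a (r + k) (s + 2 * k) t hι hκ hr' hc' hp' (by omega)
      (h2.trans (Nat.pow_le_pow_left (by omega) 2))
    refine ⟨Fin.cons g f, ?_, ?_⟩
    · intro j i
      refine Fin.cases ?_ (fun j => ?_) j
      · rw [Fin.cons_zero]
        exact fun h => hg i ((hb' _ _).2 (Or.inl h))
      · rw [Fin.cons_succ]
        exact hf1 j i
    · intro i j j'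
      refine Fin.cases ?_ (fun j => ?_) j
      · refine Fin.cases ?_ (fun j' => ?_) j'
        · intro _
          rfl
        · rw [Fin.cons_zero, Fin.cons_succ]
          intro h
          exact absurd ((hb' _ _).2 (Or.inr ⟨j', h.symm⟩)) (hg i)
      · refine Fin.cases ?_ (fun j' => ?_) j'
        · rw [Fin.cons_zero, Fin.cons_succ]
          intro h
          exact absurd ((hb' _ _).2 (Or.inr ⟨j, h⟩)) (hg i)
        · rw [Fin.cons_succ, Fin.cons_succ]
          intro h
          rw [hf2 i j j' h]

end

end Pool.Agent.Lib.GHX
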