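import Pool.Agent.Lib.MP_df0165_co.Ex.Stmts
import Pool.Agent.Lib.MP_df0165_co.Ex.Hall

set_option autoImplicit false

/-!
# Exact Graham-Haggkvist for expander hosts: the matching lemma (B1)
-/

namespace Pool.Agent.Lib.GHE

open Finset Classical Pool.Agent.Lib.GHA

theorem stMat : StMat := by
  intro R C I _ _ nm ok a hR hC ha hnm hrow hcol hpair
  -- sizes
  obtain ⟨b, hb⟩ : ∃ b : R → C → Prop, ∀ r c, b r c ↔ ¬ ok r c :=
    ⟨fun r c => ¬ ok r c, fun _ _ => Iff.rfl⟩
  set r0 : ℕ := 51 * a / 100 with hr0
  set s0 : ℕ := 26 * a / 100 with hs0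
  set k : ℕ := (a + 15) / 16 with hk
  have hrow' : ∀ r, (univ.filter (fun c => b r c)).card ≤ r0 := by
    intro r
    have h1 := hrow r
    have h2 : (univ.filter (fun c => ok r c)).card + (univ.filter (fun c => ¬ ok r c)).card = a := by
      rw [← hC, ← Finset.card_univ (α := C)]
      exact Finset.card_filter_add_card_filter_not (fun c => ok r c)
    have h3 : 49 * a ≤ 100 * (univ.filter (fun c => ok r c)).card := by
      have : (49 : ℝ) * a ≤ 100 * (univ.filter (fun c => ok r c)).card := by linarith
      exact_mod_cast this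
    have h4 : (univ.filter (fun c => b r c)).card = (univ.filter (fun c => ¬ ok r c)).card := by
      congr 1; ext x; simp [hb]
    rw [h4, hr0, Nat.le_div_iff_mul_le (by norm_num)]
    omega
  have hcol' : ∀ c, (univ.filter (fun r => b r c)).card ≤ r0 := by
    intro c
    have h1 := hcol c
    have h2 : (univ.filter (fun r => ok r c)).card + (univ.filter (fun r => ¬ ok r c)).card = a := by
      rw [← hR, ← Finset.card_univ (α := R)]
      exact Finset.card_filter_add_card_filter_not (fun r => ok r c)
    have h3 : 49 * a ≤ 100 * (univ.filter (fun r => ok r c)).card := by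
      have : (49 : ℝ) * a ≤ 100 * (univ.filter (fun r => ok r c)).card := by linarith
      exact_mod_cast this
    have h4 : (univ.filter (fun r => b r c)).card = (univ.filter (fun r => ¬ ok r c)).card := by
      congr 1; ext x; simp [hb]
    rw [h4, hr0, Nat.le_div_iff_mul_le (by norm_num)]
    omega
  have hpair' : (univ.filter (fun p : R × R =>
      s0 < (univ.filter (fun c => b p.1 c ∧ b p.2 c)).card)).card ≤ a * (a / 8) := by
    have hsub : univ.filter (fun p : R × R =>
        s0 < (univ.filter (fun c => b p.1 c ∧ b p.2 c)).card) ⊆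
        univ.filter (fun p : R × R => nm p.2 = nm p.1) := by
      rintro ⟨r, r'⟩ hp
      rw [mem_filter] at hp ⊢
      refine ⟨mem_univ _, ?_⟩
      by_contra hne
      have h1 := hpair r r' (fun h => hne h.symm)
      have h2 : 100 * (univ.filter (fun c => ¬ ok r c ∧ ¬ ok r' c)).card ≤ 26 * a := by
        have : (100 : ℝ) * (univ.filter (fun c => ¬ ok r c ∧ ¬ ok r' c)).card ≤ 26 * a := by
          linarith
        exact_mod_cast this
      have h3 : (univ.filter (fun c => b r c ∧ b r' c)).card =
          (univ.filter (fun c => ¬ ok r c ∧ ¬ ok r' c)).card := by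
        congr 1; ext x; simp [hb]
      have h4 := hp.2
      simp only at h4
      rw [h3, hs0] at h4
      omega
    refine (card_le_card hsub).trans ?_
    have h5 : (univ.filter (fun p : R × R => nm p.2 = nm p.1)).card =
        ∑ r : R, (univ.filter (fun r' => nm r' = nm r)).card := by
      rw [Finset.card_filter, Fintype.sum_prod_type]
      apply sum_congr rfl
      intro r _
      rw [Finset.card_filter]
    rw [h5]
    calc ∑ r : R, (univ.filter (fun r' => nm r' = nm r)).card ≤ ∑ _r : R, a / 8 := by
          apply sum_le_sum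
          intro r _
          rw [Nat.le_div_iff_mul_le (by norm_num)]
          have := hnm (nm r)
          omega
      _ = a * (a / 8) := by rw [sum_const, card_univ, hR, smul_eq_mul]
  have ha8 : 8 ≤ a := by
    have hne : 0 < Fintype.card R := by omega
    obtain ⟨r⟩ := Fintype.card_pos_iff.1 hne
    have h1 := hnm (nm r)
    have h2 : 0 < (univ.filter (fun r' => nm r' = nm r)).card :=
      card_pos.2 ⟨r, mem_filter.2 ⟨mem_univ _, rfl⟩⟩
    omega
  have hk1 : 16 * (k - 1) < a := by omega
  have hkpos : 1 ≤ k := by omega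
  have hsize : 400 * a ≤ 1000 * (a - r0 - (k - 1)) := by omega
  have hsq : a * (a / 8) ≤ (a - r0 - (k - 1)) ^ 2 := by
    have h1 : 8 * (a * (a / 8)) ≤ a * a := by
      have : 8 * (a / 8) ≤ a := by omega
      calc 8 * (a * (a / 8)) = a * (8 * (a / 8)) := by ring
        _ ≤ a * a := Nat.mul_le_mul_left _ this
    have h2 : (400 * a) * (400 * a) ≤
        (1000 * (a - r0 - (k - 1))) * (1000 * (a - r0 - (k - 1))) := Nat.mul_le_mul hsize hsize
    nlinarith
  obtain ⟨f, hf1, hf2⟩ := GHX.exists_matchings b a r0 s0 (a * (a / 8)) hR hC hrow' hcol' hpair' k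
    (by omega) hsq
  refine ⟨k, fun i => f i, ?_, hkpos, fun i => (f i).bijective, ?_, ?_⟩
  · have h1 : a ≤ 16 * k := by omega
    exact_mod_cast h1
  · intro i r
    have := hf1 i r
    rw [hb, not_not] at this
    exact this
  · intro i j r hij h
    exact hij (hf2 r i j h)

end Pool.Agent.Lib.GHE
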