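import Mathlib
import Pool.Agent.Lib.MP_df0165_co.Ex.Stmts

set_option autoImplicit false

/-!
# Exact Graham-Haggkvist for expander hosts: parameters of the static part
-/

namespace Pool.Agent.Lib.GHE

open Pool.Agent.Lib.GHA

namespace NumS

/-- The polynomial factor of the potential. -/
lemma poly_le (d m n N kA kT : ℝ) (hm : 0 ≤ m) (hmd : m ≤ d) (hdN : d ≤ N) (hN : 4 ≤ N)
    (hn : 0 ≤ n) (hnN : n ≤ N) (hkA : kA ≤ n ^ 3) (hkT : kT ≤ n ^ 3) :
    2 * ((m + 1) * (d + 1) * (d + d ^ 2)) + (2 * d + 2 + d * m) + (m + 2)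
      + (2 * d + 3 + d * m) + 2 * (kA + (kT + 1) * n) + kT ≤ 26 * N ^ 4 := by
  have hd0 : 0 ≤ d := hm.trans hmd
  have hN0 : 0 ≤ N := by linarith
  have hmN : m ≤ N := hmd.trans hdN
  have hN2 : 4 * N ≤ N ^ 2 := by nlinarith
  have hN3 : 4 * N ^ 2 ≤ N ^ 3 := by nlinarith [sq_nonneg N]
  have hN4 : 4 * N ^ 3 ≤ N ^ 4 := by nlinarith [pow_nonneg hN0 3]
  have e1 : (m + 1) * (d + 1) * (d + d ^ 2) ≤ 8 * N ^ 4 := by
    have h1 : m + 1 ≤ 2 * N := by linarith
    have h2 : d + 1 ≤ 2 * N := by linarith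
    have h3 : d + d ^ 2 ≤ 2 * N ^ 2 := by
      have : d ^ 2 ≤ N ^ 2 := pow_le_pow_left₀ hd0 hdN 2
      linarith
    calc (m + 1) * (d + 1) * (d + d ^ 2) ≤ (2 * N) * (2 * N) * (2 * N ^ 2) := by
          refine mul_le_mul (mul_le_mul h1 h2 (by linarith) (by linarith)) h3 (by positivity)
            (by positivity)
      _ = 8 * N ^ 4 := by ring
  have e2 : d * m ≤ N ^ 2 := by
    calc d * m ≤ N * N := mul_le_mul hdN hmN hm hN0
      _ = N ^ 2 := by ring
  have hn3 : n ^ 3 ≤ N ^ 3 := pow_le_pow_left₀ hn hnN 3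
  have e3 : (kT + 1) * n ≤ 2 * N ^ 4 := by
    calc (kT + 1) * n ≤ (N ^ 3 + 1) * N := by
          refine mul_le_mul (by linarith) hnN hn (by positivity)
      _ = N ^ 4 + N := by ring
      _ ≤ 2 * N ^ 4 := by linarith
  linarith

/-- The exponential factor beats the polynomial factor. -/
lemma exp_le (s κ x n : ℝ) (hs : 0 < s) (hx : 0 < x) (hn : 2 ≤ n)
    (hlog : Real.log n ≤ κ * x) (hκs : κ ≤ s / 8) :
    Real.exp (-(s * x)) * n ^ 4 ≤ 4 * κ / s := by
  have hn0 : 0 < n := by linarith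
  have h2 : (1 : ℝ) / 2 ≤ Real.log n := by
    have h3 : Real.log 2 ≤ Real.log n := Real.log_le_log (by norm_num) hn
    have := Real.log_two_gt_d9
    linarith
  have hsx : 0 < s * x := mul_pos hs hx
  have h4 : n ^ 4 = Real.exp (4 * Real.log n) := by
    rw [mul_comm, Real.exp_mul, Real.exp_log hn0]
    norm_cast
  have h5 : κ * x ≤ s / 8 * x := mul_le_mul_of_nonneg_right hκs hx.le
  have h6 : Real.exp (-(s * x)) * n ^ 4 ≤ Real.exp (-(s * x / 2)) := by
    rw [h4, ← Real.exp_add, Real.exp_le_exp]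
    nlinarith
  have h7 : Real.exp (-(s * x / 2)) ≤ 1 / (s * x / 2) := by
    rw [Real.exp_neg, ← one_div]
    refine one_div_le_one_div_of_le (by positivity) ?_
    linarith [Real.add_one_le_exp (s * x / 2)]
  refine h6.trans (h7.trans ?_)
  rw [div_le_div_iff₀ (by positivity) hs]
  have h8 : 1 ≤ 2 * (κ * x) := by linarith
  nlinarith [mul_le_mul_of_nonneg_left h8 hs.le]

end NumS

theorem stNumS : StNumS := by
  intro g β ε hg hg1 hβ hβ1 hε hε1
  set c : ℝ := β / 16 with hc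
  have hc0 : 0 < c := by positivity
  have hc1 : c ≤ 1 / 16 := by rw [hc]; linarith
  set δ : ℝ := c * ε * g ^ 2 / 200 with hδ
  have hδ0 : 0 < δ := by positivity
  have hg2 : g ^ 2 ≤ g := by nlinarith
  have hg21 : g ^ 2 ≤ 1 := by linarith
  have hg20 : 0 < g ^ 2 := by positivity
  -- the two upper bounds for `δ`
  have hδ1 : δ ≤ c * g ^ 2 / 200 := by
    have h1 : c * g ^ 2 * ε ≤ c * g ^ 2 * 1 := mul_le_mul_of_nonneg_left hε1.le (by positivity)
    rw [hδ]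
    linarith
  have hδ2 : δ ≤ ε * g ^ 2 / 200 := by
    have h1 : ε * g ^ 2 * c ≤ ε * g ^ 2 * 1 :=
      mul_le_mul_of_nonneg_left (by linarith) (by positivity)
    rw [hδ]
    linarith
  have hδ3 : δ ≤ ε * g / 200 := by
    have h1 : ε * g ^ 2 ≤ ε * g := mul_le_mul_of_nonneg_left hg2 hε.le
    linarith
  have hδ4 : δ ≤ ε / 200 := by
    have h1 : ε * g ≤ ε * 1 := mul_le_mul_of_nonneg_left hg1.le hε.le
    linarith
  refine ⟨δ / 2, by positivity, ?_, ?_⟩
  · have : 0 < ε * g := by positivity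
    linarith
  intro ε0 hε0 hε01
  set s : ℝ := min (min (δ * (δ * c ^ 3 / 4) / 2) (c * c * g ^ 3 / 16 * c))
    (min (c * c * g ^ 3 / 16 * (β / 8)) (ε * ε * g ^ 2 / 64)) with hs
  have hs0 : 0 < s :=
    lt_min (lt_min (by positivity) (by positivity)) (lt_min (by positivity) (by positivity))
  have hs1 : s ≤ δ * (δ * c ^ 3 / 4) / 2 := (min_le_left _ _).trans (min_le_left _ _)
  have hs2 : s ≤ c * c * g ^ 3 / 16 * c := (min_le_left _ _).trans (min_le_right _ _)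
  have hs3 : s ≤ c * c * g ^ 3 / 16 * (β / 8) := (min_le_right _ _).trans (min_le_left _ _)
  have hs4 : s ≤ ε * ε * g ^ 2 / 64 := (min_le_right _ _).trans (min_le_right _ _)
  set κ : ℝ := min (min (s / 8) (δ / 4)) (ε0 * s * g ^ 4 / 5000) with hκ
  have hκ0 : 0 < κ := lt_min (lt_min (by positivity) (by positivity)) (by positivity)
  have hκ1 : κ ≤ s / 8 := (min_le_left _ _).trans (min_le_left _ _)
  have hκ2 : κ ≤ δ / 4 := (min_le_left _ _).trans (min_le_right _ _)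
  have hκ3 : κ ≤ ε0 * s * g ^ 4 / 5000 := min_le_right _ _
  refine ⟨κ, hκ0, ?_⟩
  intro d m Δ l n γ hm hmd hΔ hn hgn hlog hl hgγ hγ
  have hm' : (1 : ℝ) ≤ m := by exact_mod_cast hm
  have hΔ' : (1 : ℝ) ≤ Δ := by exact_mod_cast hΔ
  have hn' : (2 : ℝ) ≤ n := by exact_mod_cast hn
  have hd0 : (0 : ℝ) < d := by
    by_contra h
    push Not at h
    have h1 : (1 - β) * (d : ℝ) ≤ 0 := mul_nonpos_of_nonneg_of_nonpos (by linarith) h
    linarith
  have hd1 : 1 ≤ d := by exact_mod_cast hd0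
  have hd1' : (1 : ℝ) ≤ d := by exact_mod_cast hd1
  have hmd' : (m : ℝ) ≤ d := by
    have h1 : (1 - β) * (d : ℝ) ≤ 1 * d := mul_le_mul_of_nonneg_right (by linarith) hd0.le
    linarith
  have hγ0 : 0 < γ := lt_of_lt_of_le hg hgγ
  have hx0 : (0 : ℝ) < d / Δ := by positivity
  have hxd : (d : ℝ) / Δ ≤ d := div_le_self hd0.le hΔ'
  set e2 : ℝ := c * c * g ^ 3 / 16 * (d / Δ) with he2
  have he20 : 0 ≤ e2 := by positivity
  set eT : ℝ := ε * g ^ 2 / (64 * Δ) with heT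
  have heT0 : 0 ≤ eT := by positivity
  have heTΔ : eT * Δ = ε * g ^ 2 / 64 := by
    rw [heT]
    field_simp
  have hlog' : Real.log n ≤ κ * (d / Δ) := by
    rw [← mul_div_assoc, le_div_iff₀ (by positivity), mul_comm]
    exact hlog
  have hlog2 : (1 : ℝ) / 2 ≤ Real.log n := by
    have h3 : Real.log 2 ≤ Real.log n := Real.log_le_log (by norm_num) hn'
    have := Real.log_two_gt_d9
    linarith
  have hκd : 1 ≤ 2 * (κ * d) := by
    have : κ * (d / Δ) ≤ κ * d := mul_le_mul_of_nonneg_left hxd hκ0.le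
    linarith
  have hαd : 1 ≤ δ / 2 * d := by
    have : κ * d ≤ δ / 4 * d := mul_le_mul_of_nonneg_right hκ2 hd0.le
    linarith
  let P : Par := { d := d, Δ := Δ, m := m, γ := γ, α := δ, δ := δ, c := c, d1 := c, e2 := e2 }
  let Q : Par2 := { P := P, l := l, eT := eT, dT := ε, d3 := ε }
  have hg2γ : g ^ 2 ≤ γ ^ 2 := pow_le_pow_left₀ hg.le hgγ 2
  have htheta : e2 * ((1 + c) / (γ * d)) * Δ ≤ c * c * γ ^ 2 / 8 := by
    have h1 : e2 * ((1 + c) / (γ * d)) * Δ = c * c * g ^ 3 * (1 + c) / (16 * γ) := by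
      rw [he2]
      field_simp
    rw [h1, div_le_div_iff₀ (by positivity) (by norm_num)]
    have h2 : g ^ 3 ≤ γ ^ 3 := pow_le_pow_left₀ hg.le hgγ 3
    have h3 : g ^ 3 * (1 + c) ≤ γ ^ 3 * 2 := by
      refine mul_le_mul h2 ?_ (by positivity) (by positivity)
      linarith
    calc c * c * g ^ 3 * (1 + c) * 8 = c * c * 8 * (g ^ 3 * (1 + c)) := by ring
      _ ≤ c * c * 8 * (γ ^ 3 * 2) := mul_le_mul_of_nonneg_left h3 (by positivity)
      _ = c * c * γ ^ 2 * (16 * γ) := by ring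
  have htheta1 : e2 * ((1 + c) / (γ * d)) * Δ ≤ 1 / 2 := by
    refine htheta.trans ?_
    have h2 : γ ^ 2 ≤ 1 := pow_le_one₀ hγ0.le hγ
    have h3 : c * c ≤ 1 * 1 := mul_le_mul (by linarith) (by linarith) hc0.le (by norm_num)
    rw [one_mul] at h3
    have h4 : c * c * γ ^ 2 ≤ 1 * 1 := mul_le_mul h3 h2 (by positivity) (by norm_num)
    linarith
  have hPok : P.Ok := by
    refine ⟨hd1, hΔ, ?_, hγ0, hγ, hδ0.le, hδ0, hc0, ?_, hc0, ?_, ?_, he20, ?_⟩
    · change m ≤ d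
      exact_mod_cast hmd'
    · change c ≤ 1 / 8
      linarith
    · change c ≤ 1 / 8
      linarith
    · change 6 * (δ + δ) ≤ c * γ ^ 2
      have h1 : c * g ^ 2 ≤ c * γ ^ 2 := mul_le_mul_of_nonneg_left hg2γ hc0.le
      have h2 : 0 < c * g ^ 2 := by positivity
      linarith
    · exact htheta
  have hQok : Q.Ok := by
    refine ⟨hPok, hl, heT0, hε, hε, hε1.le, ?_⟩
    change 16 * (δ + δ + eT * Δ) ≤ ε * γ ^ 2
    rw [heTΔ]
    have h1 : ε * g ^ 2 ≤ ε * γ ^ 2 := mul_le_mul_of_nonneg_left hg2γ hε.le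
    have h2 : 0 < ε * g ^ 2 := by positivity
    linarith
  refine ⟨Q, rfl, rfl, rfl, rfl, rfl, hQok, ?_, hαd, ?_, le_rfl, le_rfl, ?_⟩
  · change 2 * (δ / 2) ≤ δ
    linarith
  · change δ * d + 1 ≤ ε * d
    have : δ * d ≤ ε / 200 * d := mul_le_mul_of_nonneg_right hδ4 hd0.le
    linarith
  -- the estimate
  intro kA kT hkA hkT
  have hkA' : (kA : ℝ) ≤ (n : ℝ) ^ 3 := by exact_mod_cast hkA
  have hkT' : (kT : ℝ) ≤ (n : ℝ) ^ 3 := by exact_mod_cast hkT
  set E : ℝ := Real.exp (-(s * (d / Δ))) with hE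
  have hE0 : 0 < E := Real.exp_pos _
  have hexp1 : Real.exp 1 ≤ 3 := by
    have := Real.exp_one_lt_d9
    linarith
  have hkey : Real.exp (1 + -(s * (d / Δ))) ≤ 3 * E := by
    rw [Real.exp_add]
    exact mul_le_mul_of_nonneg_right hexp1 hE0.le
  -- the exponentials
  have hw1 : P.w1 ≤ 3 * E := by
    have h1 : P.w1 = Real.exp (-(δ * (δ * c ^ 3 / 4) / 2 * d)) := rfl
    rw [h1]
    have h2 : Real.exp (-(δ * (δ * c ^ 3 / 4) / 2 * d)) ≤ E := by
      rw [hE, Real.exp_le_exp, neg_le_neg_iff]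
      exact mul_le_mul hs1 hxd hx0.le (by positivity)
    linarith
  have hse : s * (d / Δ) ≤ e2 * c := by
    calc s * (d / Δ) ≤ c * c * g ^ 3 / 16 * c * (d / Δ) := mul_le_mul_of_nonneg_right hs2 hx0.le
      _ = e2 * c := by rw [he2]; ring
  have hse' : s * (d / Δ) ≤ e2 * (β / 8) := by
    calc s * (d / Δ) ≤ c * c * g ^ 3 / 16 * (β / 8) * (d / Δ) :=
          mul_le_mul_of_nonneg_right hs3 hx0.le
      _ = e2 * (β / 8) := by rw [he2]; ring
  have hw4 : P.w4 * P.I4 ≤ 3 * E := by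
    have h1 : P.w4 * P.I4 = Real.exp (-(e2 * c)) *
      Real.exp (2 * (e2 * ((1 + c) / (γ * d))) * Δ) := rfl
    rw [h1, ← Real.exp_add]
    refine le_trans ?_ hkey
    rw [Real.exp_le_exp]
    linarith
  have h2 : (γ * (1 + c) * ((1 + c) / (γ * d))) * m ≤ 1 / 2 - β / 8 := by
    have h3 : (γ * (1 + c) * ((1 + c) / (γ * d))) * m = (1 + c) ^ 2 * m / d := by
      field_simp
    rw [h3, div_le_iff₀ hd0]
    calc (1 + c) ^ 2 * m ≤ (1 + c) ^ 2 * ((1 - β) * d / 2) :=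
          mul_le_mul_of_nonneg_left hmd (by positivity)
      _ = ((1 + c) ^ 2 * ((1 - β) / 2)) * d := by ring
      _ ≤ (1 / 2 - β / 8) * d := by
          refine mul_le_mul_of_nonneg_right ?_ hd0.le
          have h4 : (1 + c) ^ 2 * ((1 - β) / 2) =
              1 / 2 - β / 8 - (5 / 16 * β + 31 / 512 * β ^ 2 + β ^ 3 / 512) := by
            rw [hc]
            ring
          have h5 : 0 ≤ 5 / 16 * β + 31 / 512 * β ^ 2 + β ^ 3 / 512 := by positivity
          linarith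
  have h5 : e2 * ((γ * (1 + c) * ((1 + c) / (γ * d))) * m) ≤ e2 * (1 / 2 - β / 8) :=
    mul_le_mul_of_nonneg_left h2 he20
  have hI3 : e2 * (2 * ((1 + c) / (γ * d)) * Δ + (γ * (1 + c) * ((1 + c) / (γ * d))) * m)
      ≤ 1 + e2 * (1 / 2 - β / 8) := by
    have h6 : e2 * (2 * ((1 + c) / (γ * d)) * Δ + (γ * (1 + c) * ((1 + c) / (γ * d))) * m)
        = 2 * (e2 * ((1 + c) / (γ * d)) * Δ)
          + e2 * ((γ * (1 + c) * ((1 + c) / (γ * d))) * m) := by ring
    rw [h6]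
    linarith
  have hw3 : P.w3 * P.I3 ≤ 3 * E := by
    have h1 : P.w3 * P.I3 = Real.exp (-(e2 * (1 - 2 * c))) *
      Real.exp (e2 * (2 * ((1 + c) / (γ * d)) * Δ + (γ * (1 + c) * ((1 + c) / (γ * d))) * m)) :=
      rfl
    rw [h1, ← Real.exp_add]
    refine le_trans ?_ hkey
    rw [Real.exp_le_exp]
    have h6 : e2 * (1 / 2 - β / 8) ≤ e2 * (1 - 2 * c - c) := by
      refine mul_le_mul_of_nonneg_left ?_ he20
      linarith
    have h7 : e2 * (1 - 2 * c - c) = e2 * (1 - 2 * c) - e2 * c := by ring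
    linarith
  have hw5 : Q.w5 * P.I3 ≤ 3 * E := by
    have h1 : Q.w5 * P.I3 = Real.exp (-(e2 / 2)) *
      Real.exp (e2 * (2 * ((1 + c) / (γ * d)) * Δ + (γ * (1 + c) * ((1 + c) / (γ * d))) * m)) :=
      rfl
    rw [h1, ← Real.exp_add]
    refine le_trans ?_ hkey
    rw [Real.exp_le_exp]
    have h7 : e2 * (1 / 2 - β / 8) = e2 / 2 - e2 * (β / 8) := by ring
    linarith
  have hwT : Real.exp (-(eT * (ε * d - 2 * Δ))) ≤ 3 * E := by
    refine le_trans ?_ hkey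
    rw [Real.exp_le_exp]
    have h6 : eT * (ε * d - 2 * Δ) = ε * ε * g ^ 2 / 64 * (d / Δ) - 2 * (eT * Δ) := by
      rw [heT]
      field_simp
    rw [h6, heTΔ]
    have h7 : s * (d / Δ) ≤ ε * ε * g ^ 2 / 64 * (d / Δ) := mul_le_mul_of_nonneg_right hs4 hx0.le
    have h8 : ε * g ^ 2 ≤ 1 * 1 := mul_le_mul hε1.le hg21 hg20.le (by norm_num)
    linarith
  -- the sum
  have hphi : Q.phi kA kT n ≤ 3 * E * (2 * (((m : ℝ) + 1) * (d + 1) * (d + d ^ 2))
      + (2 * d + 2 + d * m) + (m + 2) + (2 * d + 3 + d * m) + 2 * (kA + (kT + 1) * n) + kT) := by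
    have hphi0 : Q.phi kA kT n = P.w1 * (2 * (((m : ℝ) + 1) * (d + 1) * (d + d ^ 2)))
        + P.w3 * P.I3 * (2 * (d : ℝ) + 2 + d * m) + P.w4 * P.I4 * (m + 2)
        + Q.w5 * P.I3 * (2 * d + 3 + d * m) + P.w1 * (2 * (kA + (kT + 1) * n))
        + kT * Real.exp (-(eT * (ε * d - 2 * Δ))) := rfl
    rw [hphi0]
    have a1 := mul_le_mul_of_nonneg_right hw1
      (show 0 ≤ 2 * (((m : ℝ) + 1) * (d + 1) * (d + d ^ 2)) by positivity)
    have a2 := mul_le_mul_of_nonneg_right hw3 (show 0 ≤ 2 * (d : ℝ) + 2 + d * m by positivity)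
    have a3 := mul_le_mul_of_nonneg_right hw4 (show 0 ≤ (m : ℝ) + 2 by positivity)
    have a4 := mul_le_mul_of_nonneg_right hw5 (show 0 ≤ 2 * (d : ℝ) + 3 + d * m by positivity)
    have a5 := mul_le_mul_of_nonneg_right hw1
      (show 0 ≤ 2 * ((kA : ℝ) + (kT + 1) * n) by positivity)
    have a6 := mul_le_mul_of_nonneg_left hwT (show 0 ≤ (kT : ℝ) by positivity)
    linarith
  set N : ℝ := 2 / g * n with hN
  have h2g : 2 ≤ 2 / g := by
    rw [le_div_iff₀ hg]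
    linarith
  have hnN : (n : ℝ) ≤ N := by
    have h6 : 1 * (n : ℝ) ≤ 2 / g * n := mul_le_mul_of_nonneg_right (by linarith) (by linarith)
    linarith
  have hN4 : 4 ≤ N := by
    have h6 : 2 * (2 : ℝ) ≤ 2 / g * n := mul_le_mul h2g hn' (by norm_num) (by positivity)
    linarith
  have hdN : (d : ℝ) ≤ N := by
    have h6 : 2 / g * (g / 2 * d) ≤ 2 / g * n := mul_le_mul_of_nonneg_left hgn (by positivity)
    have h7 : 2 / g * (g / 2 * d) = d := by field_simp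
    linarith
  have hpoly := NumS.poly_le d m n N kA kT (by linarith) hmd' hdN hN4 (by linarith) hnN hkA' hkT'
  have hexp := NumS.exp_le s κ (d / Δ) n hs0 hx0 hn' hlog' hκ1
  have hNn : N ^ 4 = 16 / g ^ 4 * (n : ℝ) ^ 4 := by
    rw [hN]
    field_simp
    norm_num
  calc Q.phi kA kT n ≤ 3 * E * (26 * N ^ 4) :=
        hphi.trans (mul_le_mul_of_nonneg_left hpoly (by positivity))
    _ = 1248 / g ^ 4 * (E * (n : ℝ) ^ 4) := by rw [hNn]; ring
    _ ≤ 1248 / g ^ 4 * (4 * κ / s) := mul_le_mul_of_nonneg_left hexp (by positivity)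
    _ ≤ 1248 / g ^ 4 * (4 * (ε0 * s * g ^ 4 / 5000) / s) := by
        refine mul_le_mul_of_nonneg_left ?_ (by positivity)
        refine div_le_div_of_nonneg_right ?_ hs0.le
        linarith
    _ = 4992 / 5000 * ε0 := by field_simp; norm_num
    _ ≤ ε0 := by linarith

end Pool.Agent.Lib.GHE
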