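import Mathlib
import Pool.Agent.Lib.MP_df0165_co.Ex.Base

set_option autoImplicit false
set_option linter.unusedSectionVars false

/-!
# Exact Graham-Haggkvist for expander hosts: one step of the dynamics
-/

namespace Pool.Agent.Lib.GHE

open Finset Classical Pool.Agent.Lib.GHA

namespace One2

/-- Sums of terms. -/
lemma sumW {Φ ι : Type} [Fintype Φ] (W : Φ → ℝ) (S E : ℝ) (s : Finset ι) (F' : ι → Φ → ℝ)
    (F : ι → ℝ) (h : ∀ i ∈ s, ∑ φ : Φ, W φ * F' i φ ≤ S * (E * F i)) :
    ∑ φ : Φ, W φ * ∑ i ∈ s, F' i φ ≤ S * (E * ∑ i ∈ s, F i) := by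
  calc ∑ φ : Φ, W φ * ∑ i ∈ s, F' i φ = ∑ i ∈ s, ∑ φ : Φ, W φ * F' i φ := by
        simp_rw [Finset.mul_sum]
        exact Finset.sum_comm
    _ ≤ ∑ i ∈ s, S * (E * F i) := Finset.sum_le_sum h
    _ = S * (E * ∑ i ∈ s, F i) := by
        simp_rw [Finset.mul_sum]

lemma addW {Φ : Type} [Fintype Φ] (W : Φ → ℝ) (S E : ℝ) {F' G' : Φ → ℝ} {F G : ℝ}
    (h1 : ∑ φ : Φ, W φ * F' φ ≤ S * (E * F)) (h2 : ∑ φ : Φ, W φ * G' φ ≤ S * (E * G)) :
    ∑ φ : Φ, W φ * (F' φ + G' φ) ≤ S * (E * (F + G)) := by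
  calc ∑ φ : Φ, W φ * (F' φ + G' φ) = ∑ φ : Φ, W φ * F' φ + ∑ φ : Φ, W φ * G' φ := by
        simp_rw [mul_add]
        exact Finset.sum_add_distrib
    _ ≤ S * (E * F) + S * (E * G) := add_le_add h1 h2
    _ = S * (E * (F + G)) := by ring

/-- Multiplication by a nonnegative constant. -/
lemma constW {Φ : Type} [Fintype Φ] (W : Φ → ℝ) (S E k : ℝ) (hk : 0 ≤ k) {F' G' : Φ → ℝ}
    {F G : ℝ} (hF : ∀ φ, F' φ = G' φ * k) (hG : F = G * k)
    (h : ∑ φ : Φ, W φ * G' φ ≤ S * (E * G)) :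
    ∑ φ : Φ, W φ * F' φ ≤ S * (E * F) := by
  calc ∑ φ : Φ, W φ * F' φ = (∑ φ : Φ, W φ * G' φ) * k := by
        rw [Finset.sum_mul]
        exact Finset.sum_congr rfl (fun φ _ => by rw [hF φ]; ring)
    _ ≤ S * (E * G) * k := mul_le_mul_of_nonneg_right h hk
    _ = S * (E * F) := by rw [hG]; ring

end One2

open One2 in
/-- (D6) one step of the dynamics. -/
theorem stOne2 (hTot : StTot) (hW : StW) (hDm : StDm) (hCd : StCd) (hRq : StRq)
    (hRy : StRy) : StOne2 := by
  intro U V _ _ D T H γ γ' W lw A a b K t f hD hT hU hΔ hlw hsum hinj hG hS hnew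
  have hn := hD.n_pos'
  have hd := hD.d_pos'
  have he := hD.e_pos
  have hεlt : D.ε < 1 := by
    obtain ⟨g6, g5, g4, g3, g2, g1⟩ := hD.g6
    have h0 := hD.ε_le
    have h1 := hD.ζ_le_one
    have h2 : D.ζ * D.g ^ 4 ≤ 1 * 1 :=
      mul_le_mul h1 (by linarith) (pow_nonneg hD.g_pos.le _) (by norm_num)
    linarith
  have hSpos : 0 < ∑ φ : U → V, W φ := by
    have h1 := (hTot U V T D.m D.Δ H W D.ε lw D.l hS hT hU hD.m_pos hsum hεlt.le).1.1
    have h2 := hG.sd_pos hD
    exact lt_of_lt_of_le (mul_pos (by linarith) h2) h1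
  have hE1 : 1 ≤ Real.exp (D.e * D.d * D.ζ / D.n) := by
    apply Real.one_le_exp
    have := hD.ζ_pos
    positivity
  have hl : ∀ φ : U → V, ∀ H' : SimpleGraph V, ∀ y,
      nw H' (fun u => (rq lw φ u : ℝ)) y ≤ D.d := by
    intro φ H' y
    have h1 := nw_rq_le H' lw φ y
    have h2 : (∑ x : U, (lw x : ℝ)) = D.l := by exact_mod_cast hsum
    have h3 : (D.l : ℝ) ≤ D.d := by exact_mod_cast hD.l_le
    linarith
  set S := ∑ φ : U → V, W φ with hSdef
  set E := Real.exp (D.e * D.d * D.ζ / D.n) with hEdef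
  -- group 1
  have g1 : ∑ φ : U → V, W φ * ∑ v : V,
      (Real.exp (D.e * ((nb (del T H φ) v).card / γ' - D.d))
        + Real.exp (-(D.e * ((nb (del T H φ) v).card / γ' - D.d))))
      ≤ S * (E * ∑ v : V, (Real.exp (D.e * ((nb H v).card / γ - D.d))
        + Real.exp (-(D.e * ((nb H v).card / γ - D.d))))) := by
    refine sumW W S E univ _ _ (fun v _ => addW W S E ?_ ?_)
    · have h1 := hW U V D T H γ γ' W (fun _ => 1) v hD hT hU hG hS
        (fun u => ⟨zero_le_one, hD.Δ_one⟩)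
        (by rw [nw_one]; exact_mod_cast hG.deg_le v)
      simp only [nw_one] at h1
      refine constW W S E (Real.exp (-(D.e * D.d))) (Real.exp_nonneg _) (fun φ => ?_) ?_ h1
      · rw [← Real.exp_add]; congr 1; ring
      · rw [← Real.exp_add]; congr 1; ring
    · have h1 := hDm U V D T H γ γ' W v hD hT hU hΔ hG hS
      refine constW W S E (Real.exp (D.e * D.d)) (Real.exp_nonneg _) (fun φ => ?_) ?_ h1
      · rw [← Real.exp_add]; congr 1; ring
      · rw [← Real.exp_add]; congr 1; ring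
  -- group 2
  have g2 : ∑ φ : U → V, W φ * ∑ u : V, ∑ v ∈ univ.erase u,
      Real.exp (D.e * (((nb (del T H φ) u ∩ nb (del T H φ) v).card : ℝ) / γ' ^ 2 - D.d))
      ≤ S * (E * ∑ u : V, ∑ v ∈ univ.erase u,
        Real.exp (D.e * (((nb H u ∩ nb H v).card : ℝ) / γ ^ 2 - D.d))) := by
    refine sumW W S E univ _ _ (fun u _ => sumW W S E _ _ _ (fun v hv => ?_))
    have h1 := hCd U V D T H γ γ' W u v hD hT hU hΔ hG hS (Finset.ne_of_mem_erase hv).symm
    refine constW W S E (Real.exp (-(D.e * D.d))) (Real.exp_nonneg _) (fun φ => ?_) ?_ h1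
    · rw [← Real.exp_add]; congr 1; ring
    · rw [← Real.exp_add]; congr 1; ring
  -- group 3
  have g3 : ∑ φ : U → V, W φ * ∑ q : V, ∑ y ∈ univ.erase q,
      Real.exp (D.e * (((nb (del T H φ) q ∩ A y).card : ℝ) / γ' - D.r * D.d))
      ≤ S * (E * ∑ q : V, ∑ y ∈ univ.erase q,
        Real.exp (D.e * (((nb H q ∩ A y).card : ℝ) / γ - D.r * D.d))) := by
    refine sumW W S E univ _ _ (fun q _ => sumW W S E _ _ _ (fun y _ => ?_))
    have h1 := hW U V D T H γ γ' W (fun u => if u ∈ A y then 1 else 0) q hD hT hU hG hS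
      (fun u => by
        split_ifs
        · exact ⟨zero_le_one, hD.Δ_one⟩
        · exact ⟨le_rfl, zero_le_one.trans hD.Δ_one⟩)
      (by
        rw [nw_ind]
        have : (nb H q ∩ A y).card ≤ D.d :=
          (Finset.card_le_card Finset.inter_subset_left).trans (hG.deg_le q)
        exact_mod_cast this)
    simp only [nw_ind] at h1
    refine constW W S E (Real.exp (-(D.e * (D.r * D.d)))) (Real.exp_nonneg _) (fun φ => ?_) ?_ h1
    · rw [← Real.exp_add]; congr 1; ring
    · rw [← Real.exp_add]; congr 1; ring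
  -- compensated terms
  have comp : ∀ (F : (U → V) → ℝ) (x : ℝ),
      ∑ φ : U → V, W φ * Real.exp (F φ) ≤ S * Real.exp (D.e * D.d * D.z / D.n) →
      ∑ φ : U → V, W φ * Real.exp (F φ + (x - D.e * D.d * D.z / D.n)) ≤ S * (E * Real.exp x) := by
    intro F x h
    calc ∑ φ : U → V, W φ * Real.exp (F φ + (x - D.e * D.d * D.z / D.n))
        = (∑ φ : U → V, W φ * Real.exp (F φ)) * Real.exp (x - D.e * D.d * D.z / D.n) := by
          rw [Finset.sum_mul]
          exact Finset.sum_congr rfl (fun φ _ => by rw [Real.exp_add]; ring)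
      _ ≤ S * Real.exp (D.e * D.d * D.z / D.n) * Real.exp (x - D.e * D.d * D.z / D.n) :=
          mul_le_mul_of_nonneg_right h (Real.exp_nonneg _)
      _ = S * (1 * Real.exp x) := by
          rw [mul_assoc, ← Real.exp_add, one_mul]
          congr 2
          ring
      _ ≤ S * (E * Real.exp x) := by gcongr
  -- group 4
  have g4 : ∑ φ : U → V, W φ * ∑ u : V,
      (Real.exp (D.e * (a u + (rq lw φ u - D.l / D.n - D.z * D.d / D.n)))
        + Real.exp (D.e * (b u + (D.l / D.n - rq lw φ u - D.z * D.d / D.n))))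
      ≤ S * (E * ∑ u : V, (Real.exp (D.e * a u) + Real.exp (D.e * b u))) := by
    refine sumW W S E univ _ _ (fun u _ => addW W S E ?_ ?_)
    · have h1 := comp _ (D.e * a u)
        (hRq U V D T H γ γ' W lw u 1 hD hT hU hlw hsum hG hS (Or.inl rfl))
      refine le_of_eq_of_le (Finset.sum_congr rfl (fun φ _ => ?_)) h1
      congr 2
      ring
    · have h1 := comp _ (D.e * b u)
        (hRq U V D T H γ γ' W lw u (-1) hD hT hU hlw hsum hG hS (Or.inr rfl))
      refine le_of_eq_of_le (Finset.sum_congr rfl (fun φ _ => ?_)) h1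
      congr 2
      ring
  -- group 5
  have g5 : ∑ φ : U → V, W φ * ∑ u : V, ∑ y ∈ univ.erase u,
      Real.exp (D.e * (K u y + (rq lw φ u * im1 φ y - D.l / (2 * D.n) - D.z * D.d / D.n)))
      ≤ S * (E * ∑ u : V, ∑ y ∈ univ.erase u, Real.exp (D.e * K u y)) := by
    refine sumW W S E univ _ _ (fun u _ => sumW W S E _ _ _ (fun y hy => ?_))
    have h1 := comp _ (D.e * K u y)
      (hRy U V D T H γ γ' W lw u y hD hT hU hlw hsum hG hS (Finset.ne_of_mem_erase hy).symm)
    refine le_of_eq_of_le (Finset.sum_congr rfl (fun φ _ => ?_)) h1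
    congr 2
    ring
  -- group 6
  have g6 : ∑ φ : U → V, W φ * ∑ c ∈ range t, ∑ y ∈ (univ.image (f c))ᶜ,
      Real.exp (D.e * (nw (del T H φ) (fun u => (rq lw (f c) u : ℝ)) y / γ' - D.k * D.d))
      ≤ S * (E * ∑ c ∈ range t, ∑ y ∈ (univ.image (f c))ᶜ,
        Real.exp (D.e * (nw H (fun u => (rq lw (f c) u : ℝ)) y / γ - D.k * D.d))) := by
    refine sumW W S E _ _ _ (fun c hc => sumW W S E _ _ _ (fun y _ => ?_))
    have h1 := hW U V D T H γ γ' W (fun u => (rq lw (f c) u : ℝ)) y hD hT hU hG hS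
      (fun u => ⟨Nat.cast_nonneg _, by
        exact_mod_cast rq_le hlw (hinj c (Finset.mem_range.1 hc)) u⟩) (hl _ _ _)
    refine constW W S E (Real.exp (-(D.e * (D.k * D.d)))) (Real.exp_nonneg _) (fun φ => ?_) ?_ h1
    · rw [← Real.exp_add]; congr 1; ring
    · rw [← Real.exp_add]; congr 1; ring
  -- the new copy
  have g7 : ∑ φ : U → V, W φ * ∑ y ∈ (univ.image φ)ᶜ,
      Real.exp (D.e * (nw (del T H φ) (fun u => (rq lw φ u : ℝ)) y / γ' - D.k * D.d))
      ≤ S * D.n := by
    rw [hSdef, Finset.sum_mul]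
    refine Finset.sum_le_sum (fun φ _ => ?_)
    by_cases hφ : W φ = 0
    · rw [hφ, zero_mul, zero_mul]
    · refine mul_le_mul_of_nonneg_left ?_ (hS.nonneg φ)
      calc ∑ y ∈ (univ.image φ)ᶜ,
            Real.exp (D.e * (nw (del T H φ) (fun u => (rq lw φ u : ℝ)) y / γ' - D.k * D.d))
          ≤ ∑ y ∈ (univ.image φ)ᶜ, (1 : ℝ) := by
            refine Finset.sum_le_sum (fun y hy => ?_)
            rw [Real.exp_le_one_iff]
            have h1 := hnew φ hφ y (by rwa [Finset.mem_compl] at hy)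
            exact mul_nonpos_of_nonneg_of_nonpos he.le (by linarith)
        _ ≤ D.n := by
            rw [Finset.sum_const, nsmul_eq_mul, mul_one, ← hG.card]
            exact_mod_cast Finset.card_le_univ _
  -- conclusion
  by_contra hcon
  push Not at hcon
  set XI' : (U → V) → ℝ := fun φ =>
    XI D lw A γ' (del T H φ) (fun u => a u + (rq lw φ u - D.l / D.n - D.z * D.d / D.n))
          (fun u => b u + (D.l / D.n - rq lw φ u - D.z * D.d / D.n))
          (fun u y => K u y + (rq lw φ u * im1 φ y - D.l / (2 * D.n) - D.z * D.d / D.n)) (t + 1)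
          (Function.update f t φ) with hXI'
  have hup : ∑ φ : U → V, W φ * XI' φ ≤ S * (E * XI D lw A γ H a b K t f + D.n) := by
    have h6 := addW W S E (addW W S E (addW W S E (addW W S E (addW W S E g1 g2) g3) g4) g5) g6
    have h7 := add_le_add h6 g7
    have e1 : ∀ φ : U → V, XI' φ =
        (∑ v : V, (Real.exp (D.e * ((nb (del T H φ) v).card / γ' - D.d))
          + Real.exp (-(D.e * ((nb (del T H φ) v).card / γ' - D.d))))
        + ∑ u : V, ∑ v ∈ univ.erase u,
          Real.exp (D.e * (((nb (del T H φ) u ∩ nb (del T H φ) v).card : ℝ) / γ' ^ 2 - D.d))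
        + ∑ q : V, ∑ y ∈ univ.erase q,
          Real.exp (D.e * (((nb (del T H φ) q ∩ A y).card : ℝ) / γ' - D.r * D.d))
        + ∑ u : V, (Real.exp (D.e * (a u + (rq lw φ u - D.l / D.n - D.z * D.d / D.n)))
          + Real.exp (D.e * (b u + (D.l / D.n - rq lw φ u - D.z * D.d / D.n))))
        + ∑ u : V, ∑ y ∈ univ.erase u,
          Real.exp (D.e * (K u y + (rq lw φ u * im1 φ y - D.l / (2 * D.n) - D.z * D.d / D.n)))
        + ∑ c ∈ range t, ∑ y ∈ (univ.image (f c))ᶜ,
          Real.exp (D.e * (nw (del T H φ) (fun u => (rq lw (f c) u : ℝ)) y / γ' - D.k * D.d)))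
        + ∑ y ∈ (univ.image φ)ᶜ,
          Real.exp (D.e * (nw (del T H φ) (fun u => (rq lw φ u : ℝ)) y / γ' - D.k * D.d)) := by
      intro φ
      rw [hXI']
      dsimp only
      unfold XI
      dsimp only
      rw [Finset.sum_range_succ, Function.update_self]
      have h8 : ∑ c ∈ range t, ∑ y ∈ (univ.image (Function.update f t φ c))ᶜ,
          Real.exp (D.e * (nw (del T H φ) (fun u => (rq lw (Function.update f t φ c) u : ℝ)) y / γ'
            - D.k * D.d)) = ∑ c ∈ range t, ∑ y ∈ (univ.image (f c))ᶜ,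
          Real.exp (D.e * (nw (del T H φ) (fun u => (rq lw (f c) u : ℝ)) y / γ' - D.k * D.d)) := by
        refine Finset.sum_congr rfl (fun c hc => ?_)
        rw [Function.update_of_ne (Finset.mem_range.1 hc).ne]
      rw [h8, ← add_assoc]
    have e2 := (Finset.sum_congr (s₁ := (Finset.univ : Finset (U → V))) rfl
      (fun φ _ => (congrArg (W φ * ·) (e1 φ)).trans (mul_add _ _ _))).trans
        Finset.sum_add_distrib
    refine (le_of_eq e2).trans (h7.trans (le_of_eq ?_))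
    unfold XI
    ring
  have hlow : S * (E * XI D lw A γ H a b K t f + D.n) < ∑ φ : U → V, W φ * XI' φ := by
    obtain ⟨φ0, hφ0⟩ : ∃ φ0, W φ0 ≠ 0 := by
      by_contra hc
      push Not at hc
      rw [hSdef, Finset.sum_eq_zero (fun φ _ => hc φ)] at hSpos
      exact lt_irrefl _ hSpos
    rw [hSdef, Finset.sum_mul]
    refine Finset.sum_lt_sum (fun φ _ => ?_) ⟨φ0, Finset.mem_univ _, ?_⟩
    · by_cases hφ : W φ = 0
      · rw [hφ, zero_mul, zero_mul]
      · exact mul_le_mul_of_nonneg_left (hcon φ hφ).le (hS.nonneg φ)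
    · exact mul_lt_mul_of_pos_left (hcon φ0 hφ0) (lt_of_le_of_ne (hS.nonneg φ0) (Ne.symm hφ0))
  exact absurd hup (not_le.2 hlow)

end Pool.Agent.Lib.GHE
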