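import Pool.Agent.Lib.MP_df0165_co.Ex.Stmts

set_option autoImplicit false

/-!
# Exact Graham-Haggkvist for expander hosts: orientations (O1), (O2)
-/

namespace Pool.Agent.Lib.GHE

open Finset Classical Pool.Agent.Lib.GHA

namespace OriA

variable {V : Type} [Fintype V]

lemma mem_on (o : V → V → Prop) (u v : V) : v ∈ on o u ↔ o u v := by
  unfold on
  rw [mem_filter]
  exact ⟨fun h => h.2, fun h => ⟨mem_univ _, h⟩⟩

/-- The edges inside `X`, counted through the degrees inside `X`. -/
lemma sum_inside (R : SimpleGraph V) (X : Finset V) :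
    ∑ u ∈ X, (nb R u ∩ X).card =
      2 * (R.edgeFinset.filter (fun e => ∀ x ∈ e, x ∈ X)).card := by
  -- the subgraph of the edges inside `X`
  set R' : SimpleGraph V := SimpleGraph.fromRel (fun x y => R.Adj x y ∧ x ∈ X ∧ y ∈ X) with hR'
  have hadj : ∀ x y, R'.Adj x y ↔ R.Adj x y ∧ x ∈ X ∧ y ∈ X := by
    intro x y
    rw [hR', SimpleGraph.fromRel_adj]
    constructor
    · rintro ⟨_, h | h⟩
      · exact h
      · exact ⟨h.1.symm, h.2.2, h.2.1⟩
    · intro h
      exact ⟨h.1.ne, Or.inl h⟩
  have h1 : R'.edgeFinset = R.edgeFinset.filter (fun e => ∀ x ∈ e, x ∈ X) := by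
    ext e
    induction e using Sym2.ind with
    | _ x y =>
      rw [mem_filter, SimpleGraph.mem_edgeFinset, SimpleGraph.mem_edgeFinset,
        SimpleGraph.mem_edgeSet, SimpleGraph.mem_edgeSet, hadj]
      constructor
      · intro h
        refine ⟨h.1, fun z hz => ?_⟩
        rw [Sym2.mem_iff] at hz
        rcases hz with rfl | rfl
        · exact h.2.1
        · exact h.2.2
      · intro h
        exact ⟨h.1, h.2 x (Sym2.mem_mk_left _ _), h.2 y (Sym2.mem_mk_right _ _)⟩
  have h2 := R'.sum_degrees_eq_twice_card_edges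
  rw [h1] at h2
  rw [← h2, ← sum_subset (subset_univ X)]
  · apply sum_congr rfl
    intro u hu
    rw [← SimpleGraph.card_neighborFinset_eq_degree]
    congr 1
    ext v
    rw [SimpleGraph.mem_neighborFinset, hadj, mem_inter]
    unfold nb
    rw [mem_filter]
    constructor
    · intro h
      exact ⟨h.1.2, hu, h.2⟩
    · intro h
      exact ⟨⟨mem_univ _, h.1⟩, h.2.2⟩
  · intro u _ hu
    rw [← SimpleGraph.card_neighborFinset_eq_degree, card_eq_zero,
      Finset.eq_empty_iff_forall_notMem]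
    intro v hv
    rw [SimpleGraph.mem_neighborFinset, hadj] at hv
    exact hu hv.2.1

end OriA

open OriA in
theorem stOri : StOri := by
  intro V _ R b hsum hX
  -- slots
  set slots : Sym2 V → Finset (Σ v : V, Fin (b v)) := fun e =>
    univ.filter (fun s => s.1 ∈ e) with hslots
  set E := {e : Sym2 V // e ∈ R.edgeFinset} with hE
  have hall : ∀ F : Finset E, F.card ≤ (F.biUnion (fun e => slots e.1)).card := by
    intro F
    set X : Finset V := univ.filter (fun v => ∃ e ∈ F, v ∈ e.1) with hXd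
    have h1 : (F.biUnion (fun e => slots e.1)) = univ.filter (fun s : Σ v : V, Fin (b v) =>
        s.1 ∈ X) := by
      ext s
      rw [mem_biUnion, mem_filter, hXd, mem_filter]
      constructor
      · rintro ⟨e, he, hs⟩
        rw [hslots, mem_filter] at hs
        exact ⟨mem_univ _, mem_univ _, e, he, hs.2⟩
      · rintro ⟨_, _, e, he, hs⟩
        exact ⟨e, he, mem_filter.2 ⟨mem_univ _, hs⟩⟩
    have h2 : (univ.filter (fun s : Σ v : V, Fin (b v) => s.1 ∈ X)).card = ∑ u ∈ X, b u := by
      have h3 : univ.filter (fun s : Σ v : V, Fin (b v) => s.1 ∈ X) =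
          X.sigma (fun v => (univ : Finset (Fin (b v)))) := by
        ext s
        rw [mem_filter, mem_sigma]
        simp
      rw [h3, card_sigma]
      simp
    have h4 : F.card ≤ (R.edgeFinset.filter (fun e => ∀ x ∈ e, x ∈ X)).card := by
      rw [← card_image_of_injective F Subtype.val_injective]
      apply card_le_card
      intro e he
      rw [mem_image] at he
      obtain ⟨e', he', rfl⟩ := he
      rw [mem_filter]
      refine ⟨e'.2, fun x hx => ?_⟩
      rw [hXd, mem_filter]
      exact ⟨mem_univ _, e', he', hx⟩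
    have h5 := hX X
    rw [sum_inside R X] at h5
    rw [h1, h2]
    omega
  obtain ⟨f, hf, hf'⟩ := (Finset.all_card_le_biUnion_card_iff_exists_injective _).1 hall
  -- the chosen tail of an edge
  have htail : ∀ e : E, (f e).1 ∈ e.1 := by
    intro e
    have := hf' e
    rw [hslots, mem_filter] at this
    exact this.2
  have hbij : Function.Bijective f := by
    refine (Fintype.bijective_iff_injective_and_card f).2 ⟨hf, ?_⟩
    rw [Fintype.card_coe, Fintype.card_sigma]
    simp only [Fintype.card_fin]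
    have h1 := sum_inside R univ
    have h2 : (R.edgeFinset.filter (fun e => ∀ x ∈ e, x ∈ (univ : Finset V))) =
        R.edgeFinset := by
      ext e; simp
    rw [h2] at h1
    simp only [inter_univ] at h1
    omega
  refine ⟨fun u v => ∃ h : s(u, v) ∈ R.edgeFinset, (f ⟨s(u, v), h⟩).1 = u, ?_, ?_, ?_⟩
  · rintro u v ⟨h, _⟩
    rwa [SimpleGraph.mem_edgeFinset, SimpleGraph.mem_edgeSet] at h
  · intro u v huv
    have he : s(u, v) ∈ R.edgeFinset := by
      rwa [SimpleGraph.mem_edgeFinset, SimpleGraph.mem_edgeSet]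
    have he' : s(v, u) ∈ R.edgeFinset := by rwa [Sym2.eq_swap]
    have heq : f ⟨s(v, u), he'⟩ = f ⟨s(u, v), he⟩ := by
      congr 1
      exact Subtype.ext Sym2.eq_swap
    have hm := htail ⟨s(u, v), he⟩
    rw [Sym2.mem_iff] at hm
    constructor
    · rintro ⟨_, h1⟩ ⟨_, h2⟩
      rw [heq] at h2
      rw [h2] at h1
      exact huv.ne h1.symm
    · intro h
      rcases hm with h1 | h1
      · exact ⟨he, h1⟩
      · exact absurd ⟨he', by rw [heq]; exact h1⟩ h
  · intro u
    -- the arcs out of `u` correspond to the slots of `u`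
    have h1 : (univ : Finset (Fin (b u))).card = b u := by simp
    rw [← h1]
    set F := Equiv.ofBijective f hbij with hF
    have hFapp : ∀ e, F e = f e := fun e => rfl
    symm
    apply Finset.card_bij (fun (j : Fin (b u)) _ =>
      if h : u ∈ (F.symm ⟨u, j⟩).1 then Sym2.Mem.other h else u)
    · intro j _
      have hfe : f (F.symm ⟨u, j⟩) = ⟨u, j⟩ := by rw [← hFapp, Equiv.apply_symm_apply]
      have hmem : u ∈ (F.symm ⟨u, j⟩).1 := by
        have := htail (F.symm ⟨u, j⟩)
        rwa [hfe] at this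
      rw [dif_pos hmem]
      rw [mem_on]
      have hs : s(u, Sym2.Mem.other hmem) = (F.symm ⟨u, j⟩).1 := Sym2.other_spec hmem
      refine ⟨by rw [hs]; exact (F.symm ⟨u, j⟩).2, ?_⟩
      have : (⟨s(u, Sym2.Mem.other hmem), by rw [hs]; exact (F.symm ⟨u, j⟩).2⟩ : E) =
          F.symm ⟨u, j⟩ := Subtype.ext hs
      rw [this, hfe]
    · intro j _ j' _ hjj
      have hfe : f (F.symm ⟨u, j⟩) = ⟨u, j⟩ := by rw [← hFapp, Equiv.apply_symm_apply]
      have hfe' : f (F.symm ⟨u, j'⟩) = ⟨u, j'⟩ := by rw [← hFapp, Equiv.apply_symm_apply]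
      have hmem : u ∈ (F.symm ⟨u, j⟩).1 := by
        have := htail (F.symm ⟨u, j⟩)
        rwa [hfe] at this
      have hmem' : u ∈ (F.symm ⟨u, j'⟩).1 := by
        have := htail (F.symm ⟨u, j'⟩)
        rwa [hfe'] at this
      rw [dif_pos hmem, dif_pos hmem'] at hjj
      have hs : s(u, Sym2.Mem.other hmem) = (F.symm ⟨u, j⟩).1 := Sym2.other_spec hmem
      have hs' : s(u, Sym2.Mem.other hmem') = (F.symm ⟨u, j'⟩).1 := Sym2.other_spec hmem'
      rw [hjj, hs'] at hs
      have h2 : F.symm ⟨u, j'⟩ = F.symm ⟨u, j⟩ := Subtype.ext hs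
      have h3 := F.symm.injective h2
      simpa using h3.symm
    · intro v hv
      rw [mem_on] at hv
      obtain ⟨he, hfu⟩ := hv
      -- the slot of the edge
      have hex : ∃ j : Fin (b u), f ⟨s(u, v), he⟩ = ⟨u, j⟩ := by
        generalize f ⟨s(u, v), he⟩ = s at hfu
        obtain ⟨a, j⟩ := s
        simp only at hfu
        subst hfu
        exact ⟨j, rfl⟩
      obtain ⟨j, hj⟩ := hex
      refine ⟨j, mem_univ _, ?_⟩
      have hsymm : F.symm ⟨u, j⟩ = ⟨s(u, v), he⟩ := by
        rw [← hj, ← hFapp, Equiv.symm_apply_apply]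
      have hmem : u ∈ (F.symm ⟨u, j⟩).1 := by rw [hsymm]; exact Sym2.mem_mk_left _ _
      rw [dif_pos hmem]
      have hs : s(u, Sym2.Mem.other hmem) = (F.symm ⟨u, j⟩).1 := Sym2.other_spec hmem
      have hs2 : s(u, Sym2.Mem.other hmem) = s(u, v) := by rw [hs, hsymm]
      exact Sym2.congr_right.1 hs2

open OriA in
theorem stOri2 (h : StOri) : StOri2 := by
  intro V _ R b s hsum hb hX
  refine h V R b hsum fun X => ?_
  -- degrees inside and outside
  have hsplit : ∀ Y : Finset V, (∑ u ∈ Y, ((nb R u).card : ℝ)) =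
      ∑ u ∈ Y, ((nb R u ∩ Y).card : ℝ) + ∑ u ∈ Y, ((nb R u \ Y).card : ℝ) := by
    intro Y
    rw [← sum_add_distrib]
    apply sum_congr rfl
    intro u _
    have := Finset.card_inter_add_card_sdiff (nb R u) Y
    exact_mod_cast this.symm
  -- the cut is symmetric
  have hcut : ∀ Y : Finset V, (∑ u ∈ Y, ((nb R u \ Y).card : ℝ)) =
      ∑ u ∈ Yᶜ, ((nb R u \ Yᶜ).card : ℝ) := by
    intro Y
    have e1 : ∀ (Z : Finset V) (u : V), ((nb R u \ Z).card : ℝ) =
        ∑ v ∈ Zᶜ, if R.Adj u v then (1 : ℝ) else 0 := by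
      intro Z u
      rw [← Finset.sum_filter, Finset.sum_const, nsmul_eq_mul, mul_one]
      congr 2
      ext v
      unfold nb
      simp only [mem_sdiff, mem_filter, mem_univ, true_and, mem_compl]
      exact and_comm
    simp only [e1]
    rw [sum_comm, compl_compl]
    apply sum_congr rfl
    intro u _
    apply sum_congr rfl
    intro v _
    by_cases huv : R.Adj u v
    · rw [if_pos huv, if_pos huv.symm]
    · rw [if_neg huv, if_neg fun h => huv h.symm]
  have hsumR : (∑ v : V, ((nb R v).card : ℝ)) = 2 * ∑ v : V, (b v : ℝ) := by exact_mod_cast hsum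
  have hzero : ∑ v : V, ((b v : ℝ) - (nb R v).card / 2) = 0 := by
    rw [sum_sub_distrib, ← sum_div, hsumR]
    ring
  have hdev : ∀ Y : Finset V, |∑ v ∈ Y, ((b v : ℝ) - (nb R v).card / 2)| ≤ s * Y.card := by
    intro Y
    calc |∑ v ∈ Y, ((b v : ℝ) - (nb R v).card / 2)| ≤
          ∑ v ∈ Y, |(b v : ℝ) - (nb R v).card / 2| := abs_sum_le_sum_abs _ _
      _ ≤ ∑ _v ∈ Y, s := sum_le_sum fun v _ => hb v
      _ = s * Y.card := by rw [sum_const, nsmul_eq_mul, mul_comm]
  -- the deviation on `X` is at most half of the cut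
  have hmain : -(∑ v ∈ X, ((b v : ℝ) - (nb R v).card / 2)) ≤
      (∑ u ∈ X, ((nb R u \ X).card : ℝ)) / 2 := by
    by_cases hc : 2 * X.card ≤ Fintype.card V
    · have h1 := hX X hc
      have h2 := (abs_le.1 (hdev X)).1
      linarith
    · have hc' : 2 * (Xᶜ).card ≤ Fintype.card V := by
        rw [card_compl]
        have := card_le_univ X
        omega
      have h1 := hX Xᶜ hc'
      have h2 := (abs_le.1 (hdev Xᶜ)).2
      rw [← hcut X] at h1
      have h3 : ∑ v ∈ X, ((b v : ℝ) - (nb R v).card / 2) =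
          -(∑ v ∈ Xᶜ, ((b v : ℝ) - (nb R v).card / 2)) := by
        have := sum_add_sum_compl X (fun v => (b v : ℝ) - (nb R v).card / 2)
        rw [hzero] at this
        linarith
      linarith
  have h4 := hsplit X
  have h5 : ∑ v ∈ X, ((b v : ℝ) - (nb R v).card / 2) =
      ∑ v ∈ X, (b v : ℝ) - (∑ u ∈ X, ((nb R u).card : ℝ)) / 2 := by
    rw [sum_sub_distrib, ← sum_div]
  have h6 : (∑ u ∈ X, ((nb R u ∩ X).card : ℝ)) ≤ 2 * ∑ u ∈ X, (b u : ℝ) := by
    rw [h5] at hmain
    linarith
  exact_mod_cast h6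

end Pool.Agent.Lib.GHE
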