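import Pool.Agent.Lib.MP_df0165_co.Ex.Stmts
import Pool.Agent.Lib.MP_df0165_co.Ap.Root
import Pool.Agent.Lib.MP_df0165_co.Ap.GrowEx

set_option autoImplicit false
set_option linter.unusedSectionVars false

/-!
# Exact Graham-Haggkvist: the mass rooted at a dart as a sum of weights
-/

namespace Pool.Agent.Lib.GHE

open Finset Classical Pool.Agent.Lib.GHA

namespace RootS

variable {U : Type}

/-- `LI` commutes with constant factors. -/
theorem LI_mul_const (F : (U → ℝ) → ℝ) (k : ℝ) :
    ∀ (l : List U) (τ : U → ℝ), LI l (fun σ => F σ * k) τ = LI l F τ * k := by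
  intro l
  induction l with
  | nil => intro τ; rfl
  | cons q l ih =>
    intro τ
    simp only [LI]
    simp_rw [ih]
    rw [intervalIntegral.integral_mul_const]

end RootS

theorem stRootSum : StRootSum := by
  intro U V _ _ T H c v0 χ a b l z y _ hab hl hzy
  rw [Root.gm_univ H (fun φ τ => FF T H c ∅ univ φ τ * χ φ) v0 a b hab.ne l z y]
  apply Finset.sum_congr rfl
  intro φ _
  rw [RootS.LI_mul_const (FF T H c ∅ univ φ) (χ φ)]
  by_cases h : φ a = z ∧ φ b = y
  · rw [if_pos h]
    by_cases hφ : Function.Injective φ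
    · rw [if_pos ⟨hφ, h⟩]
      have hadj : H.Adj (φ a) (φ b) := by rw [h.1, h.2]; exact hzy
      rw [← mul_assoc, Root.use_aux stCount T H c a b hab l hl φ hφ hadj]
    · rw [if_neg (fun h' => hφ h'.1)]
      unfold WW
      rw [if_neg (fun h' => hφ h'.1), zero_mul]
  · rw [if_neg h, if_neg (fun h' => h h'.2)]

end Pool.Agent.Lib.GHE
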