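import Pool.Agent.Lib.MP_df0165_co.Ex.Stmts

set_option autoImplicit false
set_option linter.unusedSectionVars false

/-!
# Requests: terms of type `D4`
-/

namespace Pool.Agent.Lib.GHE

open Finset Classical Pool.Agent.Lib.GHA

namespace Rq

variable {U V : Type} [Fintype U] [Fintype V]

lemma rq_le {lw : U → ℕ} {φ : U → V} {u : V} {Δ : ℕ} (hlw : ∀ x, lw x ≤ Δ)
    (hφ : Function.Injective φ) : rq lw φ u ≤ Δ := by
  unfold rq
  by_cases h : ∃ x, φ x = u
  · obtain ⟨x, hx⟩ := h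
    rw [Finset.sum_eq_single x, if_pos hx]
    · exact hlw x
    · intro b _ hb
      rw [if_neg]
      intro h1
      exact hb (hφ (h1.trans hx.symm))
    · intro h1
      exact absurd (Finset.mem_univ x) h1
  · push Not at h
    rw [Finset.sum_eq_zero]
    · exact Nat.zero_le _
    · intro x _
      rw [if_neg (h x)]

/-- the pointwise bound -/
lemma point {W e s X l n Δ : ℝ} (hW : 0 ≤ W) (he : 0 < e) (hs : s = 1 ∨ s = -1) (hX0 : 0 ≤ X)
    (hX : X ≤ Δ) (heΔ : e * Δ ≤ 1) :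
    W * Real.exp (s * e * (X - l / n)) ≤
      Real.exp (-(s * e * l / n)) * (W + s * e * (W * X) + e * Δ * (e * (W * X))) := by
  have h1 : Real.exp (s * e * (X - l / n)) =
      Real.exp (-(s * e * l / n)) * Real.exp (s * e * X) := by
    rw [← Real.exp_add]
    congr 1
    ring
  have heX : e * X ≤ 1 := (mul_le_mul_of_nonneg_left hX he.le).trans heΔ
  have heX0 : 0 ≤ e * X := by positivity
  have h2 : |s * e * X| ≤ 1 := by
    rcases hs with rfl | rfl
    · rw [one_mul, abs_of_nonneg heX0]; exact heX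
    · rw [show (-1 : ℝ) * e * X = -(e * X) by ring, abs_neg, abs_of_nonneg heX0]; exact heX
  have h3 := abs_le.1 (Real.abs_exp_sub_one_sub_id_le h2)
  have hs2 : s ^ 2 = 1 := by rcases hs with rfl | rfl <;> norm_num
  have h4 : Real.exp (s * e * X) ≤ 1 + s * e * X + e * Δ * (e * X) := by
    have h5 : (s * e * X) ^ 2 = (e * X) * (e * X) := by
      calc (s * e * X) ^ 2 = s ^ 2 * ((e * X) * (e * X)) := by ring
        _ = _ := by rw [hs2, one_mul]
    have h6 : (e * X) * (e * X) ≤ (e * Δ) * (e * X) :=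
      mul_le_mul_of_nonneg_right (mul_le_mul_of_nonneg_left hX he.le) heX0
    linarith [h3.2]
  rw [h1]
  have h7 : W * (Real.exp (-(s * e * l / n)) * Real.exp (s * e * X)) =
      Real.exp (-(s * e * l / n)) * (W * Real.exp (s * e * X)) := by ring
  rw [h7]
  refine mul_le_mul_of_nonneg_left ?_ (Real.exp_pos _).le
  calc W * Real.exp (s * e * X) ≤ W * (1 + s * e * X + e * Δ * (e * X)) :=
        mul_le_mul_of_nonneg_left h4 hW
    _ = _ := by ring

/-- the arithmetic of the first moment -/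
lemma arith {S M e s l n d Δ γ g z ζ ε α deg : ℝ} (he : 0 < e) (hs : s = 1 ∨ s = -1)
    (hn : 0 < n) (hd : 0 < d) (hl0 : 0 ≤ l) (hl : l ≤ d) (hΔ : 0 ≤ Δ) (hg : 0 < g) (hg1 : g ≤ 1)
    (hgγ : g ≤ γ) (hγ1 : γ ≤ 1) (hζ : 0 < ζ) (hζz : ζ ≤ z)
    (heΔ : e * Δ ≤ ζ * g ^ 6 / 1000) (hε0 : 0 ≤ ε) (hε : ε ≤ ζ * g ^ 4 / 1000) (hα0 : 0 ≤ α)
    (hα : α ≤ z * g ^ 2 / 100) (hz1 : z ≤ 1) (hdeg : deg ≤ d) (hlo : (γ - α) * d ≤ deg)
    (hhi : deg ≤ (γ + α) * d) (hS1 : (1 - ε) * (γ * (n * d)) ≤ S) (hS2 : S ≤ γ * (n * d))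
    (hM1 : (1 - ε) * (l * deg) ≤ M) (hM2 : M ≤ l * deg) (hM0 : 0 ≤ M) :
    S + s * e * M + e * Δ * (e * M) ≤ S * (1 + (s * e * l / n + e * d * z / n)) := by
  have hγ : 0 < γ := hg.trans_le hgγ
  have hz : 0 < z := hζ.trans_le hζz
  have hg2 : g ^ 2 ≤ g := by nlinarith
  have hg4 : g ^ 4 ≤ g := by
    calc g ^ 4 = g * g ^ 3 := by ring
      _ ≤ g * 1 := mul_le_mul_of_nonneg_left (pow_le_one₀ hg.le hg1) hg.le
      _ = g := mul_one g
  have hg6 : g ^ 6 ≤ g := by
    calc g ^ 6 = g * g ^ 5 := by ring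
      _ ≤ g * 1 := mul_le_mul_of_nonneg_left (pow_le_one₀ hg.le hg1) hg.le
      _ = g := mul_one g
  have a1 : α ≤ z * g / 100 := by
    refine hα.trans ?_
    have := mul_le_mul_of_nonneg_left hg2 hz.le
    linarith
  have a2 : ε ≤ z * g / 1000 := by
    refine hε.trans ?_
    have h1 : ζ * g ^ 4 ≤ z * g := mul_le_mul hζz hg4 (by positivity) hz.le
    linarith
  have a3 : e * Δ ≤ z * g / 1000 := by
    refine heΔ.trans ?_
    have h1 : ζ * g ^ 6 ≤ z * g := mul_le_mul hζz hg6 (by positivity) hz.le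
    linarith
  have hε1 : ε ≤ 1 / 1000 := by
    have : z * g ≤ 1 * 1 := mul_le_mul hz1 hg1 hg.le zero_le_one
    linarith
  -- the two bounds for the difference of the first moments
  have hSl1 : (1 - ε) * γ * d * l ≤ S * l / n := by
    rw [le_div_iff₀ hn]
    have := mul_le_mul_of_nonneg_right hS1 hl0
    calc (1 - ε) * γ * d * l * n = (1 - ε) * (γ * (n * d)) * l := by ring
      _ ≤ S * l := this
  have hSl2 : S * l / n ≤ γ * d * l := by
    rw [div_le_iff₀ hn]
    have := mul_le_mul_of_nonneg_right hS2 hl0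
    calc S * l ≤ γ * (n * d) * l := this
      _ = γ * d * l * n := by ring
  have hld : 0 ≤ l * d := by positivity
  have d1 : M - S * l / n ≤ l * d * (α + ε) := by
    have h1 : M ≤ l * ((γ + α) * d) := hM2.trans (mul_le_mul_of_nonneg_left hhi hl0)
    have h2 : ε * γ ≤ ε := by nlinarith
    have h3 := mul_le_mul_of_nonneg_left h2 hld
    nlinarith
  have d2 : S * l / n - M ≤ l * d * (α + ε) := by
    have h1 : (1 - ε) * (l * ((γ - α) * d)) ≤ M :=
      (mul_le_mul_of_nonneg_left (mul_le_mul_of_nonneg_left hlo hl0) (by linarith)).trans hM1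
    have h2 : ε * γ ≤ ε := by nlinarith
    have h3 := mul_le_mul_of_nonneg_left h2 hld
    have h4 : 0 ≤ ε * α := by positivity
    have h5 := mul_nonneg hld h4
    nlinarith
  have d3 : s * (M - S * l / n) ≤ l * d * (α + ε) := by
    rcases hs with rfl | rfl
    · rw [one_mul]; exact d1
    · linarith
  -- the second moment
  have q1 : e * Δ * M ≤ z * g / 1000 * (l * d) := by
    have h1 : M ≤ l * d := hM2.trans (mul_le_mul_of_nonneg_left hdeg hl0)
    exact mul_le_mul a3 h1 hM0 (by positivity)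
  -- the right side
  have hdd : l * d ≤ d * d := mul_le_mul_of_nonneg_right hl hd.le
  have r1 : (1 - ε) * γ * (d * d) * z ≤ S * (d * z / n) := by
    have h1 := mul_le_mul_of_nonneg_right hS1 (show 0 ≤ d * z / n by positivity)
    calc (1 - ε) * γ * (d * d) * z = (1 - ε) * (γ * (n * d)) * (d * z / n) := by
          field_simp
      _ ≤ _ := h1
  have r2 : g / 2 * (d * d) * z ≤ (1 - ε) * γ * (d * d) * z := by
    have h1 : g / 2 ≤ (1 - ε) * γ := by nlinarith
    exact mul_le_mul_of_nonneg_right (mul_le_mul_of_nonneg_right h1 (by positivity)) hz.le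
  have key : s * (M - S * l / n) + e * Δ * M ≤ S * (d * z / n) := by
    have h1 : l * d * (α + ε) + z * g / 1000 * (l * d) ≤ g / 2 * (d * d) * z := by
      have h2 : α + ε + z * g / 1000 ≤ g / 2 * z := by
        have : 0 < z * g := by positivity
        linarith
      calc l * d * (α + ε) + z * g / 1000 * (l * d) = l * d * (α + ε + z * g / 1000) := by ring
        _ ≤ l * d * (g / 2 * z) := mul_le_mul_of_nonneg_left h2 hld
        _ ≤ d * d * (g / 2 * z) := mul_le_mul_of_nonneg_right hdd (by positivity)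
        _ = _ := by ring
    linarith
  have := mul_le_mul_of_nonneg_left key he.le
  calc S + s * e * M + e * Δ * (e * M)
      = S + e * (s * (M - S * l / n) + e * Δ * M) + s * e * (S * l / n) := by ring
    _ ≤ S + e * (S * (d * z / n)) + s * e * (S * l / n) := by linarith
    _ = _ := by ring

end Rq

/-- (D4) -/
theorem stRq (hTot : StTot) : StRq := by
  intro U V _ _ D T H γ γ' W lw u s hD hT hU hlw hl hGD hW hs
  have hd : (0 : ℝ) < D.d := by exact_mod_cast (Nat.lt_of_lt_of_le Nat.zero_lt_one hD.d_pos)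
  have hn : (0 : ℝ) < D.n := by exact_mod_cast (Nat.lt_of_lt_of_le Nat.zero_lt_one hD.n_pos)
  have hgγ : D.g ≤ γ := by
    have h1 := hGD.g_le
    have h2 := hGD.next
    have h3 : 0 ≤ 2 * (D.m : ℝ) / (D.n * D.d) := by positivity
    linarith
  have hg := hD.g_pos
  have hz : 0 < D.z := hD.ζ_pos.trans_le hD.ζ_le
  have hg61 : D.g ^ 6 ≤ 1 := pow_le_one₀ hg.le hD.g_le
  have hg41 : D.g ^ 4 ≤ 1 := pow_le_one₀ hg.le hD.g_le
  have hζ1 : D.ζ ≤ 1 := hD.ζ_le.trans hD.z_le
  have hε1 : D.ε ≤ 1 := by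
    have h1 := hD.ε_le
    have h2 : D.ζ * D.g ^ 4 ≤ 1 * 1 :=
      mul_le_mul hζ1 hg41 (by positivity) zero_le_one
    linarith
  have heΔ1 : D.e * D.Δ ≤ 1 := by
    have h1 := hD.e_le
    have h2 : D.ζ * D.g ^ 6 ≤ 1 * 1 :=
      mul_le_mul hζ1 hg61 (by positivity) zero_le_one
    linarith
  obtain ⟨t1, -, t3, -⟩ := hTot U V T D.m D.Δ H W D.ε lw D.l hW hT hU hD.m_pos hl hε1
  obtain ⟨t3a, t3b⟩ := t3 u
  have hM : ∑ φ : U → V, W φ * (rq lw φ u : ℝ) = ∑ φ : U → V, W φ * (rq lw φ u : ℝ) := rfl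
  set S := ∑ φ : U → V, W φ with hSdef
  set M := ∑ φ : U → V, W φ * (rq lw φ u : ℝ) with hMdef
  have hM0 : 0 ≤ M := Finset.sum_nonneg fun φ _ => mul_nonneg (hW.nonneg φ) (Nat.cast_nonneg _)
  have h1 : ∑ φ : U → V, W φ * Real.exp (s * D.e * (rq lw φ u - D.l / D.n)) ≤
      Real.exp (-(s * D.e * D.l / D.n)) * (S + s * D.e * M + D.e * D.Δ * (D.e * M)) := by
    have h2 : ∀ φ : U → V, W φ * Real.exp (s * D.e * (rq lw φ u - D.l / D.n)) ≤
        Real.exp (-(s * D.e * D.l / D.n)) * (W φ + s * D.e * (W φ * (rq lw φ u : ℝ)) +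
          D.e * D.Δ * (D.e * (W φ * (rq lw φ u : ℝ)))) := by
      intro φ
      by_cases h0 : W φ = 0
      · rw [h0]; simp
      · have h3 : ((rq lw φ u : ℕ) : ℝ) ≤ D.Δ := by
          exact_mod_cast Rq.rq_le hlw (hW.hom φ h0).1
        exact Rq.point (hW.nonneg φ) hD.e_pos hs (Nat.cast_nonneg _) h3 heΔ1
    refine (Finset.sum_le_sum fun φ _ => h2 φ).trans_eq ?_
    rw [← Finset.mul_sum, Finset.sum_add_distrib, Finset.sum_add_distrib, ← Finset.mul_sum,
      ← Finset.mul_sum, ← Finset.mul_sum]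
  have hsd := hGD.sum
  rw [hsd] at t1
  have h4 := Rq.arith (S := S) (M := M) (e := D.e) (s := s) (l := D.l) (n := D.n) (d := D.d)
    (Δ := D.Δ) (γ := γ) (g := D.g) (z := D.z) (ζ := D.ζ) (ε := D.ε) (α := D.α)
    (deg := (nb H u).card) hD.e_pos hs hn hd (Nat.cast_nonneg _) (by exact_mod_cast hD.l_le)
    (Nat.cast_nonneg _) hg hD.g_le hgγ hGD.γ_le hD.ζ_pos hD.ζ_le hD.e_le hD.ε_nonneg hD.ε_le
    hD.α_nonneg hD.α_le hD.z_le (by exact_mod_cast hGD.deg_le u) (hGD.deg_lo u) (hGD.deg_hi u)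
    t1.1 t1.2 t3a t3b hM0
  have hS0 : 0 ≤ S := Finset.sum_nonneg fun φ _ => hW.nonneg φ
  have h5 : S * (1 + (s * D.e * D.l / D.n + D.e * D.d * D.z / D.n)) ≤
      S * Real.exp (s * D.e * D.l / D.n + D.e * D.d * D.z / D.n) := by
    refine mul_le_mul_of_nonneg_left ?_ hS0
    have := Real.add_one_le_exp (s * D.e * D.l / D.n + D.e * D.d * D.z / D.n)
    linarith
  refine h1.trans ((mul_le_mul_of_nonneg_left (h4.trans h5) (Real.exp_pos _).le).trans_eq ?_)
  rw [mul_left_comm, ← Real.exp_add]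
  congr 2
  ring

end Pool.Agent.Lib.GHE
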