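import Pool.Agent.Lib.MP_df0165_co.Ex.Stmts

set_option autoImplicit false
set_option linter.unusedSectionVars false

/-!
# Requests of the copies containing a vertex: terms of type `D5`
-/

namespace Pool.Agent.Lib.GHE

open Finset Classical Pool.Agent.Lib.GHA

namespace Ry

variable {U V : Type} [Fintype U] [Fintype V]

lemma rq_le {lw : U → ℕ} {φ : U → V} {u : V} {Δ : ℕ} (hlw : ∀ x, lw x ≤ Δ)
    (hφ : Function.Injective φ) : rq lw φ u ≤ Δ := by
  unfold rq
  by_cases h : ∃ x, φ x = u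
  · obtain ⟨x, hx⟩ := h
    rw [Finset.sum_eq_single x, if_pos hx]
    · exact hlw x
    · intro b _ hb
      rw [if_neg]
      intro h1
      exact hb (hφ (h1.trans hx.symm))
    · intro h1
      exact absurd (Finset.mem_univ x) h1
  · push Not at h
    rw [Finset.sum_eq_zero]
    · exact Nat.zero_le _
    · intro x _
      rw [if_neg (h x)]

/-- the pointwise bound -/
lemma point {W e X t Δ : ℝ} (hW : 0 ≤ W) (he : 0 < e) (hX0 : 0 ≤ X)
    (hX : X ≤ Δ) (heΔ : e * Δ ≤ 1) :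
    W * Real.exp (e * (X - t)) ≤
      Real.exp (-(e * t)) * (W + e * (W * X) + e * Δ * (e * (W * X))) := by
  have h1 : Real.exp (e * (X - t)) = Real.exp (-(e * t)) * Real.exp (e * X) := by
    rw [← Real.exp_add]
    congr 1
    ring
  have heX : e * X ≤ 1 := (mul_le_mul_of_nonneg_left hX he.le).trans heΔ
  have heX0 : 0 ≤ e * X := by positivity
  have h2 : |e * X| ≤ 1 := by rw [abs_of_nonneg heX0]; exact heX
  have h3 := abs_le.1 (Real.abs_exp_sub_one_sub_id_le h2)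
  have h4 : Real.exp (e * X) ≤ 1 + e * X + e * Δ * (e * X) := by
    have h5 : (e * X) ^ 2 = (e * X) * (e * X) := by ring
    have h6 : (e * X) * (e * X) ≤ (e * Δ) * (e * X) :=
      mul_le_mul_of_nonneg_right (mul_le_mul_of_nonneg_left hX he.le) heX0
    linarith [h3.2]
  rw [h1]
  have h7 : W * (Real.exp (-(e * t)) * Real.exp (e * X)) =
      Real.exp (-(e * t)) * (W * Real.exp (e * X)) := by ring
  rw [h7]
  refine mul_le_mul_of_nonneg_left ?_ (Real.exp_pos _).le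
  calc W * Real.exp (e * X) ≤ W * (1 + e * X + e * Δ * (e * X)) :=
        mul_le_mul_of_nonneg_left h4 hW
    _ = _ := by ring

/-- the arithmetic of the first moment -/
lemma arith {S M e l n d Δ γ g z ζ ε α deg : ℝ} (he : 0 < e)
    (hn : 0 < n) (hd : 1 ≤ d) (hl0 : 0 ≤ l) (hl : l ≤ d) (hΔ : 1 ≤ Δ) (hg : 0 < g) (hg1 : g ≤ 1)
    (hgγ : g ≤ γ) (hγ1 : γ ≤ 1) (hζ : 0 < ζ) (hζz : ζ ≤ z)
    (heΔ : e * Δ ≤ ζ * g ^ 6 / 1000) (hΔd : Δ ≤ ζ * g ^ 6 * d / 1000)
    (hε0 : 0 ≤ ε) (hε : ε ≤ ζ * g ^ 4 / 1000) (hα0 : 0 ≤ α)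
    (hα : α ≤ z * g ^ 2 / 100) (hz1 : z ≤ 1) (hdeg : deg ≤ d)
    (hhi : deg ≤ (γ + α) * d) (hS1 : (1 - ε) * (γ * (n * d)) ≤ S)
    (hM2 : M ≤ l * ((1 / 2 + ε) * deg + 1)) (hM0 : 0 ≤ M) :
    S + e * M + e * Δ * (e * M) ≤ S * (1 + (e * (l / (2 * n)) + e * d * z / n)) := by
  have hγ : 0 < γ := hg.trans_le hgγ
  have hz : 0 < z := hζ.trans_le hζz
  have hd0 : 0 < d := by linarith
  have hg2 : g ^ 2 ≤ g := by nlinarith
  have hg4 : g ^ 4 ≤ g := by
    calc g ^ 4 = g * g ^ 3 := by ring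
      _ ≤ g * 1 := mul_le_mul_of_nonneg_left (pow_le_one₀ hg.le hg1) hg.le
      _ = g := mul_one g
  have hg6 : g ^ 6 ≤ g := by
    calc g ^ 6 = g * g ^ 5 := by ring
      _ ≤ g * 1 := mul_le_mul_of_nonneg_left (pow_le_one₀ hg.le hg1) hg.le
      _ = g := mul_one g
  have hzg : 0 < z * g := by positivity
  have hzg1 : z * g ≤ 1 := by
    have : z * g ≤ 1 * 1 := mul_le_mul hz1 hg1 hg.le zero_le_one
    linarith
  have a1 : α ≤ z * g / 100 := by
    refine hα.trans ?_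
    have := mul_le_mul_of_nonneg_left hg2 hz.le
    linarith
  have a2 : ε ≤ z * g / 1000 := by
    refine hε.trans ?_
    have h1 : ζ * g ^ 4 ≤ z * g := mul_le_mul hζz hg4 (by positivity) hz.le
    linarith
  have a36 : ζ * g ^ 6 ≤ z * g := mul_le_mul hζz hg6 (by positivity) hz.le
  have a3 : e * Δ ≤ z * g / 1000 := by
    refine heΔ.trans ?_
    linarith
  have a4 : 1 ≤ z * g / 1000 * d := by
    have h1 : ζ * g ^ 6 * d ≤ z * g * d := mul_le_mul_of_nonneg_right a36 hd0.le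
    linarith
  have hε1 : ε ≤ 1 / 1000 := by linarith
  have hα1 : α ≤ 1 := by linarith
  have hld : 0 ≤ l * d := by positivity
  -- the first moment
  have m1 : M ≤ l * ((1 / 2 + ε) * ((γ + α) * d) + z * g / 1000 * d) := by
    refine hM2.trans (mul_le_mul_of_nonneg_left (add_le_add ?_ a4) hl0)
    exact mul_le_mul_of_nonneg_left hhi (by linarith)
  have m2 : M ≤ 2 * (l * d) := by
    have h1 : (1 / 2 + ε) * deg ≤ (1 / 2 + ε) * d := mul_le_mul_of_nonneg_left hdeg (by linarith)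
    have h2 : (1 / 2 + ε) * deg + 1 ≤ 2 * d := by nlinarith
    calc M ≤ l * ((1 / 2 + ε) * deg + 1) := hM2
      _ ≤ l * (2 * d) := mul_le_mul_of_nonneg_left h2 hl0
      _ = _ := by ring
  have s1 : (1 - ε) * γ * d * l / 2 ≤ S * (l / (2 * n)) := by
    have h1 := mul_le_mul_of_nonneg_right hS1 (show 0 ≤ l / (2 * n) by positivity)
    calc (1 - ε) * γ * d * l / 2 = (1 - ε) * (γ * (n * d)) * (l / (2 * n)) := by
          field_simp
      _ ≤ _ := h1
  have d1 : M - S * (l / (2 * n)) ≤ l * d * (α / 2 + 5 / 2 * ε + z * g / 1000) := by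
    have h2 : ε * γ ≤ ε := by nlinarith
    have h3 : ε * α ≤ ε := by nlinarith
    have h4 := mul_le_mul_of_nonneg_left h2 hld
    have h5 := mul_le_mul_of_nonneg_left h3 hld
    nlinarith
  -- the second moment
  have q1 : e * Δ * M ≤ z * g / 1000 * (2 * (l * d)) :=
    mul_le_mul a3 m2 hM0 (by positivity)
  -- the right side
  have hdd : l * d ≤ d * d := mul_le_mul_of_nonneg_right hl hd0.le
  have r1 : (1 - ε) * γ * (d * d) * z ≤ S * (d * z / n) := by
    have h1 := mul_le_mul_of_nonneg_right hS1 (show 0 ≤ d * z / n by positivity)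
    calc (1 - ε) * γ * (d * d) * z = (1 - ε) * (γ * (n * d)) * (d * z / n) := by
          field_simp
      _ ≤ _ := h1
  have r2 : g / 2 * (d * d) * z ≤ (1 - ε) * γ * (d * d) * z := by
    have h1 : g / 2 ≤ (1 - ε) * γ := by nlinarith
    exact mul_le_mul_of_nonneg_right (mul_le_mul_of_nonneg_right h1 (by positivity)) hz.le
  have key : (M - S * (l / (2 * n))) + e * Δ * M ≤ S * (d * z / n) := by
    have h1 : l * d * (α / 2 + 5 / 2 * ε + z * g / 1000) + z * g / 1000 * (2 * (l * d)) ≤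
        g / 2 * (d * d) * z := by
      have h2 : α / 2 + 5 / 2 * ε + z * g / 1000 + 2 * (z * g / 1000) ≤ g / 2 * z := by
        linarith
      calc l * d * (α / 2 + 5 / 2 * ε + z * g / 1000) + z * g / 1000 * (2 * (l * d))
          = l * d * (α / 2 + 5 / 2 * ε + z * g / 1000 + 2 * (z * g / 1000)) := by ring
        _ ≤ l * d * (g / 2 * z) := mul_le_mul_of_nonneg_left h2 hld
        _ ≤ d * d * (g / 2 * z) := mul_le_mul_of_nonneg_right hdd (by positivity)
        _ = _ := by ring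
    linarith
  have := mul_le_mul_of_nonneg_left key he.le
  calc S + e * M + e * Δ * (e * M)
      = S + e * ((M - S * (l / (2 * n))) + e * Δ * M) + e * (S * (l / (2 * n))) := by ring
    _ ≤ S + e * (S * (d * z / n)) + e * (S * (l / (2 * n))) := by linarith
    _ = _ := by ring

end Ry

/-- (D5) -/
theorem stRy (hTot : StTot) : StRy := by
  intro U V _ _ D T H γ γ' W lw u y hD hT hU hlw hl hGD hW huy
  have hd : (1 : ℝ) ≤ D.d := by exact_mod_cast hD.d_pos
  have hn : (0 : ℝ) < D.n := by exact_mod_cast (Nat.lt_of_lt_of_le Nat.zero_lt_one hD.n_pos)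
  have hgγ : D.g ≤ γ := by
    have h1 := hGD.g_le
    have h2 := hGD.next
    have h3 : 0 ≤ 2 * (D.m : ℝ) / (D.n * D.d) := by positivity
    linarith
  have hg := hD.g_pos
  have hz : 0 < D.z := hD.ζ_pos.trans_le hD.ζ_le
  have hg61 : D.g ^ 6 ≤ 1 := pow_le_one₀ hg.le hD.g_le
  have hg41 : D.g ^ 4 ≤ 1 := pow_le_one₀ hg.le hD.g_le
  have hζ1 : D.ζ ≤ 1 := hD.ζ_le.trans hD.z_le
  have hε1 : D.ε ≤ 1 := by
    have h1 := hD.ε_le
    have h2 : D.ζ * D.g ^ 4 ≤ 1 * 1 :=
      mul_le_mul hζ1 hg41 (by positivity) zero_le_one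
    linarith
  have heΔ1 : D.e * D.Δ ≤ 1 := by
    have h1 := hD.e_le
    have h2 : D.ζ * D.g ^ 6 ≤ 1 * 1 :=
      mul_le_mul hζ1 hg61 (by positivity) zero_le_one
    linarith
  obtain ⟨t1, -, -, t4⟩ := hTot U V T D.m D.Δ H W D.ε lw D.l hW hT hU hD.m_pos hl hε1
  have t4' := t4 u y huy
  have him : ∀ φ : U → V, im1 φ y = 0 ∨ im1 φ y = 1 := by
    intro φ
    unfold im1
    split_ifs
    · exact Or.inr rfl
    · exact Or.inl rfl
  have hX0 : ∀ φ : U → V, 0 ≤ (rq lw φ u : ℝ) * im1 φ y := by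
    intro φ
    rcases him φ with h | h <;> rw [h]
    · simp
    · rw [mul_one]; exact Nat.cast_nonneg _
  set S := ∑ φ : U → V, W φ with hSdef
  set M := ∑ φ : U → V, W φ * ((rq lw φ u : ℝ) * im1 φ y) with hMdef
  have hM0 : 0 ≤ M := Finset.sum_nonneg fun φ _ => mul_nonneg (hW.nonneg φ) (hX0 φ)
  have h1 : ∑ φ : U → V, W φ * Real.exp (D.e * (rq lw φ u * im1 φ y - D.l / (2 * D.n))) ≤
      Real.exp (-(D.e * (D.l / (2 * D.n)))) * (S + D.e * M + D.e * D.Δ * (D.e * M)) := by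
    have h2 : ∀ φ : U → V, W φ * Real.exp (D.e * (rq lw φ u * im1 φ y - D.l / (2 * D.n))) ≤
        Real.exp (-(D.e * (D.l / (2 * D.n)))) * (W φ + D.e * (W φ * ((rq lw φ u : ℝ) * im1 φ y)) +
          D.e * D.Δ * (D.e * (W φ * ((rq lw φ u : ℝ) * im1 φ y)))) := by
      intro φ
      by_cases h0 : W φ = 0
      · rw [h0]; simp
      · have h3 : ((rq lw φ u : ℕ) : ℝ) ≤ D.Δ := by
          exact_mod_cast Ry.rq_le hlw (hW.hom φ h0).1
        have h4 : (rq lw φ u : ℝ) * im1 φ y ≤ D.Δ := by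
          rcases him φ with h | h <;> rw [h]
          · rw [mul_zero]; exact Nat.cast_nonneg _
          · rw [mul_one]; exact h3
        exact Ry.point (hW.nonneg φ) hD.e_pos (hX0 φ) h4 heΔ1
    refine (Finset.sum_le_sum fun φ _ => h2 φ).trans_eq ?_
    rw [← Finset.mul_sum, Finset.sum_add_distrib, Finset.sum_add_distrib, ← Finset.mul_sum,
      ← Finset.mul_sum, ← Finset.mul_sum]
  have hsd := hGD.sum
  rw [hsd] at t1
  have h4 := Ry.arith (S := S) (M := M) (e := D.e) (l := D.l) (n := D.n) (d := D.d)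
    (Δ := D.Δ) (γ := γ) (g := D.g) (z := D.z) (ζ := D.ζ) (ε := D.ε) (α := D.α)
    (deg := (nb H u).card) hD.e_pos hn hd (Nat.cast_nonneg _) (by exact_mod_cast hD.l_le)
    (by exact_mod_cast hD.Δ_pos) hg hD.g_le hgγ hGD.γ_le hD.ζ_pos hD.ζ_le hD.e_le hD.Δ_le
    hD.ε_nonneg hD.ε_le hD.α_nonneg hD.α_le hD.z_le (by exact_mod_cast hGD.deg_le u)
    (hGD.deg_hi u) t1.1 t4' hM0
  have hS0 : 0 ≤ S := Finset.sum_nonneg fun φ _ => hW.nonneg φ
  have h5 : S * (1 + (D.e * (D.l / (2 * D.n)) + D.e * D.d * D.z / D.n)) ≤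
      S * Real.exp (D.e * (D.l / (2 * D.n)) + D.e * D.d * D.z / D.n) := by
    refine mul_le_mul_of_nonneg_left ?_ hS0
    have := Real.add_one_le_exp (D.e * (D.l / (2 * D.n)) + D.e * D.d * D.z / D.n)
    linarith
  refine h1.trans ((mul_le_mul_of_nonneg_left (h4.trans h5) (Real.exp_pos _).le).trans_eq ?_)
  rw [mul_left_comm, ← Real.exp_add]
  congr 2
  ring

end Pool.Agent.Lib.GHE
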