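import Pool.Agent.Lib.MP_df0165_co.Ex.Stmts

set_option autoImplicit false
set_option linter.unusedSectionVars false

/-!
# Exact Graham-Haggkvist for expander hosts: the weights of the good copies (S12)
-/

namespace Pool.Agent.Lib.GHE

open Finset Classical Pool.Agent.Lib.GHA

namespace St2m

variable {U V : Type} [Fintype U] [Fintype V]

lemma gi_nonneg (Q : Par2) (lw : U → ℕ) (X : TD V) (φ : U → V) : 0 ≤ gi Q lw X φ := by
  unfold gi
  split_ifs <;> norm_num

lemma gi_le_one (Q : Par2) (lw : U → ℕ) (X : TD V) (φ : U → V) : gi Q lw X φ ≤ 1 := by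
  unfold gi
  split_ifs <;> norm_num

lemma cov_nonneg (T : SimpleGraph U) (φ : U → V) (x y : V) : 0 ≤ cov T φ x y := by
  unfold cov
  split_ifs <;> norm_num

lemma WG_nonneg (Q : Par2) (T : SimpleGraph U) (lw : U → ℕ) (H : SimpleGraph V) (X : TD V)
    (φ : U → V) : 0 ≤ WG Q T lw H X φ :=
  mul_nonneg (WtP.WW_nonneg T H _ φ) (gi_nonneg Q lw X φ)

lemma WG_le (Q : Par2) (T : SimpleGraph U) (lw : U → ℕ) (H : SimpleGraph V) (X : TD V)
    (φ : U → V) : WG Q T lw H X φ ≤ WW T H Q.P.c φ :=
  mul_le_of_le_one_right (WtP.WW_nonneg T H _ φ) (gi_le_one Q lw X φ)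

lemma phi_nonneg (Q : Par2) (kA kT n : ℕ) : 0 ≤ Q.phi kA kT n := by
  unfold Par2.phi Par.phi0 Par2.w5 Par.w1 Par.w3 Par.w4 Par.K1 Par.I3 Par.I4
  positivity

lemma F2_empty (Q : Par2) (T : SimpleGraph U) (lw : U → ℕ) (H : SimpleGraph V)
    (As : Finset (Finset V)) (Ts : Finset (Finset V × ℝ × V)) :
    F2 Q T lw H ⟨As, Ts, ∅⟩ = fun φ τ => FF T H Q.P.c ∅ univ φ τ * gi Q lw ⟨As, Ts, ∅⟩ φ := by
  funext φ τ
  unfold F2 xi exs
  simp

lemma nb_iso (H : SimpleGraph V) (v x : V) (hx : x ≠ v) :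
    nb (iso H v) x = (nb H x).erase v := by
  ext y
  rw [mem_nb, Finset.mem_erase, mem_nb]
  constructor
  · rintro ⟨h1, -, h3⟩
    exact ⟨h3, h1⟩
  · rintro ⟨h3, h1⟩
    exact ⟨h1, hx, h3⟩

lemma nb_iso_self (H : SimpleGraph V) (v : V) : nb (iso H v) v = ∅ := by
  ext y
  rw [mem_nb]
  constructor
  · rintro ⟨-, h2, -⟩
    exact absurd rfl h2
  · intro h
    exact absurd h (Finset.notMem_empty _)

lemma nb_iso_sub (H : SimpleGraph V) (v x : V) : nb (iso H v) x ⊆ nb H x := by
  intro y hy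
  rw [mem_nb] at hy ⊢
  exact hy.1

end St2m

open St2m in
theorem stSt2 (hLow : StLow2) (hInit : StInit2) (hRoot : StRootSum) (hIso : StIso) : StSt2 := by
  intro U V _ _ Q T lw H As Ts hQ hT hcard hm hdegT hlw hlsum hdeg hdegge hcod hAs hTs hTs2
  have hWt := wtThm U V T H Q.P.c Q.P.m Q.P.Δ hQ.ok.c_pos hT hcard hm hdegT
  have hc := hQ.ok.c_pos
  set X0 : TD V := ⟨As, Ts, ∅⟩ with hX0
  set ε : ℝ := Q.phi As.card Ts.card (Fintype.card V) with hε
  have hε0 : 0 ≤ ε := phi_nonneg Q _ _ _
  have hgood0 : Good Q.P H ∅ := by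
    refine ⟨hdeg, fun v _ => ?_, fun u v _ _ huv => hcod u v huv⟩
    have := hdegge v
    linarith
  have hok0 : X0.Ok Q.P H ∅ := by
    refine ⟨hAs, fun t ht => (hTs t ht).1, fun t ht => (hTs t ht).2, hTs2, fun q _ => ?_,
      fun v hv => absurd hv (Finset.notMem_empty _)⟩
    rw [hX0]
    simp only [Finset.inter_empty, Finset.card_empty, Nat.cast_zero]
    have h1 := hQ.ok.α_nonneg
    positivity
  -- the growth lists
  have hgrow := (stGrowEx U T hT).1
  -- the sums rooted at a dart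
  have hsum : ∀ (χ : (U → V) → ℝ) (a b : U) (l : List (U × U)) (z y : V), T.Adj a b →
      Grow T {a, b} l univ → H.Adj z y →
      gm H (fun φ τ => FF T H Q.P.c ∅ univ φ τ * χ φ) z univ l {a, b} (rt z a b z y)
        (fun _ => 0) = ∑ φ : U → V, if φ a = z ∧ φ b = y then WW T H Q.P.c φ * χ φ else 0 :=
    fun χ a b l z y hab hl hzy => hRoot U V T H Q.P.c z χ a b l z y hc hab hl hzy
  -- upper bound
  have hhi : ∀ a b z y, T.Adj a b → H.Adj z y →
      ∑ φ : U → V, (if φ a = z ∧ φ b = y then WG Q T lw H X0 φ else 0) ≤ 1 := by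
    intro a b z y hab hzy
    obtain ⟨l, hl⟩ := hgrow a b hab
    have h1 := hsum (fun _ => 1) a b l z y hab hl hzy
    simp only [mul_one] at h1
    have h2 := stUpper U V T H Q.P.c z ∅ univ l {a, b} (rt z a b z y) (fun _ => 0)
      hc hl (WtP.rt_inj hab.ne hzy.ne) (fun _ => le_refl _) (fun _ _ => rfl)
      (fun s _ => Finset.notMem_empty _)
    rw [WtP.PP_root] at h2
    have h3 : ∑ φ : U → V, (if φ a = z ∧ φ b = y then WW T H Q.P.c φ else 0) ≤ 1 := by
      rw [← h1]
      exact h2
    refine le_trans (Finset.sum_le_sum fun φ _ => ?_) h3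
    split_ifs
    · exact WG_le Q T lw H X0 φ
    · exact le_refl _
  refine ⟨⟨fun φ => WG_nonneg Q T lw H X0 φ, ?_, ?_, hhi, ?_, ?_⟩, ?_⟩
  · -- hom
    intro φ hφ
    refine hWt.hom φ fun h0 => hφ ?_
    unfold WG
    rw [h0, zero_mul]
  · -- lo
    intro a b z y hab hzy
    obtain ⟨l, hl⟩ := hgrow a b hab
    have h1 := hsum (gi Q lw X0) a b l z y hab hl hzy
    have hinv := (initThm U V Q.P T H ∅ z a b l z y hQ.ok hgood0 hab hl hcard hdegT hzy
      (Finset.notMem_empty _) (Finset.notMem_empty _)).1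
    have h2 := hLow U V Q T lw H ∅ X0 z l {a, b} (rt z a b z y) (fun _ => 0) hQ hgood0 hok0
      (by simp) hlw hinv (fun x _ => by rw [av_root]; norm_num)
    have h3 := hInit U V Q T lw H ∅ X0 z a b l z y As.card Ts.card hQ hgood0 hok0 hlw hlsum
      le_rfl le_rfl hab hl hcard hdegT hzy (Finset.notMem_empty _) (Finset.notMem_empty _)
    rw [WtP.PP_root, one_mul] at h2
    have hg0 : g0 X0 = 1 := by
      unfold g0
      rw [if_pos rfl]
    rw [hg0, one_mul, F2_empty, h1] at h2
    calc 1 - ε ≤ 1 - PHI2 Q T lw H ∅ X0 l {a, b} (rt z a b z y) (fun _ => 0) := by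
          linarith
      _ ≤ _ := h2
  · -- av
    intro a b z y v hab hzy hvz hvy
    obtain ⟨l, hl⟩ := hgrow a b hab
    set X1 : TD V := ⟨As, Ts, nb H v⟩ with hX1
    have hadj : (iso H v).Adj z y := ⟨hzy, hvz.symm, hvy.symm⟩
    have hzB : z ∉ ({v} : Finset V) := fun h => hvz (Finset.mem_singleton.1 h).symm
    have hyB : y ∉ ({v} : Finset V) := fun h => hvy (Finset.mem_singleton.1 h).symm
    have hgood1 : Good Q.P (iso H v) {v} := by
      refine ⟨fun x => (Finset.card_le_card (nb_iso_sub H v x)).trans (hdeg x), fun x hx => ?_,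
        fun u w _ _ huw => ?_⟩
      · have hxv : x ≠ v := fun h => hx (Finset.mem_singleton.2 h)
        rw [nb_iso H v x hxv]
        have h1 := hdegge x
        have h2 : (nb H x).card ≤ ((nb H x).erase v).card + 1 := by
          have := Finset.pred_card_le_card_erase (s := nb H x) (a := v)
          omega
        have h3 : ((nb H x).card : ℝ) ≤ ((nb H x).erase v).card + 1 := by exact_mod_cast h2
        linarith
      · refine le_trans ?_ (hcod u w huw)
        exact_mod_cast Finset.card_le_card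
          (Finset.inter_subset_inter (nb_iso_sub H v u) (nb_iso_sub H v w))
    have hok1 : X1.Ok Q.P (iso H v) {v} := by
      refine ⟨hAs, fun t ht => (hTs t ht).1, fun t ht => (hTs t ht).2, fun t ht q hq => ?_,
        fun q hq => ?_, fun x hx => ?_⟩
      · refine le_trans ?_ (hTs2 t ht q hq)
        exact_mod_cast Finset.card_le_card
          (Finset.inter_subset_inter (nb_iso_sub H v q) (Finset.Subset.refl _))
      · have hqv : q ≠ v := fun h => hq (Finset.mem_singleton.2 h)
        refine le_trans ?_ (hcod q v hqv)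
        exact_mod_cast Finset.card_le_card
          (Finset.inter_subset_inter (nb_iso_sub H v q) (Finset.Subset.refl _))
      · rw [Finset.mem_singleton.1 hx]
        exact nb_iso_self H v
    have hinv := (initThm U V Q.P T (iso H v) {v} z a b l z y hQ.ok hgood1 hab hl hcard hdegT
      hadj hzB hyB).1
    have h2 := hLow U V Q T lw (iso H v) {v} X1 z l {a, b} (rt z a b z y) (fun _ => 0) hQ
      hgood1 hok1 (by simp) hlw hinv (fun x _ => by rw [av_root]; norm_num)
    have h3 := hInit U V Q T lw (iso H v) {v} X1 z a b l z y As.card Ts.card hQ hgood1 hok1 hlw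
      hlsum le_rfl le_rfl hab hl hcard hdegT hadj hzB hyB
    rw [WtP.PP_root, one_mul] at h2
    have h4 := hIso U V Q T lw H X1 z v a b l z y rfl hab hl hvz hvy
    rw [h4] at h2
    have h5 := hsum (fun φ => gi Q lw X1 φ * if v ∈ univ.image φ then 0 else 1) a b l z y hab
      hl hzy
    rw [h5] at h2
    set p : ℝ := PHI2 Q T lw (iso H v) {v} X1 l {a, b} (rt z a b z y) (fun _ => 0) with hp
    have hp' : p ≤ ε := h3
    set S1 : ℝ := ∑ φ : U → V, (if φ a = z ∧ φ b = y then WW T H Q.P.c φ *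
      (gi Q lw X1 φ * if v ∈ univ.image φ then 0 else 1) else 0) with hS1
    have hS10 : 0 ≤ S1 := by
      refine Finset.sum_nonneg fun φ _ => ?_
      split_ifs
      · rw [mul_zero, mul_zero]
      · exact mul_nonneg (WtP.WW_nonneg T H _ φ) (mul_nonneg (gi_nonneg Q lw X1 φ) zero_le_one)
      · exact le_refl _
    have hhalf : 1 / 2 - ε ≤ S1 := by
      rcases le_total p 1 with h6 | h6
      · have hg : (1 : ℝ) / 2 ≤ g0 X1 := by
          unfold g0
          split_ifs <;> norm_num
        have h7 : 1 / 2 * (1 - p) ≤ g0 X1 * (1 - p) :=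
          mul_le_mul_of_nonneg_right hg (by linarith)
        have h8 : 1 / 2 - ε ≤ 1 / 2 * (1 - p) := by linarith
        exact h8.trans (h7.trans h2)
      · linarith
    have htot := hhi a b z y hab hzy
    have hsplit : ∑ φ : U → V, (if φ a = z ∧ φ b = y then WG Q T lw H X0 φ else 0) =
        ∑ φ : U → V, (if φ a = z ∧ φ b = y ∧ v ∈ univ.image φ then WG Q T lw H X0 φ else 0) +
          S1 := by
      rw [hS1, ← Finset.sum_add_distrib]
      refine Finset.sum_congr rfl fun φ _ => ?_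
      have hgi : gi Q lw X1 φ = gi Q lw X0 φ := rfl
      by_cases h6 : φ a = z ∧ φ b = y
      · by_cases h7 : v ∈ univ.image φ
        · rw [if_pos h6, if_pos ⟨h6.1, h6.2, h7⟩, if_pos h6, if_pos h7, mul_zero, mul_zero,
            add_zero]
        · rw [if_pos h6, if_neg (fun h => h7 h.2.2), if_pos h6, if_neg h7, mul_one, zero_add,
            hgi]
          rfl
      · rw [if_neg h6, if_neg (fun h => h6 ⟨h.1, h.2.1⟩), if_neg h6, add_zero]
    linarith
  · -- cherry
    intro u x v huv hu hv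
    refine le_trans ?_ (hWt.cherry u x v huv hu hv)
    have hpos : (0 : ℝ) ≤ ((nb H x).card : ℝ) - 1 := by
      have h1 : 0 < (nb H x).card := Finset.card_pos.2 ⟨u, mem_nb.2 hu.symm⟩
      have : (1 : ℝ) ≤ (nb H x).card := by exact_mod_cast h1
      linarith
    refine mul_le_mul_of_nonneg_left (Finset.sum_le_sum fun φ _ => ?_) hpos
    exact mul_le_mul_of_nonneg_right (WG_le Q T lw H X0 φ)
      (mul_nonneg (cov_nonneg T φ u x) (cov_nonneg T φ v x))
  · -- the tests
    intro φ hφ
    by_contra hcon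
    apply hφ
    unfold WG gi
    rw [if_neg hcon, mul_zero]

end Pool.Agent.Lib.GHE
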