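import Pool.Agent.Lib.MP_df0165_co.Ex.Stmts

set_option autoImplicit false
set_option linter.unusedSectionVars false

/-!
# Exact Graham-Haggkvist for expander hosts: the static theorem (S14)
-/

namespace Pool.Agent.Lib.GHE

open Finset Classical Pool.Agent.Lib.GHA

namespace Stat2

variable {U V : Type} [Fintype U] [Fintype V]

/-- The interface is monotone in the error. -/
theorem St2.mono {T : SimpleGraph U} {m Δ : ℕ} {H : SimpleGraph V} {W : (U → V) → ℝ}
    {ε ε' : ℝ} (h : St2 T m Δ H W ε) (hle : ε ≤ ε') : St2 T m Δ H W ε' where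
  nonneg := h.nonneg
  hom := h.hom
  lo := fun a b z y hab hzy => by linarith [h.lo a b z y hab hzy]
  hi := h.hi
  av := fun a b z y v hab hzy hvz hvy => by linarith [h.av a b z y v hab hzy hvz hvy]
  cherry := h.cherry

/-- A degree is at most the number of vertices. -/
theorem nb_card_le (H : SimpleGraph V) (v : V) : (nb H v).card ≤ Fintype.card V :=
  Finset.card_le_univ _

end Stat2

open Stat2 in
/-- (S14) the static theorem as used by the dynamics. -/
theorem stStat2 (hSt2 : StSt2) (hNum : StNumS) : StStat2 := by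
  intro g β ε hg hg1 hβ hβ1 hε hε1
  obtain ⟨α, hα, hαle, HA⟩ := hNum g β ε hg hg1 hβ hβ1 hε hε1
  refine ⟨α, hα, hαle, ?_⟩
  intro ε0 h0 h01
  obtain ⟨κ, hκ, HN⟩ := HA ε0 h0 h01
  refine ⟨κ, hκ, ?_⟩
  intro U V _ _ T lw m Δ d l H γ As Ts hT hcU hm hmβ hΔ hdT hlw hsl hld hn hlog hgγ hγ1 hdeg
    hdeglo hcod hAsc hTsc hAs hTs hTsq
  have hd0 : (0 : ℝ) ≤ (d : ℝ) := Nat.cast_nonneg d
  have hαg : α ≤ g / 2 := by nlinarith
  have hgn : g / 2 * d ≤ (Fintype.card V : ℝ) := by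
    have hpos : 0 < Fintype.card V := by omega
    obtain ⟨v⟩ := Fintype.card_pos_iff.mp hpos
    have h1 := hdeglo v
    have h2 : ((nb H v).card : ℝ) ≤ (Fintype.card V : ℝ) := by
      exact_mod_cast nb_card_le H v
    have h3 : g / 2 * d ≤ (γ - α) * d := by
      apply mul_le_mul_of_nonneg_right _ hd0
      linarith
    linarith
  obtain ⟨Q, hQd, hQm, hQΔ, hQγ, hQl, hQok, hQα, hQ1, hQδ, hQ3, hQT, hQphi⟩ :=
    HN d m Δ l (Fintype.card V) γ hm hmβ hΔ hn hgn hlog hld hgγ hγ1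
  subst hQd hQm hQΔ hQγ hQl
  have hmain := hSt2 U V Q T lw H As Ts hQok hT hcU hm hdT hlw hsl hdeg
    (fun v => by
      have h1 := hdeglo v
      have h2 : (Q.P.γ - Q.P.α) * (Q.P.d : ℝ) ≤ (Q.P.γ - 2 * α) * (Q.P.d : ℝ) := by
        apply mul_le_mul_of_nonneg_right _ hd0
        linarith
      have h3 : (Q.P.γ - 2 * α) * (Q.P.d : ℝ) + α * (Q.P.d : ℝ) = (Q.P.γ - α) * Q.P.d := by ring
      linarith)
    (fun u v huv => by
      refine (hcod u v huv).trans ?_
      apply mul_le_mul_of_nonneg_right _ hd0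
      linarith)
    hAs hTs hTsq
  refine ⟨WG Q T lw H ⟨As, Ts, ∅⟩, St2.mono hmain.1 (hQphi _ _ hAsc hTsc), ?_⟩
  intro φ hφ
  have hg2 := hmain.2 φ hφ
  have hεd : 0 ≤ ε * (Q.P.d : ℝ) := mul_nonneg hε.le hd0
  refine ⟨fun A hA => ?_, fun t ht hty => ?_⟩
  · have h1 := hg2.1 A hA
    have h2 : ((A ∩ im φ).card : ℝ) = ((A ∩ univ.image φ).card : ℝ) := rfl
    rw [h2]
    linarith
  · have h1 := hg2.2 t ht hty
    have hl0 : (0 : ℝ) ≤ (Q.l : ℝ) := Nat.cast_nonneg _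
    have h2 : Q.ks t.2.1 * (Q.l : ℝ) ≤ (t.2.1 / Q.P.γ + ε) * Q.l := by
      apply mul_le_mul_of_nonneg_right _ hl0
      unfold Par2.ks
      linarith
    have h3 : Q.dT * (Q.P.d : ℝ) ≤ ε * Q.P.d := mul_le_mul_of_nonneg_right hQT hd0
    linarith

end Pool.Agent.Lib.GHE
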