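import Mathlib
import Pool.Agent.Lib.MP_df0165_co.Ex.Stmts

set_option autoImplicit false
set_option linter.unusedSectionVars false

/-!
# Exact Graham-Haggkvist: terminal states (module S7)
-/

namespace Pool.Agent.Lib.GHE

open Finset Classical Pool.Agent.Lib.GHA

namespace Term

variable {U V : Type} [Fintype U] [Fintype V]

/-- The cut-off factors of a good terminal state are one. -/
lemma cc_eq_one {P : Par} {T : SimpleGraph U} {H : SimpleGraph V} {B : Finset V} {ψ : U → V}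
    {τ : U → ℝ} (hP : P.Ok) (hI : Inv P T H B [] univ ψ τ) (hg : GS P T H B univ ψ τ) :
    CC T H P.c ∅ univ ψ τ = 1 := by
  unfold CC
  refine Finset.prod_eq_one (fun w _ => Finset.prod_eq_one (fun p hp => ?_))
  apply cut_eq_one hP.c_pos
  have e1 := Low.exn_le hI.inj hI.disj hg (Finset.mem_univ w)
  have e2 := hg.tau_le p (Finset.mem_univ p)
  linarith

/-- A bound for the excess over a set which is disjoint from `B`. -/
lemma hv_sum_le {H : SimpleGraph V} {B : Finset V} {D : Finset U} {ψ : U → V}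
    {τ : U → ℝ} (hhalf : ∀ y, y ∉ B → y ∉ D.image ψ → 1 / 2 ≤ av H D ψ τ y) (A : Finset V) :
    ∑ y ∈ A \ B, hv H D ψ τ y
      ≤ ((A \ B).card : ℝ) - 2 * (((A \ B) ∩ D.image ψ).card : ℝ) := by
  have h1 : ∑ y ∈ A \ B, hv H D ψ τ y ≤ ∑ y ∈ A \ B, (1 - 2 * if y ∈ D.image ψ then (1 : ℝ) else 0) := by
    refine Finset.sum_le_sum (fun y hy => ?_)
    rw [Finset.mem_sdiff] at hy
    unfold hv
    split_ifs with h
    · norm_num
    · have h2 := hhalf y hy.2 h
      have h3 : 1 / av H D ψ τ y ≤ 2 := by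
        rw [div_le_iff₀ (by linarith)]
        linarith
      linarith
  refine h1.trans (le_of_eq ?_)
  rw [Finset.sum_sub_distrib, ← Finset.mul_sum, Finset.sum_boole, Finset.sum_const,
    nsmul_eq_mul, mul_one, Finset.filter_mem_eq_inter]

lemma inter_eq {B I : Finset V} (hI : ∀ y ∈ I, y ∉ B) (A : Finset V) : (A \ B) ∩ I = A ∩ I := by
  ext y
  simp only [Finset.mem_inter, Finset.mem_sdiff]
  constructor
  · rintro ⟨⟨h1, _⟩, h2⟩
    exact ⟨h1, h2⟩
  · rintro ⟨h1, h2⟩
    exact ⟨⟨h1, hI y h2⟩, h2⟩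

/-- A good terminal state passes the tests. -/
lemma good_of {Q : Par2} {T : SimpleGraph U} {lw : U → ℕ} {H : SimpleGraph V} {B : Finset V}
    {X : TD V} {ψ : U → V} {τ : U → ℝ} (hI : Inv Q.P T H B [] univ ψ τ)
    (hg : GS2 Q T lw H B X univ ψ τ) : goodc Q lw X ψ := by
  refine ⟨fun A hA => ?_, fun t ht h => hg.lw_le t ht h⟩
  have h1 := hg.as_ge A hA
  have h2 := hv_sum_le (H := H) (τ := τ) hg.half A
  have h3 : ∀ y ∈ (univ : Finset U).image ψ, y ∉ B := by
    intro y hy
    obtain ⟨u, hu, rfl⟩ := Finset.mem_image.1 hy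
    exact hI.disj u hu
  rw [inter_eq h3] at h2
  have h4 : ((A \ B).card : ℝ) ≤ A.card := by
    exact_mod_cast Finset.card_le_card Finset.sdiff_subset
  linarith

lemma g0_le_xi {X : TD V} {ψ : U → V} {τ : U → ℝ} (h : exs univ ψ τ X.Av ≤ 1 / 2) :
    g0 X ≤ xi X ψ τ := by
  unfold g0 xi
  split_ifs with h1
  · have h2 : exs univ ψ τ X.Av = 0 := by
      rw [h1]
      unfold exs
      simp
    rw [h2]
    simp
  · refine le_trans ?_ (le_max_right _ _)
    linarith

end Term

open Term in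
/-- (S7) a terminal state with `PHI2 < 1` is good. -/
theorem stTerm : StTerm := by
  intro U V _ _ Q T lw H B X ψ τ hQ _ _ hI _ hg
  have hgi : gi Q lw X ψ = 1 := by
    unfold gi
    rw [if_pos (good_of hI hg)]
  unfold F2 FF
  rw [hgi, cc_eq_one hQ.ok hI hg.gs, mul_one, mul_one, mul_comm (g0 X)]
  exact mul_le_mul_of_nonneg_left (g0_le_xi hg.ex_le) (PP_nonneg H univ ψ τ)

end Pool.Agent.Lib.GHE
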