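import Mathlib
import Pool.Agent.Lib.MP_df0165_co.Ex.Stmts

set_option autoImplicit false
set_option linter.unusedSectionVars false

/-!
# Exact Graham-Haggkvist for expander hosts: total weight, use of edges, positions (D0)
-/

namespace Pool.Agent.Lib.GHE

open Finset Classical Pool.Agent.Lib.GHA

namespace Tot

variable {U V : Type} [Fintype U] [Fintype V]

/-- for an injective map the edge `x y` is covered by at most one ordered edge of `T` -/
lemma cov_sum {T : SimpleGraph U} {φ : U → V} (hφ : Function.Injective φ) (x y : V) :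
    cov T φ x y = ∑ a : U, ∑ b ∈ nb T a, if φ a = x ∧ φ b = y then (1 : ℝ) else 0 := by
  unfold cov
  by_cases h : ∃ a b, T.Adj a b ∧ φ a = x ∧ φ b = y
  · rw [if_pos h]
    obtain ⟨a, b, hab, ha, hb⟩ := h
    rw [Finset.sum_eq_single a, Finset.sum_eq_single b]
    · rw [if_pos ⟨ha, hb⟩]
    · intro b' _ hne
      rw [if_neg]
      rintro ⟨_, h2⟩
      exact hne (hφ (h2.trans hb.symm))
    · intro hb'
      exact absurd (mem_nb.2 hab) hb'
    · intro a' _ hne
      apply Finset.sum_eq_zero
      intro b' _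
      rw [if_neg]
      rintro ⟨h1, _⟩
      exact hne (hφ (h1.trans ha.symm))
    · intro h
      exact absurd (Finset.mem_univ _) h
  · rw [if_neg h]
    symm
    apply Finset.sum_eq_zero
    intro a _
    apply Finset.sum_eq_zero
    intro b hb
    rw [if_neg]
    rintro ⟨h1, h2⟩
    exact h ⟨a, b, mem_nb.1 hb, h1, h2⟩

/-- mass of the maps with `a ↦ z`, `b ↦ y` -/
noncomputable def mu (W : (U → V) → ℝ) (a b : U) (z y : V) : ℝ :=
  ∑ φ : U → V, if φ a = z ∧ φ b = y then W φ else 0

/-- mass of the maps with `a ↦ z` -/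
noncomputable def nu (W : (U → V) → ℝ) (a : U) (z : V) : ℝ :=
  ∑ φ : U → V, if φ a = z then W φ else 0

lemma nu_eq {H : SimpleGraph V} {W : (U → V) → ℝ} {a b : U}
    (hW : ∀ φ, W φ ≠ 0 → H.Adj (φ a) (φ b)) (z : V) :
    nu W a z = ∑ y ∈ nb H z, mu W a b z y := by
  unfold nu mu
  rw [Finset.sum_comm]
  refine Finset.sum_congr rfl fun φ _ => ?_
  by_cases h : φ a = z
  · by_cases h0 : W φ = 0
    · rw [if_pos h, h0]
      symm
      apply Finset.sum_eq_zero
      intro y _
      split_ifs <;> rfl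
    · have h1 : φ b ∈ nb H z := by
        rw [mem_nb, ← h]
        exact hW φ h0
      rw [if_pos h, Finset.sum_eq_single (φ b)]
      · rw [if_pos ⟨h, rfl⟩]
      · intro y _ hy
        rw [if_neg]
        rintro ⟨_, h2⟩
        exact hy h2.symm
      · intro h2
        exact absurd h1 h2
  · rw [if_neg h]
    symm
    apply Finset.sum_eq_zero
    intro y _
    rw [if_neg]
    rintro ⟨h2, _⟩
    exact h h2

lemma sum_nu (W : (U → V) → ℝ) (a : U) : ∑ φ : U → V, W φ = ∑ z : V, nu W a z := by
  unfold nu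
  rw [Finset.sum_comm]
  refine Finset.sum_congr rfl fun φ _ => ?_
  rw [Finset.sum_ite_eq, if_pos (Finset.mem_univ _)]

lemma sum_rq (W : (U → V) → ℝ) (lw : U → ℕ) (u : V) :
    ∑ φ : U → V, W φ * rq lw φ u = ∑ x : U, (lw x : ℝ) * nu W x u := by
  unfold nu rq
  have h1 : ∀ φ : U → V, W φ * ((∑ x : U, if φ x = u then lw x else 0 : ℕ) : ℝ) =
      ∑ x : U, (lw x : ℝ) * (if φ x = u then W φ else 0) := by
    intro φ
    push_cast
    rw [Finset.mul_sum]
    refine Finset.sum_congr rfl fun x _ => ?_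
    split_ifs
    · ring
    · ring
  rw [Finset.sum_congr rfl fun φ _ => h1 φ, Finset.sum_comm]
  refine Finset.sum_congr rfl fun x _ => ?_
  rw [Finset.mul_sum]

/-- every vertex of the tree has a neighbour -/
lemma exists_adj {T : SimpleGraph U} {m : ℕ} (hT : T.IsTree) (hm : Fintype.card U = m + 1)
    (h1 : 1 ≤ m) (a : U) : ∃ b, T.Adj a b := by
  have : Nontrivial U := Fintype.one_lt_card_iff_nontrivial.1 (by omega)
  obtain ⟨c, hc⟩ := exists_ne a
  obtain ⟨p⟩ := hT.connected.preconnected a c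
  cases p with
  | nil => exact absurd rfl hc
  | cons h _ => exact ⟨_, h⟩

section

variable {T : SimpleGraph U} {m Δ : ℕ} {H : SimpleGraph V} {W : (U → V) → ℝ} {ε : ℝ}

lemma nu_bd (hS : St2 T m Δ H W ε) {a b : U} (hab : T.Adj a b) (z : V) :
    (1 - ε) * (nb H z).card ≤ nu W a z ∧ nu W a z ≤ (nb H z).card := by
  rw [nu_eq (H := H) (b := b) (fun φ hφ => (hS.hom φ hφ).2 a b hab) z]
  constructor
  · calc (1 - ε) * ((nb H z).card : ℝ) = ∑ y ∈ nb H z, (1 - ε) := by
          rw [Finset.sum_const, nsmul_eq_mul, mul_comm]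
      _ ≤ _ := Finset.sum_le_sum fun y hy => hS.lo a b z y hab (mem_nb.1 hy)
  · calc ∑ y ∈ nb H z, mu W a b z y ≤ ∑ y ∈ nb H z, (1 : ℝ) :=
          Finset.sum_le_sum fun y hy => hS.hi a b z y hab (mem_nb.1 hy)
      _ = _ := by rw [Finset.sum_const, nsmul_eq_mul, mul_one]

lemma sum_cov (hS : St2 T m Δ H W ε) (x y : V) :
    ∑ φ : U → V, W φ * cov T φ x y = ∑ a : U, ∑ b ∈ nb T a, mu W a b x y := by
  have h1 : ∀ φ : U → V, W φ * cov T φ x y =
      ∑ a : U, ∑ b ∈ nb T a, if φ a = x ∧ φ b = y then W φ else 0 := by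
    intro φ
    by_cases h0 : W φ = 0
    · rw [h0, zero_mul]
      symm
      apply Finset.sum_eq_zero
      intro a _
      apply Finset.sum_eq_zero
      intro b _
      split_ifs <;> rfl
    · rw [cov_sum (hS.hom φ h0).1, Finset.mul_sum]
      refine Finset.sum_congr rfl fun a _ => ?_
      rw [Finset.mul_sum]
      refine Finset.sum_congr rfl fun b _ => ?_
      split_ifs
      · rw [mul_one]
      · rw [mul_zero]
  rw [Finset.sum_congr rfl fun φ _ => h1 φ, Finset.sum_comm]
  refine Finset.sum_congr rfl fun a _ => ?_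
  rw [Finset.sum_comm]
  rfl

lemma nu_im (hS : St2 T m Δ H W ε) {a b : U} (hab : T.Adj a b) {u y : V} (huy : u ≠ y) :
    nu (fun φ => W φ * im1 φ y) a u ≤ (1 / 2 + ε) * (nb H u).card + 1 := by
  rw [nu_eq (H := H) (b := b) (fun φ hφ => (hS.hom φ (left_ne_zero_of_mul hφ)).2 a b hab) u]
  by_cases hne : (nb H u).Nonempty
  · obtain ⟨z0, hz0⟩ := hne
    have hε : 0 ≤ ε := by
      have h1 := hS.lo a b u z0 hab (mem_nb.1 hz0)
      have h2 := hS.hi a b u z0 hab (mem_nb.1 hz0)
      linarith
    have key : ∀ z ∈ nb H u, mu (fun φ => W φ * im1 φ y) a b u z ≤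
        (1 / 2 + ε) + if z = y then 1 else 0 := by
      intro z hz
      have hadj := mem_nb.1 hz
      by_cases hzy : z = y
      · rw [if_pos hzy]
        have h3 : mu (fun φ => W φ * im1 φ y) a b u z ≤ mu W a b u z := by
          unfold mu
          refine Finset.sum_le_sum fun φ _ => ?_
          split_ifs
          · refine mul_le_of_le_one_right (hS.nonneg φ) ?_
            unfold im1
            split_ifs <;> norm_num
          · exact le_rfl
        have h4 : mu W a b u z ≤ 1 := hS.hi a b u z hab hadj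
        linarith
      · rw [if_neg hzy, add_zero]
        refine le_trans (le_of_eq ?_) (hS.av a b u z y hab hadj (Ne.symm huy) (Ne.symm hzy))
        unfold mu im1
        refine Finset.sum_congr rfl fun φ _ => ?_
        by_cases h1 : φ a = u ∧ φ b = z
        · rw [if_pos h1]
          by_cases h2 : y ∈ univ.image φ
          · rw [if_pos (⟨h1.1, h1.2, h2⟩ : φ a = u ∧ φ b = z ∧ y ∈ univ.image φ)]
            show W φ * (if y ∈ univ.image φ then 1 else 0) = W φ
            rw [if_pos h2, mul_one]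
          · rw [if_neg (fun h => h2 h.2.2 : ¬ (φ a = u ∧ φ b = z ∧ y ∈ univ.image φ))]
            show W φ * (if y ∈ univ.image φ then 1 else 0) = 0
            rw [if_neg h2, mul_zero]
        · rw [if_neg h1, if_neg (fun h => h1 ⟨h.1, h.2.1⟩)]
    refine (Finset.sum_le_sum key).trans ?_
    rw [Finset.sum_add_distrib, Finset.sum_const, nsmul_eq_mul, mul_comm, Finset.sum_ite_eq']
    refine add_le_add le_rfl ?_
    split_ifs <;> norm_num
  · rw [Finset.not_nonempty_iff_eq_empty] at hne
    rw [hne]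
    simp

end

end Tot

open Tot in
theorem stTot : StTot := by
  intro U V _ _ T m Δ H W ε lw l hS hT hm h1 hl hε
  have hadj := exists_adj hT hm h1
  have hU : Nonempty U := Fintype.card_pos_iff.1 (by omega)
  refine ⟨?_, ?_, ?_, ?_⟩
  · obtain ⟨a⟩ := hU
    obtain ⟨b, hab⟩ := hadj a
    rw [sum_nu W a]
    unfold sd
    rw [Finset.mul_sum]
    exact ⟨Finset.sum_le_sum fun z _ => (nu_bd hS hab z).1,
      Finset.sum_le_sum fun z _ => (nu_bd hS hab z).2⟩
  · intro x y hxy
    rw [sum_cov hS]
    have h2 : (∑ a : U, ((nb T a).card : ℝ)) = 2 * m := by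
      exact_mod_cast WtP.sum_deg hT hm
    constructor
    · calc (1 - ε) * (2 * m) = ∑ a : U, ∑ b ∈ nb T a, (1 - ε) := by
            rw [← h2, Finset.mul_sum]
            refine Finset.sum_congr rfl fun a _ => ?_
            rw [Finset.sum_const, nsmul_eq_mul, mul_comm]
        _ ≤ _ := Finset.sum_le_sum fun a _ => Finset.sum_le_sum fun b hb =>
            hS.lo a b x y (mem_nb.1 hb) hxy
    · calc ∑ a : U, ∑ b ∈ nb T a, mu W a b x y ≤ ∑ a : U, ∑ b ∈ nb T a, (1 : ℝ) :=
            Finset.sum_le_sum fun a _ => Finset.sum_le_sum fun b hb =>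
              hS.hi a b x y (mem_nb.1 hb) hxy
        _ = _ := by
            rw [← h2]
            refine Finset.sum_congr rfl fun a _ => ?_
            rw [Finset.sum_const, nsmul_eq_mul, mul_one]
  · intro u
    rw [sum_rq]
    have h2 : (l : ℝ) = ∑ x : U, (lw x : ℝ) := by
      rw [← hl]
      push_cast
      rfl
    constructor
    · calc (1 - ε) * (l * ((nb H u).card : ℝ)) =
          ∑ x : U, (lw x : ℝ) * ((1 - ε) * (nb H u).card) := by
            rw [← Finset.sum_mul, ← h2]
            ring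
        _ ≤ _ := by
            refine Finset.sum_le_sum fun x _ => ?_
            obtain ⟨b, hab⟩ := hadj x
            exact mul_le_mul_of_nonneg_left (nu_bd hS hab u).1 (Nat.cast_nonneg _)
    · calc ∑ x : U, (lw x : ℝ) * nu W x u ≤ ∑ x : U, (lw x : ℝ) * (nb H u).card := by
            refine Finset.sum_le_sum fun x _ => ?_
            obtain ⟨b, hab⟩ := hadj x
            exact mul_le_mul_of_nonneg_left (nu_bd hS hab u).2 (Nat.cast_nonneg _)
        _ = _ := by rw [← Finset.sum_mul, ← h2]
  · intro u y huy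
    have h2 : (l : ℝ) = ∑ x : U, (lw x : ℝ) := by
      rw [← hl]
      push_cast
      rfl
    have h3 : ∑ φ : U → V, W φ * (rq lw φ u * im1 φ y) =
        ∑ φ : U → V, (fun φ => W φ * im1 φ y) φ * rq lw φ u := by
      refine Finset.sum_congr rfl fun φ _ => ?_
      ring
    rw [h3, sum_rq (fun φ => W φ * im1 φ y)]
    calc ∑ x : U, (lw x : ℝ) * nu (fun φ => W φ * im1 φ y) x u ≤
        ∑ x : U, (lw x : ℝ) * ((1 / 2 + ε) * (nb H u).card + 1) := by
          refine Finset.sum_le_sum fun x _ => ?_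
          obtain ⟨b, hab⟩ := hadj x
          exact mul_le_mul_of_nonneg_left (nu_im hS hab huy) (Nat.cast_nonneg _)
      _ = _ := by rw [← Finset.sum_mul, ← h2]

end Pool.Agent.Lib.GHE
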