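import Mathlib
import Pool.Agent.Lib.MP_df0165_co.Ex.Base

set_option autoImplicit false
set_option linter.unusedSectionVars false

/-!
# Exact Graham-Haggkvist for expander hosts: weight of a neighbourhood (D1)
-/

namespace Pool.Agent.Lib.GHE

open Finset Classical Pool.Agent.Lib.GHA

namespace Wm

variable {U V : Type} [Fintype U] [Fintype V]

/-- The weight lost by the neighbourhood of `y` by the removal of the copy `φ`. -/
noncomputable def Y (T : SimpleGraph U) (H : SimpleGraph V) (w : V → ℝ) (y : V) (φ : U → V) : ℝ :=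
  ∑ u ∈ nb H y, w u * cov T φ y u

lemma Y_nonneg (T : SimpleGraph U) (H : SimpleGraph V) {w : V → ℝ} (hw : ∀ u, 0 ≤ w u) (y : V)
    (φ : U → V) : 0 ≤ Y T H w y φ :=
  Finset.sum_nonneg fun u _ => mul_nonneg (hw u) (cov_nonneg T φ y u)

lemma sum_Y (T : SimpleGraph U) (H : SimpleGraph V) (w : V → ℝ) (y : V) (W : (U → V) → ℝ) :
    ∑ φ : U → V, W φ * Y T H w y φ =
      ∑ u ∈ nb H y, w u * ∑ φ : U → V, W φ * cov T φ y u := by
  unfold Y
  simp_rw [Finset.mul_sum]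
  rw [Finset.sum_comm]
  refine Finset.sum_congr rfl fun u _ => Finset.sum_congr rfl fun φ _ => by ring

lemma sum_Y2 (T : SimpleGraph U) (H : SimpleGraph V) (w : V → ℝ) (y : V) (W : (U → V) → ℝ) :
    ∑ φ : U → V, W φ * Y T H w y φ ^ 2 =
      ∑ u ∈ nb H y, ∑ v ∈ nb H y,
        w u * w v * ∑ φ : U → V, W φ * (cov T φ u y * cov T φ v y) := by
  unfold Y
  have h : ∀ φ : U → V, W φ * (∑ u ∈ nb H y, w u * cov T φ y u) ^ 2 =
      ∑ u ∈ nb H y, ∑ v ∈ nb H y, w u * w v * (W φ * (cov T φ u y * cov T φ v y)) := by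
    intro φ
    rw [pow_two, Finset.sum_mul_sum, Finset.mul_sum]
    refine Finset.sum_congr rfl fun u _ => ?_
    rw [Finset.mul_sum]
    refine Finset.sum_congr rfl fun v _ => ?_
    rw [cov_symm T φ y u, cov_symm T φ y v]
    ring
  rw [Finset.sum_congr rfl fun φ _ => h φ, Finset.sum_comm]
  refine Finset.sum_congr rfl fun u _ => ?_
  rw [Finset.sum_comm]
  refine Finset.sum_congr rfl fun v _ => ?_
  rw [Finset.mul_sum]

lemma exp_neg_le {x : ℝ} (hx : 0 ≤ x) : Real.exp (-x) ≤ 1 - x + x ^ 2 / 2 := by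
  -- `exp (-x) (1 + x + x^2/2) ≤ 1` and `(1 + x + x^2/2) (1 - x + x^2/2) = 1 + x^4/4`
  have h1 : 1 + x + x ^ 2 / 2 ≤ Real.exp x := Real.quadratic_le_exp_of_nonneg hx
  have h2 : 0 < 1 + x + x ^ 2 / 2 := by positivity
  rw [Real.exp_neg]
  refine (inv_anti₀ h2 h1).trans ?_
  rw [inv_le_iff_one_le_mul₀ h2]
  nlinarith [sq_nonneg (x ^ 2)]

/-- The average of the exponential. -/
lemma exp_avg (T : SimpleGraph U) (H : SimpleGraph V) {w : V → ℝ} (hw : ∀ u, 0 ≤ w u) (y : V)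
    (W : (U → V) → ℝ) (hW0 : ∀ φ, 0 ≤ W φ) {θ S : ℝ} (hθ : 0 ≤ θ)
    (hS : ∑ φ : U → V, W φ = S) (hS0 : 0 < S) :
    ∑ φ : U → V, W φ * Real.exp (-(θ * Y T H w y φ)) ≤
      S * Real.exp (-(θ * ((∑ φ : U → V, W φ * Y T H w y φ) / S)) +
        θ ^ 2 / 2 * ((∑ φ : U → V, W φ * Y T H w y φ ^ 2) / S)) := by
  have h1 : ∀ φ : U → V, W φ * Real.exp (-(θ * Y T H w y φ)) ≤
      W φ - θ * (W φ * Y T H w y φ) + θ ^ 2 / 2 * (W φ * Y T H w y φ ^ 2) := by
    intro φ
    have hy0 := Y_nonneg T H hw y φ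
    have hc := exp_neg_le (mul_nonneg hθ hy0)
    have := mul_le_mul_of_nonneg_left hc (hW0 φ)
    nlinarith
  have h2 : ∑ φ : U → V, W φ * Real.exp (-(θ * Y T H w y φ)) ≤
      S - θ * (∑ φ : U → V, W φ * Y T H w y φ)
        + θ ^ 2 / 2 * ∑ φ : U → V, W φ * Y T H w y φ ^ 2 := by
    rw [← hS, Finset.mul_sum, Finset.mul_sum, ← Finset.sum_sub_distrib, ← Finset.sum_add_distrib]
    exact Finset.sum_le_sum fun φ _ => h1 φ
  refine h2.trans ?_
  have h3 := Real.add_one_le_exp (-(θ * ((∑ φ : U → V, W φ * Y T H w y φ) / S)) +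
        θ ^ 2 / 2 * ((∑ φ : U → V, W φ * Y T H w y φ ^ 2) / S))
  have h4 := mul_le_mul_of_nonneg_left h3 hS0.le
  refine le_trans (le_of_eq ?_) h4
  field_simp
  ring

end Wm

theorem stW (hTot : StTot) : StW := by
  intro U V _ _ D T H γ γ' W w y hD hT hU hG hW hw hF
  obtain ⟨g6, g5, g4, g3, g2, g1⟩ := hD.g6
  have hg0 := hD.g_pos
  have hζ0 := hD.ζ_pos
  have hζ1 := hD.ζ_le_one
  have hd0 := hD.d_pos'
  have hn0 := hD.n_pos'
  have he0 := hD.e_pos
  have hΔ1 := hD.Δ_one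
  have hγ0 := hG.γ_pos hD
  have hγ'0 := hG.γ'_pos hD
  have hgγ := hG.g_le_γ hD
  have hε0 := hD.ε_nonneg
  have hε1 : D.ε ≤ 1 / 1000 := by
    have h1 := hD.ε_le
    have h2 : D.ζ * D.g ^ 4 ≤ 1 * 1 :=
      mul_le_mul hζ1 (by linarith) (by positivity) (by norm_num)
    linarith
  obtain ⟨⟨hS1, hS2⟩, hE, -, -⟩ := hTot U V T D.m D.Δ H W D.ε (fun _ => 0) 0 hW hT hU hD.m_pos
    (by simp) (by linarith)
  have hsd := hG.sd_pos hD
  set S : ℝ := ∑ φ : U → V, W φ with hSdef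
  have hS0 : 0 < S := lt_of_lt_of_le (mul_pos (by linarith) hsd) hS1
  set lam : ℝ := 2 * D.m / sd H with hlam
  have hl0 : 0 ≤ lam := hG.lam_nonneg hD
  have hl1 : lam ≤ 1 / (D.g * D.n) := hG.lam_le hD
  have hγ'eq : γ' = γ * (1 - lam) := hG.γ'_eq hD
  have hm0 : (0 : ℝ) ≤ D.m := Nat.cast_nonneg _
  have hlsd : lam * sd H = 2 * D.m := by rw [hlam]; field_simp
  set θ : ℝ := D.e / γ' with hθdef
  have hθ0 : 0 < θ := by positivity
  have hθg : θ ≤ D.e / D.g := div_le_div_of_nonneg_left he0.le hg0 hG.g_le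
  set F : ℝ := nw H w y with hFdef
  have hF0 : 0 ≤ F := Finset.sum_nonneg fun u _ => (hw u).1
  -- the first moment
  set M1 : ℝ := ∑ φ : U → V, W φ * Wm.Y T H w y φ with hM1
  set M2 : ℝ := ∑ φ : U → V, W φ * Wm.Y T H w y φ ^ 2 with hM2
  have hM1low : (1 - D.ε) * (lam * F) ≤ M1 / S := by
    rw [le_div_iff₀ hS0]
    have h1 : (1 - D.ε) * (2 * D.m) * F ≤ M1 := by
      rw [hM1, Wm.sum_Y, hFdef, nw, Finset.mul_sum]
      refine Finset.sum_le_sum fun u hu => ?_
      rw [mul_comm]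
      exact mul_le_mul_of_nonneg_left (hE y u (mem_nb.1 hu)).1 (hw u).1
    refine le_trans ?_ h1
    have h2 : lam * S ≤ 2 * D.m := by
      rw [← hlsd]; exact mul_le_mul_of_nonneg_left hS2 hl0
    have h3 : 0 ≤ (1 - D.ε) * F := mul_nonneg (by linarith) hF0
    nlinarith [mul_le_mul_of_nonneg_left h2 h3]
  -- the second moment
  have hcov0 : ∀ u v : V, 0 ≤ ∑ φ : U → V, W φ * (cov T φ u y * cov T φ v y) := fun u v =>
    Finset.sum_nonneg fun φ _ => mul_nonneg (hW.nonneg φ)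
      (mul_nonneg (cov_nonneg T φ u y) (cov_nonneg T φ v y))
  have hcherry : ∀ u ∈ nb H y, ∀ v ∈ nb H y, u ≠ v →
      ∑ φ : U → V, W φ * (cov T φ u y * cov T φ v y) ≤ 8 * D.m * (D.Δ / (γ * D.d)) := by
    intro u hu v hv huv
    have e3 := hW.cherry u y v huv (mem_nb.1 hu).symm (mem_nb.1 hv).symm
    have e4 := hG.deg_sub_one hD y
    have e6 := mul_le_mul_of_nonneg_right e4 (hcov0 u v)
    have e8 : γ * D.d / 4 * ∑ φ : U → V, W φ * (cov T φ u y * cov T φ v y) ≤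
        2 * D.m * D.Δ := e6.trans e3
    have e9 : 0 < γ * D.d := by positivity
    rw [← mul_div_assoc, le_div_iff₀ e9]
    nlinarith
  have hdiag : ∀ u ∈ nb H y,
      ∑ φ : U → V, W φ * (cov T φ u y * cov T φ u y) ≤ 2 * D.m := by
    intro u hu
    refine le_trans (le_of_eq ?_) (hE y u (mem_nb.1 hu)).2
    refine Finset.sum_congr rfl fun φ _ => ?_
    rw [cov_symm T φ u y]
    rcases cov_zero_or_one T φ y u with h | h <;> rw [h] <;> norm_num
  have hM2hi : M2 ≤ 2 * D.m * D.Δ * F + 8 * D.m * (D.Δ / (γ * D.d)) * F ^ 2 := by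
    rw [hM2, Wm.sum_Y2]
    have h1 : ∀ u ∈ nb H y, ∑ v ∈ nb H y,
        w u * w v * ∑ φ : U → V, W φ * (cov T φ u y * cov T φ v y) ≤
        w u * (2 * D.m * D.Δ) + w u * (8 * D.m * (D.Δ / (γ * D.d)) * F) := by
      intro u hu
      have h2 : ∀ v ∈ nb H y, w u * w v * ∑ φ : U → V, W φ * (cov T φ u y * cov T φ v y) ≤
          (if v = u then w u * (2 * D.m * D.Δ) else 0)
            + w u * (8 * D.m * (D.Δ / (γ * D.d))) * w v := by
        intro v hv
        have hp : 0 ≤ w u * (8 * D.m * (D.Δ / (γ * D.d))) * w v :=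
          mul_nonneg (mul_nonneg (hw u).1 (by positivity)) (hw v).1
        by_cases huv : v = u
        · subst huv
          rw [if_pos rfl]
          have h3 := mul_le_mul_of_nonneg_left (hdiag v hv) (mul_nonneg (hw v).1 (hw v).1)
          have h4 : w v * w v * (2 * D.m) ≤ w v * (2 * D.m * D.Δ) := by
            have := mul_le_mul_of_nonneg_left (hw v).2
              (mul_nonneg (hw v).1 (by positivity : (0 : ℝ) ≤ 2 * D.m))
            nlinarith
          linarith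
        · rw [if_neg huv, zero_add]
          have h3 := mul_le_mul_of_nonneg_left (hcherry u hu v hv (fun h => huv h.symm))
            (mul_nonneg (hw u).1 (hw v).1)
          linarith
      refine (Finset.sum_le_sum h2).trans ?_
      rw [Finset.sum_add_distrib, Finset.sum_ite_eq' (nb H y) u, if_pos hu, ← Finset.mul_sum]
      refine le_of_eq ?_
      rw [hFdef, nw]
      ring
    refine (Finset.sum_le_sum h1).trans (le_of_eq ?_)
    rw [Finset.sum_add_distrib, ← Finset.sum_mul, ← Finset.sum_mul]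
    rw [hFdef, nw]
    ring
  have hM2' : M2 / S ≤ 6 * lam * (D.Δ * F / γ) := by
    rw [div_le_iff₀ hS0]
    have h1 : 8 * D.m * (D.Δ / (γ * D.d)) * F ^ 2 ≤ 8 * D.m * (D.Δ * F / γ) := by
      have h2 : F ^ 2 ≤ D.d * F := by
        rw [pow_two]; exact mul_le_mul_of_nonneg_right hF hF0
      calc 8 * D.m * (D.Δ / (γ * D.d)) * F ^ 2
          ≤ 8 * D.m * (D.Δ / (γ * D.d)) * (D.d * F) :=
            mul_le_mul_of_nonneg_left h2 (by positivity)
        _ = 8 * D.m * (D.Δ * F / γ) := by field_simp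
    have h3 : 2 * D.m * D.Δ * F ≤ 2 * D.m * (D.Δ * F / γ) := by
      have h4 : D.Δ * F ≤ D.Δ * F / γ := by
        rw [le_div_iff₀ hγ0]
        exact mul_le_of_le_one_right (by positivity) hG.γ_le
      have := mul_le_mul_of_nonneg_left h4 (by positivity : (0 : ℝ) ≤ 2 * D.m)
      linarith
    have h5 : M2 ≤ 5 * (lam * sd H) * (D.Δ * F / γ) := by
      rw [hlsd]; linarith
    have h6 : 5 * sd H ≤ 6 * S := by nlinarith
    have h7 : 0 ≤ lam * (D.Δ * F / γ) := by positivity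
    nlinarith [mul_le_mul_of_nonneg_left h6 h7]
  -- the average of the exponential
  have hA := Wm.exp_avg T H (fun u => (hw u).1) y W hW.nonneg hθ0.le hSdef.symm hS0
  have hfin : ∑ φ : U → V, W φ * Real.exp (D.e * (nw (del T H φ) w y / γ')) =
      Real.exp (θ * F) * ∑ φ : U → V, W φ * Real.exp (-(θ * Wm.Y T H w y φ)) := by
    rw [Finset.mul_sum]
    refine Finset.sum_congr rfl fun φ _ => ?_
    rw [nw_del, mul_left_comm, ← Real.exp_add]
    congr 2
    rw [hθdef, Wm.Y, hFdef]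
    ring
  rw [hfin]
  refine (mul_le_mul_of_nonneg_left hA (Real.exp_pos _).le).trans ?_
  rw [mul_left_comm, ← Real.exp_add, ← Real.exp_add]
  refine mul_le_mul_of_nonneg_left (Real.exp_le_exp.2 ?_) hS0.le
  have hk : D.e * (F / γ) = θ * F * (1 - lam) := by
    have hl : 1 - lam ≠ 0 := by
      intro h
      rw [h, mul_zero] at hγ'eq
      exact hγ'0.ne' hγ'eq
    rw [hθdef, hγ'eq]
    field_simp
  have hk1 := mul_le_mul_of_nonneg_left hM1low hθ0.le
  have hk2 := mul_le_mul_of_nonneg_left hM2' (by positivity : 0 ≤ θ ^ 2 / 2)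
  have hlF : lam * F ≤ 1 / (D.g * D.n) * D.d := mul_le_mul hl1 hF hF0 (by positivity)
  have hlF0 : 0 ≤ lam * F := mul_nonneg hl0 hF0
  have hk3 : θ * (D.ε * (lam * F)) + θ ^ 2 / 2 * (6 * lam * (D.Δ * F / γ)) ≤
      D.e * D.d * D.ζ / D.n := by
    have h1 : θ ^ 2 / 2 * (6 * lam * (D.Δ * F / γ)) = θ * (3 * (θ * D.Δ) / γ * (lam * F)) := by
      ring
    rw [h1, ← mul_add, ← add_mul]
    have h2 : D.ε + 3 * (θ * D.Δ) / γ ≤ D.ζ * D.g ^ 4 / 200 := by
      have h3 : θ * D.Δ ≤ D.ζ * D.g ^ 5 / 1000 := by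
        have h4 : θ * D.Δ ≤ D.e / D.g * D.Δ := mul_le_mul_of_nonneg_right hθg (by linarith)
        have h5 : D.e / D.g * D.Δ ≤ D.ζ * D.g ^ 5 / 1000 := by
          rw [div_mul_eq_mul_div, div_le_iff₀ hg0]
          calc D.e * D.Δ ≤ D.ζ * D.g ^ 6 / 1000 := hD.e_le
            _ = D.ζ * D.g ^ 5 / 1000 * D.g := by ring
        linarith
      have h6 : 3 * (θ * D.Δ) / γ ≤ 3 * (D.ζ * D.g ^ 4 / 1000) := by
        rw [div_le_iff₀ hγ0]
        have h7 : D.ζ * D.g ^ 5 ≤ D.ζ * D.g ^ 4 * γ := by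
          calc D.ζ * D.g ^ 5 = D.ζ * D.g ^ 4 * D.g := by ring
            _ ≤ D.ζ * D.g ^ 4 * γ := mul_le_mul_of_nonneg_left hgγ (by positivity)
        linarith
      have h8 := hD.ε_le
      have h9 : 0 ≤ D.ζ * D.g ^ 4 := by positivity
      linarith
    calc θ * ((D.ε + 3 * (θ * D.Δ) / γ) * (lam * F))
        ≤ D.e / D.g * (D.ζ * D.g ^ 4 / 200 * (1 / (D.g * D.n) * D.d)) := by
          refine mul_le_mul hθg (mul_le_mul h2 hlF hlF0 (by positivity)) ?_ (by positivity)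
          positivity
      _ = D.e * D.d * D.ζ / D.n * (D.g ^ 2 / 200) := by
          field_simp
      _ ≤ D.e * D.d * D.ζ / D.n * 1 := by
          apply mul_le_mul_of_nonneg_left _ (by positivity)
          linarith
      _ = D.e * D.d * D.ζ / D.n := mul_one _
  rw [hk]
  have hk4 : θ * ((1 - D.ε) * (lam * F)) = θ * (lam * F) - θ * (D.ε * (lam * F)) := by ring
  have hk5 : θ * F * (1 - lam) = θ * F - θ * (lam * F) := by ring
  rw [hk5]
  rw [hk4] at hk1
  linarith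

end Pool.Agent.Lib.GHE
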