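import Pool.Agent.Lib.MP_df0165_co.Ex.GAm
import Pool.Agent.Lib.MP_df0165_co.Ex.GTm
import Pool.Agent.Lib.MP_df0165_co.Ex.GEm
import Pool.Agent.Lib.MP_df0165_co.Ex.GOm
import Pool.Agent.Lib.MP_df0165_co.Ex.GSm
import Pool.Agent.Lib.MP_df0165_co.Ex.Cont
import Pool.Agent.Lib.MP_df0165_co.Ex.Term
import Pool.Agent.Lib.MP_df0165_co.Ex.Low2
import Pool.Agent.Lib.MP_df0165_co.Ex.Init2
import Pool.Agent.Lib.MP_df0165_co.Ex.RootS
import Pool.Agent.Lib.MP_df0165_co.Ex.Iso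
import Pool.Agent.Lib.MP_df0165_co.Ex.St2m
import Pool.Agent.Lib.MP_df0165_co.Ex.NumS
import Pool.Agent.Lib.MP_df0165_co.Ex.Stat2
import Pool.Agent.Lib.MP_df0165_co.Ex.Tot
import Pool.Agent.Lib.MP_df0165_co.Ex.Wm
import Pool.Agent.Lib.MP_df0165_co.Ex.Dm
import Pool.Agent.Lib.MP_df0165_co.Ex.Cd
import Pool.Agent.Lib.MP_df0165_co.Ex.Rq
import Pool.Agent.Lib.MP_df0165_co.Ex.Ry
import Pool.Agent.Lib.MP_df0165_co.Ex.One2
import Pool.Agent.Lib.MP_df0165_co.Ex.Dyn2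
import Pool.Agent.Lib.MP_df0165_co.Ex.Exp
import Pool.Agent.Lib.MP_df0165_co.Ex.Lab
import Pool.Agent.Lib.MP_df0165_co.Ex.Ori
import Pool.Agent.Lib.MP_df0165_co.Ex.Mat
import Pool.Agent.Lib.MP_df0165_co.Ex.Dist
import Pool.Agent.Lib.MP_df0165_co.Ex.Leaf
import Pool.Agent.Lib.MP_df0165_co.Ex.Asm
import Pool.Agent.Lib.MP_df0165_co.Ex.Dense

set_option autoImplicit false

/-!
# Exact Graham-Haggkvist for expander hosts: assembly
-/

namespace Pool.Agent.Lib.GHE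

theorem low2 : StLow2 := stLow2 stGA stGT stGE stGO stGS2 stCont2 stTerm

theorem st2 : StSt2 := stSt2 low2 stInit2 stRootSum stIso

theorem stat2 : StStat2 := stStat2 st2 stNumS

theorem one2 : StOne2 :=
  stOne2 stTot (stW stTot) (stDm stTot) (stCd stTot) (stRq stTot) (stRy stTot)

theorem dyn2 : StDyn2 := stDyn2 stat2 one2

theorem lab : StLab := stLab stExp

theorem ori2 : StOri2 := stOri2 stOri

theorem dist' : StDist := stDist stMat

/-- The exact Graham-Haggkvist theorem for expander hosts and trees with many leaves. -/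
theorem main : StMainE := stMainE dyn2 lab ori2 dist' stLeaf stAsm

end Pool.Agent.Lib.GHE
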