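import Mathlib
import Pool.Agent.Lib.MP_df0165_co.Ex.Stmts
import Pool.Agent.Lib.MP_df0165_co.Ex.Base

set_option autoImplicit false
set_option linter.unusedSectionVars false

/-!
# Exact Graham-Haggkvist for expander hosts: the potential of the dynamics
-/

namespace Pool.Agent.Lib.GHE

open Finset Classical Pool.Agent.Lib.GHA

variable {U V : Type} [Fintype U] [Fintype V]

namespace Dyn2

/-! ## Reading off the potential -/

section read

variable {D : DP} {lw : U → ℕ} {A : V → Finset V} {γ : ℝ} {H : SimpleGraph V} {a b : V → ℝ}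
  {K : V → V → ℝ} {t : ℕ} {f : ℕ → U → V}

lemma read_aux {S1 S2 S3 S4 S5 S6 X : ℝ} (h1 : 0 ≤ S1) (h2 : 0 ≤ S2) (h3 : 0 ≤ S3) (h4 : 0 ≤ S4)
    (h5 : 0 ≤ S5) (h6 : 0 ≤ S6) (h : S1 + S2 + S3 + S4 + S5 + S6 ≤ X) :
    S1 ≤ X ∧ S2 ≤ X ∧ S3 ≤ X ∧ S4 ≤ X ∧ S5 ≤ X ∧ S6 ≤ X :=
  ⟨by linarith, by linarith, by linarith, by linarith, by linarith, by linarith⟩

lemma dev_of_exp {e x s : ℝ} (he : 0 < e) (h : Real.exp (e * x) ≤ Real.exp (e * s)) : x ≤ s := by
  rw [Real.exp_le_exp] at h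
  exact le_of_mul_le_mul_left h he

lemma sum2_le {F : V → V → ℝ} (hF : ∀ u v, 0 ≤ F u v) {X : ℝ}
    (h : ∑ u : V, ∑ v ∈ univ.erase u, F u v ≤ X) (u v : V) (huv : u ≠ v) : F u v ≤ X := by
  have h1 : F u v ≤ ∑ v ∈ univ.erase u, F u v :=
    Finset.single_le_sum (f := fun v => F u v) (fun x _ => hF u x)
      (Finset.mem_erase.2 ⟨huv.symm, Finset.mem_univ v⟩)
  have h2 : ∑ v ∈ univ.erase u, F u v ≤ ∑ u : V, ∑ v ∈ univ.erase u, F u v :=
    Finset.single_le_sum (f := fun u => ∑ v ∈ univ.erase u, F u v)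
      (fun x _ => Finset.sum_nonneg (fun y _ => hF x y)) (Finset.mem_univ u)
  exact h1.trans (h2.trans h)

/-- All deviations are at most `s` if the potential is at most `exp (e s)`. -/
lemma XI_dev (he : 0 < D.e) (s : ℝ) (h : XI D lw A γ H a b K t f ≤ Real.exp (D.e * s)) :
    (∀ v, ((nb H v).card : ℝ) / γ - D.d ≤ s ∧ -(((nb H v).card : ℝ) / γ - D.d) ≤ s) ∧
    (∀ u v, u ≠ v → ((nb H u ∩ nb H v).card : ℝ) / γ ^ 2 - D.d ≤ s) ∧
    (∀ q y, q ≠ y → ((nb H q ∩ A y).card : ℝ) / γ - D.r * D.d ≤ s) ∧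
    (∀ u, a u ≤ s ∧ b u ≤ s) ∧
    (∀ u y, u ≠ y → K u y ≤ s) ∧
    (∀ c, c < t → ∀ y, y ∉ im (f c) →
      nw H (fun u => (rq lw (f c) u : ℝ)) y / γ - D.k * D.d ≤ s) := by
  unfold XI at h
  obtain ⟨h1, h2, h3, h4, h5, h6⟩ := read_aux
    (Finset.sum_nonneg (fun v _ => add_nonneg (Real.exp_pos _).le (Real.exp_pos _).le))
    (Finset.sum_nonneg (fun u _ => Finset.sum_nonneg (fun v _ => (Real.exp_pos _).le)))
    (Finset.sum_nonneg (fun u _ => Finset.sum_nonneg (fun v _ => (Real.exp_pos _).le)))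
    (Finset.sum_nonneg (fun v _ => add_nonneg (Real.exp_pos _).le (Real.exp_pos _).le))
    (Finset.sum_nonneg (fun u _ => Finset.sum_nonneg (fun v _ => (Real.exp_pos _).le)))
    (Finset.sum_nonneg (fun u _ => Finset.sum_nonneg (fun v _ => (Real.exp_pos _).le))) h
  refine ⟨fun v => ?_, fun u v huv => ?_, fun q y hqy => ?_, fun u => ?_, fun u y huy => ?_,
    fun c hc y hy => ?_⟩
  · have h7 := (Finset.single_le_sum (f := fun v : V =>
      Real.exp (D.e * ((nb H v).card / γ - D.d)) + Real.exp (-(D.e * ((nb H v).card / γ - D.d))))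
      (fun v _ => add_nonneg (Real.exp_pos _).le (Real.exp_pos _).le) (Finset.mem_univ v)).trans h1
    have h8 := Real.exp_pos (D.e * ((nb H v).card / γ - D.d))
    have h9 := Real.exp_pos (-(D.e * ((nb H v).card / γ - D.d)))
    refine ⟨dev_of_exp he (by linarith), dev_of_exp he ?_⟩
    rw [mul_neg]
    linarith
  · exact dev_of_exp he (sum2_le (F := fun u v =>
      Real.exp (D.e * (((nb H u ∩ nb H v).card : ℝ) / γ ^ 2 - D.d)))
      (fun _ _ => (Real.exp_pos _).le) h2 u v huv)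
  · exact dev_of_exp he (sum2_le (F := fun q y =>
      Real.exp (D.e * (((nb H q ∩ A y).card : ℝ) / γ - D.r * D.d)))
      (fun _ _ => (Real.exp_pos _).le) h3 q y hqy)
  · have h7 := (Finset.single_le_sum (f := fun v : V =>
      Real.exp (D.e * a v) + Real.exp (D.e * b v))
      (fun v _ => add_nonneg (Real.exp_pos _).le (Real.exp_pos _).le) (Finset.mem_univ u)).trans h4
    have h8 := Real.exp_pos (D.e * a u)
    have h9 := Real.exp_pos (D.e * b u)
    exact ⟨dev_of_exp he (by linarith), dev_of_exp he (by linarith)⟩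
  · exact dev_of_exp he (sum2_le (F := fun u y => Real.exp (D.e * K u y))
      (fun _ _ => (Real.exp_pos _).le) h5 u y huy)
  · refine dev_of_exp he (le_trans ?_ h6)
    have h7 : Real.exp (D.e * (nw H (fun u => (rq lw (f c) u : ℝ)) y / γ - D.k * D.d)) ≤
        ∑ y ∈ (univ.image (f c))ᶜ,
          Real.exp (D.e * (nw H (fun u => (rq lw (f c) u : ℝ)) y / γ - D.k * D.d)) :=
      Finset.single_le_sum (f := fun y =>
        Real.exp (D.e * (nw H (fun u => (rq lw (f c) u : ℝ)) y / γ - D.k * D.d)))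
        (fun _ _ => (Real.exp_pos _).le) (Finset.mem_compl.2 hy)
    refine h7.trans (Finset.single_le_sum (f := fun c => ∑ y ∈ (univ.image (f c))ᶜ,
      Real.exp (D.e * (nw H (fun u => (rq lw (f c) u : ℝ)) y / γ - D.k * D.d)))
      (fun _ _ => Finset.sum_nonneg (fun _ _ => (Real.exp_pos _).le)) (Finset.mem_range.2 hc))

end read

/-! ## The potential at the beginning -/

lemma sum2_bound {F : V → V → ℝ} {E : ℝ} (hE : 0 ≤ E) (h : ∀ u v, u ≠ v → F u v ≤ E) :
    ∑ u : V, ∑ v ∈ univ.erase u, F u v ≤ (Fintype.card V : ℝ) ^ 2 * E := by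
  have h1 : ∀ u : V, ∑ v ∈ univ.erase u, F u v ≤ Fintype.card V * E := by
    intro u
    calc ∑ v ∈ univ.erase u, F u v ≤ ∑ v ∈ (univ : Finset V).erase u, E :=
          Finset.sum_le_sum (fun v hv => h u v (Finset.ne_of_mem_erase hv).symm)
      _ = ((univ : Finset V).erase u).card * E := by rw [Finset.sum_const, nsmul_eq_mul]
      _ ≤ Fintype.card V * E := by
          refine mul_le_mul_of_nonneg_right ?_ hE
          exact_mod_cast Finset.card_le_univ _
  calc ∑ u : V, ∑ v ∈ univ.erase u, F u v ≤ ∑ u : V, (Fintype.card V : ℝ) * E :=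
        Finset.sum_le_sum (fun u _ => h1 u)
    _ = (Fintype.card V : ℝ) ^ 2 * E := by
        rw [Finset.sum_const, nsmul_eq_mul, Finset.card_univ]
        ring

lemma sum1_bound {F G : V → ℝ} {E : ℝ} (h : ∀ u, F u ≤ E) (h' : ∀ u, G u ≤ E) :
    ∑ u : V, (F u + G u) ≤ (Fintype.card V : ℝ) * (2 * E) := by
  calc ∑ u : V, (F u + G u) ≤ ∑ u : V, (2 * E) :=
        Finset.sum_le_sum (fun u _ => by linarith [h u, h' u])
    _ = (Fintype.card V : ℝ) * (2 * E) := by
        rw [Finset.sum_const, nsmul_eq_mul, Finset.card_univ]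

/-- The potential at the beginning. -/
lemma XI_zero (D : DP) (lw : U → ℕ) (A : V → Finset V) (γ δ : ℝ) (H : SimpleGraph V)
    (f : ℕ → U → V) (he : 0 < D.e) (hδ : 0 ≤ δ) (hγ : 1 / 2 ≤ γ) (hn : 1 ≤ Fintype.card V)
    (hdeg : ∀ v, |((nb H v).card : ℝ) - γ * D.d| ≤ δ * D.d)
    (hcod : ∀ u v, u ≠ v → ((nb H u ∩ nb H v).card : ℝ) ≤ (γ ^ 2 + δ) * D.d)
    (hA : ∀ q y, q ≠ y → ((nb H q ∩ A y).card : ℝ) ≤ D.r * γ * D.d) (a b : V → ℝ) (K : V → V → ℝ)
    (ha : ∀ u, a u = 0) (hb : ∀ u, b u = 0) (hK : ∀ u v, K u v = 0) :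
    XI D lw A γ H a b K 0 f ≤ 7 * (Fintype.card V : ℝ) ^ 2 * Real.exp (4 * D.e * δ * D.d) := by
  set E : ℝ := Real.exp (4 * D.e * δ * D.d) with hE
  have hd : (0 : ℝ) ≤ D.d := Nat.cast_nonneg _
  have hE1 : 1 ≤ E := by
    rw [hE]
    exact Real.one_le_exp (by positivity)
  have hγ0 : 0 < γ := by linarith
  have hx0 : 0 ≤ δ * D.d := by positivity
  have hdev : ∀ x : ℝ, x ≤ δ * D.d → x / γ ≤ 4 * (δ * D.d) := by
    intro x hx
    rw [div_le_iff₀ hγ0]
    nlinarith
  have hexp : ∀ x : ℝ, x ≤ 4 * (δ * D.d) → Real.exp (D.e * x) ≤ E := by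
    intro x hx
    rw [hE, Real.exp_le_exp]
    calc D.e * x ≤ D.e * (4 * (δ * D.d)) := mul_le_mul_of_nonneg_left hx he.le
      _ = 4 * D.e * δ * D.d := by ring
  have h1 : ∑ v : V, (Real.exp (D.e * ((nb H v).card / γ - D.d))
      + Real.exp (-(D.e * ((nb H v).card / γ - D.d)))) ≤ (Fintype.card V : ℝ) * (2 * E) := by
    refine sum1_bound (fun v => ?_) (fun v => ?_)
    · apply hexp
      have h2 : ((nb H v).card : ℝ) / γ - D.d = (((nb H v).card : ℝ) - γ * D.d) / γ := by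
        field_simp
      rw [h2]
      exact hdev _ ((le_abs_self _).trans (hdeg v))
    · rw [← mul_neg]
      apply hexp
      have h2 : -(((nb H v).card : ℝ) / γ - D.d) = (-(((nb H v).card : ℝ) - γ * D.d)) / γ := by
        field_simp
      rw [h2]
      exact hdev _ ((neg_le_abs _).trans (hdeg v))
  have h2 : ∑ u : V, ∑ v ∈ univ.erase u,
      Real.exp (D.e * (((nb H u ∩ nb H v).card : ℝ) / γ ^ 2 - D.d))
      ≤ (Fintype.card V : ℝ) ^ 2 * E := by
    refine sum2_bound (by linarith) (fun u v huv => ?_)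
    apply hexp
    have h3 := hcod u v huv
    have h4 : ((nb H u ∩ nb H v).card : ℝ) / γ ^ 2 ≤ (γ ^ 2 + δ) * D.d / γ ^ 2 :=
      div_le_div_of_nonneg_right h3 (by positivity)
    have h5 : (γ ^ 2 + δ) * D.d / γ ^ 2 = D.d + δ * D.d / γ ^ 2 := by
      field_simp
    have h6 : δ * D.d / γ ^ 2 ≤ 4 * (δ * D.d) := by
      have hγ2 : 1 / 4 ≤ γ ^ 2 := by nlinarith
      rw [div_le_iff₀ (by positivity)]
      nlinarith [mul_le_mul_of_nonneg_left hγ2 hx0]
    linarith
  have h3 : ∑ q : V, ∑ y ∈ univ.erase q,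
      Real.exp (D.e * (((nb H q ∩ A y).card : ℝ) / γ - D.r * D.d))
      ≤ (Fintype.card V : ℝ) ^ 2 * E := by
    refine sum2_bound (by linarith) (fun q y hqy => ?_)
    apply hexp
    have h4 := hA q y hqy
    have h5 : ((nb H q ∩ A y).card : ℝ) / γ ≤ D.r * D.d := by
      rw [div_le_iff₀ hγ0]
      linarith
    linarith
  have h4 : ∑ u : V, (Real.exp (D.e * a u) + Real.exp (D.e * b u))
      ≤ (Fintype.card V : ℝ) * (2 * E) := by
    refine sum1_bound (fun v => ?_) (fun v => ?_)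
    · rw [ha]
      exact hexp _ (by positivity)
    · rw [hb]
      exact hexp _ (by positivity)
  have h5 : ∑ u : V, ∑ y ∈ univ.erase u, Real.exp (D.e * K u y)
      ≤ (Fintype.card V : ℝ) ^ 2 * E := by
    refine sum2_bound (by linarith) (fun q y hqy => ?_)
    rw [hK]
    exact hexp _ (by positivity)
  have hn' : (1 : ℝ) ≤ Fintype.card V := by exact_mod_cast hn
  have h6 : (Fintype.card V : ℝ) * (2 * E) ≤ (Fintype.card V : ℝ) ^ 2 * (2 * E) := by
    refine mul_le_mul_of_nonneg_right ?_ (by linarith)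
    nlinarith
  unfold XI
  rw [Finset.range_zero, Finset.sum_empty]
  nlinarith

end Dyn2

end Pool.Agent.Lib.GHE
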