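import Mathlib
import Pool.Agent.Lib.MP_df0165_co.Ex.Dyn2a

set_option autoImplicit false
set_option linter.unusedSectionVars false

/-!
# Exact Graham-Haggkvist for expander hosts: one step of the dynamics
-/

namespace Pool.Agent.Lib.GHE

open Finset Classical Pool.Agent.Lib.GHA

variable {U V : Type} [Fintype U] [Fintype V]

namespace Dyn2

/-- Density after `t` steps. -/
noncomputable def dn (D : DP) (γ0 : ℝ) (t : ℕ) : ℝ := γ0 - t * (2 * D.m) / (D.n * D.d)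

/-- Bound for the potential after `t` steps. -/
noncomputable def bnd (D : DP) (δ : ℝ) (t : ℕ) : ℝ :=
  Real.exp (D.e * D.d * D.ζ / D.n * t) *
    (7 * (D.n : ℝ) ^ 2 * Real.exp (4 * D.e * δ * D.d) + t * D.n)

/-- The hypotheses for the dynamics. -/
structure Ctx (D : DP) (T : SimpleGraph U) (lw : U → ℕ) (H0 : SimpleGraph V)
    (A Bs : V → Finset V) (γ0 δ ε1 : ℝ) (N : ℕ) : Prop where
  ok : D.Ok
  tree : T.IsTree
  cU : Fintype.card U = D.m + 1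
  degT : ∀ u, (nb T u).card ≤ D.Δ
  lwle : ∀ u, lw u ≤ D.Δ
  lwsum : ∑ u : U, lw u = D.l
  cV : Fintype.card V = D.n
  two : 2 ≤ D.n
  N_le : N ≤ D.n
  sum : sd H0 = γ0 * (D.n * D.d)
  γ_lo : 1 / 2 ≤ γ0
  γ_hi : γ0 ≤ 1
  g_le : D.g ≤ dn D γ0 N
  deg_le : ∀ v, (nb H0 v).card ≤ D.d
  deg : ∀ v, |((nb H0 v).card : ℝ) - γ0 * D.d| ≤ δ * D.d
  cod : ∀ u v, u ≠ v → ((nb H0 u ∩ nb H0 v).card : ℝ) ≤ (γ0 ^ 2 + δ) * D.d
  bs : ∀ u, (Bs u).card ≤ D.d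
  r_nonneg : 0 ≤ D.r
  r_le : D.r ≤ 1 / 2
  acod : ∀ q y, q ≠ y → ((nb H0 q ∩ A y).card : ℝ) ≤ D.r * γ0 * D.d
  k_eq : D.k = 3 / 2
  ζ_eq : D.ζ = D.α / 40
  δ_eq : δ = D.α / 40
  log_le : Real.log (8 * (D.n : ℝ) ^ 2) ≤ D.e * (D.α * D.d / 8)
  ε1_pos : 0 < ε1
  ε1_le : ε1 ≤ D.g / 20
  α_le : D.α ≤ ε1 * D.g / 2
  n_big : 1 / (D.n : ℝ) ≤ D.g / 4

/-- The static theorem, for the given tree. -/
def Stc (V : Type) [Fintype V] (D : DP) (T : SimpleGraph U) (lw : U → ℕ) (ε1 : ℝ) : Prop :=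
  ∀ (H : SimpleGraph V) (γ : ℝ) (As : Finset (Finset V)) (Ts : Finset (Finset V × ℝ × V)),
    D.g ≤ γ → γ ≤ 1 → (∀ v, (nb H v).card ≤ D.d) →
    (∀ v, (γ - D.α) * D.d ≤ (nb H v).card) →
    (∀ u v, u ≠ v → ((nb H u ∩ nb H v).card : ℝ) ≤ (γ ^ 2 + D.α) * D.d) →
    As.card ≤ Fintype.card V ^ 3 → Ts.card ≤ Fintype.card V ^ 3 →
    (∀ A ∈ As, A.card ≤ D.d) → (∀ t ∈ Ts, 0 ≤ t.2.1 ∧ t.2.1 ≤ 1) →
    (∀ t ∈ Ts, ∀ q, q ≠ t.2.2 → ((nb H q ∩ t.1).card : ℝ) ≤ t.2.1 * D.d) →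
    ∃ W : (U → V) → ℝ, St2 T D.m D.Δ H W D.ε ∧ ∀ φ, W φ ≠ 0 →
      (∀ A ∈ As, ((A ∩ im φ).card : ℝ) ≤ A.card / 2 + ε1 * D.d) ∧
      ∀ t ∈ Ts, t.2.2 ∉ im φ → lwt lw univ φ t.1 ≤ (t.2.1 / γ + ε1) * D.l + ε1 * D.d

/-- The claims on the copy `c`. -/
def Cl (D : DP) (T : SimpleGraph U) (lw : U → ℕ) (H0 : SimpleGraph V)
    (A Bs : V → Finset V) (ε1 : ℝ) (f : ℕ → U → V) (c : ℕ) : Prop :=
  Function.Injective (f c) ∧
  (∀ a b, T.Adj a b → (Hs T H0 f c).Adj (f c a) (f c b)) ∧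
  (∀ u, ((Bs u ∩ im (f c)).card : ℝ) ≤ (Bs u).card / 2 + ε1 * D.d) ∧
  (∀ u, ∀ c', c' < c → ((Bs u ∩ im (f c') ∩ im (f c)).card : ℝ) ≤
    (Bs u ∩ im (f c')).card / 2 + ε1 * D.d) ∧
  ∀ y, y ∉ im (f c) → lwt lw univ (f c) (A y) ≤ (D.r + D.α / 4 + ε1) * D.l + ε1 * D.d

/-- Compensated sums. -/
noncomputable def fa (D : DP) (lw : U → ℕ) (f : ℕ → U → V) (t : ℕ) (u : V) : ℝ :=
  aa lw f t u - t * (D.l / D.n) - t * (D.z * D.d / D.n)

noncomputable def fb (D : DP) (lw : U → ℕ) (f : ℕ → U → V) (t : ℕ) (u : V) : ℝ :=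
  t * (D.l / D.n) - aa lw f t u - t * (D.z * D.d / D.n)

noncomputable def fK (D : DP) (lw : U → ℕ) (f : ℕ → U → V) (t : ℕ) (u y : V) : ℝ :=
  KK lw f t u y - t * (D.l / (2 * D.n)) - t * (D.z * D.d / D.n)

/-- The state after `t` steps. -/
def Sta (D : DP) (T : SimpleGraph U) (lw : U → ℕ) (H0 : SimpleGraph V)
    (A Bs : V → Finset V) (γ0 δ ε1 : ℝ) (t : ℕ) (f : ℕ → U → V) : Prop :=
  (∀ c, c < t → Cl D T lw H0 A Bs ε1 f c) ∧
  XI D lw A (dn D γ0 t) (Hs T H0 f t) (fa D lw f t) (fb D lw f t) (fK D lw f t) t f ≤ bnd D δ t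

/-! ## Numbers -/

lemma bnd_succ (D : DP) (δ : ℝ) (t : ℕ) (h : 0 ≤ D.e * D.d * D.ζ / D.n) :
    Real.exp (D.e * D.d * D.ζ / D.n) * bnd D δ t + D.n ≤ bnd D δ (t + 1) := by
  unfold bnd
  set x := D.e * D.d * D.ζ / D.n with hx
  set X := 7 * (D.n : ℝ) ^ 2 * Real.exp (4 * D.e * δ * D.d) with hX
  have h1 : Real.exp (x * ((t + 1 : ℕ) : ℝ)) = Real.exp x * Real.exp (x * t) := by
    rw [← Real.exp_add]
    congr 1
    push_cast
    ring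
  have h2 : 1 ≤ Real.exp (x * ((t + 1 : ℕ) : ℝ)) := Real.one_le_exp (by positivity)
  have h3 : (D.n : ℝ) ≤ Real.exp (x * ((t + 1 : ℕ) : ℝ)) * D.n :=
    le_mul_of_one_le_left (Nat.cast_nonneg _) h2
  calc Real.exp x * (Real.exp (x * t) * (X + t * D.n)) + D.n
      ≤ Real.exp x * (Real.exp (x * t) * (X + t * D.n))
        + Real.exp (x * ((t + 1 : ℕ) : ℝ)) * D.n := by linarith
    _ = Real.exp (x * ((t + 1 : ℕ) : ℝ)) * (X + ((t + 1 : ℕ) : ℝ) * D.n) := by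
        rw [h1]
        push_cast
        ring

section ctx

variable {D : DP} {T : SimpleGraph U} {lw : U → ℕ} {H0 : SimpleGraph V} {A Bs : V → Finset V}
  {γ0 δ ε1 : ℝ} {N : ℕ}

lemma Ctx.α_nonneg (h : Ctx D T lw H0 A Bs γ0 δ ε1 N) : 0 ≤ D.α := h.ok.α_nonneg

lemma Ctx.bnd_le (h : Ctx D T lw H0 A Bs γ0 δ ε1 N) {t : ℕ} (ht : t ≤ D.n) :
    bnd D δ t ≤ Real.exp (D.e * (D.α / 4 * D.d)) := by
  have hn := h.ok.n_pos'
  have he := h.ok.e_pos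
  have hd := h.ok.d_pos'
  have hζ := h.ok.ζ_pos
  have hα := h.α_nonneg
  have ht' : (t : ℝ) ≤ D.n := by exact_mod_cast ht
  have hδ : 0 ≤ δ := by rw [h.δ_eq]; linarith
  unfold bnd
  have h1 : D.e * D.d * D.ζ / D.n * t ≤ D.e * D.d * D.ζ := by
    rw [div_mul_eq_mul_div, div_le_iff₀ hn]
    exact mul_le_mul_of_nonneg_left ht' (by positivity)
  have h2 : 1 ≤ Real.exp (4 * D.e * δ * D.d) := Real.one_le_exp (by positivity)
  have h3 : 7 * (D.n : ℝ) ^ 2 * Real.exp (4 * D.e * δ * D.d) + t * D.n ≤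
      8 * (D.n : ℝ) ^ 2 * Real.exp (4 * D.e * δ * D.d) := by
    have h4 : (t : ℝ) * D.n ≤ (D.n : ℝ) ^ 2 := by
      rw [sq]
      exact mul_le_mul_of_nonneg_right ht' hn.le
    have h5 : (D.n : ℝ) ^ 2 * 1 ≤ (D.n : ℝ) ^ 2 * Real.exp (4 * D.e * δ * D.d) :=
      mul_le_mul_of_nonneg_left h2 (by positivity)
    linarith
  have h6 : 8 * (D.n : ℝ) ^ 2 = Real.exp (Real.log (8 * (D.n : ℝ) ^ 2)) := by
    rw [Real.exp_log (by positivity)]
  calc Real.exp (D.e * D.d * D.ζ / D.n * t) *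
      (7 * (D.n : ℝ) ^ 2 * Real.exp (4 * D.e * δ * D.d) + t * D.n)
      ≤ Real.exp (D.e * D.d * D.ζ) * (8 * (D.n : ℝ) ^ 2 * Real.exp (4 * D.e * δ * D.d)) :=
        mul_le_mul (Real.exp_le_exp.2 h1) h3 (by positivity) (Real.exp_pos _).le
    _ = Real.exp (D.e * D.d * D.ζ) *
        (Real.exp (Real.log (8 * (D.n : ℝ) ^ 2)) * Real.exp (4 * D.e * δ * D.d)) := by rw [← h6]
    _ = Real.exp (D.e * D.d * D.ζ + (Real.log (8 * (D.n : ℝ) ^ 2) + 4 * D.e * δ * D.d)) := by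
        rw [Real.exp_add, Real.exp_add]
    _ ≤ Real.exp (D.e * (D.α / 4 * D.d)) := by
        rw [Real.exp_le_exp]
        have h7 : D.e * D.d * D.ζ + 4 * D.e * δ * D.d = D.e * (D.α * D.d / 8) := by
          rw [h.ζ_eq, h.δ_eq]
          ring
        have h8 : D.e * (D.α / 4 * D.d) = D.e * (D.α * D.d / 8) + D.e * (D.α * D.d / 8) := by
          ring
        have := h.log_le
        linarith

lemma dn_succ (D : DP) (γ0 : ℝ) (t : ℕ) :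
    dn D γ0 (t + 1) = dn D γ0 t - 2 * D.m / (D.n * D.d) := by
  unfold dn
  push_cast
  ring

lemma dn_anti (D : DP) (γ0 : ℝ) {s t : ℕ} (h : s ≤ t) : dn D γ0 t ≤ dn D γ0 s := by
  unfold dn
  have h1 : (s : ℝ) ≤ t := by exact_mod_cast h
  have h2 : (s : ℝ) * (2 * D.m) / (D.n * D.d) ≤ t * (2 * D.m) / (D.n * D.d) :=
    div_le_div_of_nonneg_right (mul_le_mul_of_nonneg_right h1 (by positivity)) (by positivity)
  linarith

lemma dn_zero (D : DP) (γ0 : ℝ) : dn D γ0 0 = γ0 := by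
  unfold dn
  simp

lemma Ctx.dn_ge (h : Ctx D T lw H0 A Bs γ0 δ ε1 N) {t : ℕ} (ht : t ≤ N) : D.g ≤ dn D γ0 t :=
  h.g_le.trans (dn_anti D γ0 ht)

lemma Ctx.dn_le_one (h : Ctx D T lw H0 A Bs γ0 δ ε1 N) (t : ℕ) : dn D γ0 t ≤ 1 := by
  have := dn_anti D γ0 (Nat.zero_le t)
  rw [dn_zero] at this
  exact this.trans h.γ_hi

lemma Ctx.dn_pos (h : Ctx D T lw H0 A Bs γ0 δ ε1 N) {t : ℕ} (ht : t ≤ N) : 0 < dn D γ0 t :=
  h.ok.g_pos.trans_le (h.dn_ge ht)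

/-! ## Reading off a state -/

/-- The density properties of the graph in a state. -/
structure Den (D : DP) (A : V → Finset V) (γ : ℝ) (H : SimpleGraph V) : Prop where
  hi : ∀ v, ((nb H v).card : ℝ) ≤ (γ + D.α / 4) * D.d
  lo : ∀ v, (γ - D.α / 4) * D.d ≤ ((nb H v).card : ℝ)
  cod : ∀ u v, u ≠ v → ((nb H u ∩ nb H v).card : ℝ) ≤ (γ ^ 2 + D.α / 4) * D.d
  acod : ∀ q y, q ≠ y → ((nb H q ∩ A y).card : ℝ) ≤ γ * (D.r + D.α / 4) * D.d

lemma Ctx.den (h : Ctx D T lw H0 A Bs γ0 δ ε1 N) {t : ℕ} (ht : t ≤ N) {f : ℕ → U → V}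
    (hf : Sta D T lw H0 A Bs γ0 δ ε1 t f) : Den D A (dn D γ0 t) (Hs T H0 f t) := by
  obtain ⟨h1, h2, h3, -, -, -⟩ := XI_dev h.ok.e_pos (D.α / 4 * D.d)
    (hf.2.trans (h.bnd_le (ht.trans h.N_le)))
  have hγ := h.dn_pos ht
  have hγ1 := h.dn_le_one t
  have hα := h.α_nonneg
  have hd := h.ok.d_pos'
  set γ := dn D γ0 t with hγdef
  have hs : 0 ≤ D.α / 4 * D.d := by positivity
  have hs1 : γ * (D.α / 4 * D.d) ≤ D.α / 4 * D.d := mul_le_of_le_one_left hs hγ1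
  have hs2 : γ ^ 2 * (D.α / 4 * D.d) ≤ D.α / 4 * D.d :=
    mul_le_of_le_one_left hs (pow_le_one₀ hγ.le hγ1)
  refine ⟨fun v => ?_, fun v => ?_, fun u v huv => ?_, fun q y hqy => ?_⟩
  · have h4 : ((nb (Hs T H0 f t) v).card : ℝ) / γ ≤ D.d + D.α / 4 * D.d := by linarith [(h1 v).1]
    rw [div_le_iff₀ hγ] at h4
    linarith
  · have h4 : D.d - D.α / 4 * D.d ≤ ((nb (Hs T H0 f t) v).card : ℝ) / γ := by linarith [(h1 v).2]
    rw [le_div_iff₀ hγ] at h4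
    linarith
  · have h4 : ((nb (Hs T H0 f t) u ∩ nb (Hs T H0 f t) v).card : ℝ) / γ ^ 2 ≤
      D.d + D.α / 4 * D.d := by linarith [h2 u v huv]
    rw [div_le_iff₀ (by positivity)] at h4
    linarith
  · have h4 : ((nb (Hs T H0 f t) q ∩ A y).card : ℝ) / γ ≤ D.r * D.d + D.α / 4 * D.d := by
      linarith [h3 q y hqy]
    rw [div_le_iff₀ hγ] at h4
    linarith

lemma nb_mono {H H' : SimpleGraph V} (h : H ≤ H') (v : V) : nb H v ⊆ nb H' v := by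
  intro x hx
  rw [mem_nb] at hx ⊢
  exact h hx

lemma Ctx.deg_le' (h : Ctx D T lw H0 A Bs γ0 δ ε1 N) (f : ℕ → U → V) (t : ℕ) (v : V) :
    (nb (Hs T H0 f t) v).card ≤ D.d :=
  (Finset.card_le_card (nb_mono (Hs_le T H0 f t) v)).trans (h.deg_le v)

/-- Number of edges. -/
lemma Ctx.sd_eq (h : Ctx D T lw H0 A Bs γ0 δ ε1 N) {f : ℕ → U → V} {t : ℕ}
    (hf : ∀ c, c < t → Cl D T lw H0 A Bs ε1 f c) :
    sd (Hs T H0 f t) = dn D γ0 t * (D.n * D.d) := by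
  induction t with
  | zero => rw [dn_zero]; exact h.sum
  | succ t ih =>
    have h1 := ih (fun c hc => hf c (Nat.lt_succ_of_lt hc))
    obtain ⟨h2, h3, -⟩ := hf t (Nat.lt_succ_self t)
    rw [Hs_succ, sd_del h.tree h.cU h2 h3, h1, dn_succ]
    have hn := h.ok.n_pos'
    have hd := h.ok.d_pos'
    field_simp

lemma Ctx.gd (h : Ctx D T lw H0 A Bs γ0 δ ε1 N) {t : ℕ} (ht : t < N) {f : ℕ → U → V}
    (hf : Sta D T lw H0 A Bs γ0 δ ε1 t f) :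
    GD D (Hs T H0 f t) (dn D γ0 t) (dn D γ0 (t + 1)) := by
  have hden := h.den ht.le hf
  have hα := h.α_nonneg
  have hd := h.ok.d_pos'
  refine ⟨h.cV, h.sd_eq hf.1, dn_succ D γ0 t, h.dn_ge ht, h.dn_le_one t, h.deg_le' f t,
    fun v => ?_, fun v => ?_⟩
  · refine le_trans ?_ (hden.lo v)
    exact mul_le_mul_of_nonneg_right (by linarith) hd.le
  · refine (hden.hi v).trans ?_
    exact mul_le_mul_of_nonneg_right (by linarith) hd.le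

/-! ## Changing the sequence -/

lemma Cl_congr {f f' : ℕ → U → V} {c : ℕ} (hff : ∀ c', c' ≤ c → f c' = f' c')
    (h : Cl D T lw H0 A Bs ε1 f c) : Cl D T lw H0 A Bs ε1 f' c := by
  obtain ⟨h1, h2, h3, h4, h5⟩ := h
  have e1 : f c = f' c := hff c le_rfl
  have e2 : Hs T H0 f c = Hs T H0 f' c := Hs_congr T H0 (fun c' hc' => hff c' hc'.le)
  refine ⟨e1 ▸ h1, ?_, ?_, ?_, ?_⟩
  · rw [← e1, ← e2]; exact h2
  · rw [← e1]; exact h3
  · intro u c' hc'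
    rw [← e1, ← hff c' hc'.le]
    exact h4 u c' hc'
  · rw [← e1]; exact h5

lemma aa_congr {f f' : ℕ → U → V} {t : ℕ} (hff : ∀ c, c < t → f c = f' c) (u : V) :
    aa lw f t u = aa lw f' t u := by
  unfold aa
  refine Finset.sum_congr rfl (fun c hc => ?_)
  rw [hff c (Finset.mem_range.1 hc)]

lemma KK_congr {f f' : ℕ → U → V} {t : ℕ} (hff : ∀ c, c < t → f c = f' c) (u y : V) :
    KK lw f t u y = KK lw f' t u y := by
  unfold KK
  refine Finset.sum_congr rfl (fun c hc => ?_)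
  rw [hff c (Finset.mem_range.1 hc)]

lemma aa_update (f : ℕ → U → V) (t : ℕ) (φ : U → V) (u : V) :
    aa lw (Function.update f t φ) (t + 1) u = aa lw f t u + rq lw φ u := by
  have h1 : aa lw (Function.update f t φ) t u = aa lw f t u :=
    aa_congr (fun c hc => Function.update_of_ne hc.ne _ _) u
  rw [← h1]
  unfold aa
  rw [Finset.sum_range_succ, Function.update_self]

lemma KK_update (f : ℕ → U → V) (t : ℕ) (φ : U → V) (u y : V) :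
    KK lw (Function.update f t φ) (t + 1) u y = KK lw f t u y +
      if y ∈ im φ then rq lw φ u else 0 := by
  have h1 : KK lw (Function.update f t φ) t u y = KK lw f t u y :=
    KK_congr (fun c hc => Function.update_of_ne hc.ne _ _) u y
  rw [← h1]
  unfold KK
  rw [Finset.sum_range_succ, Function.update_self]

lemma Hs_update (T : SimpleGraph U) (H0 : SimpleGraph V) (f : ℕ → U → V) (t : ℕ) (φ : U → V) :
    Hs T H0 (Function.update f t φ) t = Hs T H0 f t :=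
  Hs_congr T H0 (fun _ hc => Function.update_of_ne hc.ne _ _)

end ctx

end Dyn2

end Pool.Agent.Lib.GHE
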