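import Mathlib
import Pool.Agent.Lib.MP_df0165_co.Ex.Dyn2b

set_option autoImplicit false
set_option linter.unusedSectionVars false

/-!
# Exact Graham-Haggkvist for expander hosts: induction of the dynamics
-/

namespace Pool.Agent.Lib.GHE

open Finset Classical Pool.Agent.Lib.GHA

variable {U V : Type} [Fintype U] [Fintype V]

namespace Dyn2

variable {D : DP} {T : SimpleGraph U} {lw : U → ℕ} {H0 : SimpleGraph V} {A Bs : V → Finset V}
  {γ0 δ ε1 : ℝ} {N : ℕ}

/-- The number of leaves at the neighbourhood of a vertex, for a new copy. -/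
lemma Ctx.num_new (h : Ctx D T lw H0 A Bs γ0 δ ε1 N) {t : ℕ} (ht : t < N) :
    (min 1 (dn D γ0 t ^ 2 + D.α) / dn D γ0 t + ε1) * D.l + ε1 * D.d
      ≤ 3 / 2 * D.d * dn D γ0 (t + 1) := by
  have hγ := h.dn_pos ht.le
  have hg := h.dn_ge ht.le
  have hg' := h.dn_ge (Nat.succ_le_of_lt ht)
  have hd := h.ok.d_pos'
  have hn := h.ok.n_pos'
  have hε := h.ε1_pos
  have hl : (D.l : ℝ) ≤ D.d := by exact_mod_cast h.ok.l_le
  have hl0 : (0 : ℝ) ≤ D.l := Nat.cast_nonneg _
  have hα := h.α_nonneg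
  have h1 : min 1 (dn D γ0 t ^ 2 + D.α) / dn D γ0 t ≤ dn D γ0 t + ε1 / 2 := by
    rw [div_le_iff₀ hγ]
    have h2 : D.α ≤ ε1 * dn D γ0 t / 2 := by
      have h3 : ε1 * D.g ≤ ε1 * dn D γ0 t := mul_le_mul_of_nonneg_left hg hε.le
      linarith [h.α_le]
    calc min 1 (dn D γ0 t ^ 2 + D.α) ≤ dn D γ0 t ^ 2 + D.α := min_le_right _ _
      _ ≤ dn D γ0 t ^ 2 + ε1 * dn D γ0 t / 2 := by linarith
      _ = (dn D γ0 t + ε1 / 2) * dn D γ0 t := by ring
  have h4 : dn D γ0 t ≤ dn D γ0 (t + 1) + D.g / 4 := by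
    rw [dn_succ]
    have h5 : 2 * (D.m : ℝ) / (D.n * D.d) ≤ 1 / D.n := by
      rw [div_le_div_iff₀ (by positivity) hn, one_mul]
      have h6 : 2 * (D.m : ℝ) ≤ D.d := by exact_mod_cast h.ok.m_le
      calc 2 * (D.m : ℝ) * D.n ≤ D.d * D.n := mul_le_mul_of_nonneg_right h6 hn.le
        _ = D.n * D.d := by ring
    linarith [h.n_big]
  have h7 : (min 1 (dn D γ0 t ^ 2 + D.α) / dn D γ0 t + ε1) * D.l ≤
      (dn D γ0 (t + 1) + D.g / 4 + 3 / 2 * ε1) * D.d := by
    refine (mul_le_mul_of_nonneg_right ?_ hl0).trans (mul_le_mul_of_nonneg_left hl ?_)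
    · linarith
    · have := h.ok.g_pos
      linarith
  have h8 : (dn D γ0 (t + 1) + D.g / 4 + 3 / 2 * ε1) * D.d + ε1 * D.d =
      (dn D γ0 (t + 1) + D.g / 4 + 5 / 2 * ε1) * D.d := by ring
  have h9 : (dn D γ0 (t + 1) + D.g / 4 + 5 / 2 * ε1) * D.d ≤
      (3 / 2 * dn D γ0 (t + 1)) * D.d := by
    refine mul_le_mul_of_nonneg_right ?_ hd.le
    linarith [h.ε1_le]
  linarith

lemma nw_del_le (T : SimpleGraph U) (H : SimpleGraph V) (lw : U → ℕ) (φ : U → V) (y : V) :
    nw (del T H φ) (fun u => (rq lw φ u : ℝ)) y ≤ lwt lw univ φ (nb H y) := by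
  rw [← nw_rq]
  unfold nw
  exact Finset.sum_le_sum_of_subset_of_nonneg (nb_mono (del_le T H φ) y)
    (fun _ _ _ => Nat.cast_nonneg _)

/-- Test sets. -/
noncomputable def As (Bs : V → Finset V) (f : ℕ → U → V) (t : ℕ) : Finset (Finset V) :=
  univ.image Bs ∪ ((univ : Finset V) ×ˢ range t).image (fun p => Bs p.1 ∩ im (f p.2))

noncomputable def Ts (A : V → Finset V) (H : SimpleGraph V) (x y : ℝ) :
    Finset (Finset V × ℝ × V) :=
  univ.image (fun v => (A v, x, v)) ∪ univ.image (fun v => (nb H v, y, v))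

lemma card_As (Bs : V → Finset V) (f : ℕ → U → V) (t : ℕ) (ht : t ≤ Fintype.card V)
    (h2 : 2 ≤ Fintype.card V) : (As Bs f t).card ≤ Fintype.card V ^ 3 := by
  have h3 : (As Bs f t).card ≤ Fintype.card V + Fintype.card V * Fintype.card V := by
    refine (Finset.card_union_le _ _).trans (Nat.add_le_add ?_ ?_)
    · exact Finset.card_image_le
    · refine Finset.card_image_le.trans ?_
      rw [Finset.card_product, Finset.card_range]
      exact Nat.mul_le_mul_left _ ht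
  refine h3.trans ?_
  generalize Fintype.card V = n at *
  nlinarith [Nat.mul_le_mul h2 h2, Nat.mul_le_mul_left (n * n) h2]

lemma card_Ts (A : V → Finset V) (H : SimpleGraph V) (x y : ℝ)
    (h2 : 2 ≤ Fintype.card V) : (Ts A H x y).card ≤ Fintype.card V ^ 3 := by
  have h3 : (Ts A H x y).card ≤ Fintype.card V + Fintype.card V :=
    (Finset.card_union_le _ _).trans
      (Nat.add_le_add Finset.card_image_le Finset.card_image_le)
  refine h3.trans ?_
  generalize Fintype.card V = n at *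
  nlinarith [Nat.mul_le_mul h2 h2, Nat.mul_le_mul_left (n * n) h2]

/-- Existence of the weights for the graph in a state. -/
lemma Ctx.weights (h : Ctx D T lw H0 A Bs γ0 δ ε1 N) (hS : Stc V D T lw ε1) {t : ℕ} (ht : t < N)
    {f : ℕ → U → V} (hf : Sta D T lw H0 A Bs γ0 δ ε1 t f) :
    ∃ W : (U → V) → ℝ, St2 T D.m D.Δ (Hs T H0 f t) W D.ε ∧ ∀ φ, W φ ≠ 0 →
      (∀ u, ((Bs u ∩ im φ).card : ℝ) ≤ (Bs u).card / 2 + ε1 * D.d) ∧
      (∀ u, ∀ c, c < t → ((Bs u ∩ im (f c) ∩ im φ).card : ℝ) ≤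
        (Bs u ∩ im (f c)).card / 2 + ε1 * D.d) ∧
      (∀ y, y ∉ im φ → lwt lw univ φ (A y) ≤ (D.r + D.α / 4 + ε1) * D.l + ε1 * D.d) ∧
      (∀ y, y ∉ im φ → nw (del T (Hs T H0 f t) φ) (fun u => (rq lw φ u : ℝ)) y /
        dn D γ0 (t + 1) ≤ D.k * D.d) := by
  have hden := h.den ht.le hf
  have hα := h.α_nonneg
  have hd := h.ok.d_pos'
  have hγ := h.dn_pos ht.le
  have hγ1 := h.dn_le_one t
  have hγ' := h.dn_pos (Nat.succ_le_of_lt ht)
  have hnew := h.num_new ht
  have hα1 : D.α ≤ 1 := by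
    have h1 := h.α_le
    have h2 := h.ε1_le
    have h3 := h.ok.g_le
    have h4 : ε1 * D.g ≤ ε1 * 1 := mul_le_mul_of_nonneg_left h3 h.ε1_pos.le
    linarith
  have c0 : ∀ B ∈ As Bs f t, B.card ≤ D.d := by
    intro B hB
    rcases Finset.mem_union.1 hB with hB | hB
    · obtain ⟨u, -, rfl⟩ := Finset.mem_image.1 hB
      exact h.bs u
    · obtain ⟨p, -, rfl⟩ := Finset.mem_image.1 hB
      exact (Finset.card_le_card Finset.inter_subset_left).trans (h.bs p.1)
  have c1 : ∀ p ∈ Ts A (Hs T H0 f t) (dn D γ0 t * (D.r + D.α / 4))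
      (min 1 (dn D γ0 t ^ 2 + D.α)), 0 ≤ p.2.1 ∧ p.2.1 ≤ 1 := by
    intro p hp
    rcases Finset.mem_union.1 hp with hp | hp
    · obtain ⟨u, -, rfl⟩ := Finset.mem_image.1 hp
      have hr := h.r_nonneg
      have hr' := h.r_le
      refine ⟨by positivity, ?_⟩
      calc dn D γ0 t * (D.r + D.α / 4) ≤ 1 * 1 :=
            mul_le_mul hγ1 (by linarith) (by positivity) (by norm_num)
        _ = 1 := by norm_num
    · obtain ⟨u, -, rfl⟩ := Finset.mem_image.1 hp
      exact ⟨le_min (by norm_num) (by positivity), min_le_left _ _⟩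
  have c2 : ∀ p ∈ Ts A (Hs T H0 f t) (dn D γ0 t * (D.r + D.α / 4))
      (min 1 (dn D γ0 t ^ 2 + D.α)), ∀ q, q ≠ p.2.2 →
      ((nb (Hs T H0 f t) q ∩ p.1).card : ℝ) ≤ p.2.1 * D.d := by
    intro p hp q hq
    rcases Finset.mem_union.1 hp with hp | hp
    · obtain ⟨u, -, rfl⟩ := Finset.mem_image.1 hp
      exact hden.acod q u hq
    · obtain ⟨u, -, rfl⟩ := Finset.mem_image.1 hp
      have h5 : ((nb (Hs T H0 f t) q ∩ nb (Hs T H0 f t) u).card : ℝ) ≤ D.d := by
        exact_mod_cast (Finset.card_le_card Finset.inter_subset_left).trans (h.deg_le' f t q)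
      have h6 : ((nb (Hs T H0 f t) q ∩ nb (Hs T H0 f t) u).card : ℝ) ≤
          (dn D γ0 t ^ 2 + D.α) * D.d :=
        (hden.cod q u hq).trans (mul_le_mul_of_nonneg_right (by linarith) hd.le)
      rcases min_choice 1 (dn D γ0 t ^ 2 + D.α) with h7 | h7
      · simp only [h7, one_mul]
        exact h5
      · simp only [h7]
        exact h6
  obtain ⟨W, hW, hWt⟩ := hS (Hs T H0 f t) (dn D γ0 t) (As Bs f t)
    (Ts A (Hs T H0 f t) (dn D γ0 t * (D.r + D.α / 4)) (min 1 (dn D γ0 t ^ 2 + D.α)))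
    (h.dn_ge ht.le) hγ1 (h.deg_le' f t)
    (fun v => (mul_le_mul_of_nonneg_right (by linarith) hd.le).trans (hden.lo v))
    (fun u v huv => (hden.cod u v huv).trans (mul_le_mul_of_nonneg_right (by linarith) hd.le))
    (card_As Bs f t (by rw [h.cV]; exact ht.le.trans h.N_le) (by rw [h.cV]; exact h.two))
    (card_Ts A _ _ _ (by rw [h.cV]; exact h.two)) c0 c1 c2
  refine ⟨W, hW, fun φ hφ => ?_⟩
  obtain ⟨h1, h2⟩ := hWt φ hφ
  refine ⟨fun u => ?_, fun u c hc => ?_, fun y hy => ?_, fun y hy => ?_⟩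
  · exact h1 (Bs u) (Finset.mem_union_left _ (Finset.mem_image_of_mem _ (Finset.mem_univ u)))
  · refine h1 (Bs u ∩ im (f c)) (Finset.mem_union_right _ ?_)
    exact Finset.mem_image.2 ⟨(u, c), Finset.mem_product.2
      ⟨Finset.mem_univ _, Finset.mem_range.2 hc⟩, rfl⟩
  · have h3 := h2 (A y, dn D γ0 t * (D.r + D.α / 4), y)
      (Finset.mem_union_left _ (Finset.mem_image.2 ⟨y, Finset.mem_univ _, rfl⟩)) hy
    have h4 : dn D γ0 t * (D.r + D.α / 4) / dn D γ0 t = D.r + D.α / 4 := by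
      field_simp
    simp only [h4] at h3
    exact h3
  · have h3 := h2 (nb (Hs T H0 f t) y, min 1 (dn D γ0 t ^ 2 + D.α), y)
      (Finset.mem_union_right _ (Finset.mem_image.2 ⟨y, Finset.mem_univ _, rfl⟩)) hy
    rw [div_le_iff₀ hγ', h.k_eq]
    exact ((nw_del_le T _ lw φ y).trans h3).trans hnew

/-- One step. -/
lemma Ctx.step (h : Ctx D T lw H0 A Bs γ0 δ ε1 N) (hS : Stc V D T lw ε1) (hOne : StOne2)
    {t : ℕ} (ht : t < N) {f : ℕ → U → V} (hf : Sta D T lw H0 A Bs γ0 δ ε1 t f) :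
    ∃ f' : ℕ → U → V, Sta D T lw H0 A Bs γ0 δ ε1 (t + 1) f' := by
  obtain ⟨W, hW, hWt⟩ := h.weights hS ht hf
  obtain ⟨φ, hφ0, hφ⟩ := hOne U V D T (Hs T H0 f t) (dn D γ0 t) (dn D γ0 (t + 1)) W lw A
    (fa D lw f t) (fb D lw f t) (fK D lw f t) t f h.ok h.tree h.cU h.degT h.lwle h.lwsum
    (fun c hc => (hf.1 c hc).1) (h.gd ht hf) hW (fun φ hφ => (hWt φ hφ).2.2.2)
  refine ⟨Function.update f t φ, ?_, ?_⟩
  · intro c hc
    rcases Nat.lt_succ_iff_lt_or_eq.1 hc with hc | rfl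
    · refine Cl_congr (fun c' hc' => ?_) (hf.1 c hc)
      rw [Function.update_of_ne (by omega)]
    · obtain ⟨h1, h2, h3, -⟩ := hWt φ hφ0
      obtain ⟨h4, h5⟩ := hW.hom φ hφ0
      refine ⟨?_, ?_, ?_, ?_, ?_⟩
      · rw [Function.update_self]; exact h4
      · rw [Function.update_self, Hs_update]; exact h5
      · rw [Function.update_self]; exact h1
      · intro u c' hc'
        rw [Function.update_self, Function.update_of_ne hc'.ne]
        exact h2 u c' hc'
      · rw [Function.update_self]; exact h3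
  · have e1 : Hs T H0 (Function.update f t φ) (t + 1) = del T (Hs T H0 f t) φ := by
      rw [Hs_succ, Hs_update, Function.update_self]
    have e2 : fa D lw (Function.update f t φ) (t + 1) =
        fun u => fa D lw f t u + (rq lw φ u - D.l / D.n - D.z * D.d / D.n) := by
      funext u
      unfold fa
      rw [aa_update]
      push_cast
      ring
    have e3 : fb D lw (Function.update f t φ) (t + 1) =
        fun u => fb D lw f t u + (D.l / D.n - rq lw φ u - D.z * D.d / D.n) := by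
      funext u
      unfold fb
      rw [aa_update]
      push_cast
      ring
    have e4 : fK D lw (Function.update f t φ) (t + 1) =
        fun u y => fK D lw f t u y +
          (rq lw φ u * im1 φ y - D.l / (2 * D.n) - D.z * D.d / D.n) := by
      funext u y
      unfold fK
      rw [KK_update]
      have h1 : ((if y ∈ im φ then rq lw φ u else 0 : ℕ) : ℝ) = rq lw φ u * im1 φ y := by
        unfold im1 im
        split_ifs <;> simp
      push_cast at h1 ⊢
      rw [h1]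
      ring
    rw [e1, e2, e3, e4]
    refine hφ.trans (le_trans ?_ (bnd_succ D δ t ?_))
    · have := mul_le_mul_of_nonneg_left hf.2 (Real.exp_pos (D.e * D.d * D.ζ / D.n)).le
      linarith
    · have h1 := h.ok.e_pos
      have h2 := h.ok.ζ_pos
      positivity

/-- The state after `t` steps. -/
lemma Ctx.run (h : Ctx D T lw H0 A Bs γ0 δ ε1 N) (hS : Stc V D T lw ε1) (hOne : StOne2)
    (hne : Nonempty V) (t : ℕ) (ht : t ≤ N) :
    ∃ f : ℕ → U → V, Sta D T lw H0 A Bs γ0 δ ε1 t f := by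
  induction t with
  | zero =>
    refine ⟨fun _ _ => hne.some, fun c hc => absurd hc (Nat.not_lt_zero c), ?_⟩
    have hδ : 0 ≤ δ := by
      rw [h.δ_eq]
      have := h.α_nonneg
      linarith
    have h1 := XI_zero D lw A γ0 δ H0 (fun _ _ => hne.some : ℕ → U → V) h.ok.e_pos hδ h.γ_lo
      (by rw [h.cV]; exact h.ok.n_pos) h.deg h.cod h.acod
      (fa D lw (fun _ _ => hne.some : ℕ → U → V) 0) (fb D lw (fun _ _ => hne.some : ℕ → U → V) 0)
      (fK D lw (fun _ _ => hne.some : ℕ → U → V) 0)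
      (fun u => by simp [fa, aa]) (fun u => by simp [fb, aa]) (fun u y => by simp [fK, KK])
    rw [dn_zero]
    refine h1.trans (le_of_eq ?_)
    rw [h.cV]
    unfold bnd
    simp
  | succ t ih =>
    obtain ⟨f, hf⟩ := ih (by omega)
    exact h.step hS hOne (by omega) hf

end Dyn2

end Pool.Agent.Lib.GHE
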