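import Mathlib
import Pool.Agent.Lib.MP_df0165_co.Ex.Dyn2c

set_option autoImplicit false
set_option linter.unusedSectionVars false

/-!
# Exact Graham-Haggkvist for expander hosts: the dynamic theorem
-/

namespace Pool.Agent.Lib.GHE

open Finset Classical Pool.Agent.Lib.GHA

variable {U V : Type} [Fintype U] [Fintype V]

namespace Dyn2

section final

variable {D : DP} {T : SimpleGraph U} {lw : U → ℕ} {H0 : SimpleGraph V} {A Bs : V → Finset V}
  {γ0 δ ε1 : ℝ} {N : ℕ}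

/-- The drift of the compensated sums. -/
lemma Ctx.drift (h : Ctx D T lw H0 A Bs γ0 δ ε1 N) : (N : ℝ) * (D.z * D.d / D.n) ≤ D.z * D.d := by
  have hn := h.ok.n_pos'
  have hN : (N : ℝ) ≤ D.n := by exact_mod_cast h.N_le
  have hz := h.ok.z_pos
  have hd := h.ok.d_pos'
  rw [← mul_div_assoc, div_le_iff₀ hn]
  calc (N : ℝ) * (D.z * D.d) ≤ D.n * (D.z * D.d) := mul_le_mul_of_nonneg_right hN (by positivity)
    _ = D.z * D.d * D.n := by ring

lemma Ctx.two_sets (h : Ctx D T lw H0 A Bs γ0 δ ε1 N) {f : ℕ → U → V}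
    (hf : ∀ c, c < N → Cl D T lw H0 A Bs ε1 f c) (ε : ℝ) (hε : 8 * ε1 ≤ ε) (u : V) (c c' : ℕ)
    (hc : c < N) (hcc : c' < c) :
    ((Bs u ∩ im (f c') ∩ im (f c)).card : ℝ) ≤ (Bs u).card / 4 + ε * D.d := by
  have h1 := (hf c hc).2.2.2.1 u c' hcc
  have h2 := (hf c' (hcc.trans hc)).2.2.1 u
  have hd := h.ok.d_pos'
  have h3 : ε1 * D.d ≤ ε / 8 * D.d := mul_le_mul_of_nonneg_right (by linarith) hd.le
  have h4 : 0 < ε1 * D.d := mul_pos h.ε1_pos hd
  linarith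

/-- The conclusions. -/
lemma Ctx.final (h : Ctx D T lw H0 A Bs γ0 δ ε1 N) {f : ℕ → U → V}
    (hf : Sta D T lw H0 A Bs γ0 δ ε1 N f) (ε : ℝ) (hε : 8 * ε1 ≤ ε) (hεz : 8 * D.z ≤ ε)
    (hεα : D.α ≤ ε / 2) (hα1 : D.α ≤ D.g) :
    (∀ t, t < N → Function.Injective (f t) ∧
      ∀ a b, T.Adj a b → (Hs T H0 f t).Adj (f t a) (f t b)) ∧
    (∀ v, ((nb (Hs T H0 f N) v).card : ℝ) ≤ 2 * dn D γ0 N * D.d) ∧
    (∀ u, |(aa lw f N u : ℝ) - N * D.l / D.n| ≤ ε * D.d) ∧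
    (∀ u y, u ≠ y → (KK lw f N u y : ℝ) ≤ N * D.l / (2 * D.n) + ε * D.d) ∧
    (∀ u c, c < N → ((Bs u ∩ im (f c)).card : ℝ) ≤ (Bs u).card / 2 + ε * D.d) ∧
    (∀ u c c', c < N → c' < N → c ≠ c' →
      ((Bs u ∩ im (f c) ∩ im (f c')).card : ℝ) ≤ (Bs u).card / 4 + ε * D.d) ∧
    (∀ c y, c < N → y ∉ im (f c) →
      ((∑ u ∈ A y, rq lw (f c) u : ℕ) : ℝ) ≤ D.r * D.l + ε * D.d) ∧
    (∀ c y, c < N → y ∉ im (f c) →
      ((∑ u ∈ nb (Hs T H0 f N) y, rq lw (f c) u : ℕ) : ℝ) ≤ 2 * dn D γ0 N * D.d) := by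
  have hden := h.den le_rfl hf
  have hd := h.ok.d_pos'
  have hn := h.ok.n_pos'
  have hγ := h.dn_pos le_rfl
  have hg := h.dn_ge le_rfl
  have hz := h.ok.z_pos
  have hα := h.α_nonneg
  have hε1 := h.ε1_pos
  have hl : (D.l : ℝ) ≤ D.d := by exact_mod_cast h.ok.l_le
  have hdrift := h.drift
  obtain ⟨-, -, -, h4, h5, h6⟩ := XI_dev h.ok.e_pos (D.α / 4 * D.d)
    (hf.2.trans (h.bnd_le h.N_le))
  have hzd : D.z * D.d ≤ ε / 8 * D.d := mul_le_mul_of_nonneg_right (by linarith) hd.le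
  have hαd : D.α / 4 * D.d ≤ ε / 8 * D.d := mul_le_mul_of_nonneg_right (by linarith) hd.le
  have hεd1 : ε1 * D.d ≤ ε / 8 * D.d := mul_le_mul_of_nonneg_right (by linarith) hd.le
  have hεd0 : 0 < ε * D.d := mul_pos (by linarith) hd
  refine ⟨fun t ht => ⟨(hf.1 t ht).1, (hf.1 t ht).2.1⟩, fun v => ?_, fun u => ?_,
    fun u y huy => ?_, fun u c hc => ?_, fun u c c' hc hc' hcc => ?_, fun c y hc hy => ?_,
    fun c y hc hy => ?_⟩
  · refine (hden.hi v).trans (mul_le_mul_of_nonneg_right ?_ hd.le)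
    linarith
  · have h7 := (h4 u).1
    have h8 := (h4 u).2
    unfold fa at h7
    unfold fb at h8
    have h9 : (N : ℝ) * D.l / D.n = N * (D.l / D.n) := by ring
    rw [abs_le, h9]
    constructor <;> linarith
  · have h7 := h5 u y huy
    unfold fK at h7
    have h9 : (N : ℝ) * D.l / (2 * D.n) = N * (D.l / (2 * D.n)) := by ring
    rw [h9]
    linarith
  · have h7 := (hf.1 c hc).2.2.1 u
    linarith
  · rcases lt_or_gt_of_ne hcc with h7 | h7
    · exact h.two_sets hf.1 ε hε u c' c hc' h7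
    · rw [Finset.inter_right_comm]
      exact h.two_sets hf.1 ε hε u c c' hc h7
  · rw [sum_rq_eq_lwt]
    have h7 := (hf.1 c hc).2.2.2.2 y hy
    have h8 : (D.α / 4 + ε1) * D.l ≤ (D.α / 4 + ε1) * D.d :=
      mul_le_mul_of_nonneg_left hl (by linarith)
    linarith
  · rw [sum_rq_eq_lwt, ← nw_rq]
    have h7 := h6 c hc y hy
    rw [h.k_eq] at h7
    have h8 : nw (Hs T H0 f N) (fun u => (rq lw (f c) u : ℝ)) y / dn D γ0 N ≤ 2 * D.d := by
      have h9 : D.α / 4 * D.d ≤ 1 / 2 * D.d := by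
        refine mul_le_mul_of_nonneg_right ?_ hd.le
        have := h.ok.g_le
        linarith
      linarith
    rw [div_le_iff₀ hγ] at h8
    linarith

end final

/-- `n ≥ 4 / g`. -/
lemma n_big {n d : ℕ} {g κ γ0 : ℝ} (hg : 0 < g) (hn : 2 ≤ n) (hκ : κ ≤ g / 16)
    (hlog : Real.log n ≤ κ * d) (hγ : 1 / 2 ≤ γ0) (hnd : γ0 * d ≤ n) : 1 / (n : ℝ) ≤ g / 4 := by
  have hn0 : (0 : ℝ) < n := by
    have : 0 < n := by omega
    exact_mod_cast this
  have h2 : (1 : ℝ) / 2 ≤ Real.log n := by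
    have h3 : Real.log 2 ≤ Real.log n := Real.log_le_log (by norm_num) (by exact_mod_cast hn)
    have := Real.log_two_gt_d9
    linarith
  have hd : (0 : ℝ) ≤ d := Nat.cast_nonneg _
  have h3 : κ * d ≤ g / 16 * d := mul_le_mul_of_nonneg_right hκ hd
  have h4 : 1 / 2 * (d : ℝ) ≤ γ0 * d := mul_le_mul_of_nonneg_right hγ hd
  rw [div_le_iff₀ hn0]
  have h5 : g / 4 * (1 / 2 * d) ≤ g / 4 * n := mul_le_mul_of_nonneg_left (by linarith)
    (by positivity)
  linarith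

/-- The logarithm of the number of terms. -/
lemma log_num {n d Δ : ℕ} {κ α ζ g : ℝ} (hα : 0 < α) (hζ : 0 < ζ) (hg : 0 < g) (hΔ : 1 ≤ Δ)
    (hn : 2 ≤ n) (hκ : κ ≤ α * ζ * g ^ 6 / 40000) (hlog : (Δ : ℝ) * Real.log n ≤ κ * d) :
    Real.log (8 * (n : ℝ) ^ 2) ≤ ζ * g ^ 6 / (1000 * Δ) * (α * d / 8) := by
  have hn' : (2 : ℝ) ≤ n := by exact_mod_cast hn
  have hΔ' : (0 : ℝ) < Δ := by
    have : 0 < Δ := by omega
    exact_mod_cast this
  have hd : (0 : ℝ) ≤ d := Nat.cast_nonneg _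
  have h1 : Real.log (8 * (n : ℝ) ^ 2) ≤ 5 * Real.log n := by
    have h2 : 8 * (n : ℝ) ^ 2 ≤ (n : ℝ) ^ 5 := by
      have h3 : (2 : ℝ) ^ 3 ≤ (n : ℝ) ^ 3 := pow_le_pow_left₀ (by norm_num) hn' 3
      calc 8 * (n : ℝ) ^ 2 = 2 ^ 3 * (n : ℝ) ^ 2 := by norm_num
        _ ≤ (n : ℝ) ^ 3 * (n : ℝ) ^ 2 := mul_le_mul_of_nonneg_right h3 (by positivity)
        _ = (n : ℝ) ^ 5 := by ring
    calc Real.log (8 * (n : ℝ) ^ 2) ≤ Real.log ((n : ℝ) ^ 5) :=
          Real.log_le_log (by positivity) h2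
      _ = 5 * Real.log n := by rw [Real.log_pow]; norm_num
  have h4 : κ * d ≤ α * ζ * g ^ 6 / 40000 * d := mul_le_mul_of_nonneg_right hκ hd
  have h5 : ζ * g ^ 6 / (1000 * Δ) * (α * d / 8) = (α * ζ * g ^ 6 / 8000 * d) / Δ := by
    field_simp
    ring
  rw [h5, le_div_iff₀ hΔ']
  have h6 : 5 * ((Δ : ℝ) * Real.log n) ≤ 5 * (α * ζ * g ^ 6 / 40000 * d) := by linarith
  calc Real.log (8 * (n : ℝ) ^ 2) * Δ ≤ 5 * Real.log n * Δ :=
        mul_le_mul_of_nonneg_right h1 hΔ'.le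
    _ = 5 * ((Δ : ℝ) * Real.log n) := by ring
    _ ≤ 5 * (α * ζ * g ^ 6 / 40000 * d) := h6
    _ = α * ζ * g ^ 6 / 8000 * d := by ring

end Dyn2

open Dyn2 in
theorem stDyn2 (hStat : StStat2) (hOne : StOne2) : StDyn2 := by
  intro g β ε hg hg8 hβ hβ1 hε hε1
  have hg1 : g < 1 := by linarith
  set ε1 : ℝ := min (ε / 8) (g / 20) with hε1def
  have hε10 : 0 < ε1 := lt_min (by positivity) (by positivity)
  have hε1ε : ε1 ≤ ε / 8 := min_le_left _ _
  have hε1g : ε1 ≤ g / 20 := min_le_right _ _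
  obtain ⟨α0, hα0, hα0le, hS⟩ := hStat g β ε1 hg hg1 hβ hβ1 hε10 (by linarith)
  set z : ℝ := ε / 8 with hz
  have hz0 : 0 < z := by positivity
  set α : ℝ := min α0 (z * g ^ 2 / 100) with hα
  have hαpos : 0 < α := lt_min hα0 (by positivity)
  have hαα0 : α ≤ α0 := min_le_left _ _
  have hαz : α ≤ z * g ^ 2 / 100 := min_le_right _ _
  have hg2 : g ^ 2 ≤ g := by nlinarith
  have hg6 : g ^ 6 ≤ 1 := pow_le_one₀ hg.le hg1.le
  have hg4 : g ^ 4 ≤ 1 := pow_le_one₀ hg.le hg1.le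
  have hzg : z * g ^ 2 ≤ z * g := mul_le_mul_of_nonneg_left hg2 hz0.le
  have hzg1 : z * g ≤ z * 1 := mul_le_mul_of_nonneg_left hg1.le hz0.le
  have hzg2 : z * g ≤ 1 * g := mul_le_mul_of_nonneg_right (by linarith) hg.le
  set ζ : ℝ := α / 40 with hζ
  have hζ0 : 0 < ζ := by positivity
  set ε0 : ℝ := ζ * g ^ 4 / 1000 with hε0
  have hε00 : 0 < ε0 := by positivity
  have hζ1 : ζ ≤ 1 := by linarith
  have hε01 : ε0 < 1 := by
    have : ζ * g ^ 4 ≤ 1 * 1 := mul_le_mul hζ1 hg4 (by positivity) (by norm_num)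
    rw [hε0]
    linarith
  obtain ⟨κ0, hκ0, hS0⟩ := hS ε0 hε00 hε01
  set κ : ℝ := min κ0 (min (g / 16) (α * ζ * g ^ 6 / 40000)) with hκ
  have hκpos : 0 < κ := lt_min hκ0 (lt_min (by positivity) (by positivity))
  have hκκ0 : κ ≤ κ0 := min_le_left _ _
  have hκg : κ ≤ g / 16 := (min_le_right _ _).trans (min_le_left _ _)
  have hκα : κ ≤ α * ζ * g ^ 6 / 40000 := (min_le_right _ _).trans (min_le_right _ _)
  refine ⟨α / 40, hζ0, κ, hκpos, ?_⟩
  intro U V _ _ T lw m Δ d l N H0 A Bs γ0 r hT hU hm hmd hΔ hdegT hlw hlsum hl hn2 hlog hN hsd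
    hγlo hγhi hgN hdeg0 hdev hcod hBs _ hr0 hr1 hacod
  have hΔ' : (1 : ℝ) ≤ Δ := by exact_mod_cast hΔ
  have hm' : (1 : ℝ) ≤ m := by exact_mod_cast hm
  have hd0 : (0 : ℝ) < d := by
    by_contra hcon
    push Not at hcon
    have h1 : (1 - β) * (d : ℝ) ≤ 0 := mul_nonpos_of_nonneg_of_nonpos (by linarith) hcon
    linarith
  have hd1 : 1 ≤ d := by exact_mod_cast hd0
  have h2m : 2 * m ≤ d := by
    have h1 : (1 - β) * (d : ℝ) ≤ 1 * d := mul_le_mul_of_nonneg_right (by linarith) hd0.le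
    have h2 : 2 * (m : ℝ) ≤ d := by linarith
    exact_mod_cast h2
  have hn0 : (0 : ℝ) < Fintype.card V := by
    have : 0 < Fintype.card V := by omega
    exact_mod_cast this
  have hlog2 : (1 : ℝ) / 2 ≤ Real.log (Fintype.card V) := by
    have h3 : Real.log 2 ≤ Real.log (Fintype.card V) :=
      Real.log_le_log (by norm_num) (by exact_mod_cast hn2)
    have := Real.log_two_gt_d9
    linarith
  have hΔκ : (Δ : ℝ) ≤ 2 * (κ * d) := by
    have h1 : (Δ : ℝ) * (1 / 2) ≤ Δ * Real.log (Fintype.card V) :=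
      mul_le_mul_of_nonneg_left hlog2 (by linarith)
    linarith
  have hlog1 : Real.log (Fintype.card V) ≤ κ * d := by
    have h1 : 1 * Real.log (Fintype.card V) ≤ Δ * Real.log (Fintype.card V) :=
      mul_le_mul_of_nonneg_right hΔ' (by linarith)
    linarith
  have hnd : γ0 * d ≤ Fintype.card V := by
    have h1 : sd H0 ≤ Fintype.card V * Fintype.card V := by
      unfold sd
      calc ∑ v : V, ((nb H0 v).card : ℝ) ≤ ∑ v : V, (Fintype.card V : ℝ) := by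
            refine Finset.sum_le_sum (fun v _ => ?_)
            exact_mod_cast Finset.card_le_univ _
        _ = Fintype.card V * Fintype.card V := by
            rw [Finset.sum_const, nsmul_eq_mul, Finset.card_univ]
    rw [hsd] at h1
    have h2 : (Fintype.card V : ℝ) * (γ0 * d) ≤ Fintype.card V * Fintype.card V := by linarith
    exact le_of_mul_le_mul_left h2 hn0
  let D : DP := { d := d, Δ := Δ, m := m, l := l, n := Fintype.card V, g := g, ζ := ζ, z := z,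
                  e := ζ * g ^ 6 / (1000 * Δ), ε := ε0, α := α, r := r, k := 3 / 2 }
  have hok : D.Ok := by
    refine ⟨hd1, hΔ, hm, h2m, hl, ?_, hg, hg1.le, hζ0, ?_, ?_, ?_, ?_, ?_, hε00.le, le_rfl,
      hαpos.le, hαz⟩
    · change 1 ≤ Fintype.card V
      omega
    · change ζ ≤ z
      linarith
    · change z ≤ 1
      linarith
    · change 0 < ζ * g ^ 6 / (1000 * Δ)
      positivity
    · change ζ * g ^ 6 / (1000 * Δ) * Δ ≤ ζ * g ^ 6 / 1000
      refine le_of_eq ?_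
      field_simp
    · change (Δ : ℝ) ≤ ζ * g ^ 6 * d / 1000
      have h1 : α * (ζ * g ^ 6) ≤ 1 * (ζ * g ^ 6) :=
        mul_le_mul_of_nonneg_right (by linarith) (by positivity)
      have h2 : 0 < ζ * g ^ 6 := by positivity
      have h3 : κ ≤ ζ * g ^ 6 / 2000 := by
        have h4 : α * ζ * g ^ 6 = α * (ζ * g ^ 6) := by ring
        rw [h4] at hκα
        linarith
      have h5 : κ * d ≤ ζ * g ^ 6 / 2000 * d := mul_le_mul_of_nonneg_right h3 hd0.le
      linarith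
  have hctx : Ctx D T lw H0 A Bs γ0 (α / 40) ε1 N :=
    { ok := hok, tree := hT, cU := hU, degT := hdegT, lwle := hlw, lwsum := hlsum, cV := rfl,
      two := hn2, N_le := hN, sum := hsd, γ_lo := hγlo, γ_hi := hγhi, g_le := hgN,
      deg_le := hdeg0, deg := hdev, cod := hcod, bs := hBs, r_nonneg := hr0, r_le := hr1,
      acod := hacod, k_eq := rfl, ζ_eq := rfl, δ_eq := rfl,
      log_le := log_num hαpos hζ0 hg hΔ hn2 hκα hlog, ε1_pos := hε10, ε1_le := hε1g,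
      α_le := hαα0.trans hα0le, n_big := n_big hg hn2 hκg hlog1 hγlo hnd }
  have hStc : Stc V D T lw ε1 := by
    intro H γ As Ts h1 h2 h3 h4 h5 h6 h7 h8 h9 h10
    refine hS0 U V T lw m Δ d l H γ As Ts hT hU hm hmd hΔ hdegT hlw hlsum hl hn2
      (hlog.trans (mul_le_mul_of_nonneg_right hκκ0 hd0.le)) h1 h2 h3 (fun v => ?_)
      (fun u v huv => ?_) h6 h7 h8 h9 h10
    · exact (mul_le_mul_of_nonneg_right (by linarith) hd0.le).trans (h4 v)
    · exact (h5 u v huv).trans (mul_le_mul_of_nonneg_right (by linarith) hd0.le)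
  have hne : Nonempty V := Fintype.card_pos_iff.mp (by omega)
  obtain ⟨f, hf⟩ := hctx.run hStc hOne hne N le_rfl
  refine ⟨f, hctx.final hf ε (by linarith) ?_ ?_ ?_⟩
  · change 8 * z ≤ ε
    linarith
  · change α ≤ ε / 2
    linarith
  · change α ≤ g
    linarith

end Pool.Agent.Lib.GHE
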