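import Mathlib
import Pool.Agent.Lib.MP_df0165_co.Ex.Stmts

set_option autoImplicit false
set_option linter.unusedSectionVars false

/-!
# Exact Graham-Haggkvist for expander hosts: generator of the group `GA`
-/

namespace Pool.Agent.Lib.GHE

open Finset Classical Pool.Agent.Lib.GHA

/-- (S1) generator of the group `GA`. -/
theorem stGA : StGA := by
  intro U V _ _ P T H B X w p l D ψ τ hP hI hav
  obtain ⟨hw, hp, -, -⟩ := hI.grow
  simp only at hw hp
  have hτ : τ w = 0 := hI.zero w hw
  unfold GA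
  refine ((GenA.Sup.sum _ fun A _ => ?_).add (GenA.Sup.sum _ fun t _ =>
    GenA.Sup.sum _ fun q _ => ?_)).add (GenA.Sup.sum _ fun q _ => ?_)
  · exact GenA.At_sup P H B hP hw hp hτ hav (Or.inr rfl) (fun y hy => (Finset.mem_sdiff.mp hy).2)
  · exact GenA.At_sup P H B hP hw hp hτ hav (Or.inl rfl) (fun y hy => (Finset.mem_sdiff.mp hy).2)
  · exact GenA.At_sup P H B hP hw hp hτ hav (Or.inl rfl) (fun y hy => (Finset.mem_sdiff.mp hy).2)

end Pool.Agent.Lib.GHE
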