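import Mathlib
import Pool.Agent.Lib.MP_df0165_co.Ex.Stmts

set_option autoImplicit false
set_option linter.unusedSectionVars false

/-!
# Exact Graham-Haggkvist for expander hosts: copies avoiding a vertex (S11)
-/

namespace Pool.Agent.Lib.GHE

open Finset Classical Pool.Agent.Lib.GHA

namespace Iso

variable {U V : Type} [Fintype U] [Fintype V]

lemma rr_iso_right (H : SimpleGraph V) (v x : V) : rr (iso H v) x v = 0 := by
  unfold rr
  rw [if_neg]
  intro h
  exact h.2.2 rfl

lemma rr_iso (H : SimpleGraph V) {v x y : V} (hx : x ≠ v) (hy : y ≠ v) :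
    rr (iso H v) x y = rr H x y := by
  unfold rr
  have : (iso H v).Adj x y ↔ H.Adj x y := ⟨fun h => h.1, fun h => ⟨h, hx, hy⟩⟩
  simp only [this]

/-- Every new vertex is the first entry of a step. -/
lemma grow_mem {T : SimpleGraph U} : ∀ (l : List (U × U)) (D D' : Finset U),
    Grow T D l D' → ∀ u ∈ D', u ∉ D → ∃ s ∈ l, s.1 = u := by
  intro l
  induction l with
  | nil =>
    intro D D' h u hu hu'
    have h1 : D = D' := h
    exact absurd (h1 ▸ hu) hu'
  | cons s l ih =>
    intro D D' h u hu hu'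
    obtain ⟨-, -, -, h4⟩ := h
    by_cases hs : s.1 = u
    · exact ⟨s, List.mem_cons_self, hs⟩
    · obtain ⟨s', h1, h2⟩ := ih (insert s.1 D) D' h4 u hu (by
        rw [Finset.mem_insert, not_or]
        exact ⟨fun h => hs h.symm, hu'⟩)
      exact ⟨s', List.mem_cons_of_mem _ h1, h2⟩

lemma prr_zero {H : SimpleGraph V} {v : V} {φ : U → V} {l : List (U × U)} {s : U × U}
    (hs : s ∈ l) (hv : φ s.1 = v) : prr (iso H v) φ l = 0 := by
  unfold prr
  rw [List.prod_eq_zero_iff, List.mem_map]
  exact ⟨s, hs, by rw [hv, rr_iso_right]⟩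

lemma prr_eq {H : SimpleGraph V} {v : V} {φ : U → V} (hv : ∀ u, φ u ≠ v) (l : List (U × U)) :
    prr (iso H v) φ l = prr H φ l := by
  unfold prr
  congr 1
  refine List.map_congr_left (fun s _ => ?_)
  exact rr_iso H (hv _) (hv _)

lemma LI_zero : ∀ (l : List U) (τ : U → ℝ), LI l (fun _ => (0 : ℝ)) τ = 0 := by
  intro l
  induction l with
  | nil => intro τ; rfl
  | cons p l ih =>
    intro τ
    show ∫ t in (0 : ℝ)..1, LI l (fun _ => (0 : ℝ)) (bump τ p t) = 0
    simp only [ih]
    simp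

lemma CC_eq {T : SimpleGraph U} {H : SimpleGraph V} {v : V} {φ : U → V} (hv : ∀ u, φ u ≠ v)
    (c : ℝ) (E D : Finset U) (τ : U → ℝ) : CC T (iso H v) c E D φ τ = CC T H c E D φ τ := by
  have h : ∀ w, Exn T (iso H v) D φ τ w = Exn T H D φ τ w := by
    intro w
    unfold Exn
    refine Finset.sum_congr rfl (fun u _ => ?_)
    rw [rr_iso H (hv _) (hv _)]
  unfold CC
  simp only [h]

lemma PP_eq {H : SimpleGraph V} {v : V} {φ : U → V} (hv : ∀ u, φ u ≠ v) (X : TD V)
    (hX : X.Av = nb H v) (τ : U → ℝ) :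
    PP (iso H v) univ φ τ * xi X φ τ = PP H univ φ τ := by
  have hmem : v ∈ (univ.image φ)ᶜ := by
    rw [Finset.mem_compl, Finset.mem_image]
    rintro ⟨u, -, h⟩
    exact hv u h
  have h1 : av (iso H v) univ φ τ v = 1 := by
    unfold av Ex
    rw [Finset.sum_eq_zero, sub_zero]
    intro u _
    rw [rr_iso_right, mul_zero]
  have h2 : av H univ φ τ v = 1 - exs univ φ τ X.Av := by
    unfold av Ex exs
    congr 1
    refine Finset.sum_congr rfl (fun u _ => ?_)
    rw [hX]
    unfold rr nb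
    simp only [Finset.mem_filter, Finset.mem_univ, true_and]
    by_cases h : H.Adj (φ u) v
    · rw [if_pos h, if_pos h.symm, mul_one]
    · rw [if_neg h, if_neg (fun h' => h h'.symm), mul_zero]
  unfold PP
  rw [← Finset.mul_prod_erase _ _ hmem, ← Finset.mul_prod_erase _ _ hmem, h1, h2]
  have h3 : ∏ x ∈ (univ.image φ)ᶜ.erase v, max 0 (av (iso H v) univ φ τ x)
      = ∏ x ∈ (univ.image φ)ᶜ.erase v, max 0 (av H univ φ τ x) := by
    refine Finset.prod_congr rfl (fun x hx => ?_)
    have hxv : x ≠ v := Finset.ne_of_mem_erase hx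
    have : av (iso H v) univ φ τ x = av H univ φ τ x := by
      unfold av Ex
      congr 1
      refine Finset.sum_congr rfl (fun u _ => ?_)
      rw [rr_iso H (hv _) hxv]
    rw [this]
  rw [h3, max_eq_right (zero_le_one : (0 : ℝ) ≤ 1), one_mul]
  unfold xi
  ring

end Iso

open Iso in
theorem stIso : StIso := by
  intro U V _ _ Q T lw H X v0 v a b l z y hX hab hg hz hy
  unfold gm
  refine Finset.sum_congr rfl (fun φ hφ => ?_)
  unfold GHA.Ext at hφ
  rw [Finset.mem_filter] at hφ
  obtain ⟨-, -, h2, -⟩ := hφ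
  have hne : b ≠ a := fun h => T.ne_of_adj hab h.symm
  have hφa : φ a = z := by
    rw [h2 a (by simp)]
    simp [rt]
  have hφb : φ b = y := by
    rw [h2 b (by simp)]
    simp [rt, hne]
  by_cases hv : v ∈ univ.image φ
  · obtain ⟨u, -, hu⟩ := Finset.mem_image.1 hv
    have hu' : u ∉ ({a, b} : Finset U) := by
      rw [Finset.mem_insert, Finset.mem_singleton, not_or]
      constructor
      · rintro rfl
        exact hz (by rw [← hu, hφa])
      · rintro rfl
        exact hy (by rw [← hu, hφb])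
    obtain ⟨s, hs, hsu⟩ := grow_mem l _ _ hg u (Finset.mem_univ _) hu'
    rw [prr_zero hs (by rw [hsu, hu]), zero_mul]
    have h0 : (fun τ : U → ℝ => FF T H Q.P.c ∅ univ φ τ *
        (gi Q lw X φ * if v ∈ univ.image φ then 0 else 1)) = fun _ => (0 : ℝ) := by
      funext τ
      rw [if_pos hv, mul_zero, mul_zero]
    beta_reduce
    rw [h0, LI_zero, mul_zero]
  · have hv' : ∀ u, φ u ≠ v := fun u h => hv (Finset.mem_image.2 ⟨u, Finset.mem_univ _, h⟩)
    rw [prr_eq hv' l]
    have h0 : F2 Q T lw (iso H v) X φ = (fun τ : U → ℝ => FF T H Q.P.c ∅ univ φ τ *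
        (gi Q lw X φ * if v ∈ univ.image φ then 0 else 1)) := by
      funext τ
      rw [if_neg hv, mul_one]
      unfold F2 FF
      rw [CC_eq hv', ← PP_eq hv' X hX τ]
      ring
    beta_reduce
    rw [h0]

end Pool.Agent.Lib.GHE
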